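/-
Project TC (MP_d9e400_an): bounded invariant components on which f is not injective.
Definitions only.
-/
import Mathlib
import Pool.Agent.TB.Defs

set_option autoImplicit false

open Set Filter Topology Metric

namespace Pool.Agent.TC

open Pool.Agent.TB

/-- `f` is entire, `U` is a bounded domain with `f(U) ⊆ U`, `z₀ ∈ U`, `f` is not injective on `U`,
and the iterates of `f` are unbounded near every frontier point of `U`. -/
structure NBasin (f : ℂ → ℂ) (U : Set ℂ) (z₀ : ℂ) : Prop where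
  hf : Differentiable ℂ f
  isOpen : IsOpen U
  conn : IsConnected U
  bdd : Bornology.IsBounded U
  maps : Set.MapsTo f U U
  mem : z₀ ∈ U
  ninj : ¬ Set.InjOn f U
  esc : ∀ x ∈ frontier U, ∀ r : ℝ, 0 < r → ∀ M : ℝ, ∃ n : ℕ, ∃ y ∈ Metric.ball x r, M < ‖f^[n] y‖

/-- Blaschke products of degree at least two -/
structure BlN (d : ℕ) (c : ℂ) (a : Fin d → ℂ) : Prop where
  hd : 2 ≤ d
  hc : ‖c‖ = 1
  ha : ∀ i, ‖a i‖ < 1

/-- the Blaschke model of `f` on `U` together with a fixed point of the model on the circle whose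
radius lands at a point accessible from outside and whose backward orbit is dense -/
structure Good (f : ℂ → ℂ) (U : Set ℂ) (φ : ℂ → ℂ) {d : ℕ} (c : ℂ) (a : Fin d → ℂ) : Prop where
  bl : BlN d c a
  conj : ∀ w ∈ Dk, φ (Bl c a w) = f (φ w)
  base : ∃ ζ₀ x₀ : ℂ, ‖ζ₀‖ = 1 ∧ Bl c a ζ₀ = ζ₀ ∧ RadLim φ ζ₀ x₀ ∧ Acc (Vset U) x₀ ∧
    ∀ α β : ℝ, α < β → ∃ θ ∈ Ioo α β, ∃ n : ℕ, (Bl c a)^[n] (ee θ) = ζ₀
  cover : ∀ α β : ℝ, α < β → ∃ n : ℕ, ∀ ζ : ℂ, ‖ζ‖ = 1 → ∃ θ ∈ Ioo α β, (Bl c a)^[n] (ee θ) = ζ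

end Pool.Agent.TC
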