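/-
Project TC (MP_d9e400_an). Module Circ.
Behaviour of Blaschke products at the circle (no fixed point in the disc assumed).
-/
import Mathlib
import Pool.Agent.TB.Defs
import Pool.Agent.TB.CircleA
import Pool.Agent.TC.Defs
import Pool.Agent.TB.EE

set_option autoImplicit false

open Set Filter Topology Metric

namespace Pool.Agent.TC

open Pool.Agent.TB

variable {d : ℕ} {c : ℂ} {a : Fin d → ℂ}

private theorem Circ_denom {a ζ : ℂ} (ha : ‖a‖ < 1) (hζ : ‖ζ‖ = 1) :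
    1 - (starRingEnd ℂ) a * ζ ≠ 0 := by
  intro h
  have h1 : (starRingEnd ℂ) a * ζ = 1 := (sub_eq_zero.mp h).symm
  have h2 : ‖(starRingEnd ℂ) a * ζ‖ = 1 := by rw [h1]; simp
  rw [norm_mul, RCLike.norm_conj, hζ, mul_one] at h2
  linarith

private theorem Circ_num {a ζ : ℂ} (ha : ‖a‖ < 1) (hζ : ‖ζ‖ = 1) : ζ - a ≠ 0 := by
  intro h
  rw [sub_eq_zero] at h
  rw [h] at hζ
  linarith

/-- the real number `(1 - |a|²)/|ζ - a|²` -/
private noncomputable def Circ_k (a ζ : ℂ) : ℝ := (1 - ‖a‖ ^ 2) / ‖ζ - a‖ ^ 2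

private theorem Circ_k_pos {a ζ : ℂ} (ha : ‖a‖ < 1) (hζ : ‖ζ‖ = 1) : 0 < Circ_k a ζ := by
  unfold Circ_k
  have h1 : 0 < ‖ζ - a‖ := norm_pos_iff.mpr (Circ_num ha hζ)
  have h2 := norm_nonneg a
  apply div_pos
  · nlinarith
  · positivity

private theorem Circ_factor {a ζ : ℂ} (ha : ‖a‖ < 1) (hζ : ‖ζ‖ = 1) :
    ∃ b' : ℂ, HasDerivAt (fun w => (w - a) / (1 - (starRingEnd ℂ) a * w)) b' ζ ∧
      ζ * b' = (Circ_k a ζ : ℂ) * ((ζ - a) / (1 - (starRingEnd ℂ) a * ζ)) := by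
  have hd := Circ_denom ha hζ
  have hn := Circ_num ha hζ
  have h1 : HasDerivAt (fun w : ℂ => w - a) 1 ζ := (hasDerivAt_id ζ).sub_const a
  have h2 : HasDerivAt (fun w : ℂ => 1 - (starRingEnd ℂ) a * w) (-((starRingEnd ℂ) a * 1)) ζ :=
    ((hasDerivAt_id ζ).const_mul _).const_sub 1
  refine ⟨_, h1.div h2 hd, ?_⟩
  unfold Circ_k
  have hn2 : ((‖ζ - a‖ : ℂ)) ^ 2 = (ζ - a) * (starRingEnd ℂ) (ζ - a) := by
    rw [Complex.mul_conj, Complex.normSq_eq_norm_sq]
    push_cast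
    ring
  have ha2 : ((‖a‖ : ℂ)) ^ 2 = a * (starRingEnd ℂ) a := by
    rw [Complex.mul_conj, Complex.normSq_eq_norm_sq]
    push_cast
    ring
  have hz2 : ζ * (starRingEnd ℂ) ζ = 1 := by
    rw [Complex.mul_conj, Complex.normSq_eq_norm_sq, hζ]
    simp
  have hcn : (starRingEnd ℂ) (ζ - a) ≠ 0 := by
    intro h
    apply hn
    have := congrArg (starRingEnd ℂ) h
    simpa using this
  have key : ζ * (starRingEnd ℂ) (ζ - a) = 1 - (starRingEnd ℂ) a * ζ := by
    rw [map_sub, mul_sub, hz2]; ring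
  push_cast
  rw [hn2, ha2]
  have e1 : (1 * (1 - (starRingEnd ℂ) a * ζ) - (ζ - a) * -((starRingEnd ℂ) a * 1)) =
      1 - a * (starRingEnd ℂ) a := by ring
  rw [e1]
  rw [← key] at hd ⊢
  have hz0 : ζ ≠ 0 := by
    intro h; rw [h] at hζ; simp at hζ
  field_simp

theorem Bl_mapsTo (h : BlN d c a) : MapsTo (Bl c a) Dk Dk := by
  intro w hw
  have hw' : ‖w‖ < 1 := by simpa using hw
  obtain ⟨i0⟩ : Nonempty (Fin d) := ⟨⟨0, by have := h.hd; omega⟩⟩
  have h1 : ‖Bl c a w‖ < 1 := by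
    unfold Bl
    rw [norm_mul, h.hc, one_mul, norm_prod, ← Finset.mul_prod_erase _ _ (Finset.mem_univ i0)]
    have h2 : ∏ x ∈ Finset.univ.erase i0, ‖(w - a x) / (1 - (starRingEnd ℂ) (a x) * w)‖ ≤ 1 :=
      Finset.prod_le_one (fun _ _ => norm_nonneg _) fun i _ => (CircleA_fac_lt (h.ha i) hw').le
    calc _ ≤ ‖(w - a i0) / (1 - (starRingEnd ℂ) (a i0) * w)‖ * 1 :=
          mul_le_mul_of_nonneg_left h2 (norm_nonneg _)
      _ < 1 := by rw [mul_one]; exact CircleA_fac_lt (h.ha i0) hw'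
  simpa using h1

theorem norm_Bl (h : BlN d c a) {ζ : ℂ} (hζ : ‖ζ‖ = 1) : ‖Bl c a ζ‖ = 1 := by
  unfold Bl
  rw [norm_mul, h.hc, one_mul, norm_prod]
  exact Finset.prod_eq_one fun i _ => CircleA_fac_eq (h.ha i) hζ

/-- `Bl c a` is holomorphic near the closed disc -/
theorem Bl_analytic (h : BlN d c a) :
    ∃ R : ℝ, 1 < R ∧ DifferentiableOn ℂ (Bl c a) (Metric.ball 0 R) := by
  have hev : ∀ᶠ R : ℝ in 𝓝[>] (1 : ℝ), ∀ i, R * ‖a i‖ < 1 := by
    rw [eventually_all]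
    intro i
    have h1 : Tendsto (fun R : ℝ => R * ‖a i‖) (𝓝 1) (𝓝 (1 * ‖a i‖)) :=
      tendsto_id.mul_const _
    have h2 : 1 * ‖a i‖ < 1 := by rw [one_mul]; exact h.ha i
    exact (h1.eventually (gt_mem_nhds h2)).filter_mono nhdsWithin_le_nhds
  obtain ⟨R, hR, hR1⟩ := (hev.and self_mem_nhdsWithin).exists
  refine ⟨R, hR1, ?_⟩
  unfold Bl
  apply DifferentiableOn.const_mul
  apply DifferentiableOn.fun_finsetProd
  intro i _
  apply DifferentiableOn.div
  · exact (differentiable_id.sub_const (a i)).differentiableOn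
  · exact ((differentiable_id.const_mul _).const_sub 1).differentiableOn
  · intro w hw hcon
    have h1 : (starRingEnd ℂ) (a i) * w = 1 := (sub_eq_zero.mp hcon).symm
    have h2 : ‖(starRingEnd ℂ) (a i) * w‖ = 1 := by rw [h1]; simp
    rw [norm_mul, RCLike.norm_conj] at h2
    rw [Metric.mem_ball, dist_zero_right] at hw
    have h3 := hR i
    have h4 := norm_nonneg (a i)
    nlinarith

/-- the logarithmic derivative at a point of the circle is real and positive -/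
theorem log_deriv (h : BlN d c a) {ζ : ℂ} (hζ : ‖ζ‖ = 1) :
    ∃ μ : ℝ, 0 < μ ∧ ζ * deriv (Bl c a) ζ = μ * Bl c a ζ := by
  have hf := fun i => Circ_factor (h.ha i) hζ
  choose b' hb' hk using hf
  refine ⟨∑ i, Circ_k (a i) ζ, ?_, ?_⟩
  · have hd := h.hd
    haveI : Nonempty (Fin d) := ⟨⟨0, by omega⟩⟩
    exact Finset.sum_pos (fun i _ => Circ_k_pos (h.ha i) hζ) Finset.univ_nonempty
  · have hD : HasDerivAt (Bl c a)
        (c * ∑ i, (∏ j ∈ Finset.univ.erase i, (ζ - a j) / (1 - (starRingEnd ℂ) (a j) * ζ)) •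
          b' i) ζ := by
      unfold Bl
      apply HasDerivAt.const_mul
      exact HasDerivAt.fun_finsetProd (fun i _ => hb' i)
    rw [hD.deriv]
    unfold Bl
    push_cast
    rw [mul_left_comm, mul_left_comm ((∑ i, (Circ_k (a i) ζ : ℂ))) c, Finset.mul_sum,
      Finset.sum_mul]
    congr 1
    apply Finset.sum_congr rfl
    intro i _
    rw [smul_eq_mul, mul_left_comm, hk i, ← Finset.mul_prod_erase _ _ (Finset.mem_univ i)]
    ring

theorem deriv_Bl_ne_zero (h : BlN d c a) {ζ : ℂ} (hζ : ‖ζ‖ = 1) : deriv (Bl c a) ζ ≠ 0 := by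
  obtain ⟨μ, hμ, h1⟩ := log_deriv h hζ
  intro h2
  rw [h2, mul_zero] at h1
  have h3 : Bl c a ζ ≠ 0 := by
    unfold Bl
    apply mul_ne_zero
    · intro h4
      have := h.hc
      rw [h4] at this
      simp at this
    · rw [Finset.prod_ne_zero_iff]
      intro i _
      exact div_ne_zero (Circ_num (h.ha i) hζ) (Circ_denom (h.ha i) hζ)
  have h4 : (μ : ℂ) ≠ 0 := by
    rw [Ne, Complex.ofReal_eq_zero]
    linarith
  exact mul_ne_zero h4 h3 h1.symm

/-- first order behaviour along radii -/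
theorem radial (h : BlN d c a) {ζ : ℂ} (hζ : ‖ζ‖ = 1) :
    ∃ μ C r₁ : ℝ, 0 < μ ∧ ζ * deriv (Bl c a) ζ = μ * Bl c a ζ ∧ 0 ≤ r₁ ∧ r₁ < 1 ∧
      ∀ r : ℝ, r₁ ≤ r → r < 1 → 0 ≤ 1 - μ * (1 - r) ∧
      ‖Bl c a ((r : ℂ) * ζ) - ((1 - μ * (1 - r) : ℝ) : ℂ) * Bl c a ζ‖ ≤ C * (1 - r) ^ 2 := by
  obtain ⟨μ, hμ, hlog⟩ := log_deriv h hζ
  obtain ⟨R, hR, hdiff⟩ := Bl_analytic h
  have hζR : Metric.ball (0 : ℂ) R ∈ 𝓝 ζ := by
    apply Metric.isOpen_ball.mem_nhds
    rw [Metric.mem_ball, dist_zero_right, hζ]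
    exact hR
  set g := dslope (Bl c a) ζ with hg
  have hgd : DifferentiableOn ℂ g (Metric.ball 0 R) :=
    (Complex.differentiableOn_dslope hζR).mpr hdiff
  set k := dslope g ζ with hk
  have hkd : DifferentiableOn ℂ k (Metric.ball 0 R) :=
    (Complex.differentiableOn_dslope hζR).mpr hgd
  have hkc : ContinuousAt k ζ := (hkd.differentiableAt hζR).continuousAt
  have hev : ∀ᶠ w in 𝓝 ζ, ‖k w‖ < ‖k ζ‖ + 1 :=
    hkc.norm.eventually (gt_mem_nhds (by linarith))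
  obtain ⟨δ, hδ, hball⟩ := Metric.eventually_nhds_iff.mp hev
  refine ⟨μ, ‖k ζ‖ + 1, max 0 (max (1 - δ / 2) (1 - 1 / μ)), hμ, hlog, le_max_left _ _, ?_, ?_⟩
  · apply max_lt one_pos
    apply max_lt
    · linarith
    · have : 0 < 1 / μ := by positivity
      linarith
  · intro r hr hr1
    have h1 : 1 - δ / 2 ≤ r := le_trans (le_trans (le_max_left _ _) (le_max_right _ _)) hr
    have h2 : 1 - 1 / μ ≤ r := le_trans (le_trans (le_max_right _ _) (le_max_right _ _)) hr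
    constructor
    · have h3 : 1 - r ≤ 1 / μ := by linarith
      have h4 : μ * (1 - r) ≤ μ * (1 / μ) := by
        apply mul_le_mul_of_nonneg_left h3; linarith
      rw [mul_one_div_cancel (by linarith)] at h4
      linarith
    · set w : ℂ := (r : ℂ) * ζ with hw
      have hwz : w - ζ = ((r - 1 : ℝ) : ℂ) * ζ := by rw [hw]; push_cast; ring
      have hnorm : ‖w - ζ‖ = 1 - r := by
        rw [hwz, norm_mul, hζ, mul_one, Complex.norm_real, Real.norm_eq_abs, abs_of_nonpos (by linarith)]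
        ring
      have e1 : (w - ζ) * g w = Bl c a w - Bl c a ζ := by
        have := sub_smul_dslope (Bl c a) ζ w
        rw [smul_eq_mul] at this
        exact this
      have e2 : (w - ζ) * k w = g w - g ζ := by
        have := sub_smul_dslope g ζ w
        rw [smul_eq_mul] at this
        exact this
      have e3 : g ζ = deriv (Bl c a) ζ := dslope_same _ _
      have e4 : Bl c a w - ((1 - μ * (1 - r) : ℝ) : ℂ) * Bl c a ζ = (w - ζ) ^ 2 * k w := by
        have e5 : (w - ζ) ^ 2 * k w = (w - ζ) * ((w - ζ) * k w) := by ring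
        rw [e5, e2, mul_sub (w - ζ) (g w) (g ζ), e1, e3, hwz]
        have e6 : ((r - 1 : ℝ) : ℂ) * ζ * deriv (Bl c a) ζ =
            ((r - 1 : ℝ) : ℂ) * (ζ * deriv (Bl c a) ζ) := by ring
        rw [e6, hlog]
        push_cast
        ring
      rw [e4, norm_mul, norm_pow, hnorm, mul_comm]
      have h5 : ‖k w‖ < ‖k ζ‖ + 1 := by
        apply hball
        rw [dist_eq_norm, hnorm]
        linarith
      gcongr

end Pool.Agent.TC
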