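/-
Project TC (MP_d9e400_an). Module Top1 (copy of the TB module for domains on which f is not injective).
Elementary facts on a basin.

PROOFS. maps_closure: MapsTo.closure. maps_frontier: let x ∈ frontier U, so x ∈ closure U, x ∉ U (U open)
and f x ∈ closure U. If f x ∈ U then by continuity f maps some ball x r into U, hence f^[n+1] y = f^[n] (f y)
∈ U is bounded by a bound of U for all y ∈ ball x r and all n, and f^[0] y = y is bounded by ‖x‖ + r:
this contradicts esc. iter_bdd: closure U is invariant and bounded.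
iter_bdd_inside: Complex.norm_le_of_forall_mem_frontier_norm_le for f^[n] (Differentiable.iterate).
not_bdd_nhds: a point x ∈ Y ∩ frontier U, ball x r ⊆ Y contradicts esc.
finite_fixed: the set is a closed subset of the compact set closure U; were it infinite, it had an
accumulation point, so f z = z for all z by the identity theorem (f - id analytic on ℂ, zeros
frequently in a punctured neighbourhood: AnalyticOnNhd.eqOn_of_preconnected_of_frequently_eq), then
deriv f z₀ = 1, contradiction with attr. finite_fibre: in the same way f would be constant = x on ℂ,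
so ‖f^[n] y‖ ≤ max ‖y‖ ‖x‖ for all y, contradicting esc at a point of frontier_nonempty.
not_eventually_const: the same. frontier_nonempty: U ≠ ∅, U ≠ univ (bounded) and ℂ connected
(isClopen_iff_frontier_eq_empty, isClopen_iff).
-/
import Mathlib
import Pool.Agent.TB.Defs
import Pool.Agent.TC.Defs

set_option autoImplicit false

open Set Filter Topology Metric

namespace Pool.Agent.TC

open Pool.Agent.TB

variable {f : ℂ → ℂ} {U : Set ℂ} {z₀ : ℂ}

theorem maps_closure (B : NBasin f U z₀) : Set.MapsTo f (closure U) (closure U) :=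
  B.maps.closure B.hf.continuous

theorem maps_frontier (B : NBasin f U z₀) : Set.MapsTo f (frontier U) (frontier U) := by
  intro x hx
  rw [B.isOpen.frontier_eq] at hx ⊢
  refine ⟨maps_closure B hx.1, fun hfx => ?_⟩
  have hx' : x ∈ frontier U := by rw [B.isOpen.frontier_eq]; exact hx
  have hnh : f ⁻¹' U ∈ 𝓝 x := B.hf.continuous.continuousAt (B.isOpen.mem_nhds hfx)
  obtain ⟨r, hr, hball⟩ := Metric.mem_nhds_iff.1 hnh
  obtain ⟨M, hM⟩ := B.bdd.exists_norm_le
  obtain ⟨n, y, hy, hn⟩ := B.esc x hx' r hr (max M (‖x‖ + r))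
  rcases n with _ | n
  · rw [Function.iterate_zero, id] at hn
    rw [Metric.mem_ball, dist_eq_norm] at hy
    have h1 : ‖y‖ ≤ ‖x‖ + ‖y - x‖ := by
      have := norm_add_le x (y - x)
      simpa using this
    have h2 := le_max_right M (‖x‖ + r)
    linarith
  · rw [Function.iterate_succ_apply] at hn
    have h1 : f y ∈ U := hball hy
    have h2 := hM _ (B.maps.iterate n h1)
    have h3 := le_max_left M (‖x‖ + r)
    linarith

theorem iter_bdd (B : NBasin f U z₀) : ∃ M : ℝ, ∀ n : ℕ, ∀ z ∈ closure U, ‖f^[n] z‖ ≤ M := by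
  obtain ⟨M, hM⟩ := B.bdd.closure.exists_norm_le
  exact ⟨M, fun n z hz => hM _ ((maps_closure B).iterate n hz)⟩

/-- maximum principle: iterates bounded on the frontier of a bounded open set are bounded inside -/
theorem iter_bdd_inside (B : NBasin f U z₀) {M : ℝ} {Y : Set ℂ} (hYo : IsOpen Y)
    (hYb : Bornology.IsBounded Y) (hY : ∀ n : ℕ, ∀ z ∈ frontier Y, ‖f^[n] z‖ ≤ M) :
    ∀ n : ℕ, ∀ z ∈ Y, ‖f^[n] z‖ ≤ M := by
  intro n z hz
  have hd : Differentiable ℂ (f^[n]) := B.hf.iterate n
  exact Complex.norm_le_of_forall_mem_frontier_norm_le hYb hd.diffContOnCl (hY n)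
    (subset_closure hz)

/-- a frontier point of `U` has no neighbourhood on which all iterates are bounded -/
theorem not_bdd_nhds (B : NBasin f U z₀) {M : ℝ} {Y : Set ℂ} (hYo : IsOpen Y)
    (hY : ∀ n : ℕ, ∀ z ∈ Y, ‖f^[n] z‖ ≤ M) : Disjoint Y (frontier U) := by
  rw [Set.disjoint_left]
  intro x hx hxf
  obtain ⟨r, hr, hball⟩ := Metric.isOpen_iff.1 hYo x hx
  obtain ⟨n, y, hy, hn⟩ := B.esc x hxf r hr M
  exact absurd (hY n y (hball hy)) (not_le.2 hn)

theorem frontier_nonempty (B : NBasin f U z₀) : (frontier U).Nonempty := by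
  by_contra h
  rw [Set.not_nonempty_iff_eq_empty, ← isClopen_iff_frontier_eq_empty, isClopen_iff] at h
  rcases h with h | h
  · have := B.mem
    rw [h] at this
    exact this
  · have hb := B.bdd
    rw [h] at hb
    exact NormedSpace.unbounded_univ ℝ ℂ hb

private lemma Top1_const (B : NBasin f U z₀) (x : ℂ) (h : ∀ z, f z = x) : False := by
  obtain ⟨p, hp⟩ := frontier_nonempty B
  obtain ⟨n, y, hy, hn⟩ := B.esc p hp 1 one_pos (max (‖p‖ + 1) ‖x‖)
  rcases n with _ | n
  · rw [Function.iterate_zero, id] at hn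
    rw [Metric.mem_ball, dist_eq_norm] at hy
    have h1 : ‖y‖ ≤ ‖p‖ + ‖y - p‖ := by
      have := norm_add_le p (y - p)
      simpa using this
    have h2 := le_max_left (‖p‖ + 1) ‖x‖
    linarith
  · rw [Function.iterate_succ_apply', h] at hn
    have h3 := le_max_right (‖p‖ + 1) ‖x‖
    linarith

private lemma Top1_accum {S : Set ℂ} (hS : S.Infinite) {K : Set ℂ} (hK : IsCompact K)
    (hSK : S ⊆ K) : ∃ z ∈ K, ∃ᶠ w in 𝓝[≠] z, w ∈ S := by
  obtain ⟨z, hz, hacc⟩ := hS.exists_accPt_of_subset_isCompact hK hSK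
  exact ⟨z, hz, accPt_iff_frequently_nhdsNE.1 hacc⟩

private lemma Top1_ident {g : ℂ → ℂ} (hg : Differentiable ℂ g) {z : ℂ}
    (h : ∃ᶠ w in 𝓝[≠] z, g w = 0) : ∀ w, g w = 0 := by
  have ha : AnalyticOnNhd ℂ g Set.univ := fun w _ => hg.analyticAt w
  have := ha.eqOn_zero_of_preconnected_of_frequently_eq_zero isPreconnected_univ
    (Set.mem_univ z) h
  intro w
  exact this (Set.mem_univ w)

/-- `f` is not the identity near any point, so it has finitely many fixed points in bounded sets -/
theorem finite_fixed (B : NBasin f U z₀) : {z | z ∈ closure U ∧ f z = z}.Finite := by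
  by_contra hinf
  obtain ⟨z, _, hz⟩ := Top1_accum hinf B.bdd.isCompact_closure (fun z hz => hz.1)
  have hall := Top1_ident (g := fun w => f w - w) (B.hf.sub differentiable_id)
    (hz.mono fun w hw => sub_eq_zero.2 hw.2)
  have hf : f = id := by
    funext w
    exact sub_eq_zero.1 (hall w)
  have := B.ninj
  rw [hf] at this
  exact this Function.injective_id.injOn

theorem finite_fibre (B : NBasin f U z₀) (x : ℂ) : {z | z ∈ closure U ∧ f z = x}.Finite := by
  by_contra hinf
  obtain ⟨z, _, hz⟩ := Top1_accum hinf B.bdd.isCompact_closure (fun z hz => hz.1)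
  have hall := Top1_ident (g := fun w => f w - x) (B.hf.sub (differentiable_const x))
    (hz.mono fun w hw => sub_eq_zero.2 hw.2)
  exact Top1_const B x (fun w => sub_eq_zero.1 (hall w))

/-- `f` is not constant near any point -/
theorem not_eventually_const (B : NBasin f U z₀) (x : ℂ) : ¬ ∀ᶠ z in 𝓝 x, f z = f x := by
  intro h
  have h1 : ∀ᶠ z in 𝓝[≠] x, f z = f x := h.filter_mono nhdsWithin_le_nhds
  have hall := Top1_ident (g := fun w => f w - f x) (B.hf.sub (differentiable_const (f x)))
    (h1.frequently.mono fun w hw => sub_eq_zero.2 hw)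
  exact Top1_const B (f x) (fun w => sub_eq_zero.1 (hall w))

end Pool.Agent.TC
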