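import Mathlib
import Pool.Agent.TB.Defs
import Pool.Agent.TB.BlRepr
import Pool.Agent.TB.Mobius
import Pool.Agent.TB.ConfA
import Pool.Agent.TC.Defs
import Pool.Agent.TC.Top1

/-
Project TC (MP_d9e400_an). Module ModelN.
The Blaschke model of f on U (degree at least two because f is not injective).

PROOF. Copy the proof of Pool.Agent.TB.exists_model (file TB/Model.lean) for the existence of d, c, a (it uses only the frontier
behaviour, TC.Top1.maps_frontier). Degree: d = 0: Bl c a = c with ‖c‖ = 1, but Bl c a maps Dk into Dk (φ (Bl c a w) = f (φ w) ∈ U...; more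
precisely g = k ∘ f ∘ φ maps into Dk and g = Bl c a on Dk): contradiction. d = 1: Bl c a w = c · mob (a 0) w is injective on Dk, so
f = φ ∘ Bl c a ∘ φ⁻¹ is injective on U: contradiction to B.ninj. So 2 ≤ d.
-/

set_option autoImplicit false

open Set Filter Topology Metric

namespace Pool.Agent.TC

open Pool.Agent.TB

theorem exists_modelN {f : ℂ → ℂ} {U : Set ℂ} {z₀ : ℂ} (B : NBasin f U z₀) {φ : ℂ → ℂ}
    (hφ : Conf φ U) :
    ∃ (d : ℕ) (c : ℂ) (a : Fin d → ℂ), BlN d c a ∧ ∀ w ∈ Dk, φ (Bl c a w) = f (φ w) := by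
  obtain ⟨k, hkd, hkφ, hkm, hφk⟩ := conf_inverse hφ
  have hφU : MapsTo φ Dk U := hφ.bij.mapsTo
  have hfφ : ∀ w ∈ Dk, f (φ w) ∈ U := fun w hw => B.maps (hφU hw)
  set g : ℂ → ℂ := fun w => k (f (φ w)) with hg
  have hφg : ∀ w ∈ Dk, φ (g w) = f (φ w) := fun w hw => hφk _ (hfφ w hw)
  have hgm : MapsTo g Dk Dk := fun w hw => hkm (hfφ w hw)
  have hgd : DifferentiableOn ℂ g Dk := by
    apply hkd.comp (B.hf.differentiableOn.comp hφ.diff (mapsTo_univ _ _))
    intro w hw
    exact hfφ w hw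
  have hDk : IsOpen Dk := Metric.isOpen_ball
  have h0D : (0 : ℂ) ∈ Dk := Metric.mem_ball_self one_pos
  have hp : ∀ ε : ℝ, 0 < ε → ∃ ρ : ℝ, ρ < 1 ∧ ∀ w : ℂ, ρ < ‖w‖ → ‖w‖ < 1 → 1 - ε < ‖g w‖ := by
    intro ε hε
    by_contra hcon
    push Not at hcon
    have hw : ∀ n : ℕ, ∃ w : ℂ, 1 - 1 / ((n : ℝ) + 1) < ‖w‖ ∧ ‖w‖ < 1 ∧ ‖g w‖ ≤ 1 - ε := by
      intro n
      apply hcon
      have : 0 < 1 / ((n : ℝ) + 1) := by positivity
      linarith
    choose w hw1 hw2 hw3 using hw
    have hwD : ∀ n, w n ∈ Dk := by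
      intro n
      rw [Metric.mem_ball, dist_zero_right]
      exact hw2 n
    have hcpt : IsCompact (Metric.closedBall (0 : ℂ) (1 - ε) ×ˢ closure U) :=
      (isCompact_closedBall _ _).prod B.bdd.isCompact_closure
    have hmem : ∀ n, ((g (w n), φ (w n)) : ℂ × ℂ) ∈
        Metric.closedBall (0 : ℂ) (1 - ε) ×ˢ closure U := by
      intro n
      refine ⟨?_, subset_closure (hφU (hwD n))⟩
      rw [mem_closedBall_zero_iff]
      exact hw3 n
    obtain ⟨⟨v, y⟩, ⟨hv, hy⟩, ψ, hψ, hlim⟩ := hcpt.tendsto_subseq hmem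
    have hlim1 : Tendsto (fun n => g (w (ψ n))) atTop (𝓝 v) :=
      (continuous_fst.tendsto _).comp hlim
    have hlim2 : Tendsto (fun n => φ (w (ψ n))) atTop (𝓝 y) :=
      (continuous_snd.tendsto _).comp hlim
    have hvD : v ∈ Dk := by
      rw [Metric.mem_ball, dist_zero_right]
      rw [mem_closedBall_zero_iff] at hv
      linarith
    have hw1' : Tendsto (fun n => ‖w n‖) atTop (𝓝 1) := by
      have h1 : Tendsto (fun n : ℕ => 1 - 1 / ((n : ℝ) + 1)) atTop (𝓝 (1 - 0)) :=
        tendsto_const_nhds.sub tendsto_one_div_add_atTop_nhds_zero_nat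
      rw [sub_zero] at h1
      exact tendsto_of_tendsto_of_tendsto_of_le_of_le h1 tendsto_const_nhds
        (fun n => (hw1 n).le) (fun n => (hw2 n).le)
    have hyU : y ∉ U := by
      apply cluster_not_mem hφ (l := atTop) (u := fun n => w (ψ n))
      · exact Eventually.of_forall fun n => hwD _
      · exact hw1'.comp hψ.tendsto_atTop
      · exact hlim2
    have hyF : y ∈ frontier U := by
      rw [B.isOpen.frontier_eq]
      exact ⟨hy, hyU⟩
    have hfy := maps_frontier B hyF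
    rw [B.isOpen.frontier_eq] at hfy
    apply hfy.2
    have h1 : Tendsto (fun n => φ (g (w (ψ n)))) atTop (𝓝 (φ v)) := by
      have hc : ContinuousAt φ v :=
        (hφ.diff.differentiableAt (hDk.mem_nhds hvD)).continuousAt
      exact hc.tendsto.comp hlim1
    have h2 : Tendsto (fun n => f (φ (w (ψ n)))) atTop (𝓝 (f y)) :=
      (B.hf.continuous.tendsto y).comp hlim2
    have h3 : (fun n => φ (g (w (ψ n)))) = fun n => f (φ (w (ψ n))) := by
      funext n
      exact hφg _ (hwD _)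
    rw [h3] at h1
    rw [tendsto_nhds_unique h2 h1]
    exact hφU hvD
  obtain ⟨d, c, a, hc, ha, hgB⟩ := blaschke_repr hgd hgm hp
  have hφB : ∀ w ∈ Dk, φ (Bl c a w) = f (φ w) := by
    intro w hw
    rw [← hgB w hw]
    exact hφg w hw
  refine ⟨d, c, a, ⟨?_, hc, ha⟩, hφB⟩
  by_contra hlt
  push Not at hlt
  have hd : d = 0 ∨ d = 1 := by omega
  rcases hd with rfl | rfl
  · have h1 := hgm h0D
    rw [hgB 0 h0D, Metric.mem_ball, dist_zero_right] at h1
    unfold Bl at h1
    simp only [Finset.univ_eq_empty, Finset.prod_empty, mul_one] at h1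
    rw [hc] at h1
    exact lt_irrefl _ h1
  · have hc0 : c ≠ 0 := by
      intro h; rw [h] at hc; simp at hc
    have hBl : ∀ w, Bl c a w = c * mob (a 0) w := by
      intro w
      unfold Bl mob
      simp
    apply B.ninj
    intro z hz z' hz' hzz
    have e1 : Bl c a (k z) = Bl c a (k z') := by
      apply hφ.bij.injOn
      · have := hgm (hkm hz)
        rwa [hgB _ (hkm hz)] at this
      · have := hgm (hkm hz')
        rwa [hgB _ (hkm hz')] at this
      · rw [hφB _ (hkm hz), hφB _ (hkm hz'), hφk z hz, hφk z' hz', hzz]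
    rw [hBl, hBl] at e1
    have e2 := mul_left_cancel₀ hc0 e1
    have e3 := (mob_bijOn (ha 0)).injOn (hkm hz) (hkm hz') e2
    rw [← hφk z hz, ← hφk z' hz', e3]

end Pool.Agent.TC
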