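/-
Project TC (MP_d9e400_an). Module Top2 (copy of the TB module for domains on which f is not injective).
The unbounded complementary component.

Notation K = (Vset U)ᶜ, O = (closure U)ᶜ. z ∈ Vset U iff z ∈ O and its component in O is unbounded.
PROOFS. isOpen_V: components of the open set O are open and connectedComponentIn O y =
connectedComponentIn O z for y in the component of z, so the whole component of z ∈ V lies in V.
exists_large: closure U ⊆ closedBall 0 R; the set {R < ‖z‖} is connected, unbounded, inside O
(e.g. image of a connected set under (r,θ) ↦ r e^{iθ}).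
isConnected_V: nonempty by exists_large; for z, z' ∈ V both components are unbounded, so both contain
points of {R < ‖z‖} and hence coincide; V is equal to this component.
closure_subset_K: by definition. isCompact_K: closed and, by exists_large, bounded.
isConnected_K: isPreconnected_of_forall with the base point in closure U: a point z ∈ closure U lies in
the connected set closure U; a point z ∈ K outside closure U has a bounded component W in O; frontier W
is nonempty (W open, bounded, nonempty) and contained in closure U (a point of O in closure W has its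
component meeting W so equal to W, open), so closure W ∪ closure U is connected and contained in K.
mem_V_of_map: let f z ∈ V, z ∉ V. If z ∈ closure U then f z ∈ closure U (maps_closure), not in V. So z lies
in a bounded component W of O, frontier W ⊆ closure U. The set V ∩ f(closure W) is closed in V
(compact image), and open: if v = f w ∈ V with w ∈ closure W then w ∉ closure U, so w ∈ W, and f is open
at w (not_eventually_const, AnalyticAt.eventually_constant_or_nhds_le_map_nhds). It contains f z, V is
connected, so V ⊆ f(closure W) is bounded; but V is unbounded. iterK: K is bounded and f(K) ⊆ K by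
mem_V_of_map. frontier_V: (⊆) y ∈ closure V, y ∉ V: if y ∈ O its component C is open, contains y, so meets
V, so C ⊆ V, contradiction; so y ∈ closure U, and y ∉ U because U is open and disjoint from V.
(⊇) y ∈ frontier U, so y ∉ V; if y ∉ closure V some ball y r ⊆ K has bounded iterates (iterK),
contradicting not_bdd_nhds.
maxp: if Y = connectedComponentIn Γᶜ y is bounded: Y is open, y ∈ Y, frontier Y ⊆ Γ ⊆ K (as above), so by
iterK and iter_bdd_inside the iterates are bounded on Y; contradiction with not_bdd_nhds.
-/
import Mathlib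
import Pool.Agent.TB.Defs
import Pool.Agent.TC.Defs
import Pool.Agent.TC.Top1

set_option autoImplicit false

open Set Filter Topology Metric

namespace Pool.Agent.TC

open Pool.Agent.TB

variable {f : ℂ → ℂ} {U : Set ℂ} {z₀ : ℂ}

private theorem far_preconnected {R : ℝ} (hR : 0 ≤ R) : IsPreconnected {z : ℂ | R < ‖z‖} := by
  have h1 : IsPreconnected ((Ioi R) ×ˢ (univ : Set ℝ)) :=
    isPreconnected_Ioi.prod isPreconnected_univ
  have h2 : Continuous (fun p : ℝ × ℝ => (p.1 : ℂ) * Complex.exp ((p.2 : ℂ) * Complex.I)) := by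
    fun_prop
  have h3 := h1.image _ h2.continuousOn
  have h4 : (fun p : ℝ × ℝ => (p.1 : ℂ) * Complex.exp ((p.2 : ℂ) * Complex.I)) ''
      ((Ioi R) ×ˢ (univ : Set ℝ)) = {z : ℂ | R < ‖z‖} := by
    ext z
    constructor
    · rintro ⟨⟨r, θ⟩, ⟨hr, -⟩, rfl⟩
      have hr' : R < r := hr
      show R < ‖(r : ℂ) * Complex.exp ((θ : ℂ) * Complex.I)‖
      rw [norm_mul, Complex.norm_exp_ofReal_mul_I, mul_one, Complex.norm_real,
        Real.norm_of_nonneg (by linarith)]
      exact hr'
    · intro hz
      refine ⟨(‖z‖, Complex.arg z), ⟨hz, mem_univ _⟩, ?_⟩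
      exact Complex.norm_mul_exp_arg_mul_I z
  rw [h4] at h3
  exact h3

private theorem exists_far (R M : ℝ) : ∃ z : ℂ, R < ‖z‖ ∧ M < ‖z‖ := by
  refine ⟨((max (max R M) 0 + 1 : ℝ) : ℂ), ?_⟩
  rw [Complex.norm_real, Real.norm_of_nonneg (by positivity)]
  have h1 := le_max_left (max R M) 0
  have h2 := le_max_left R M
  have h3 := le_max_right R M
  constructor <;> linarith

private theorem not_bdd_of_far {R : ℝ} {S : Set ℂ} (h : {z : ℂ | R < ‖z‖} ⊆ S) :
    ¬ Bornology.IsBounded S := by
  intro hb
  obtain ⟨M, hM⟩ := hb.exists_norm_le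
  obtain ⟨z, hz1, hz2⟩ := exists_far R M
  have := hM z (h hz1)
  linarith

private theorem exists_far_of_not_bdd {S : Set ℂ} (h : ¬ Bornology.IsBounded S) (R : ℝ) :
    ∃ z ∈ S, R < ‖z‖ := by
  by_contra hcon
  push Not at hcon
  exact h (isBounded_iff_forall_norm_le.mpr ⟨R, hcon⟩)

/-- the frontier of a component of an open set is outside the open set -/
private theorem frontier_comp {O : Set ℂ} (hO : IsOpen O) (y : ℂ) :
    frontier (connectedComponentIn O y) ⊆ Oᶜ := by
  intro x hx hxO
  have hop : IsOpen (connectedComponentIn O y) := hO.connectedComponentIn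
  rw [hop.frontier_eq] at hx
  have hop' : IsOpen (connectedComponentIn O x) := hO.connectedComponentIn
  obtain ⟨w, hw1, hw2⟩ := mem_closure_iff.mp hx.1 _ hop' (mem_connectedComponentIn hxO)
  have e1 := connectedComponentIn_eq hw1
  have e2 := connectedComponentIn_eq hw2
  apply hx.2
  rw [e2, ← e1]
  exact mem_connectedComponentIn hxO

private theorem exists_R (B : NBasin f U z₀) : ∃ R : ℝ, 0 ≤ R ∧ {z : ℂ | R < ‖z‖} ⊆ (closure U)ᶜ := by
  obtain ⟨M, hM⟩ := B.bdd.closure.exists_norm_le
  refine ⟨max M 0, le_max_right _ _, ?_⟩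
  intro z hz hzU
  have h1 := hM z hzU
  have h2 : max M 0 < ‖z‖ := hz
  have h3 := le_max_left M 0
  linarith

private theorem far_V (B : NBasin f U z₀) {R : ℝ} (hR : 0 ≤ R)
    (hfar : {z : ℂ | R < ‖z‖} ⊆ (closure U)ᶜ) : ∀ z : ℂ, R < ‖z‖ → z ∈ Vset U := by
  intro z hz
  refine ⟨hfar hz, ?_⟩
  exact not_bdd_of_far ((far_preconnected hR).subset_connectedComponentIn hz hfar)

private theorem comp_subset_V {z : ℂ} (hz : z ∈ Vset U) :
    connectedComponentIn (closure U)ᶜ z ⊆ Vset U := by
  intro w hw
  refine ⟨connectedComponentIn_subset _ _ hw, ?_⟩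
  rw [← connectedComponentIn_eq hw]
  exact hz.2

theorem isOpen_V (B : NBasin f U z₀) : IsOpen (Vset U) := by
  rw [isOpen_iff_forall_mem_open]
  intro z hz
  exact ⟨connectedComponentIn (closure U)ᶜ z, comp_subset_V hz,
    (isClosed_closure.isOpen_compl).connectedComponentIn, mem_connectedComponentIn hz.1⟩

theorem exists_large (B : NBasin f U z₀) : ∃ R : ℝ, ∀ z : ℂ, R < ‖z‖ → z ∈ Vset U := by
  obtain ⟨R, hR, hfar⟩ := exists_R B
  exact ⟨R, far_V B hR hfar⟩

theorem isConnected_V (B : NBasin f U z₀) : IsConnected (Vset U) := by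
  obtain ⟨R, hR, hfar⟩ := exists_R B
  obtain ⟨z1, hz1, -⟩ := exists_far R 0
  have hz1V := far_V B hR hfar z1 hz1
  have hsub := (far_preconnected hR).subset_connectedComponentIn hz1 hfar
  have heq : Vset U = connectedComponentIn (closure U)ᶜ z1 := by
    apply Subset.antisymm
    · intro z hz
      obtain ⟨w, hw, hwR⟩ := exists_far_of_not_bdd hz.2 R
      have e1 := connectedComponentIn_eq hw
      have e2 := connectedComponentIn_eq (hsub hwR)
      rw [e2, ← e1]
      exact mem_connectedComponentIn hz.1
    · exact comp_subset_V hz1V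
  rw [heq]
  exact isConnected_connectedComponentIn_iff.mpr hz1V.1

theorem closure_subset_K (B : NBasin f U z₀) : closure U ⊆ (Vset U)ᶜ := by
  intro z hz hzV
  exact hzV.1 hz

theorem isCompact_K (B : NBasin f U z₀) : IsCompact (Vset U)ᶜ := by
  obtain ⟨R, hR⟩ := exists_large B
  apply Metric.isCompact_of_isClosed_isBounded (isOpen_V B).isClosed_compl
  rw [isBounded_iff_forall_norm_le]
  refine ⟨R, fun z hz => ?_⟩
  by_contra hcon
  push Not at hcon
  exact hz (hR z hcon)

/-- bounded components of the complement -/
private theorem bdd_comp (B : NBasin f U z₀) {z : ℂ} (hz : z ∉ closure U) (hzV : z ∉ Vset U) :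
    ∃ W : Set ℂ, IsOpen W ∧ IsConnected W ∧ z ∈ W ∧ Bornology.IsBounded W ∧
      W ⊆ (closure U)ᶜ ∧ W ⊆ (Vset U)ᶜ ∧ frontier W ⊆ closure U ∧ (frontier W).Nonempty := by
  have hbd : Bornology.IsBounded (connectedComponentIn (closure U)ᶜ z) := by
    by_contra h
    exact hzV ⟨hz, h⟩
  have hop : IsOpen (connectedComponentIn (closure U)ᶜ z) :=
    (isClosed_closure.isOpen_compl).connectedComponentIn
  refine ⟨connectedComponentIn (closure U)ᶜ z, hop,
    isConnected_connectedComponentIn_iff.mpr hz, mem_connectedComponentIn hz, hbd,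
    connectedComponentIn_subset _ _, ?_, ?_, ?_⟩
  · intro w hw hwV
    apply hwV.2
    rw [← connectedComponentIn_eq hw]
    exact hbd
  · have := frontier_comp (isClosed_closure (s := U)).isOpen_compl z
    rwa [compl_compl] at this
  · by_contra hemp
    rw [not_nonempty_iff_eq_empty] at hemp
    have hcl : IsClopen (connectedComponentIn (closure U)ᶜ z) :=
      isClopen_iff_frontier_eq_empty.mpr hemp
    rcases isClopen_iff.mp hcl with h | h
    · have := mem_connectedComponentIn (F := (closure U)ᶜ) hz
      rw [h] at this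
      exact this
    · rw [h] at hbd
      exact not_bdd_of_far (R := 0) (subset_univ _) hbd

theorem isConnected_K (B : NBasin f U z₀) : IsConnected (Vset U)ᶜ := by
  refine ⟨⟨z₀, closure_subset_K B (subset_closure B.mem)⟩, ?_⟩
  apply isPreconnected_of_forall z₀
  intro z hz
  by_cases hzc : z ∈ closure U
  · exact ⟨closure U, closure_subset_K B, subset_closure B.mem, hzc, B.conn.closure.isPreconnected⟩
  · obtain ⟨W, hWo, hWc, hzW, hWb, hWO, hWK, hfr, hfrn⟩ := bdd_comp B hzc hz
    obtain ⟨x, hx⟩ := hfrn
    have hsub : closure W ⊆ (Vset U)ᶜ := by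
      intro w hw
      by_cases hwW : w ∈ W
      · exact hWK hwW
      · apply closure_subset_K B
        apply hfr
        rw [hWo.frontier_eq]
        exact ⟨hw, hwW⟩
    refine ⟨closure W ∪ closure U, union_subset hsub (closure_subset_K B),
      Or.inr (subset_closure B.mem), Or.inl (subset_closure hzW), ?_⟩
    exact IsPreconnected.union x (frontier_subset_closure hx) (hfr hx)
      hWc.closure.isPreconnected B.conn.closure.isPreconnected

theorem mem_V_of_map (B : NBasin f U z₀) {z : ℂ} (h : f z ∈ Vset U) : z ∈ Vset U := by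
  by_contra hzV
  have hzc : z ∉ closure U := fun hz => h.1 (maps_closure B hz)
  obtain ⟨W, hWo, hWc, hzW, hWb, hWO, hWK, hfr, hfrn⟩ := bdd_comp B hzc hzV
  have hcomp : IsCompact (closure W) := hWb.isCompact_closure
  have himg : IsCompact (f '' closure W) := hcomp.image B.hf.continuous
  have hsub : Vset U ⊆ interior (f '' closure W) := by
    have hkey : ∀ v ∈ Vset U, v ∈ f '' closure W → v ∈ interior (f '' closure W) := by
      rintro v hv ⟨w, hw, rfl⟩
      have hwc : w ∉ closure U := fun hw' => hv.1 (maps_closure B hw')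
      have hwW : w ∈ W := by
        by_contra hwW
        apply hwc
        apply hfr
        rw [hWo.frontier_eq]
        exact ⟨hw, hwW⟩
      have han : AnalyticAt ℂ f w := B.hf.analyticAt w
      rcases han.eventually_constant_or_nhds_le_map_nhds with h1 | h1
      · exact absurd h1 (not_eventually_const B w)
      · rw [mem_interior_iff_mem_nhds]
        have h2 : f '' closure W ∈ Filter.map f (𝓝 w) := by
          rw [Filter.mem_map]
          exact Filter.mem_of_superset (hWo.mem_nhds hwW)
            (fun x hx => mem_image_of_mem f (subset_closure hx))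
        exact h1 h2
    apply (isConnected_V B).isPreconnected.subset_of_closure_inter_subset isOpen_interior
    · exact ⟨f z, h, hkey _ h (mem_image_of_mem f (subset_closure hzW))⟩
    · rintro v ⟨hv1, hv2⟩
      apply hkey v hv2
      exact himg.isClosed.closure_subset_iff.mpr interior_subset hv1
  obtain ⟨R, hR⟩ := exists_large B
  exact not_bdd_of_far (R := R) (fun z hz => hR z hz)
    ((himg.isBounded.subset interior_subset).subset hsub)

theorem iterK (B : NBasin f U z₀) : ∃ M : ℝ, ∀ n : ℕ, ∀ z ∈ (Vset U)ᶜ, ‖f^[n] z‖ ≤ M := by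
  obtain ⟨M, hM⟩ := (isCompact_K B).isBounded.exists_norm_le
  refine ⟨M, fun n z hz => ?_⟩
  apply hM
  have hmap : MapsTo f (Vset U)ᶜ (Vset U)ᶜ := fun w hw hfw => hw (mem_V_of_map B hfw)
  exact hmap.iterate n hz

theorem frontier_V (B : NBasin f U z₀) : frontier (Vset U) = frontier U := by
  rw [(isOpen_V B).frontier_eq, B.isOpen.frontier_eq]
  ext y
  constructor
  · rintro ⟨hy1, hy2⟩
    have hyc : y ∈ closure U := by
      by_contra hyc
      have hop : IsOpen (connectedComponentIn (closure U)ᶜ y) :=
        (isClosed_closure.isOpen_compl).connectedComponentIn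
      obtain ⟨w, hw1, hw2⟩ := mem_closure_iff.mp hy1 _ hop (mem_connectedComponentIn hyc)
      have e1 := connectedComponentIn_eq hw1
      apply hy2
      refine ⟨hyc, ?_⟩
      rw [e1]
      exact hw2.2
    refine ⟨hyc, fun hyU => ?_⟩
    obtain ⟨w, hw1, hw2⟩ := mem_closure_iff.mp hy1 _ B.isOpen hyU
    exact hw2.1 (subset_closure hw1)
  · rintro ⟨hy1, hy2⟩
    have hyV : y ∉ Vset U := closure_subset_K B hy1
    refine ⟨?_, hyV⟩
    by_contra hyc
    obtain ⟨M, hM⟩ := iterK B
    have hd := not_bdd_nhds B (Y := (closure (Vset U))ᶜ) isClosed_closure.isOpen_compl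
      (M := M) (fun n z hz => hM n z (fun hzV => hz (subset_closure hzV)))
    have hyf : y ∈ frontier U := by
      rw [B.isOpen.frontier_eq]
      exact ⟨hy1, hy2⟩
    exact Set.disjoint_left.mp hd hyc hyf

/-- a compact subset of the hull does not surround a frontier point -/
theorem maxp (B : NBasin f U z₀) {Γ : Set ℂ} (hΓ : IsCompact Γ) (hK : Γ ⊆ (Vset U)ᶜ) {y : ℂ}
    (hy : y ∈ frontier U) (hyΓ : y ∉ Γ) :
    ¬ Bornology.IsBounded (connectedComponentIn Γᶜ y) := by
  intro hbd
  obtain ⟨M, hM⟩ := iterK B
  have hop : IsOpen (connectedComponentIn Γᶜ y) := hΓ.isClosed.isOpen_compl.connectedComponentIn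
  have hfr : frontier (connectedComponentIn Γᶜ y) ⊆ Γ := by
    have := frontier_comp hΓ.isClosed.isOpen_compl y
    rwa [compl_compl] at this
  have h1 := iter_bdd_inside B (M := M) hop hbd (fun n z hz => hM n z (hK (hfr hz)))
  have h2 := not_bdd_nhds B hop h1
  exact Set.disjoint_left.mp h2 (mem_connectedComponentIn hyΓ) hy

end Pool.Agent.TC
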