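/-
Project TC (MP_d9e400_an). Module AttrN.
A fixed point in U is attracting.

PROOF. φ from TB.riemann (sc_U B) B.bdd B.mem with φ 0 = z₁, d, c, a from exists_modelN. φ (Bl c a 0) = f z₁ = z₁ = φ 0, so Bl c a 0 = 0 (Bl_mapsTo, injective), so some
a i = 0 (c ≠ 0). Bl c a w = w · (c ∏_{j ≠ i} ...), so ‖deriv (Bl c a) 0‖ = ∏_{j ≠ i} ‖a j‖ < 1 (d ≥ 2). Chain rule: φ' 0 · deriv (Bl c a) 0 =
deriv f z₁ · φ' 0, φ' 0 ≠ 0 (deriv_ne_zero_of_injOn). (Alternatively Schwarz lemma: ‖g' 0‖ ≤ 1 with equality only for rotations.)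
-/
import Mathlib
import Pool.Agent.TB.Defs
import Pool.Agent.TB.Riemann
import Pool.Agent.TB.Injective
import Pool.Agent.TB.ConfA
import Pool.Agent.TC.Defs
import Pool.Agent.TC.Circ
import Pool.Agent.TC.ModelN
import Pool.Agent.TC.Top3

set_option autoImplicit false

open Set Filter Topology Metric

namespace Pool.Agent.TC

open Pool.Agent.TB

private theorem AttrN_bl {d : ℕ} {c : ℂ} {a : Fin d → ℂ} (hd : BlN d c a) (h0 : Bl c a 0 = 0) :
    ∃ m : ℂ, HasDerivAt (Bl c a) m 0 ∧ ‖m‖ < 1 := by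
  have hc0 : c ≠ 0 := by
    rintro rfl
    have := hd.hc
    rw [norm_zero] at this
    exact zero_ne_one this
  obtain ⟨i, hi⟩ : ∃ i, a i = 0 := by
    unfold Bl at h0
    have h1 := (mul_eq_zero.1 h0).resolve_left hc0
    obtain ⟨i, -, hi⟩ := Finset.prod_eq_zero_iff.1 h1
    refine ⟨i, ?_⟩
    rw [mul_zero, sub_zero, div_one, zero_sub, neg_eq_zero] at hi
    exact hi
  obtain ⟨j, hj⟩ : ∃ j : Fin d, j ≠ i := by
    have := hd.hd
    have : Nontrivial (Fin d) := Fin.nontrivial_iff_two_le.2 this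
    exact exists_ne i
  set h : ℂ → ℂ := fun w =>
    c * ∏ j ∈ Finset.univ.erase i, (w - a j) / (1 - (starRingEnd ℂ) (a j) * w) with hdef
  have hB : ∀ w, Bl c a w = w * h w := by
    intro w
    unfold Bl
    rw [hdef, ← Finset.mul_prod_erase _ _ (Finset.mem_univ i), hi, map_zero, zero_mul, sub_zero,
      sub_zero, div_one]
    ring
  have hhd : DifferentiableAt ℂ h 0 := by
    rw [hdef]
    apply DifferentiableAt.const_mul
    apply DifferentiableAt.fun_finsetProd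
    intro k _
    apply DifferentiableAt.div
    · exact differentiableAt_id.sub_const _
    · exact (differentiableAt_id.const_mul _).const_sub _
    · simp
  refine ⟨h 0, ?_, ?_⟩
  · have h1 : HasDerivAt (fun w => w * h w) (1 * h 0 + 0 * deriv h 0) 0 :=
      (hasDerivAt_id (0 : ℂ)).mul hhd.hasDerivAt
    rw [one_mul, zero_mul, add_zero] at h1
    have h2 : Bl c a = fun w => w * h w := funext hB
    rw [h2]
    exact h1
  · have h3 : ‖h 0‖ = ∏ j ∈ Finset.univ.erase i, ‖a j‖ := by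
      simp only [hdef, norm_mul, hd.hc, one_mul, norm_prod]
      apply Finset.prod_congr rfl
      intro k _
      rw [mul_zero, sub_zero, div_one, zero_sub, norm_neg]
    rw [h3, ← Finset.mul_prod_erase _ _ (Finset.mem_erase.2 ⟨hj, Finset.mem_univ j⟩)]
    have h4 : ∏ x ∈ (Finset.univ.erase i).erase j, ‖a x‖ ≤ 1 :=
      Finset.prod_le_one (fun _ _ => norm_nonneg _) fun k _ => (hd.ha k).le
    calc ‖a j‖ * ∏ x ∈ (Finset.univ.erase i).erase j, ‖a x‖ ≤ ‖a j‖ * 1 :=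
          mul_le_mul_of_nonneg_left h4 (norm_nonneg _)
      _ < 1 := by rw [mul_one]; exact hd.ha j

theorem attr_of_fixed {f : ℂ → ℂ} {U : Set ℂ} {z₁ : ℂ} (B : NBasin f U z₁) (hfix : f z₁ = z₁) :
    ‖deriv f z₁‖ < 1 := by
  obtain ⟨φ, hφ, hφ0⟩ := riemann (sc_U B) B.bdd B.mem
  obtain ⟨d, c, a, hd, hconj⟩ := exists_modelN B hφ
  have h0D : (0 : ℂ) ∈ Dk := Metric.mem_ball_self one_pos
  have hBl0 : Bl c a 0 = 0 := by
    apply hφ.bij.injOn (Bl_mapsTo hd h0D) h0D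
    rw [hconj 0 h0D, hφ0, hfix]
  obtain ⟨m, hm, hm1⟩ := AttrN_bl hd hBl0
  have hφd : DifferentiableAt ℂ φ 0 := hφ.diff.differentiableAt (Metric.isOpen_ball.mem_nhds h0D)
  have hφ' : deriv φ 0 ≠ 0 := deriv_ne_zero_of_injOn Metric.isOpen_ball hφ.diff hφ.bij.injOn h0D
  have h1 : HasDerivAt (fun w => φ (Bl c a w)) (deriv φ 0 * m) 0 := by
    have h2 : HasDerivAt φ (deriv φ 0) (Bl c a 0) := by
      rw [hBl0]
      exact hφd.hasDerivAt
    exact h2.comp 0 hm
  have h3 : HasDerivAt (fun w => f (φ w)) (deriv f z₁ * deriv φ 0) 0 := by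
    have h4 : HasDerivAt f (deriv f z₁) (φ 0) := by
      rw [hφ0]
      exact (B.hf z₁).hasDerivAt
    exact h4.comp 0 hφd.hasDerivAt
  have h5 : (fun w => φ (Bl c a w)) =ᶠ[𝓝 0] fun w => f (φ w) := by
    filter_upwards [Metric.isOpen_ball.mem_nhds h0D] with w hw
    exact hconj w hw
  have h6 : deriv φ 0 * m = deriv f z₁ * deriv φ 0 := (h1.congr_of_eventuallyEq h5.symm).unique h3
  have h7 : deriv f z₁ = m := by
    rw [mul_comm (deriv f z₁)] at h6
    exact (mul_left_cancel₀ hφ' h6).symm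
  rw [h7]
  exact hm1

end Pool.Agent.TC
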