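/-
Project TC (MP_d9e400_an). Module FatouN.
From the Fatou set of the frozen statement to the structure NBasin.

PROOF. Copy TB/FatouBasin.lean (uses montel); the field ninj is the hypothesis hn.
-/
import Mathlib
import Pool.Agent.TB.Defs
import Pool.Agent.TB.Montel
import Pool.Agent.TC.Defs

set_option autoImplicit false

open Set Filter Topology Metric

namespace Pool.Agent.TC

open Pool.Agent.TB

theorem nbasin_of_fatou {f : ℂ → ℂ} (hf : Differentiable ℂ f) {F : Set ℂ}
    (hF : ∀ w : ℂ, w ∈ F ↔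
        ∃ r : ℝ, 0 < r ∧
          ∀ φ : ℕ → ℕ, StrictMono φ →
            ∃ ψ : ℕ → ℕ, StrictMono ψ ∧
              ((∃ g : ℂ → ℂ,
                  TendstoLocallyUniformlyOn (fun k => f^[φ (ψ k)]) g atTop (Metric.ball w r)) ∨
               (∀ K : Set ℂ, K ⊆ Metric.ball w r → IsCompact K →
                  ∀ M : ℝ, ∀ᶠ k in atTop, ∀ y ∈ K, M < ‖f^[φ (ψ k)] y‖)))
    {z : ℂ} (hz : z ∈ F) (hb : Bornology.IsBounded (connectedComponentIn F z))
    (hm : Set.MapsTo f (connectedComponentIn F z) (connectedComponentIn F z))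
    (hn : ¬ Set.InjOn f (connectedComponentIn F z))
    {z₀ : ℂ} (hz₀ : z₀ ∈ connectedComponentIn F z) :
    NBasin f (connectedComponentIn F z) z₀ := by
  have hFo : IsOpen F := by
    rw [Metric.isOpen_iff]
    intro w hw
    obtain ⟨r, hr, h⟩ := (hF w).1 hw
    refine ⟨r, hr, ?_⟩
    intro y hy
    rw [hF y]
    have hsub : ball y (r - dist y w) ⊆ ball w r := by
      intro v hv
      rw [mem_ball] at hv ⊢
      linarith [dist_triangle v y w]
    refine ⟨r - dist y w, sub_pos.2 hy, ?_⟩
    intro φ hφ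
    obtain ⟨ψ, hψ, h2⟩ := h φ hφ
    refine ⟨ψ, hψ, ?_⟩
    rcases h2 with ⟨g, hg⟩ | h2
    · exact Or.inl ⟨g, hg.mono hsub⟩
    · exact Or.inr (fun K hK hKc M => h2 K (hK.trans hsub) hKc M)
  have hUo : IsOpen (connectedComponentIn F z) := hFo.connectedComponentIn
  refine ⟨hf, hUo, isConnected_connectedComponentIn_iff.2 hz, hb, hm, hz₀, hn, ?_⟩
  intro x hx r hr M
  by_contra hcon
  push Not at hcon
  have hsubF : ball x r ⊆ F := by
    intro y hy
    rw [hF y]
    have hsub : ball y (r - dist y x) ⊆ ball x r := by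
      intro v hv
      rw [mem_ball] at hv ⊢
      linarith [dist_triangle v y x]
    refine ⟨r - dist y x, sub_pos.2 hy, ?_⟩
    intro φ hφ
    obtain ⟨ψ, hψ, g, -, hg⟩ := montel (Metric.isOpen_ball : IsOpen (ball y (r - dist y x)))
      (fun k => f^[φ k]) (fun k => (hf.iterate (φ k)).differentiableOn) (M := M)
      (fun k v hv => hcon (φ k) v (hsub hv))
    exact ⟨ψ, hψ, Or.inl ⟨g, hg⟩⟩
  obtain ⟨y, hy1, hy2⟩ := mem_closure_iff.1 (frontier_subset_closure hx) _ isOpen_ball
    (mem_ball_self hr)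
  have h1 : ball x r ⊆ connectedComponentIn F y :=
    (convex_ball x r).isPreconnected.subset_connectedComponentIn hy1 hsubF
  have h2 : connectedComponentIn F z = connectedComponentIn F y := connectedComponentIn_eq hy2
  have h3 : x ∈ connectedComponentIn F z := by
    rw [h2]
    exact h1 (mem_ball_self hr)
  rw [hUo.frontier_eq] at hx
  exact hx.2 h3

end Pool.Agent.TC
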