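/-
Project TC (MP_d9e400_an). Module Beta.
The translation length at the parabolic point of the circle vanishes.

PROOF. u = N z = (ζ-z)/(ζ+z), z = ζ(1-u)/(1+u); N maps the circle into the imaginary axis and Dk into {Re u > 0}. q u = N (Bl (ζ(1-u)/(1+u))) is
holomorphic near 0, q 0 = 0, q' 0 = 1 (hder, chain rule). q u = u + u² k u with k holomorphic near 0 (dslope twice). For small u ≠ 0:
1/q u - 1/u = -k u/(1 + u k u) =: F u, holomorphic near 0. For u = it, t ≠ 0 real small: z is on the circle, Bl z too, q u is imaginary (nonzero),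
F u is imaginary; so F 0 = iτ is imaginary. F₀ = F - F 0: for small u: |Re F₀ u| = |Re (F₀ u - F₀ (i Im u))| ≤ C |Re u|.
Suppose τ ≠ 0. W n = (ζ + w n)/(ζ - w n) = 1/u_n, u_n = N (w n) → 0, Re W n > 0, |W n| → ∞, W (n+1) = 1/q(u_n) = W n + iτ + F₀ (1/W n). So
W (n+1) - W n → iτ and |W n| ≥ |τ| n/2 for large n. Re (1/W) = Re W/|W|², so Re W (n+1) ≤ Re W n (1 + C/|W n|²) ≤ Re W n (1 + C'/n²): Re W n ≤ R
bounded. ‖mob (w n) (w (n+1))‖ = |W (n+1) - W n|/|W (n+1) + conj (W n)| (direct computation) and |W (n+1) + conj (W n)| ≤ 2R + |τ| + 1, so the step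
is ≥ |τ|/(2(2R+|τ|+1)) for large n: contradiction to hstep. So τ = 0 and F u → 0 as u → 0: the claim, because
(ζ + Bl z)/(ζ - Bl z) - (ζ+z)/(ζ-z) = 1/q(u) - 1/u for z near ζ, z ≠ ζ.
-/
import Mathlib
import Pool.Agent.TB.Defs
import Pool.Agent.TB.Mobius
import Pool.Agent.TC.Defs
import Pool.Agent.TC.Circ

set_option autoImplicit false

open Set Filter Topology Metric

namespace Pool.Agent.TC

open Pool.Agent.TB

/-- a holomorphic germ `q` with `q 0 = 0`, `q' 0 = 1`: the function `1/q u - 1/u` -/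
private theorem Beta_germ {q : ℂ → ℂ} (hq : AnalyticAt ℂ q 0) (hq0 : q 0 = 0)
    (hq1 : deriv q 0 = 1) :
    ∃ F : ℂ → ℂ, AnalyticAt ℂ F 0 ∧ ∀ᶠ u in 𝓝 (0 : ℂ), u ≠ 0 →
      q u ≠ 0 ∧ (q u)⁻¹ = u⁻¹ + F u := by
  obtain ⟨s, hs, hd⟩ : ∃ s ∈ 𝓝 (0 : ℂ), DifferentiableOn ℂ q s := by
    have h1 := hq.eventually_analyticAt
    refine ⟨{x | AnalyticAt ℂ q x}, h1, fun x hx => ?_⟩
    exact (show AnalyticAt ℂ q x from hx).differentiableAt.differentiableWithinAt
  have hd1 : DifferentiableOn ℂ (dslope q 0) s := (Complex.differentiableOn_dslope hs).2 hd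
  have hd2 : DifferentiableOn ℂ (dslope (dslope q 0) 0) s :=
    (Complex.differentiableOn_dslope hs).2 hd1
  have e0 : dslope q 0 0 = 1 := by rw [dslope_same, hq1]
  have ha1 : AnalyticAt ℂ (dslope q 0) 0 := hd1.analyticAt hs
  have ha2 : AnalyticAt ℂ (dslope (dslope q 0) 0) 0 := hd2.analyticAt hs
  refine ⟨fun u => - dslope (dslope q 0) 0 u / dslope q 0 u, ?_, ?_⟩
  · exact ha2.neg.div ha1 (by rw [e0]; exact one_ne_zero)
  · have h1 : ∀ᶠ u in 𝓝 (0 : ℂ), dslope q 0 u ≠ 0 :=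
      ha1.continuousAt.eventually_ne (by rw [e0]; exact one_ne_zero)
    filter_upwards [h1] with u hu hu0
    have e1 : q u = u * dslope q 0 u := by
      have := sub_smul_dslope q 0 u
      rw [hq0, sub_zero, sub_zero, smul_eq_mul] at this
      exact this.symm
    have e2 : dslope q 0 u - 1 = u * dslope (dslope q 0) 0 u := by
      have := sub_smul_dslope (dslope q 0) 0 u
      rw [e0, sub_zero, smul_eq_mul] at this
      exact this.symm
    have hne : q u ≠ 0 := by rw [e1]; exact mul_ne_zero hu0 hu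
    refine ⟨hne, ?_⟩
    rw [e1]
    generalize dslope q 0 u = a at *
    generalize dslope (dslope q 0) 0 u = b at *
    field_simp
    linear_combination -e2

/-- local Lipschitz bound for the real part -/
private theorem Beta_re {F : ℂ → ℂ} (hF : AnalyticAt ℂ F 0)
    (him : ∀ᶠ t : ℝ in 𝓝 0, t ≠ 0 → (F ((t : ℂ) * Complex.I)).re = 0) :
    (F 0).re = 0 ∧ ∃ C : ℝ, 0 ≤ C ∧ ∀ᶠ u in 𝓝 (0 : ℂ), |(F u).re| ≤ C * |u.re| := by
  have h0 : (F 0).re = 0 := by
    have h1 : Tendsto (fun t : ℝ => (F (t * Complex.I)).re) (𝓝[≠] 0) (𝓝 (F 0).re) := by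
      have h2 : ContinuousAt (fun t : ℝ => (F (t * Complex.I)).re) 0 := by
        have h3 : ContinuousAt F (((0 : ℝ) : ℂ) * Complex.I) := by
          rw [Complex.ofReal_zero, zero_mul]; exact hF.continuousAt
        have h4 : ContinuousAt (fun t : ℝ => (t : ℂ) * Complex.I) 0 := by fun_prop
        exact Complex.continuous_re.continuousAt.comp
          (ContinuousAt.comp (f := fun t : ℝ => (t : ℂ) * Complex.I) h3 h4)
      have h5 := h2.tendsto
      simp only [Complex.ofReal_zero, zero_mul] at h5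
      exact h5.mono_left nhdsWithin_le_nhds
    have h6 : Tendsto (fun t : ℝ => (F (t * Complex.I)).re) (𝓝[≠] 0) (𝓝 0) := by
      refine tendsto_const_nhds.congr' ?_
      rw [EventuallyEq, eventually_nhdsWithin_iff]
      filter_upwards [him] with t ht ht0
      exact (ht ht0).symm
    exact tendsto_nhds_unique h1 h6
  refine ⟨h0, ?_⟩
  obtain ⟨K, t, ht, hK⟩ := (hF.contDiffAt (n := 1)).exists_lipschitzOnWith
  refine ⟨K, K.2, ?_⟩
  obtain ⟨r, hr, hrt⟩ := Metric.mem_nhds_iff.1 ht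
  obtain ⟨r', hr', him'⟩ := Metric.eventually_nhds_iff.1 him
  have hmin : 0 < min r r' := lt_min hr hr'
  filter_upwards [Metric.ball_mem_nhds (0 : ℂ) hmin] with u hu
  rw [mem_ball_zero_iff] at hu
  have hu1 : ‖u‖ < r := lt_of_lt_of_le hu (min_le_left _ _)
  have hu2 : ‖u‖ < r' := lt_of_lt_of_le hu (min_le_right _ _)
  have him2 : |u.im| ≤ ‖u‖ := Complex.abs_im_le_norm u
  have hv : ‖((u.im : ℝ) : ℂ) * Complex.I‖ = |u.im| := by
    rw [norm_mul, Complex.norm_I, mul_one, Complex.norm_real, Real.norm_eq_abs]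
  have hz : (F ((u.im : ℝ) * Complex.I)).re = 0 := by
    rcases eq_or_ne u.im 0 with h | h
    · rw [h, Complex.ofReal_zero, zero_mul]; exact h0
    · refine him' ?_ h
      rw [dist_zero_right, Real.norm_eq_abs]
      exact lt_of_le_of_lt him2 hu2
  have h1 := hK.dist_le_mul u (hrt (mem_ball_zero_iff.2 hu1)) ((u.im : ℝ) * Complex.I)
    (hrt (mem_ball_zero_iff.2 (by rw [hv]; exact lt_of_le_of_lt him2 hu1)))
  have h2 : u - ((u.im : ℝ) : ℂ) * Complex.I = ((u.re : ℝ) : ℂ) := by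
    apply Complex.ext <;> simp
  rw [dist_eq_norm, dist_eq_norm, h2, Complex.norm_real, Real.norm_eq_abs] at h1
  refine le_trans ?_ h1
  have h3 : (F u).re = (F u - F ((u.im : ℝ) * Complex.I)).re := by
    rw [Complex.sub_re, hz, sub_zero]
  rw [h3]
  exact Complex.abs_re_le_norm _

/-- a sequence with small relative growth is bounded -/
private theorem Beta_bdd {A : ℕ → ℝ} {K : ℝ} (hK : 0 ≤ K) (hA : ∀ n, 0 < A n)
    (h : ∀ᶠ n : ℕ in atTop, A (n + 1) ≤ A n * (1 + K / (n : ℝ) ^ 2)) :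
    ∃ R : ℝ, 0 < R ∧ ∀ᶠ n : ℕ in atTop, A n ≤ R := by
  obtain ⟨N, hN⟩ := eventually_atTop.1 h
  have hs : Summable (fun n : ℕ => 1 / (n : ℝ) ^ 2) := Real.summable_one_div_nat_pow.2 one_lt_two
  obtain ⟨S, hS⟩ : ∃ S, S = ∑' n : ℕ, 1 / (n : ℝ) ^ 2 := ⟨_, rfl⟩
  refine ⟨A N * Real.exp (K * S), mul_pos (hA N) (Real.exp_pos _), ?_⟩
  filter_upwards [eventually_ge_atTop N] with n hn
  have key : ∀ m : ℕ, A (N + m) ≤ A N * Real.exp (K * ∑ i ∈ Finset.range (N + m), 1 / (i : ℝ) ^ 2) := by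
    intro m
    induction m with
    | zero =>
      have h1 : (1 : ℝ) ≤ Real.exp (K * ∑ i ∈ Finset.range (N + 0), 1 / (i : ℝ) ^ 2) := by
        rw [Real.one_le_exp_iff]
        exact mul_nonneg hK (Finset.sum_nonneg fun i _ => by positivity)
      have := mul_le_mul_of_nonneg_left h1 (hA N).le
      simpa using this
    | succ m ih =>
      have h1 := hN (N + m) (Nat.le_add_right _ _)
      rw [← add_assoc, Finset.sum_range_succ, mul_add, Real.exp_add, ← mul_assoc]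
      refine h1.trans ?_
      refine mul_le_mul ih ?_ ?_ ?_
      · have := Real.add_one_le_exp (K * (1 / ((N + m : ℕ) : ℝ) ^ 2))
        have e : K / ((N + m : ℕ) : ℝ) ^ 2 = K * (1 / ((N + m : ℕ) : ℝ) ^ 2) := by ring
        rw [e]
        linarith
      · positivity
      · exact mul_nonneg (hA N).le (Real.exp_pos _).le
  obtain ⟨m, rfl⟩ := Nat.exists_eq_add_of_le hn
  refine (key m).trans ?_
  refine mul_le_mul_of_nonneg_left ?_ (hA N).le
  rw [Real.exp_le_exp]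
  refine mul_le_mul_of_nonneg_left ?_ hK
  rw [hS]
  exact hs.sum_le_tsum _ (fun i _ => by positivity)

/-- the quantitative heart: if `F 0 ≠ 0`, the hyperbolic steps do not tend to zero -/
private theorem Beta_seq {W : ℕ → ℂ} {F : ℂ → ℂ} {C : ℝ} (hC : 0 ≤ C) (hpos : ∀ n, 0 < (W n).re)
    (hrec : ∀ᶠ n : ℕ in atTop, W (n + 1) = W n + F (W n)⁻¹)
    (hW : Tendsto (fun n => (W n)⁻¹) atTop (𝓝 0)) (hF : ContinuousAt F 0) (hne : F 0 ≠ 0)
    (hre : ∀ᶠ u in 𝓝 (0 : ℂ), |(F u).re| ≤ C * |u.re|) :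
    ∃ c : ℝ, 0 < c ∧ ∀ᶠ n : ℕ in atTop,
      c ≤ ‖W (n + 1) - W n‖ / ‖W (n + 1) + (starRingEnd ℂ) (W n)‖ := by
  have hFW : Tendsto (fun n => F (W n)⁻¹) atTop (𝓝 (F 0)) := hF.tendsto.comp hW
  have hdiff : Tendsto (fun n => W (n + 1) - W n) atTop (𝓝 (F 0)) := by
    refine hFW.congr' ?_
    filter_upwards [hrec] with n hn
    rw [hn]; ring
  have ht : 0 < ‖F 0‖ := norm_pos_iff.2 hne
  obtain ⟨τ, hτ⟩ : ∃ τ : ℝ, τ = ‖F 0‖ := ⟨_, rfl⟩
  rw [← hτ] at ht
  -- linear growth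
  have hces : Tendsto (fun n : ℕ => ((n : ℝ)⁻¹) • (∑ i ∈ Finset.range n, (W (i + 1) - W i))) atTop
      (𝓝 (F 0)) := hdiff.cesaro_smul
  have hlin0 : Tendsto (fun n : ℕ => ((n : ℝ)⁻¹) • W n) atTop (𝓝 (F 0)) := by
    have h1 : Tendsto (fun n : ℕ => ((n : ℝ)⁻¹) • W 0) atTop (𝓝 0) := by
      have : Tendsto (fun n : ℕ => ((n : ℝ)⁻¹)) atTop (𝓝 0) := tendsto_inv_atTop_nhds_zero_nat
      simpa using this.smul_const (W 0)
    have h2 := hces.add h1
    rw [add_zero] at h2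
    refine h2.congr fun n => ?_
    rw [Finset.sum_range_sub, ← smul_add, sub_add_cancel]
  have hlin : ∀ᶠ n : ℕ in atTop, τ / 2 * n ≤ ‖W n‖ := by
    have h1 : Tendsto (fun n : ℕ => ‖((n : ℝ)⁻¹) • W n‖) atTop (𝓝 τ) := by
      rw [hτ]; exact hlin0.norm
    have h2 := h1.eventually (lt_mem_nhds (show τ / 2 < τ by linarith))
    filter_upwards [h2, eventually_gt_atTop 0] with n hn hn0
    have hn0' : (0 : ℝ) < n := by exact_mod_cast hn0
    rw [norm_smul, Real.norm_eq_abs, abs_of_pos (inv_pos.2 hn0')] at hn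
    have h3 := mul_lt_mul_of_pos_right hn hn0'
    have h4 : (n : ℝ)⁻¹ * ‖W n‖ * n = ‖W n‖ := by
      field_simp
    rw [h4] at h3
    exact h3.le
  -- bounded real part
  obtain ⟨R, hR, hRb⟩ : ∃ R : ℝ, 0 < R ∧ ∀ᶠ n : ℕ in atTop, (W n).re ≤ R := by
    refine Beta_bdd (A := fun n => (W n).re) (K := C / (τ / 2) ^ 2) (by positivity) hpos ?_
    have hre' := hW.eventually hre
    filter_upwards [hre', hrec, hlin, eventually_gt_atTop 0] with n h1 h2 h3 h4
    have hn0 : (0 : ℝ) < n := by exact_mod_cast h4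
    rw [h2, Complex.add_re]
    have h5 : ((W n)⁻¹).re = (W n).re / ‖W n‖ ^ 2 := by
      rw [Complex.inv_re, Complex.normSq_eq_norm_sq]
    have hWn : 0 < ‖W n‖ := by
      refine lt_of_lt_of_le ?_ h3
      positivity
    have h6 : |((W n)⁻¹).re| = (W n).re / ‖W n‖ ^ 2 := by
      rw [h5]
      exact abs_of_pos (div_pos (hpos n) (by positivity))
    rw [h6] at h1
    have h7 : (F (W n)⁻¹).re ≤ C * ((W n).re / ‖W n‖ ^ 2) := (le_abs_self _).trans h1
    have h8 : (W n).re / ‖W n‖ ^ 2 ≤ (W n).re / (τ / 2 * n) ^ 2 := by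
      apply div_le_div_of_nonneg_left (hpos n).le (by positivity)
      exact pow_le_pow_left₀ (by positivity) h3 2
    have h9 : C * ((W n).re / ‖W n‖ ^ 2) ≤ C * ((W n).re / (τ / 2 * n) ^ 2) :=
      mul_le_mul_of_nonneg_left h8 hC
    have h10 : C * ((W n).re / (τ / 2 * n) ^ 2) = (W n).re * (C / (τ / 2) ^ 2 / (n : ℝ) ^ 2) := by
      field_simp
    rw [mul_add, mul_one]
    linarith
  refine ⟨(τ / 2) / (2 * R + τ + 1), by positivity, ?_⟩
  have hn1 : Tendsto (fun n => ‖W (n + 1) - W n‖) atTop (𝓝 τ) := by rw [hτ]; exact hdiff.norm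
  have hl := hn1.eventually (lt_mem_nhds (show τ / 2 < τ by linarith))
  have hu := hn1.eventually (gt_mem_nhds (show τ < τ + 1 by linarith))
  filter_upwards [hl, hu, hRb] with n h1 h2 h3
  have e1 : W (n + 1) + (starRingEnd ℂ) (W n) = (W (n + 1) - W n) + ((2 * (W n).re : ℝ) : ℂ) := by
    have := Complex.add_conj (W n)
    push_cast at this ⊢
    rw [← this]; ring
  have e2 : ‖W (n + 1) + (starRingEnd ℂ) (W n)‖ ≤ 2 * R + τ + 1 := by
    rw [e1]
    refine (norm_add_le _ _).trans ?_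
    rw [Complex.norm_real, Real.norm_eq_abs, abs_of_pos (by have := hpos n; linarith)]
    linarith
  have e3 : 0 < ‖W (n + 1) + (starRingEnd ℂ) (W n)‖ := by
    rw [norm_pos_iff]
    intro h
    have := congrArg Complex.re h
    rw [Complex.add_re, Complex.conj_re, Complex.zero_re] at this
    have a1 := hpos n
    have a2 := hpos (n + 1)
    linarith
  have h1' : τ / 2 ≤ ‖W (n + 1) - W n‖ := h1.le
  exact div_le_div₀ (norm_nonneg _) h1' e3 e2

/-- the hyperbolic step in the half-plane coordinate -/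
private theorem Beta_step {ζ w w' : ℂ} (hζ : ‖ζ‖ = 1) (hw : ‖w‖ < 1) (hw' : ‖w'‖ < 1) :
    ‖mob w w'‖ = ‖(ζ + w') / (ζ - w') - (ζ + w) / (ζ - w)‖ /
      ‖(ζ + w') / (ζ - w') + (starRingEnd ℂ) ((ζ + w) / (ζ - w))‖ := by
  have hζ0 : ζ ≠ 0 := by
    intro h; rw [h, norm_zero] at hζ; exact zero_ne_one hζ
  have h1 : ζ - w ≠ 0 := by
    intro h; rw [sub_eq_zero.1 h] at hζ; linarith
  have h2 : ζ - w' ≠ 0 := by
    intro h; rw [sub_eq_zero.1 h] at hζ; linarith
  have h3 : (starRingEnd ℂ) ζ * ζ = 1 := by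
    rw [mul_comm, Complex.mul_conj, Complex.normSq_eq_norm_sq, hζ]; simp
  have h4 : (starRingEnd ℂ) (ζ - w) ≠ 0 := by
    rw [Ne, map_eq_zero]; exact h1
  have hden := mob_den hw hw'.le
  have e1 : (ζ + w') / (ζ - w') - (ζ + w) / (ζ - w) = 2 * ζ * (w' - w) / ((ζ - w') * (ζ - w)) := by
    field_simp
    ring
  have e2 : (ζ + w') / (ζ - w') + (starRingEnd ℂ) ((ζ + w) / (ζ - w)) =
      2 * (1 - (starRingEnd ℂ) w * w') / ((ζ - w') * (starRingEnd ℂ) (ζ - w)) := by
    rw [map_div₀]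
    rw [div_add_div _ _ h2 h4]
    congr 1
    rw [map_add, map_sub]
    generalize (starRingEnd ℂ) ζ = a at *
    generalize (starRingEnd ℂ) w = b at *
    linear_combination 2 * h3
  rw [e1, e2, mob]
  simp only [norm_div, norm_mul, hζ, mul_one, RCLike.norm_conj, Complex.norm_ofNat]
  have n1 : ‖ζ - w‖ ≠ 0 := norm_ne_zero_iff.2 h1
  have n2 : ‖ζ - w'‖ ≠ 0 := norm_ne_zero_iff.2 h2
  have n3 : ‖1 - (starRingEnd ℂ) w * w'‖ ≠ 0 := norm_ne_zero_iff.2 hden
  field_simp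

/-- points of the circle have imaginary coordinate -/
private theorem Beta_im {ζ b : ℂ} (hζ : ‖ζ‖ = 1) (hb : ‖b‖ = 1) :
    ((ζ + b) / (ζ - b)).re = 0 := by
  rw [Complex.div_re]
  have h1 : (ζ + b).re * (ζ - b).re + (ζ + b).im * (ζ - b).im = 0 := by
    have e1 : ζ.re ^ 2 + ζ.im ^ 2 = 1 := by
      have := Complex.normSq_eq_norm_sq ζ
      rw [hζ, Complex.normSq_apply] at this
      nlinarith
    have e2 : b.re ^ 2 + b.im ^ 2 = 1 := by
      have := Complex.normSq_eq_norm_sq b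
      rw [hb, Complex.normSq_apply] at this
      nlinarith
    simp only [Complex.add_re, Complex.sub_re, Complex.add_im, Complex.sub_im]
    nlinarith
  rw [← add_div, h1, zero_div]

/-- points of the disc have coordinate in the right half-plane -/
private theorem Beta_pos {ζ b : ℂ} (hζ : ‖ζ‖ = 1) (hb : ‖b‖ < 1) :
    0 < ((ζ + b) / (ζ - b)).re := by
  have h0 : ζ - b ≠ 0 := by
    intro h; rw [sub_eq_zero.1 h] at hζ; linarith
  rw [Complex.div_re, ← add_div]
  refine div_pos ?_ (Complex.normSq_pos.2 h0)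
  have e1 : ζ.re ^ 2 + ζ.im ^ 2 = 1 := by
    have := Complex.normSq_eq_norm_sq ζ
    rw [hζ, Complex.normSq_apply] at this
    nlinarith
  have e2 : b.re ^ 2 + b.im ^ 2 < 1 := by
    have := Complex.normSq_eq_norm_sq b
    rw [Complex.normSq_apply] at this
    have h2 : ‖b‖ ^ 2 < 1 := by nlinarith [norm_nonneg b]
    nlinarith
  simp only [Complex.add_re, Complex.sub_re, Complex.add_im, Complex.sub_im]
  nlinarith

theorem beta_zero {d : ℕ} {c : ℂ} {a : Fin d → ℂ} (hd : BlN d c a) {ζ w₀ : ℂ} (hζ : ‖ζ‖ = 1)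
    (hw₀ : w₀ ∈ Dk) (hw : Tendsto (fun n : ℕ => (Bl c a)^[n] w₀) atTop (𝓝 ζ))
    (hstep : Tendsto (fun n : ℕ => ‖mob ((Bl c a)^[n] w₀) ((Bl c a)^[n + 1] w₀)‖) atTop (𝓝 0))
    (hfix : Bl c a ζ = ζ) (hder : deriv (Bl c a) ζ = 1) :
    Tendsto (fun z : ℂ => (ζ + Bl c a z) / (ζ - Bl c a z) - (ζ + z) / (ζ - z)) (𝓝[≠] ζ) (𝓝 0) := by
  have hζ0 : ζ ≠ 0 := by
    intro h; rw [h, norm_zero] at hζ; exact zero_ne_one hζ
  have h2ζ : ζ + ζ ≠ 0 := by
    rw [← two_mul]; exact mul_ne_zero two_ne_zero hζ0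
  -- analyticity of the Blaschke product at ζ
  obtain ⟨R, hR1, hRd⟩ := Bl_analytic hd
  have hBan : AnalyticAt ℂ (Bl c a) ζ := by
    apply hRd.analyticAt
    apply Metric.isOpen_ball.mem_nhds
    rw [mem_ball_zero_iff, hζ]
    exact hR1
  -- the germ q
  obtain ⟨Z, hZ⟩ : ∃ Z : ℂ → ℂ, Z = fun u => ζ * ((1 - u) / (1 + u)) := ⟨_, rfl⟩
  obtain ⟨q, hq⟩ : ∃ q : ℂ → ℂ, q = fun u => (ζ - Bl c a (Z u)) / (ζ + Bl c a (Z u)) := ⟨_, rfl⟩
  have hZ0 : Z 0 = ζ := by rw [hZ]; simp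
  have hZan : AnalyticAt ℂ Z 0 := by
    rw [hZ]
    refine analyticAt_const.mul (AnalyticAt.div ?_ ?_ ?_)
    · exact analyticAt_const.sub analyticAt_id
    · exact analyticAt_const.add analyticAt_id
    · simp
  have hZd : HasDerivAt Z (-2 * ζ) 0 := by
    rw [hZ]
    have h1 : HasDerivAt (fun u : ℂ => 1 - u) (-1) 0 := by
      simpa using (hasDerivAt_id (0 : ℂ)).const_sub 1
    have h2 : HasDerivAt (fun u : ℂ => 1 + u) 1 0 := by
      simpa using (hasDerivAt_id (0 : ℂ)).const_add 1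
    have h3 := (h1.div h2 (by simp)).const_mul ζ
    refine h3.congr_deriv ?_
    norm_num
    ring
  have hBZ : AnalyticAt ℂ (fun u => Bl c a (Z u)) 0 := by
    have : AnalyticAt ℂ (Bl c a) (Z 0) := by rw [hZ0]; exact hBan
    exact this.comp hZan
  have hBZd : HasDerivAt (fun u => Bl c a (Z u)) (-2 * ζ) 0 := by
    have h1 : HasDerivAt (Bl c a) 1 (Z 0) := by
      rw [hZ0, ← hder]; exact hBan.differentiableAt.hasDerivAt
    have := h1.comp (0 : ℂ) hZd
    rw [one_mul] at this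
    exact this
  have hqan : AnalyticAt ℂ q 0 := by
    rw [hq]
    refine AnalyticAt.div ?_ ?_ ?_
    · exact analyticAt_const.sub hBZ
    · exact analyticAt_const.add hBZ
    · rw [hZ0, hfix]; exact h2ζ
  have hq0 : q 0 = 0 := by
    rw [hq]
    simp only [hZ0, hfix, sub_self, zero_div]
  have hq1 : deriv q 0 = 1 := by
    rw [hq]
    have h1 : HasDerivAt (fun u => ζ - Bl c a (Z u)) (-(-2 * ζ)) 0 := hBZd.const_sub ζ
    have h2 : HasDerivAt (fun u => ζ + Bl c a (Z u)) (-2 * ζ) 0 := hBZd.const_add ζ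
    have h3 := h1.div h2 (by rw [hZ0, hfix]; exact h2ζ)
    have h4 : deriv (fun u => (ζ - Bl c a (Z u)) / (ζ + Bl c a (Z u))) 0 = _ := h3.deriv
    rw [h4]
    simp only [hZ0, hfix, sub_self, zero_mul, sub_zero]
    field_simp
    ring
  obtain ⟨F, hFan, hF⟩ := Beta_germ hqan hq0 hq1
  -- relation of coordinates
  have hZN : ∀ z : ℂ, ζ + z ≠ 0 → Z ((ζ - z) / (ζ + z)) = z := by
    intro z hz
    rw [hZ]
    have h1 : 1 + (ζ - z) / (ζ + z) = 2 * ζ / (ζ + z) := by field_simp; ring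
    have h2 : 1 - (ζ - z) / (ζ + z) = 2 * z / (ζ + z) := by field_simp; ring
    simp only [h1, h2]
    field_simp
  have hNq : ∀ z : ℂ, ζ + z ≠ 0 → q ((ζ - z) / (ζ + z)) = (ζ - Bl c a z) / (ζ + Bl c a z) := by
    intro z hz
    rw [hq]
    simp only [hZN z hz]
  have hNtend : Tendsto (fun z : ℂ => (ζ - z) / (ζ + z)) (𝓝 ζ) (𝓝 0) := by
    have h1 : ContinuousAt (fun z : ℂ => (ζ - z) / (ζ + z)) ζ := by
      refine ContinuousAt.div ?_ ?_ h2ζ
      · fun_prop
      · fun_prop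
    have h2 := h1.tendsto
    simp only [sub_self, zero_div] at h2
    exact h2
  have hev : ∀ᶠ z in 𝓝 ζ, z ≠ ζ →
      (ζ + Bl c a z) / (ζ - Bl c a z) = (ζ + z) / (ζ - z) + F ((ζ - z) / (ζ + z)) := by
    have h1 := hNtend.eventually hF
    have h2 : ∀ᶠ z in 𝓝 ζ, ζ + z ≠ 0 := by
      have : ContinuousAt (fun z : ℂ => ζ + z) ζ := by fun_prop
      exact this.eventually_ne h2ζ
    filter_upwards [h1, h2] with z h3 h4 h5
    have h6 : (ζ - z) / (ζ + z) ≠ 0 := div_ne_zero (sub_ne_zero.2 h5.symm) h4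
    obtain ⟨-, h7⟩ := h3 h6
    rw [hNq z h4, inv_div, inv_div] at h7
    exact h7
  -- imaginary values on the axis
  have him : ∀ᶠ t : ℝ in 𝓝 0, t ≠ 0 → (F ((t : ℂ) * Complex.I)).re = 0 := by
    have h1 : Tendsto (fun t : ℝ => (t : ℂ) * Complex.I) (𝓝 0) (𝓝 0) := by
      have : Continuous (fun t : ℝ => (t : ℂ) * Complex.I) := by fun_prop
      simpa using this.tendsto 0
    filter_upwards [h1.eventually hF] with t h2 h3
    have h4 : (t : ℂ) * Complex.I ≠ 0 := mul_ne_zero (by exact_mod_cast h3) Complex.I_ne_zero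
    obtain ⟨h5, h6⟩ := h2 h4
    have h7 : F (t * Complex.I) = (q (t * Complex.I))⁻¹ - ((t : ℂ) * Complex.I)⁻¹ := by
      rw [h6]; ring
    have hz1 : ‖Z (t * Complex.I)‖ = 1 := by
      rw [hZ]
      simp only [norm_mul, norm_div, hζ, one_mul]
      have e1 : (starRingEnd ℂ) (1 + (t : ℂ) * Complex.I) = 1 - (t : ℂ) * Complex.I := by
        simp; ring
      rw [← e1, RCLike.norm_conj]
      apply div_self
      rw [norm_ne_zero_iff]
      intro h
      have := congrArg Complex.re h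
      simp at this
    have h8 : ((q (t * Complex.I))⁻¹).re = 0 := by
      rw [hq]
      simp only [inv_div]
      exact Beta_im hζ (norm_Bl hd hz1)
    have h9 : (((t : ℂ) * Complex.I)⁻¹).re = 0 := by
      rw [Complex.inv_re]
      simp
    rw [h7, Complex.sub_re, h8, h9, sub_zero]
  obtain ⟨-, C, hC, hre⟩ := Beta_re hFan him
  -- F 0 = 0
  have hF0 : F 0 = 0 := by
    by_contra hne
    obtain ⟨w, hwd⟩ : ∃ w : ℕ → ℂ, w = fun n => (Bl c a)^[n] w₀ := ⟨_, rfl⟩
    have hwD : ∀ n, ‖w n‖ < 1 := by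
      intro n
      have h1 : (Bl c a)^[n] w₀ ∈ Dk := (Bl_mapsTo hd).iterate n hw₀
      rw [hwd]
      exact mem_ball_zero_iff.1 h1
    have hws : ∀ n, w (n + 1) = Bl c a (w n) := by
      intro n
      rw [hwd]
      exact Function.iterate_succ_apply' _ _ _
    have hwt : Tendsto w atTop (𝓝 ζ) := by rw [hwd]; exact hw
    have hwne : ∀ n, w n ≠ ζ := by
      intro n h
      have := hwD n
      rw [h, hζ] at this
      exact lt_irrefl _ this
    obtain ⟨c', hc', hev'⟩ := Beta_seq (W := fun n => (ζ + w n) / (ζ - w n)) (F := F) hC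
      (fun n => Beta_pos hζ (hwD n))
      (by
        filter_upwards [hwt.eventually hev] with n hn
        have := hn (hwne n)
        rw [hws n, inv_div]
        exact this)
      (by
        have := hNtend.comp hwt
        refine this.congr fun n => ?_
        simp only [Function.comp, inv_div])
      hFan.continuousAt hne hre
    have h1 : ∀ᶠ n : ℕ in atTop, c' ≤ ‖mob ((Bl c a)^[n] w₀) ((Bl c a)^[n + 1] w₀)‖ := by
      filter_upwards [hev'] with n hn
      have e1 : (Bl c a)^[n] w₀ = w n := by rw [hwd]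
      have e2 : (Bl c a)^[n + 1] w₀ = w (n + 1) := by rw [hwd]
      rw [e1, e2, Beta_step hζ (hwD n) (hwD (n + 1))]
      exact hn
    have h2 := hstep.eventually (gt_mem_nhds hc')
    obtain ⟨n, hn1, hn2⟩ := (h1.and h2).exists
    exact absurd hn2 (not_lt.2 hn1)
  -- conclusion
  have hlim : Tendsto (fun z : ℂ => F ((ζ - z) / (ζ + z))) (𝓝[≠] ζ) (𝓝 0) := by
    have h1 := hFan.continuousAt.tendsto.comp hNtend
    rw [hF0] at h1
    exact h1.mono_left nhdsWithin_le_nhds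
  refine hlim.congr' ?_
  rw [EventuallyEq, eventually_nhdsWithin_iff]
  filter_upwards [hev] with z h1 h2
  rw [h1 h2]
  ring

end Pool.Agent.TC
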