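/-
Project TC (MP_d9e400_an). Module LDefs.
Definitions for the map on the line.
-/
import Mathlib
import Pool.Agent.TB.Defs
import Pool.Agent.TC.Defs

set_option autoImplicit false

open Set Filter Topology Metric

namespace Pool.Agent.TC

open Pool.Agent.TB

/-- the point of the circle with coordinate `x`: `(ζ + pt) / (ζ - pt) = i x` -/
noncomputable def pt (ζ : ℂ) (x : ℝ) : ℂ := ζ * ((x * Complex.I - 1) / (x * Complex.I + 1))

/-- an expanding map of the line with finitely many poles, asymptotic to the identity -/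
structure LineData (G : ℝ → ℝ) (P : Set ℝ) : Prop where
  fin : P.Finite
  der : ∀ x ∉ P, ∃ g' : ℝ, 1 < g' ∧ HasDerivAt G g' x
  top : Tendsto (fun x => G x - x) atTop (𝓝 0)
  bot : Tendsto (fun x => G x - x) atBot (𝓝 0)
  pole : ∀ x ∈ P, Tendsto (fun y => |G y|) (𝓝[≠] x) atTop

end Pool.Agent.TC
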