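/-
Project TC (MP_d9e400_an). Module LineA.
Elementary facts on the map of the line.

PROOFS. E x = G x - x has derivative > 0 off P, so it is strictly increasing on every interval (convex set) disjoint from P
(strictMonoOn_of_deriv_pos; or the mean value theorem). P ≠ ∅: otherwise E is strictly increasing on ℝ with limit 0 at both ends: impossible.
E_neg: E is strictly increasing on (x_max, ∞) with limit 0. E_pos: the same on the left. G is strictly increasing on intervals disjoint
from P (E + id). pole_right: on (p, p+δ) (no other pole) G is increasing and |G| → ∞ as y → p+, so G → -∞. pole_left: G → +∞.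
-/
import Mathlib
import Pool.Agent.TB.Defs
import Pool.Agent.TC.Defs
import Pool.Agent.TC.LDefs

set_option autoImplicit false

open Set Filter Topology Metric

namespace Pool.Agent.TC

open Pool.Agent.TB

theorem LineData.cont {G : ℝ → ℝ} {P : Set ℝ} (L : LineData G P) : ContinuousOn G Pᶜ := by
  intro x hx
  obtain ⟨g', _, hd⟩ := L.der x hx
  exact hd.continuousAt.continuousWithinAt

theorem LineData.E_mono {G : ℝ → ℝ} {P : Set ℝ} (L : LineData G P) {I : Set ℝ}
    (hI : Convex ℝ I) (hd : Disjoint I P) : StrictMonoOn (fun x => G x - x) I := by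
  have hsub : I ⊆ Pᶜ := fun x hx hp => Set.disjoint_left.mp hd hx hp
  apply strictMonoOn_of_deriv_pos hI
  · exact (L.cont.mono hsub).sub continuousOn_id
  · intro x hx
    obtain ⟨g', hg', hd'⟩ := L.der x (hsub (interior_subset hx))
    have h1 : HasDerivAt (fun x => G x - x) (g' - 1) x := hd'.sub (hasDerivAt_id x)
    rw [h1.deriv]
    linarith

theorem LineData.G_mono {G : ℝ → ℝ} {P : Set ℝ} (L : LineData G P) {I : Set ℝ}
    (hI : Convex ℝ I) (hd : Disjoint I P) : StrictMonoOn G I := by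
  intro x hx y hy hxy
  have h := L.E_mono hI hd hx hy hxy
  simp only at h
  linarith

theorem LineData.E_neg {G : ℝ → ℝ} {P : Set ℝ} (L : LineData G P) {x : ℝ}
    (hx : ∀ p ∈ P, p < x) : G x < x := by
  have hm : StrictMonoOn (fun x => G x - x) (Ici x) := by
    apply L.E_mono (convex_Ici x)
    rw [Set.disjoint_left]
    intro y hy hp
    exact absurd (hx y hp) (not_lt.mpr hy)
  have h1 : G (x + 1) - (x + 1) ≤ 0 := by
    apply ge_of_tendsto L.top
    filter_upwards [eventually_ge_atTop (x + 1)] with y hy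
    have h2 : x + 1 ∈ Ici x := by simp
    have h3 : y ∈ Ici x := by simp only [mem_Ici]; linarith
    exact hm.monotoneOn h2 h3 hy
  have h2 := hm (a := x) (b := x + 1) (by simp) (by simp) (by linarith)
  simp only at h2
  linarith

theorem LineData.E_pos {G : ℝ → ℝ} {P : Set ℝ} (L : LineData G P) {x : ℝ}
    (hx : ∀ p ∈ P, x < p) : x < G x := by
  have hm : StrictMonoOn (fun x => G x - x) (Iic x) := by
    apply L.E_mono (convex_Iic x)
    rw [Set.disjoint_left]
    intro y hy hp
    exact absurd (hx y hp) (not_lt.mpr hy)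
  have h1 : 0 ≤ G (x - 1) - (x - 1) := by
    apply le_of_tendsto L.bot
    filter_upwards [eventually_le_atBot (x - 1)] with y hy
    have h2 : x - 1 ∈ Iic x := by simp
    have h3 : y ∈ Iic x := by simp only [mem_Iic]; linarith
    exact hm.monotoneOn h3 h2 hy
  have h2 := hm (a := x - 1) (b := x) (by simp) (by simp) (by linarith)
  simp only at h2
  linarith

theorem LineData.nonempty {G : ℝ → ℝ} {P : Set ℝ} (L : LineData G P) : P.Nonempty := by
  by_contra h
  rw [Set.not_nonempty_iff_eq_empty] at h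
  have h1 := L.E_neg (x := 0) (by simp [h])
  have h2 := L.E_pos (x := 0) (by simp [h])
  linarith

private theorem LineA_right {P : Set ℝ} (hf : P.Finite) (p : ℝ) :
    ∃ δ > 0, Disjoint (Ioo p (p + δ)) P := by
  have h1 : (P \ {p})ᶜ ∈ 𝓝 p := by
    apply (hf.subset Set.sdiff_subset).isClosed.isOpen_compl.mem_nhds
    simp
  obtain ⟨δ, hδ, hb⟩ := Metric.mem_nhds_iff.mp h1
  refine ⟨δ, hδ, ?_⟩
  rw [Set.disjoint_left]
  intro y hy hp
  have h2 : y ∈ Metric.ball p δ := by
    rw [Metric.mem_ball, Real.dist_eq, abs_lt]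
    constructor <;> linarith [hy.1, hy.2]
  have h3 := hb h2
  apply h3
  refine ⟨hp, ?_⟩
  simp only [Set.mem_singleton_iff]
  exact ne_of_gt hy.1

private theorem LineA_left {P : Set ℝ} (hf : P.Finite) (p : ℝ) :
    ∃ δ > 0, Disjoint (Ioo (p - δ) p) P := by
  have h1 : (P \ {p})ᶜ ∈ 𝓝 p := by
    apply (hf.subset Set.sdiff_subset).isClosed.isOpen_compl.mem_nhds
    simp
  obtain ⟨δ, hδ, hb⟩ := Metric.mem_nhds_iff.mp h1
  refine ⟨δ, hδ, ?_⟩
  rw [Set.disjoint_left]
  intro y hy hp
  have h2 : y ∈ Metric.ball p δ := by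
    rw [Metric.mem_ball, Real.dist_eq, abs_lt]
    constructor <;> linarith [hy.1, hy.2]
  have h3 := hb h2
  apply h3
  refine ⟨hp, ?_⟩
  simp only [Set.mem_singleton_iff]
  exact ne_of_lt hy.2

theorem LineData.pole_right {G : ℝ → ℝ} {P : Set ℝ} (L : LineData G P) {p : ℝ} (hp : p ∈ P) :
    Tendsto G (𝓝[>] p) atBot := by
  obtain ⟨δ, hδ, hdis⟩ := LineA_right L.fin p
  have hm := L.G_mono (convex_Ioo p (p + δ)) hdis
  have habs : Tendsto (fun y => |G y|) (𝓝[>] p) atTop :=
    (L.pole p hp).mono_left (nhdsWithin_mono p (fun y hy => ne_of_gt hy))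
  have hc : p + δ / 2 ∈ Ioo p (p + δ) := ⟨by linarith, by linarith⟩
  rw [tendsto_atBot]
  intro b
  filter_upwards [(Filter.tendsto_atTop.mp habs (max (-b) (|G (p + δ / 2)|) + 1)),
    Ioo_mem_nhdsGT (show p < p + δ / 2 by linarith)] with y hy hyI
  have hyI' : y ∈ Ioo p (p + δ) := ⟨hyI.1, by linarith [hyI.2]⟩
  have h1 := hm hyI' hc hyI.2
  have h2 : G (p + δ / 2) ≤ |G (p + δ / 2)| := le_abs_self _
  have h3 := le_max_left (-b) (|G (p + δ / 2)|)
  have h4 := le_max_right (-b) (|G (p + δ / 2)|)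
  rcases abs_cases (G y) with ⟨h5, _⟩ | ⟨h5, _⟩
  · rw [h5] at hy; linarith
  · rw [h5] at hy; linarith

theorem LineData.pole_left {G : ℝ → ℝ} {P : Set ℝ} (L : LineData G P) {p : ℝ} (hp : p ∈ P) :
    Tendsto G (𝓝[<] p) atTop := by
  obtain ⟨δ, hδ, hdis⟩ := LineA_left L.fin p
  have hm := L.G_mono (convex_Ioo (p - δ) p) hdis
  have habs : Tendsto (fun y => |G y|) (𝓝[<] p) atTop :=
    (L.pole p hp).mono_left (nhdsWithin_mono p (fun y hy => ne_of_lt hy))
  have hc : p - δ / 2 ∈ Ioo (p - δ) p := ⟨by linarith, by linarith⟩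
  rw [Filter.tendsto_atTop]
  intro b
  filter_upwards [(Filter.tendsto_atTop.mp habs (max b (|G (p - δ / 2)|) + 1)),
    Ioo_mem_nhdsLT (show p - δ / 2 < p by linarith)] with y hy hyI
  have hyI' : y ∈ Ioo (p - δ) p := ⟨by linarith [hyI.1], hyI.2⟩
  have h1 := hm hc hyI' hyI.1
  have h2 : -|G (p - δ / 2)| ≤ G (p - δ / 2) := neg_abs_le _
  have h3 := le_max_left b (|G (p - δ / 2)|)
  have h4 := le_max_right b (|G (p - δ / 2)|)
  rcases abs_cases (G y) with ⟨h5, _⟩ | ⟨h5, _⟩
  · rw [h5] at hy; linarith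
  · rw [h5] at hy; linarith

end Pool.Agent.TC
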