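/-
Project TC (MP_d9e400_an). Module LineB.
Every interval contains a point whose orbit hits a pole.

PROOF. Suppose G^[n] x ∉ P for all x ∈ Ioo u v and all n. Choose u < u₀ < v₀ < v. By induction G^[n] is continuous and strictly increasing on
Icc u₀ v₀ with image Icc (u_n) (v_n), which is disjoint from P (u_n = G^[n] u₀, v_n = G^[n] v₀; IVT; G_mono on that interval).
E x = G x - x, δ_n = v_n - u_n: δ_{n+1} = δ_n + E v_n - E u_n > δ_n. Fix M₀ > 0 with P ⊆ (-M₀, M₀) and |E x| ≤ 1 for |x| ≥ M₀ (top, bot).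
Step 1: δ is bounded. Otherwise δ_n > 4M₀ + 4 for n ≥ n₁. Then either [u_n, v_n] is to the right of all poles (R) or to the left (L) (P ≠ ∅, length).
In case R: v_n > 3M₀ + 4, E v_n ∈ [-1,0) (E_neg), so v_{n+1} ∈ [v_n - 1, v_n), v_{n+1} > M₀: case R again. So case R holds for all m ≥ n and
v_m ≤ v_n, u_m > -M₀: δ bounded, contradiction. Case L symmetric (u_n increasing, E_pos).
Step 2: δ_n converges to δ* > 0 (monotone bounded), so E v_n - E u_n → 0.
Step 3: |u_n| does not tend to ∞: otherwise for n ≥ n₂ |u_n| > M₀ + 1; if u_n > M₀+1 then u_{n+1} = u_n + E u_n ∈ [u_n - 1, u_n), so > M₀ hence > M₀+1 (since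
|u_{n+1}| > M₀+1), so u stays positive and decreasing: bounded; the same on the left (increasing, bounded). So there is a subsequence
u_{n_k} → u*, v_{n_k} → v* = u* + δ*. (u*,v*) is disjoint from P (a pole there would be in (u_{n_k}, v_{n_k})).
Step 4: fix x₁ < x₂ in (u*,v*). For large k u_{n_k} < x₁ < x₂ < v_{n_k}, and E is increasing on [u_{n_k}, v_{n_k}]:
E v_{n_k} - E u_{n_k} ≥ E x₂ - E x₁ > 0 (E_mono on [x₁,x₂]): contradiction to Step 2.
-/
import Mathlib
import Pool.Agent.TB.Defs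
import Pool.Agent.TC.Defs
import Pool.Agent.TC.LDefs
import Pool.Agent.TC.LineA

set_option autoImplicit false

open Set Filter Topology Metric

namespace Pool.Agent.TC

open Pool.Agent.TB

private theorem LineB_iter {G : ℝ → ℝ} {P : Set ℝ} (L : LineData G P) {u v u₀ v₀ : ℝ}
    (h1 : u < u₀) (h2 : u₀ < v₀) (h3 : v₀ < v)
    (hno : ∀ x ∈ Ioo u v, ∀ n : ℕ, G^[n] x ∉ P) (n : ℕ) :
    ContinuousOn G^[n] (Icc u₀ v₀) ∧ StrictMonoOn G^[n] (Icc u₀ v₀) ∧
      Disjoint (Icc (G^[n] u₀) (G^[n] v₀)) P := by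
  have hsub : Icc u₀ v₀ ⊆ Ioo u v := fun x hx => ⟨h1.trans_le hx.1, hx.2.trans_lt h3⟩
  have hu₀ : u₀ ∈ Icc u₀ v₀ := left_mem_Icc.2 h2.le
  have hv₀ : v₀ ∈ Icc u₀ v₀ := right_mem_Icc.2 h2.le
  induction n with
  | zero =>
    refine ⟨continuousOn_id, strictMonoOn_id, ?_⟩
    rw [Set.disjoint_left]
    intro y hy
    exact hno y (hsub hy) 0
  | succ n ih =>
    obtain ⟨c1, c2, c3⟩ := ih
    have hmaps : MapsTo G^[n] (Icc u₀ v₀) (Icc (G^[n] u₀) (G^[n] v₀)) := fun x hx =>
      ⟨c2.monotoneOn hu₀ hx hx.1, c2.monotoneOn hx hv₀ hx.2⟩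
    have hGc : ContinuousOn G (Icc (G^[n] u₀) (G^[n] v₀)) :=
      L.cont.mono fun y hy hyP => Set.disjoint_left.1 c3 hy hyP
    have hGm : StrictMonoOn G (Icc (G^[n] u₀) (G^[n] v₀)) := L.G_mono (convex_Icc _ _) c3
    have hc : ContinuousOn G^[n + 1] (Icc u₀ v₀) := by
      rw [Function.iterate_succ']
      exact hGc.comp c1 hmaps
    refine ⟨hc, ?_, ?_⟩
    · rw [Function.iterate_succ']
      exact hGm.comp c2 hmaps
    · rw [Set.disjoint_left]
      intro y hy
      obtain ⟨x, hx, rfl⟩ := intermediate_value_Icc h2.le hc hy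
      exact hno x (hsub hx) (n + 1)

theorem LineData.hits {G : ℝ → ℝ} {P : Set ℝ} (L : LineData G P) {u v : ℝ} (huv : u < v) :
    ∃ x ∈ Ioo u v, ∃ n : ℕ, (∀ k < n, G^[k] x ∉ P) ∧ G^[n] x ∈ P := by
  classical
  suffices h : ∃ x ∈ Ioo u v, ∃ n : ℕ, G^[n] x ∈ P by
    obtain ⟨x, hx, hn⟩ := h
    exact ⟨x, hx, Nat.find hn, fun k hk => Nat.find_min hn hk, Nat.find_spec hn⟩
  by_contra hcon
  have hno : ∀ x ∈ Ioo u v, ∀ n : ℕ, G^[n] x ∉ P := fun x hx n hn => hcon ⟨x, hx, n, hn⟩
  obtain ⟨u₀, h1, h1'⟩ := exists_between huv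
  obtain ⟨v₀, h2, h3⟩ := exists_between h1'
  have key := LineB_iter L h1 h2 h3 hno
  obtain ⟨un, hun⟩ : ∃ un : ℕ → ℝ, un = fun n => G^[n] u₀ := ⟨_, rfl⟩
  obtain ⟨vn, hvn⟩ : ∃ vn : ℕ → ℝ, vn = fun n => G^[n] v₀ := ⟨_, rfl⟩
  obtain ⟨E, hE⟩ : ∃ E : ℝ → ℝ, E = fun x => G x - x := ⟨_, rfl⟩
  have hu₀ : u₀ ∈ Icc u₀ v₀ := left_mem_Icc.2 h2.le
  have hv₀ : v₀ ∈ Icc u₀ v₀ := right_mem_Icc.2 h2.le
  have hlt : ∀ n, un n < vn n := fun n => by
    rw [hun, hvn]; exact (key n).2.1 hu₀ hv₀ h2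
  have hdis : ∀ n, Disjoint (Icc (un n) (vn n)) P := fun n => by
    rw [hun, hvn]; exact (key n).2.2
  have hus : ∀ n, un (n + 1) = un n + E (un n) := fun n => by
    simp only [hun, hE, Function.iterate_succ_apply']; ring
  have hvs : ∀ n, vn (n + 1) = vn n + E (vn n) := fun n => by
    simp only [hvn, hE, Function.iterate_succ_apply']; ring
  have hEm : ∀ n, StrictMonoOn E (Icc (un n) (vn n)) := fun n => by
    rw [hE]; exact L.E_mono (convex_Icc _ _) (hdis n)
  have hEn : ∀ x, (∀ p ∈ P, p < x) → E x < 0 := fun x hx => by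
    rw [hE]; have := L.E_neg hx; simp only; linarith
  have hEp : ∀ x, (∀ p ∈ P, x < p) → 0 < E x := fun x hx => by
    rw [hE]; have := L.E_pos hx; simp only; linarith
  -- the constant M₀
  obtain ⟨M₀, hM1, hMP, hMt, hMb⟩ : ∃ M₀ : ℝ, 1 ≤ M₀ ∧ (∀ p ∈ P, |p| < M₀) ∧
      (∀ x, M₀ ≤ x → |E x| ≤ 1) ∧ ∀ x, x ≤ -M₀ → |E x| ≤ 1 := by
    have e1 : ∀ᶠ x in atTop, |E x| ≤ 1 := by
      have := (L.top.abs).eventually_le_const (show |(0 : ℝ)| < 1 by simp)
      rw [hE]; exact this
    have e2 : ∀ᶠ x in atBot, |E x| ≤ 1 := by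
      have := (L.bot.abs).eventually_le_const (show |(0 : ℝ)| < 1 by simp)
      rw [hE]; exact this
    obtain ⟨a1, ha1⟩ := eventually_atTop.1 e1
    obtain ⟨a2, ha2⟩ := eventually_atBot.1 e2
    obtain ⟨a3, ha3⟩ := (L.fin.image (fun p : ℝ => |p|)).bddAbove
    refine ⟨max 1 (max a1 (max (-a2) (a3 + 1))), le_max_left _ _, fun p hp => ?_, fun x hx => ?_,
      fun x hx => ?_⟩
    · have h5 : |p| ≤ a3 := ha3 ⟨p, hp, rfl⟩
      have h6 : a3 + 1 ≤ max 1 (max a1 (max (-a2) (a3 + 1))) :=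
        (le_max_right _ _).trans ((le_max_right _ _).trans (le_max_right _ _))
      linarith
    · exact ha1 x (((le_max_left _ _).trans (le_max_right _ _)).trans hx)
    · refine ha2 x ?_
      have h6 : -a2 ≤ max 1 (max a1 (max (-a2) (a3 + 1))) :=
        (le_max_left _ _).trans ((le_max_right _ _).trans (le_max_right _ _))
      linarith
  obtain ⟨p₀, hp₀⟩ := L.nonempty
  have hp₀M := hMP p₀ hp₀
  rw [abs_lt] at hp₀M
  -- all poles are left of `un` if they are left of `vn`
  have hR : ∀ m, M₀ < vn m → ∀ p ∈ P, p < un m := by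
    intro m hm p hp
    by_contra h
    push Not at h
    have h5 := abs_lt.1 (hMP p hp)
    exact Set.disjoint_left.1 (hdis m) ⟨h, by linarith [h5.2]⟩ hp
  have hL : ∀ m, un m < -M₀ → ∀ p ∈ P, vn m < p := by
    intro m hm p hp
    by_contra h
    push Not at h
    have h5 := abs_lt.1 (hMP p hp)
    exact Set.disjoint_left.1 (hdis m) ⟨by linarith [h5.1], h⟩ hp
  obtain ⟨δ, hδ⟩ : ∃ δ : ℕ → ℝ, δ = fun n => vn n - un n := ⟨_, rfl⟩
  have hδs : ∀ n, δ (n + 1) = δ n + (E (vn n) - E (un n)) := fun n => by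
    simp only [hδ, hus, hvs]; ring
  have hEE : ∀ n, 0 < E (vn n) - E (un n) := fun n => by
    have := hEm n (left_mem_Icc.2 (hlt n).le) (right_mem_Icc.2 (hlt n).le) (hlt n)
    linarith
  have hδm : Monotone δ := monotone_nat_of_le_succ fun n => by
    rw [hδs]; linarith [hEE n]
  have hδpos : ∀ n, 0 < δ n := fun n => by
    simp only [hδ]; linarith [hlt n]
  -- Step 1
  have hbdd : ∃ D, ∀ n, δ n ≤ D := by
    by_contra hunb
    push Not at hunb
    obtain ⟨n₁, hn₁⟩ := hunb (4 * M₀ + 4)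
    have hbig : ∀ k, 4 * M₀ + 4 < δ (n₁ + k) := fun k =>
      hn₁.trans_le (hδm (Nat.le_add_right _ _))
    rcases le_or_gt M₀ (vn n₁) with hcase | hcase
    · have hstart : M₀ < vn n₁ := by
        rcases hcase.lt_or_eq with h | h
        · exact h
        · exfalso
          have h5 := hbig 0
          rw [Nat.add_zero] at h5
          simp only [hδ] at h5
          have h6 : un n₁ < -M₀ := by linarith
          have h7 := hL n₁ h6 p₀ hp₀
          linarith
      have inv : ∀ k, M₀ < vn (n₁ + k) ∧ vn (n₁ + k) ≤ vn n₁ := by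
        intro k
        induction k with
        | zero => exact ⟨hstart, le_refl _⟩
        | succ k ih =>
          obtain ⟨i1, i2⟩ := ih
          have h5 := hR _ i1
          have h6 : ∀ p ∈ P, p < vn (n₁ + k) := fun p hp => (h5 p hp).trans (hlt _)
          have h7 := hEn _ h6
          have h8 := hMt _ i1.le
          rw [abs_le] at h8
          have h9 := hbig k
          simp only [hδ] at h9
          have h10 := h5 p₀ hp₀
          have h11 := hvs (n₁ + k)
          rw [← Nat.add_assoc, h11]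
          constructor
          · linarith [h8.1]
          · linarith
      obtain ⟨n₂, hn₂⟩ := hunb (vn n₁ + M₀)
      have h5 := hδm (show n₂ ≤ n₁ + n₂ from Nat.le_add_left _ _)
      have h6 := inv n₂
      have h7 := hR _ h6.1 p₀ hp₀
      simp only [hδ] at h5 hn₂
      linarith
    · have hstart : un n₁ < -M₀ := by
        have h5 := hbig 0
        rw [Nat.add_zero] at h5
        simp only [hδ] at h5
        linarith
      have inv : ∀ k, un (n₁ + k) < -M₀ ∧ un n₁ ≤ un (n₁ + k) := by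
        intro k
        induction k with
        | zero => exact ⟨hstart, le_refl _⟩
        | succ k ih =>
          obtain ⟨i1, i2⟩ := ih
          have h5 := hL _ i1
          have h6 : ∀ p ∈ P, un (n₁ + k) < p := fun p hp => (hlt _).trans (h5 p hp)
          have h7 := hEp _ h6
          have h8 := hMb _ i1.le
          rw [abs_le] at h8
          have h9 := hbig k
          simp only [hδ] at h9
          have h10 := h5 p₀ hp₀
          have h11 := hus (n₁ + k)
          rw [← Nat.add_assoc, h11]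
          constructor
          · linarith [h8.2]
          · linarith
      obtain ⟨n₂, hn₂⟩ := hunb (M₀ - un n₁)
      have h5 := hδm (show n₂ ≤ n₁ + n₂ from Nat.le_add_left _ _)
      have h6 := inv n₂
      have h7 := hL _ h6.1 p₀ hp₀
      simp only [hδ] at h5 hn₂
      linarith
  -- Step 2
  obtain ⟨D, hD⟩ := hbdd
  have hδb : BddAbove (range δ) := ⟨D, by rintro _ ⟨n, rfl⟩; exact hD n⟩
  have hδl := tendsto_atTop_ciSup hδm hδb
  obtain ⟨δs, hδs'⟩ : ∃ δs, δs = ⨆ n, δ n := ⟨_, rfl⟩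
  rw [← hδs'] at hδl
  have hδspos : 0 < δs := (hδpos 0).trans_le (by rw [hδs']; exact le_ciSup hδb 0)
  have hE0 : Tendsto (fun n => E (vn n) - E (un n)) atTop (𝓝 0) := by
    have h5 := (hδl.comp (tendsto_add_atTop_nat 1)).sub hδl
    rw [sub_self] at h5
    refine h5.congr fun n => ?_
    simp only [Function.comp_apply, hδs]
    ring
  -- Step 3
  have hfreq : ∃ C, ∃ᶠ n in atTop, |un n| ≤ C := by
    by_contra hcon2
    push Not at hcon2
    obtain ⟨n₂, hn₂⟩ := eventually_atTop.1 (hcon2 (M₀ + 1))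
    rcases le_or_gt 0 (un n₂) with hcase | hcase
    · have inv : ∀ k, M₀ + 1 < un (n₂ + k) ∧ un (n₂ + k) ≤ un n₂ := by
        intro k
        induction k with
        | zero =>
          have := hn₂ n₂ le_rfl
          rw [abs_of_nonneg hcase] at this
          exact ⟨this, le_refl _⟩
        | succ k ih =>
          obtain ⟨i1, i2⟩ := ih
          have h6 : ∀ p ∈ P, p < un (n₂ + k) := fun p hp => by
            have := abs_lt.1 (hMP p hp)
            linarith [this.2]
          have h7 := hEn _ h6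
          have h8 := hMt (un (n₂ + k)) (by linarith)
          rw [abs_le] at h8
          have h11 := hus (n₂ + k)
          have h12 := hn₂ (n₂ + (k + 1)) (Nat.le_add_right _ _)
          rw [← Nat.add_assoc] at h12 ⊢
          have h13 : 0 ≤ un (n₂ + k + 1) := by rw [h11]; linarith [h8.1]
          rw [abs_of_nonneg h13] at h12
          exact ⟨h12, by rw [h11]; linarith⟩
      obtain ⟨n₃, hn₃⟩ := eventually_atTop.1 (hcon2 (un n₂))
      have h5 := hn₃ (n₂ + n₃) (Nat.le_add_left _ _)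
      have h6 := inv n₃
      rw [abs_of_nonneg (by linarith [h6.1])] at h5
      linarith [h6.2]
    · have inv : ∀ k, un (n₂ + k) < -(M₀ + 1) ∧ un n₂ ≤ un (n₂ + k) := by
        intro k
        induction k with
        | zero =>
          have := hn₂ n₂ le_rfl
          rw [abs_of_neg hcase] at this
          exact ⟨by rw [Nat.add_zero]; linarith, le_refl _⟩
        | succ k ih =>
          obtain ⟨i1, i2⟩ := ih
          have h6 : ∀ p ∈ P, un (n₂ + k) < p := fun p hp => by
            have := abs_lt.1 (hMP p hp)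
            linarith [this.1]
          have h7 := hEp _ h6
          have h8 := hMb (un (n₂ + k)) (by linarith)
          rw [abs_le] at h8
          have h11 := hus (n₂ + k)
          have h12 := hn₂ (n₂ + (k + 1)) (Nat.le_add_right _ _)
          rw [← Nat.add_assoc] at h12 ⊢
          have h13 : un (n₂ + k + 1) < 0 := by rw [h11]; linarith [h8.2]
          rw [abs_of_neg h13] at h12
          exact ⟨by linarith, by rw [h11]; linarith⟩
      obtain ⟨n₃, hn₃⟩ := eventually_atTop.1 (hcon2 (-un n₂))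
      have h5 := hn₃ (n₂ + n₃) (Nat.le_add_left _ _)
      have h6 := inv n₃
      rw [abs_of_neg (by linarith [h6.1])] at h5
      linarith [h6.2]
  obtain ⟨C, hC⟩ := hfreq
  have hC' : ∃ᶠ n in atTop, un n ∈ Metric.closedBall (0 : ℝ) C :=
    hC.mono fun n hn => by rwa [mem_closedBall_zero_iff, Real.norm_eq_abs]
  obtain ⟨us, -, ψ, hψ, hψl⟩ := tendsto_subseq_of_frequently_bounded Metric.isBounded_closedBall hC'
  have hvl : Tendsto (fun k => vn (ψ k)) atTop (𝓝 (us + δs)) := by
    have h5 := hψl.add (hδl.comp hψ.tendsto_atTop)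
    refine h5.congr fun k => ?_
    simp only [Function.comp_apply, hδ]
    ring
  -- Step 4
  have h5 : ∀ᶠ k in atTop, un (ψ k) < us + δs / 3 :=
    hψl.eventually_lt_const (by linarith)
  have h6 : ∀ᶠ k in atTop, us + 2 * δs / 3 < vn (ψ k) :=
    hvl.eventually_const_lt (by linarith)
  have h7 : E (us + δs / 3) < E (us + 2 * δs / 3) := by
    obtain ⟨k, hk1, hk2⟩ := (h5.and h6).exists
    exact hEm (ψ k) ⟨hk1.le, by linarith⟩ ⟨by linarith, hk2.le⟩ (by linarith)
  have h8 : ∀ᶠ k in atTop, E (us + 2 * δs / 3) - E (us + δs / 3) ≤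
      E (vn (ψ k)) - E (un (ψ k)) := by
    filter_upwards [h5, h6] with k hk1 hk2
    have m := (hEm (ψ k)).monotoneOn
    have m1 := m (left_mem_Icc.2 (hlt (ψ k)).le) (⟨hk1.le, by linarith⟩ : us + δs / 3 ∈ Icc _ _) hk1.le
    have m2 := m (⟨by linarith, hk2.le⟩ : us + 2 * δs / 3 ∈ Icc _ _) (right_mem_Icc.2 (hlt (ψ k)).le) hk2.le
    linarith
  have h9 : Tendsto (fun k => E (vn (ψ k)) - E (un (ψ k))) atTop (𝓝 0) :=
    hE0.comp hψ.tendsto_atTop
  have h10 := ge_of_tendsto h9 h8
  linarith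

end Pool.Agent.TC
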