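/-
Project TC (MP_d9e400_an). Module LineC.
Images of intervals eventually cover the line.

PROOF. For m let A_m = {G^[m] x | x ∈ Ioo u v, ∀ k < m, G^[k] x ∉ P}. `hits`: x₀ ∈ Ioo u v, n, p₀ = G^[n] x₀ ∈ P, G^[k] x₀ ∉ P for k < n. For x near x₀ the points
G^[k] x, k < n, are not in P (P closed, continuity by induction), and G^[n] is continuous and strictly increasing near x₀: its image contains
(p₀-η, p₀+η) ⊆ A_n, η so small that there is no other pole. G maps (p₀-η, p₀) onto a set containing some (R, ∞) (pole_left, continuity, IVT). So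
A_{n+1} ⊇ (R, ∞), WLOG R > x_max := max P.
If b > x_max and A_m ⊇ (b, ∞) then A_{m+1} ⊇ G '' (b,∞) ⊇ (G b, ∞) (continuous, G y ≥ y - 1 → ∞). Iterate b_{j+1} = G b_j from b_0 = R as long as b_j > x_max;
b_{j+1} < b_j (E_neg). Some b_j ≤ x_max: otherwise b_j ↓ b* ≥ x_max; b* > x_max gives G b* = b*, contradiction to E_neg; b* = x_max gives
b_{j+1} = G b_j → -∞ (pole_right), contradiction. So some A_m ⊇ (x_max, ∞), and A_{m+1} ⊇ G '' (x_max, ∞) = ℝ (pole_right, → ∞ at ∞, IVT).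
N = m + 1 > n; the second claim holds for x₀ with k = n.
-/
import Mathlib
import Pool.Agent.TB.Defs
import Pool.Agent.TC.Defs
import Pool.Agent.TC.LDefs
import Pool.Agent.TC.LineA
import Pool.Agent.TC.LineB

set_option autoImplicit false

open Set Filter Topology Metric

namespace Pool.Agent.TC

open Pool.Agent.TB

/-- the set of values at time `m` -/
def LineC_A (G : ℝ → ℝ) (P : Set ℝ) (u v : ℝ) (m : ℕ) : Set ℝ :=
  {y | ∃ x ∈ Ioo u v, (∀ k < m, G^[k] x ∉ P) ∧ G^[m] x = y}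

theorem LineC_step {G : ℝ → ℝ} {P : Set ℝ} {u v : ℝ} {m : ℕ} {y : ℝ}
    (hy : y ∈ LineC_A G P u v m) (hP : y ∉ P) : G y ∈ LineC_A G P u v (m + 1) := by
  obtain ⟨x, hx, hk, rfl⟩ := hy
  refine ⟨x, hx, fun k hkm => ?_, Function.iterate_succ_apply' G m x⟩
  rcases Nat.lt_succ_iff_lt_or_eq.mp hkm with h | h
  · exact hk k h
  · rw [h]; exact hP

theorem LineC_nhds {G : ℝ → ℝ} {P : Set ℝ} (L : LineData G P) {S : Set ℝ} {y : ℝ}
    (hS : S ∈ 𝓝 y) (hy : y ∉ P) : G '' (S ∩ Pᶜ) ∈ 𝓝 (G y) := by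
  have h1 : S ∩ Pᶜ ∈ 𝓝 y := inter_mem hS (L.fin.isClosed.isOpen_compl.mem_nhds hy)
  obtain ⟨ε, hε, hball⟩ := Metric.mem_nhds_iff.mp h1
  have hIcc : Icc (y - ε / 2) (y + ε / 2) ⊆ S ∩ Pᶜ := by
    intro z hz
    apply hball
    rw [Metric.mem_ball, Real.dist_eq, abs_lt]
    constructor <;> linarith [hz.1, hz.2]
  have hmono := L.G_mono (convex_Icc (y - ε / 2) (y + ε / 2))
    (Set.disjoint_left.mpr fun z hz hzP => (hIcc hz).2 hzP)
  have hcont : ContinuousOn G (Icc (y - ε / 2) (y + ε / 2)) :=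
    L.cont.mono fun z hz => (hIcc hz).2
  have hiv := intermediate_value_Icc (by linarith : y - ε / 2 ≤ y + ε / 2) hcont
  have hy1 : G (y - ε / 2) < G y :=
    hmono ⟨le_refl _, by linarith⟩ ⟨by linarith, by linarith⟩ (by linarith)
  have hy2 : G y < G (y + ε / 2) :=
    hmono ⟨by linarith, by linarith⟩ ⟨by linarith, le_refl _⟩ (by linarith)
  exact mem_of_superset (Icc_mem_nhds hy1 hy2) (hiv.trans (image_mono hIcc))

theorem LineC_nhdsA {G : ℝ → ℝ} {P : Set ℝ} (L : LineData G P) {u v x₀ : ℝ} {n : ℕ}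
    (hx₀ : x₀ ∈ Ioo u v) (hk : ∀ k < n, G^[k] x₀ ∉ P) :
    ∀ k ≤ n, LineC_A G P u v k ∈ 𝓝 (G^[k] x₀) := by
  intro k
  induction k with
  | zero =>
    intro _
    refine mem_of_superset (Ioo_mem_nhds hx₀.1 hx₀.2) ?_
    intro x hx
    exact ⟨x, hx, fun k hk => absurd hk (Nat.not_lt_zero k), rfl⟩
  | succ k ih =>
    intro hkn
    have h := LineC_nhds L (ih (by omega)) (hk k (by omega))
    rw [Function.iterate_succ_apply']
    refine mem_of_superset h ?_
    rintro _ ⟨z, ⟨hz, hzP⟩, rfl⟩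
    exact LineC_step hz hzP

theorem LineC_atTop {G : ℝ → ℝ} {P : Set ℝ} (L : LineData G P) : Tendsto G atTop atTop := by
  have h : Tendsto (fun x => x + (G x - x)) atTop atTop :=
    tendsto_id.atTop_add L.top
  refine h.congr fun x => ?_
  ring

theorem LineC_ray {G : ℝ → ℝ} {P : Set ℝ} (L : LineData G P) {u v x₀ : ℝ} {n : ℕ}
    (hx₀ : x₀ ∈ Ioo u v) (hk : ∀ k < n, G^[k] x₀ ∉ P) (hn : G^[n] x₀ ∈ P) :
    ∃ R : ℝ, Ioi R ⊆ LineC_A G P u v (n + 1) := by
  set p := G^[n] x₀ with hp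
  have h1 : LineC_A G P u v n ∈ 𝓝 p := LineC_nhdsA L hx₀ hk n le_rfl
  have h2 : (P \ {p})ᶜ ∈ 𝓝 p :=
    (L.fin.subset sdiff_subset).isClosed.isOpen_compl.mem_nhds (fun h => h.2 rfl)
  obtain ⟨ε, hε, hball⟩ := Metric.mem_nhds_iff.mp (inter_mem h1 h2)
  have hIco : ∀ z ∈ Ico (p - ε / 2) p, z ∈ LineC_A G P u v n ∧ z ∉ P := by
    intro z hz
    have hz' : z ∈ Metric.ball p ε := by
      rw [Metric.mem_ball, Real.dist_eq, abs_lt]
      constructor <;> linarith [hz.1, hz.2]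
    refine ⟨(hball hz').1, fun hzP => (hball hz').2 ⟨hzP, ?_⟩⟩
    exact ne_of_lt hz.2
  refine ⟨G (p - ε / 2), fun y hy => ?_⟩
  have hy : G (p - ε / 2) < y := hy
  have hev : ∀ᶠ b in 𝓝[<] p, y ≤ G b := (L.pole_left hn).eventually_ge_atTop y
  have hev2 : ∀ᶠ b in 𝓝[<] p, b ∈ Ioo (p - ε / 2) p := Ioo_mem_nhdsLT (by linarith)
  obtain ⟨b, hb1, hb2⟩ := (hev.and hev2).exists
  have hsub : ∀ z ∈ Icc (p - ε / 2) b, z ∈ Ico (p - ε / 2) p := fun z hz =>
    ⟨hz.1, lt_of_le_of_lt hz.2 hb2.2⟩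
  have hcont : ContinuousOn G (Icc (p - ε / 2) b) :=
    L.cont.mono fun z hz => (hIco z (hsub z hz)).2
  obtain ⟨z, hz, rfl⟩ := intermediate_value_Icc hb2.1.le hcont ⟨hy.le, hb1⟩
  exact LineC_step (hIco z (hsub z hz)).1 (hIco z (hsub z hz)).2

theorem LineC_iter {G : ℝ → ℝ} {P : Set ℝ} (L : LineData G P) {u v b : ℝ} {m : ℕ}
    (hb : ∀ p ∈ P, p < b) (hA : Ioi b ⊆ LineC_A G P u v m) :
    Ioi (G b) ⊆ LineC_A G P u v (m + 1) := by
  intro y hy
  have hy : G b < y := hy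
  obtain ⟨c, hc1, hc2⟩ :=
    (((LineC_atTop L).eventually_ge_atTop y).and (eventually_ge_atTop b)).exists
  have hnP : ∀ z ∈ Icc b c, z ∉ P := fun z hz hzP => absurd (hb z hzP) (not_lt.mpr hz.1)
  have hcont : ContinuousOn G (Icc b c) := L.cont.mono fun z hz => hnP z hz
  obtain ⟨z, hz, rfl⟩ := intermediate_value_Icc hc2 hcont ⟨hy.le, hc1⟩
  have hbz : b < z := by
    rcases eq_or_lt_of_le hz.1 with h | h
    · rw [h] at hy; exact absurd hy (lt_irrefl _)
    · exact h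
  exact LineC_step (hA hbz) (hnP z hz)

theorem LineC_reach {G : ℝ → ℝ} {P : Set ℝ} (L : LineData G P) {u v R M : ℝ} {n : ℕ}
    (hMP : M ∈ P) (hM : ∀ p ∈ P, p ≤ M) (hR : Ioi R ⊆ LineC_A G P u v n) :
    ∃ m ≥ n, Ioi M ⊆ LineC_A G P u v m := by
  by_contra hcon
  push Not at hcon
  set R' := max R (M + 1) with hR'
  have key : ∀ j : ℕ, M < G^[j] R' ∧ Ioi (G^[j] R') ⊆ LineC_A G P u v (n + j) := by
    intro j
    induction j with
    | zero =>
      constructor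
      · have := le_max_right R (M + 1)
        simp only [Function.iterate_zero, id_eq]
        linarith
      · intro y hy
        apply hR
        exact lt_of_le_of_lt (le_max_left R (M + 1)) hy
    | succ j ih =>
      have hb : ∀ p ∈ P, p < G^[j] R' := fun p hp => lt_of_le_of_lt (hM p hp) ih.1
      have h2 := LineC_iter L hb ih.2
      rw [Function.iterate_succ_apply']
      refine ⟨?_, h2⟩
      by_contra hle
      push Not at hle
      exact hcon (n + j + 1) (by omega) fun y hy => h2 (lt_of_le_of_lt hle hy)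
  have hb : ∀ j, ∀ p ∈ P, p < G^[j] R' := fun j p hp => lt_of_le_of_lt (hM p hp) (key j).1
  have hanti : Antitone fun j : ℕ => G^[j] R' := by
    apply antitone_nat_of_succ_le
    intro j
    rw [Function.iterate_succ_apply']
    exact (L.E_neg (hb j)).le
  have hbdd : BddBelow (range fun j : ℕ => G^[j] R') :=
    ⟨M, by rintro _ ⟨j, rfl⟩; exact (key j).1.le⟩
  have hlim := tendsto_atTop_ciInf hanti hbdd
  set b := ⨅ j : ℕ, G^[j] R' with hbdef
  have hMb : M ≤ b := ge_of_tendsto' hlim fun j => (key j).1.le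
  have hlim1 : Tendsto (fun j : ℕ => G (G^[j] R')) atTop (𝓝 b) := by
    have := hlim.comp (tendsto_add_atTop_nat 1)
    refine this.congr fun j => ?_
    simp only [Function.comp_apply]
    rw [Function.iterate_succ_apply']
  rcases eq_or_lt_of_le hMb with h | h
  · have h1 : Tendsto (fun j : ℕ => G^[j] R') atTop (𝓝[>] M) := by
      rw [tendsto_nhdsWithin_iff]
      refine ⟨by rw [h]; exact hlim, Eventually.of_forall fun j => (key j).1⟩
    have h2 := (L.pole_right hMP).comp h1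
    exact not_tendsto_nhds_of_tendsto_atBot h2 b hlim1
  · have hbP : ∀ p ∈ P, p < b := fun p hp => lt_of_le_of_lt (hM p hp) h
    have hb' : b ∉ P := fun hbp => lt_irrefl _ (hbP b hbp)
    have hca : ContinuousAt G b :=
      L.cont.continuousAt (L.fin.isClosed.isOpen_compl.mem_nhds hb')
    have h3 : Tendsto (fun j : ℕ => G (G^[j] R')) atTop (𝓝 (G b)) := hca.tendsto.comp hlim
    have h4 := tendsto_nhds_unique hlim1 h3
    have h5 := L.E_neg hbP
    linarith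

theorem LineData.cover {G : ℝ → ℝ} {P : Set ℝ} (L : LineData G P) {u v : ℝ} (huv : u < v) :
    ∃ N : ℕ, (∀ y : ℝ, ∃ x ∈ Ioo u v, (∀ k < N, G^[k] x ∉ P) ∧ G^[N] x = y) ∧
      ∃ x ∈ Ioo u v, ∃ k < N, (∀ j < k, G^[j] x ∉ P) ∧ G^[k] x ∈ P := by
  obtain ⟨x₀, hx₀, n, hk, hn⟩ := L.hits huv
  obtain ⟨R, hR⟩ := LineC_ray L hx₀ hk hn
  obtain ⟨M, hMP, hM⟩ := Set.exists_max_image P id L.fin L.nonempty
  simp only [id_eq] at hM
  obtain ⟨m, hm, hmA⟩ := LineC_reach L hMP hM hR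
  refine ⟨m + 1, fun y => ?_, x₀, hx₀, n, by omega, hk, hn⟩
  have hev : ∀ᶠ a in 𝓝[>] M, G a ≤ y := (L.pole_right hMP).eventually_le_atBot y
  obtain ⟨a, ha1, ha2⟩ := (hev.and self_mem_nhdsWithin).exists
  have ha2 : M < a := ha2
  obtain ⟨c, hc1, hc2⟩ :=
    (((LineC_atTop L).eventually_ge_atTop y).and (eventually_ge_atTop a)).exists
  have hnP : ∀ z ∈ Icc a c, z ∉ P := fun z hz hzP => by
    have := hM z hzP
    linarith [hz.1]
  have hcont : ContinuousOn G (Icc a c) := L.cont.mono fun z hz => hnP z hz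
  obtain ⟨z, hz, rfl⟩ := intermediate_value_Icc hc2 hcont ⟨ha1, hc1⟩
  have h := LineC_step (hmA (show M < z by linarith [hz.1])) (hnP z hz)
  exact h

end Pool.Agent.TC
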