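/-
Project TC (MP_d9e400_an). Module PtFacts.
Elementary facts on the coordinate of the circle.

PROOFS. (xi - 1)/(xi + 1) has modulus 1, is never 1; (1+v)/(1-v) = ix for v = (xi-1)/(xi+1). pt_im: for ‖η‖ = 1, η ≠ ζ put x = Im((ζ+η)/(ζ-η)); the
real part of (ζ+η)/(ζ-η) is (1-‖η‖²)/‖ζ-η‖² = 0. pt_tendsto: ‖pt ζ x - ζ‖ = 2/√(1+x²). hasDerivAt_pt: quotient rule;
pt ζ x · (-2i/(1+x²)).
-/
import Mathlib
import Pool.Agent.TB.Defs
import Pool.Agent.TC.Defs
import Pool.Agent.TC.LDefs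

set_option autoImplicit false

open Set Filter Topology Metric

namespace Pool.Agent.TC

open Pool.Agent.TB

private theorem PtFacts_den (x : ℝ) : (x : ℂ) * Complex.I + 1 ≠ 0 := by
  intro h
  have := congrArg Complex.re h
  simp at this

private theorem PtFacts_sq (x : ℝ) : 1 + (x : ℂ) ^ 2 ≠ 0 := by
  intro h
  have h1 : ((1 + x ^ 2 : ℝ) : ℂ) = 0 := by push_cast; exact h
  rw [Complex.ofReal_eq_zero] at h1
  nlinarith

private theorem PtFacts_ne {ζ : ℂ} (hζ : ‖ζ‖ = 1) : ζ ≠ 0 := by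
  rintro rfl
  simp at hζ

theorem norm_pt {ζ : ℂ} (hζ : ‖ζ‖ = 1) (x : ℝ) : ‖pt ζ x‖ = 1 := by
  rw [pt, norm_mul, hζ, one_mul, norm_div]
  have h1 : ‖(x : ℂ) * Complex.I - 1‖ = ‖(x : ℂ) * Complex.I + 1‖ := by
    rw [← sq_eq_sq₀ (norm_nonneg _) (norm_nonneg _), Complex.sq_norm, Complex.sq_norm,
      Complex.normSq_apply, Complex.normSq_apply]
    simp
  rw [h1, div_self]
  exact norm_ne_zero_iff.2 (PtFacts_den x)

theorem pt_ne {ζ : ℂ} (hζ : ‖ζ‖ = 1) (x : ℝ) : pt ζ x ≠ ζ := by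
  intro h
  rw [pt] at h
  have h1 : ((x : ℂ) * Complex.I - 1) / ((x : ℂ) * Complex.I + 1) = 1 := by
    have := mul_left_cancel₀ (PtFacts_ne hζ) (h.trans (mul_one ζ).symm)
    exact this
  rw [div_eq_one_iff_eq (PtFacts_den x)] at h1
  have h2 := congrArg Complex.re h1
  simp at h2
  norm_num at h2

theorem pt_spec {ζ : ℂ} (hζ : ‖ζ‖ = 1) (x : ℝ) : (ζ + pt ζ x) / (ζ - pt ζ x) = x * Complex.I := by
  have h1 : ζ - pt ζ x ≠ 0 := sub_ne_zero.2 (pt_ne hζ x).symm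
  rw [div_eq_iff h1, pt]
  have h2 := PtFacts_den x
  field_simp
  ring

theorem pt_im {ζ η : ℂ} (hζ : ‖ζ‖ = 1) (hη : ‖η‖ = 1) (h : η ≠ ζ) :
    pt ζ ((ζ + η) / (ζ - η)).im = η := by
  have hsub : ζ - η ≠ 0 := sub_ne_zero.2 h.symm
  have hconj : ∀ w : ℂ, ‖w‖ = 1 → w * (starRingEnd ℂ) w = 1 := by
    intro w hw
    rw [Complex.mul_conj, Complex.normSq_eq_norm_sq, hw]
    simp
  have hcs : (starRingEnd ℂ) (ζ - η) ≠ 0 := by
    intro h1
    apply hsub
    have := congrArg (starRingEnd ℂ) h1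
    simpa using this
  set w := (ζ + η) / (ζ - η) with hw
  have hcw : (starRingEnd ℂ) w = -w := by
    rw [hw, map_div₀, div_eq_iff hcs, neg_mul, eq_comm, ← neg_mul, ← neg_div, div_mul_eq_mul_div,
      div_eq_iff hsub, map_sub, map_add]
    have e1 := hconj ζ hζ
    have e2 := hconj η hη
    linear_combination (-2 : ℂ) * e1 + 2 * e2
  have hre : w.re = 0 := by
    have := congrArg Complex.re hcw
    rw [Complex.conj_re, Complex.neg_re] at this
    linarith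
  have hwi : w = (w.im : ℂ) * Complex.I := by
    apply Complex.ext
    · simp [hre]
    · simp
  have h3 : ζ + η = w * (ζ - η) := (div_mul_cancel₀ _ hsub).symm
  rw [pt, ← hwi, mul_div_assoc']
  have h4 : w + 1 ≠ 0 := by
    rw [hwi]
    exact PtFacts_den _
  rw [div_eq_iff h4]
  linear_combination -h3

theorem pt_inj {ζ : ℂ} (hζ : ‖ζ‖ = 1) : Function.Injective (pt ζ) := by
  intro x y h
  have h1 := pt_spec hζ x
  rw [h, pt_spec hζ y] at h1
  have h2 := mul_right_cancel₀ Complex.I_ne_zero h1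
  exact (Complex.ofReal_injective h2).symm

private theorem PtFacts_tend (ζ : ℂ) {F : Filter ℝ} (hF : Tendsto (fun x : ℝ => |x|) F atTop) :
    Tendsto (pt ζ) F (𝓝 ζ) := by
  rw [tendsto_iff_norm_sub_tendsto_zero]
  have h1 : Tendsto (fun x : ℝ => ‖ζ‖ * 2 / |x|) F (𝓝 0) := hF.const_div_atTop _
  refine squeeze_zero' (Eventually.of_forall fun x => norm_nonneg _) ?_ h1
  filter_upwards [hF.eventually_gt_atTop 0] with x hx
  have e1 : pt ζ x - ζ = ζ * (-2) / ((x : ℂ) * Complex.I + 1) := by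
    rw [pt, mul_div_assoc', eq_div_iff (PtFacts_den x), sub_mul, div_mul_cancel₀ _ (PtFacts_den x)]
    ring
  rw [e1, norm_div, norm_mul]
  have h2 : |x| ≤ ‖(x : ℂ) * Complex.I + 1‖ := by
    have := Complex.abs_im_le_norm ((x : ℂ) * Complex.I + 1)
    simpa using this
  have h3 : ‖(-2 : ℂ)‖ = 2 := by simp
  rw [h3]
  exact div_le_div_of_nonneg_left (by positivity) hx h2

theorem pt_tendsto_top (ζ : ℂ) : Tendsto (pt ζ) atTop (𝓝 ζ) :=
  PtFacts_tend ζ tendsto_abs_atTop_atTop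

theorem pt_tendsto_bot (ζ : ℂ) : Tendsto (pt ζ) atBot (𝓝 ζ) :=
  PtFacts_tend ζ tendsto_abs_atBot_atTop

theorem hasDerivAt_pt (ζ : ℂ) (x : ℝ) :
    HasDerivAt (pt ζ) (pt ζ x * (-(2 * Complex.I) / (1 + (x : ℂ) ^ 2))) x := by
  have h0 : HasDerivAt (fun x : ℝ => (x : ℂ) * Complex.I) Complex.I x := by
    have := (Complex.ofRealCLM.hasDerivAt (x := x)).mul_const Complex.I
    simpa using this
  have h1 : HasDerivAt (fun x : ℝ => (x : ℂ) * Complex.I - 1) Complex.I x := h0.sub_const 1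
  have h2 : HasDerivAt (fun x : ℝ => (x : ℂ) * Complex.I + 1) Complex.I x := h0.add_const 1
  have h3 := (h1.div h2 (PtFacts_den x)).const_mul ζ
  refine h3.congr_deriv ?_
  rw [pt, mul_assoc]
  congr 1
  have e1 := PtFacts_den x
  have e2 := PtFacts_sq x
  have hI : Complex.I ^ 2 = -1 := Complex.I_sq
  rw [div_mul_div_comm, div_eq_div_iff (pow_ne_zero 2 e1) (mul_ne_zero e1 e2)]
  linear_combination (2 : ℂ) * Complex.I * ((x : ℂ) * Complex.I + 1) * (x : ℂ) ^ 2 * hI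

end Pool.Agent.TC
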