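/-
Project TC (MP_d9e400_an). Module CircDyn.
Density of the backward orbit and covering for the circle map.

PROOF. Given α < β choose θ₀ ∈ Ioo α β with ee θ₀ ≠ ζ, x₀ = Im((ζ+ee θ₀)/(ζ-ee θ₀)), pt ζ x₀ = ee θ₀ (pt_im). pt ζ is continuous (hasDerivAt_pt) and by exists_ee_near points of the
circle near ee θ₀ are ee θ' with θ' ∈ Ioo α β: so there is δ > 0 such that for all x ∈ Ioo (x₀-δ) (x₀+δ) there is θ' ∈ Ioo α β with pt ζ x = ee θ'.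
If G^[k] x ∉ P for all k < n then (Bl c a)^[k] (pt ζ x) = pt ζ (G^[k] x) for k ≤ n (induction). dense: `hits`: (Bl c a)^[n+1] (pt ζ x) = Bl (pt ζ (G^[n] x)) = ζ.
cover: N from LineData.cover. For ‖ξ‖ = 1, ξ ≠ ζ: ξ = pt ζ y (pt_im), x with G^[N] x = y. For ξ = ζ: the point hitting P at time k < N: (Bl c a)^[k+1] = ζ, and
Bl ζ = ζ, so (Bl c a)^[N] = ζ.
-/
import Mathlib
import Pool.Agent.TB.Defs
import Pool.Agent.TB.EE
import Pool.Agent.TC.Defs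
import Pool.Agent.TC.Circ
import Pool.Agent.TC.LDefs
import Pool.Agent.TC.PtFacts
import Pool.Agent.TC.LineB
import Pool.Agent.TC.LineC

set_option autoImplicit false

open Set Filter Topology Metric

namespace Pool.Agent.TC

open Pool.Agent.TB

private theorem CircDyn_near {ζ : ℂ} (hζ : ‖ζ‖ = 1) {α β : ℝ} (hab : α < β) :
    ∃ u v : ℝ, u < v ∧ ∀ x ∈ Ioo u v, ∃ θ ∈ Ioo α β, ee θ = pt ζ x := by
  obtain ⟨θ₀, hθ₀, hne⟩ : ∃ θ₀ ∈ Ioo α β, ee θ₀ ≠ ζ := by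
    by_cases h1 : ee ((α + β) / 2) = ζ
    · have hs : 0 < min ((β - α) / 4) 1 := lt_min (by linarith) one_pos
      refine ⟨(α + β) / 2 + min ((β - α) / 4) 1, ⟨by linarith, ?_⟩, ?_⟩
      · have := min_le_left ((β - α) / 4) (1 : ℝ)
        linarith
      · intro h2
        rw [← h1] at h2
        obtain ⟨k, hk⟩ := ee_eq_iff.1 h2
        have h3 : min ((β - α) / 4) 1 = 2 * Real.pi * k := by linarith
        have h4 := min_le_right ((β - α) / 4) (1 : ℝ)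
        have hpi := Real.pi_gt_three
        have hk0 : (0 : ℝ) < k := by
          by_contra hcon
          push Not at hcon
          nlinarith
        have hk1 : (1 : ℝ) ≤ k := by exact_mod_cast (Int.add_one_le_iff.2 (by exact_mod_cast hk0 : (0 : ℤ) < k))
        nlinarith
    · exact ⟨(α + β) / 2, ⟨by linarith, by linarith⟩, h1⟩
  have hε : 0 < min (θ₀ - α) (β - θ₀) := lt_min (by linarith [hθ₀.1]) (by linarith [hθ₀.2])
  obtain ⟨δ, hδ, hnear⟩ := exists_ee_near θ₀ hε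
  have hx₀ := pt_im hζ (norm_ee θ₀) hne
  obtain ⟨η, hη, hcont⟩ := Metric.continuousAt_iff.1
    (hasDerivAt_pt ζ ((ζ + ee θ₀) / (ζ - ee θ₀)).im).continuousAt δ hδ
  refine ⟨((ζ + ee θ₀) / (ζ - ee θ₀)).im - η, ((ζ + ee θ₀) / (ζ - ee θ₀)).im + η, by linarith,
    fun x hx => ?_⟩
  have h1 : dist (pt ζ x) (pt ζ ((ζ + ee θ₀) / (ζ - ee θ₀)).im) < δ := by
    apply hcont
    rw [Real.dist_eq, abs_lt]
    constructor <;> linarith [hx.1, hx.2]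
  rw [hx₀, dist_eq_norm] at h1
  obtain ⟨θ', h2, h3⟩ := hnear (pt ζ x) (norm_pt hζ x) h1
  refine ⟨θ', ?_, h3.symm⟩
  rw [abs_lt] at h2
  have h4 := min_le_left (θ₀ - α) (β - θ₀)
  have h5 := min_le_right (θ₀ - α) (β - θ₀)
  constructor <;> linarith [h2.1, h2.2]

private theorem CircDyn_iter {d : ℕ} {c : ℂ} {a : Fin d → ℂ} {ζ : ℂ}
    {G : ℝ → ℝ} {P : Set ℝ} (hG : ∀ x ∉ P, Bl c a (pt ζ x) = pt ζ (G x)) (x : ℝ) :
    ∀ n : ℕ, (∀ k < n, G^[k] x ∉ P) → (Bl c a)^[n] (pt ζ x) = pt ζ (G^[n] x) := by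
  intro n
  induction n with
  | zero => intro _; rfl
  | succ n ih =>
    intro h
    rw [Function.iterate_succ_apply', Function.iterate_succ_apply',
      ih (fun k hk => h k (by omega)), hG _ (h n (by omega))]

theorem circ_dense {d : ℕ} {c : ℂ} {a : Fin d → ℂ} {ζ : ℂ} (hζ : ‖ζ‖ = 1)
    {G : ℝ → ℝ} {P : Set ℝ} (L : LineData G P)
    (hP : ∀ x ∈ P, Bl c a (pt ζ x) = ζ) (hG : ∀ x ∉ P, Bl c a (pt ζ x) = pt ζ (G x)) {α β : ℝ}
    (hab : α < β) : ∃ θ ∈ Ioo α β, ∃ n : ℕ, (Bl c a)^[n] (ee θ) = ζ := by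
  obtain ⟨u, v, huv, h⟩ := CircDyn_near hζ hab
  obtain ⟨x, hx, n, h1, h2⟩ := L.hits huv
  obtain ⟨θ, hθ, hθx⟩ := h x hx
  refine ⟨θ, hθ, n + 1, ?_⟩
  rw [hθx, Function.iterate_succ_apply', CircDyn_iter hG x n h1, hP _ h2]

theorem circ_cover {d : ℕ} {c : ℂ} {a : Fin d → ℂ} {ζ : ℂ} (hζ : ‖ζ‖ = 1)
    (hfix : Bl c a ζ = ζ) {G : ℝ → ℝ} {P : Set ℝ} (L : LineData G P)
    (hP : ∀ x ∈ P, Bl c a (pt ζ x) = ζ) (hG : ∀ x ∉ P, Bl c a (pt ζ x) = pt ζ (G x)) {α β : ℝ}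
    (hab : α < β) : ∃ n : ℕ, ∀ ξ : ℂ, ‖ξ‖ = 1 → ∃ θ ∈ Ioo α β, (Bl c a)^[n] (ee θ) = ξ := by
  obtain ⟨u, v, huv, h⟩ := CircDyn_near hζ hab
  obtain ⟨N, h1, x, hx, k, hk, h2, h3⟩ := L.cover huv
  refine ⟨N, fun ξ hξ => ?_⟩
  by_cases hξζ : ξ = ζ
  · obtain ⟨θ, hθ, hθx⟩ := h x hx
    refine ⟨θ, hθ, ?_⟩
    have e1 : N = (N - (k + 1)) + (k + 1) := by omega
    rw [hθx, e1, Function.iterate_add_apply, Function.iterate_succ_apply' (Bl c a) k,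
      CircDyn_iter hG x k h2, hP _ h3, hξζ]
    exact Function.iterate_fixed hfix _
  · obtain ⟨y, hy, hy1, hy2⟩ := h1 ((ζ + ξ) / (ζ - ξ)).im
    obtain ⟨θ, hθ, hθy⟩ := h y hy
    refine ⟨θ, hθ, ?_⟩
    rw [hθy, CircDyn_iter hG y N hy1, hy2]
    exact pt_im hζ hξ hξζ

end Pool.Agent.TC
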