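/-
Project TC (MP_d9e400_an). Module Der1.
The fixed point on the circle has derivative one.

PROOF. w n = (Bl c a)^[n] w₀ → ζ. Bl is continuous at ζ (Bl_analytic): Bl ζ = lim Bl (w n) = lim w (n+1) = ζ. log_deriv (TC.Circ): ζ Bl' ζ = μ Bl ζ = μ ζ, so
Bl' ζ = μ > 0. ζ - w (n+1) = Bl ζ - Bl (w n) = μ (ζ - w n) + o(|ζ - w n|), w n ≠ ζ. |1 - conj u v| ≤ |ζ - u| + |ζ - v| for u, v ∈ Dk (1 - conj u v =
conj ζ (ζ - v) + v (conj ζ - conj u)). So ‖mob (w n) (w (n+1))‖ ≥ |w (n+1) - w n|/(|ζ - w n| + |ζ - w (n+1)|) → |μ-1|/(1+μ). The limit is 0: μ = 1.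
-/
import Mathlib
import Pool.Agent.TB.Defs
import Pool.Agent.TB.Mobius
import Pool.Agent.TC.Defs
import Pool.Agent.TC.Circ

set_option autoImplicit false

open Set Filter Topology Metric

namespace Pool.Agent.TC

open Pool.Agent.TB

private theorem Der1_den {ζ u v : ℂ} (hζ : ‖ζ‖ = 1) (hv : ‖v‖ ≤ 1) :
    ‖1 - (starRingEnd ℂ) u * v‖ ≤ ‖u - ζ‖ + ‖v - ζ‖ := by
  have h1 : (starRingEnd ℂ) ζ * ζ = 1 := by
    rw [mul_comm, Complex.mul_conj, Complex.normSq_eq_norm_sq, hζ]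
    simp
  have h2 : 1 - (starRingEnd ℂ) u * v =
      -((starRingEnd ℂ) ζ * (v - ζ)) - v * (starRingEnd ℂ) (u - ζ) := by
    rw [map_sub]
    linear_combination -h1
  rw [h2]
  refine (norm_sub_le _ _).trans ?_
  rw [norm_neg, norm_mul, norm_mul, RCLike.norm_conj, RCLike.norm_conj, hζ, one_mul]
  have h3 : ‖v‖ * ‖u - ζ‖ ≤ 1 * ‖u - ζ‖ := mul_le_mul_of_nonneg_right hv (norm_nonneg _)
  linarith

theorem deriv_one {d : ℕ} {c : ℂ} {a : Fin d → ℂ} (hd : BlN d c a) {ζ w₀ : ℂ} (hζ : ‖ζ‖ = 1)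
    (hw₀ : w₀ ∈ Dk) (hw : Tendsto (fun n : ℕ => (Bl c a)^[n] w₀) atTop (𝓝 ζ))
    (hstep : Tendsto (fun n : ℕ => ‖mob ((Bl c a)^[n] w₀) ((Bl c a)^[n + 1] w₀)‖) atTop (𝓝 0)) :
    Bl c a ζ = ζ ∧ deriv (Bl c a) ζ = 1 := by
  obtain ⟨R, hR, hdiff⟩ := Bl_analytic hd
  have hζR : Metric.ball (0 : ℂ) R ∈ 𝓝 ζ := by
    apply Metric.isOpen_ball.mem_nhds
    rw [Metric.mem_ball, dist_zero_right, hζ]
    exact hR
  have hdat : DifferentiableAt ℂ (Bl c a) ζ := hdiff.differentiableAt hζR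
  set w : ℕ → ℂ := fun n => (Bl c a)^[n] w₀ with hwdef
  have hwD : ∀ n, ‖w n‖ < 1 := by
    intro n
    have : w n ∈ Dk := (Bl_mapsTo hd).iterate n hw₀
    simpa using this
  have hsucc : ∀ n, w (n + 1) = Bl c a (w n) := by
    intro n
    simp only [hwdef, Function.iterate_succ_apply']
  have hw1 : Tendsto (fun n => w (n + 1)) atTop (𝓝 ζ) := hw.comp (tendsto_add_atTop_nat 1)
  have hfix : Bl c a ζ = ζ := by
    have h1 : Tendsto (fun n => Bl c a (w n)) atTop (𝓝 (Bl c a ζ)) :=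
      hdat.continuousAt.tendsto.comp hw
    have h2 : (fun n => w (n + 1)) = fun n => Bl c a (w n) := funext hsucc
    rw [h2] at hw1
    exact tendsto_nhds_unique h1 hw1
  refine ⟨hfix, ?_⟩
  have hζ0 : ζ ≠ 0 := by
    rintro rfl
    rw [norm_zero] at hζ
    exact zero_ne_one hζ
  obtain ⟨μ, hμ, hlog⟩ := log_deriv hd hζ
  have hder : deriv (Bl c a) ζ = (μ : ℂ) := by
    rw [hfix, mul_comm (μ : ℂ) ζ] at hlog
    exact mul_left_cancel₀ hζ0 hlog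
  rw [hder]
  have hne : ∀ n, w n ≠ ζ := by
    intro n h
    have := hwD n
    rw [h, hζ] at this
    exact lt_irrefl _ this
  -- the quotients
  have hq : Tendsto (fun n => slope (Bl c a) ζ (w n)) atTop (𝓝 (μ : ℂ)) := by
    have h1 : HasDerivAt (Bl c a) (μ : ℂ) ζ := by
      rw [← hder]
      exact hdat.hasDerivAt
    have h2 := hasDerivAt_iff_tendsto_slope.1 h1
    exact h2.comp (tendsto_nhdsWithin_iff.2 ⟨hw, Eventually.of_forall hne⟩)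
  have hqe : ∀ n, w (n + 1) - ζ = (w n - ζ) * slope (Bl c a) ζ (w n) := by
    intro n
    have := sub_smul_slope (Bl c a) ζ (w n)
    rw [smul_eq_mul, vsub_eq_sub] at this
    rw [this, hfix, ← hsucc]
  have hbound : ∀ n, ‖slope (Bl c a) ζ (w n) - 1‖ / (1 + ‖slope (Bl c a) ζ (w n)‖) ≤
      ‖mob (w n) (w (n + 1))‖ := by
    intro n
    have hpos : 0 < ‖w n - ζ‖ := norm_pos_iff.2 (sub_ne_zero.2 (hne n))
    have hden := mob_den (hwD n) (hwD (n + 1)).le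
    have hdenpos : 0 < ‖1 - (starRingEnd ℂ) (w n) * w (n + 1)‖ := norm_pos_iff.2 hden
    unfold mob
    rw [norm_div, div_le_div_iff₀ (by positivity) hdenpos]
    have e1 : w (n + 1) - w n = (w n - ζ) * (slope (Bl c a) ζ (w n) - 1) := by
      rw [mul_sub, ← hqe n]
      ring
    have e2 := Der1_den (u := w n) (v := w (n + 1)) hζ (hwD (n + 1)).le
    rw [hqe n, norm_mul] at e2
    rw [e1, norm_mul]
    calc ‖slope (Bl c a) ζ (w n) - 1‖ * ‖1 - (starRingEnd ℂ) (w n) * w (n + 1)‖ ≤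
        ‖slope (Bl c a) ζ (w n) - 1‖ *
          (‖w n - ζ‖ + ‖w n - ζ‖ * ‖slope (Bl c a) ζ (w n)‖) :=
          mul_le_mul_of_nonneg_left e2 (norm_nonneg _)
      _ = ‖w n - ζ‖ * ‖slope (Bl c a) ζ (w n) - 1‖ * (1 + ‖slope (Bl c a) ζ (w n)‖) := by ring
  have hlim : Tendsto (fun n => ‖slope (Bl c a) ζ (w n) - 1‖ /
      (1 + ‖slope (Bl c a) ζ (w n)‖)) atTop (𝓝 (‖(μ : ℂ) - 1‖ / (1 + ‖(μ : ℂ)‖))) := by
    apply Tendsto.div
    · exact (hq.sub_const 1).norm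
    · exact hq.norm.const_add 1
    · positivity
  have hfin : ‖(μ : ℂ) - 1‖ / (1 + ‖(μ : ℂ)‖) ≤ 0 :=
    le_of_tendsto_of_tendsto' hlim hstep hbound
  have h0 : ‖(μ : ℂ) - 1‖ ≤ 0 := by
    have h5 : 0 < 1 + ‖(μ : ℂ)‖ := by positivity
    by_contra hcon
    push Not at hcon
    have : 0 < ‖(μ : ℂ) - 1‖ / (1 + ‖(μ : ℂ)‖) := div_pos hcon h5
    linarith
  exact sub_eq_zero.1 (norm_le_zero_iff.1 h0)

end Pool.Agent.TC
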