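/-
Project TC (MP_d9e400_an). Module Pick.
Schwarz-Pick lemma, pseudo-hyperbolic comparison.

PROOFS. schwarz_pick: k = mob (g w) ∘ g ∘ mob (-w) maps Dk to Dk (mob_bijOn), k 0 = 0 (mob (-w) 0 = w), Schwarz lemma
(Complex.norm_le_norm_of_mapsTo_ball_self or similar) at the point mob w z (mob_inv).
pick_ball: k₁ t = mob (k s₀) (k (s₀ + r t)) maps Dk to Dk and 0 to 0: Schwarz at t = (s - s₀)/r.
mob_comm_norm: ‖w-a‖/‖1 - conj a w‖ is symmetric. mob_lt_one: from mob_bijOn.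
psh_compare: ‖w-u‖ ≤ ρ‖1 - conj u w‖ and 1 - conj u w = (1-‖u‖²) - conj u (w-u), so ‖w-u‖ ≤ ρ(1-‖u‖²) + ρ‖w-u‖;
‖w-u‖ ≤ ρ/(1-ρ)·2(1-‖u‖). (ρ ≥ 0 because ρ ≥ ‖mob u w‖.) For w use the symmetry.
-/
import Mathlib
import Pool.Agent.TB.Defs
import Pool.Agent.TB.Mobius
import Pool.Agent.TC.Defs

set_option autoImplicit false

open Set Filter Topology Metric

namespace Pool.Agent.TC

open Pool.Agent.TB

theorem pick_ball {k : ℂ → ℂ} {s₀ : ℂ} {r : ℝ} (hr : 0 < r)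
    (hk : DifferentiableOn ℂ k (Metric.ball s₀ r)) (hm : MapsTo k (Metric.ball s₀ r) Dk) {s : ℂ}
    (hs : s ∈ Metric.ball s₀ r) : ‖mob (k s₀) (k s)‖ ≤ ‖s - s₀‖ / r := by
  have h0 : k s₀ ∈ Dk := hm (mem_ball_self hr)
  have h0' : ‖k s₀‖ < 1 := by simpa using h0
  have hd : DifferentiableOn ℂ (fun s => mob (k s₀) (k s)) (Metric.ball s₀ r) :=
    (mob_diff h0').comp hk hm
  have hmap : MapsTo (fun s => mob (k s₀) (k s)) (Metric.ball s₀ r)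
      (closedBall ((fun s => mob (k s₀) (k s)) s₀) 1) := by
    intro s hs
    have h1 : mob (k s₀) (k s) ∈ Dk := Mobius_maps h0' (hm hs)
    have h2 : mob (k s₀) (k s₀) = 0 := mob_self _
    show mob (k s₀) (k s) ∈ closedBall (mob (k s₀) (k s₀)) 1
    rw [h2]
    exact ball_subset_closedBall h1
  have h3 := Complex.dist_le_div_mul_dist_of_mapsTo_ball hd hmap hs
  have h4 : mob (k s₀) (k s₀) = 0 := mob_self _
  simp only [h4, dist_zero_right, dist_eq_norm] at h3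
  calc _ ≤ 1 / r * ‖s - s₀‖ := by simpa using h3
    _ = _ := by ring

theorem schwarz_pick {g : ℂ → ℂ} (hg : DifferentiableOn ℂ g Dk) (hm : MapsTo g Dk Dk) {z w : ℂ}
    (hz : z ∈ Dk) (hw : w ∈ Dk) : ‖mob (g w) (g z)‖ ≤ ‖mob w z‖ := by
  have hw' : ‖w‖ < 1 := by simpa using hw
  have hz' : ‖z‖ < 1 := by simpa using hz
  have hnw : ‖-w‖ < 1 := by simpa using hw
  have h1 := pick_ball (k := fun t => g (mob (-w) t)) (s₀ := 0) (r := 1) one_pos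
    (hg.comp (mob_diff hnw) (Mobius_maps hnw)) (fun t ht => hm (Mobius_maps hnw ht))
    (Mobius_maps hw' hz)
  have h2 : mob (-w) 0 = w := by simp [mob]
  have h3 : mob (-w) (mob w z) = z := mob_inv hw' hz'
  simp only [h2, h3, sub_zero, div_one] at h1
  exact h1

theorem mob_comm_norm (a w : ℂ) : ‖mob a w‖ = ‖mob w a‖ := by
  rw [mob, mob, norm_div, norm_div, norm_sub_rev]
  congr 1
  rw [← RCLike.norm_conj (1 - (starRingEnd ℂ) a * w)]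
  congr 1
  simp [mul_comm]

theorem mob_lt_one {u w : ℂ} (hu : ‖u‖ < 1) (hw : ‖w‖ < 1) : ‖mob u w‖ < 1 := by
  have := Mobius_maps hu (mem_ball_zero_iff.2 hw)
  simpa using this

theorem Pick_aux {u w : ℂ} (hu : ‖u‖ < 1) (hw : ‖w‖ < 1) {ρ : ℝ} (hρ : ρ < 1)
    (h : ‖mob u w‖ ≤ ρ) : ‖u - w‖ ≤ 2 / (1 - ρ) * (1 - ‖u‖) := by
  have h0 : 0 ≤ ρ := (norm_nonneg _).trans h
  have hden := mob_den hu hw.le
  have hpos : 0 < ‖1 - (starRingEnd ℂ) u * w‖ := norm_pos_iff.2 hden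
  rw [mob, norm_div, div_le_iff₀ hpos] at h
  have h1 : 1 - (starRingEnd ℂ) u * w = ((1 - ‖u‖ ^ 2 : ℝ) : ℂ) - (starRingEnd ℂ) u * (w - u) := by
    have h4 : (starRingEnd ℂ) u * u = ((‖u‖ ^ 2 : ℝ) : ℂ) := by
      rw [mul_comm, Complex.mul_conj, Complex.normSq_eq_norm_sq]
    push_cast at h4 ⊢
    rw [mul_sub, h4]
    ring
  have h2 : ‖1 - (starRingEnd ℂ) u * w‖ ≤ (1 - ‖u‖ ^ 2) + ‖w - u‖ := by
    rw [h1]
    refine (norm_sub_le _ _).trans ?_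
    have h3 : ‖((1 - ‖u‖ ^ 2 : ℝ) : ℂ)‖ = 1 - ‖u‖ ^ 2 := by
      rw [Complex.norm_real, Real.norm_eq_abs, abs_of_nonneg]
      nlinarith [norm_nonneg u]
    rw [h3, norm_mul, RCLike.norm_conj]
    have h5 : ‖u‖ * ‖w - u‖ ≤ 1 * ‖w - u‖ := mul_le_mul_of_nonneg_right hu.le (norm_nonneg _)
    linarith
  have h6 : ‖w - u‖ ≤ ρ * ((1 - ‖u‖ ^ 2) + ‖w - u‖) :=
    h.trans (mul_le_mul_of_nonneg_left h2 h0)
  have h7 : (1 - ρ) * ‖w - u‖ ≤ 2 * (1 - ‖u‖) := by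
    have h8 : (1 - ‖u‖ ^ 2) ≤ 2 * (1 - ‖u‖) := by nlinarith [norm_nonneg u]
    have h9 : ρ * (1 - ‖u‖ ^ 2) ≤ 1 * (1 - ‖u‖ ^ 2) := by
      apply mul_le_mul_of_nonneg_right hρ.le
      nlinarith [norm_nonneg u]
    nlinarith
  rw [norm_sub_rev]
  have h10 : 0 < 1 - ρ := by linarith
  rw [div_mul_eq_mul_div, le_div_iff₀ h10]
  linarith

theorem psh_compare {u w : ℂ} (hu : ‖u‖ < 1) (hw : ‖w‖ < 1) {ρ : ℝ} (hρ : ρ < 1)
    (h : ‖mob u w‖ ≤ ρ) :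
    ‖u - w‖ ≤ 2 / (1 - ρ) * (1 - ‖u‖) ∧ ‖u - w‖ ≤ 2 / (1 - ρ) * (1 - ‖w‖) := by
  refine ⟨Pick_aux hu hw hρ h, ?_⟩
  rw [norm_sub_rev]
  exact Pick_aux hw hu hρ (by rwa [mob_comm_norm])

end Pool.Agent.TC
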