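/-
Project TC (MP_d9e400_an). Module FixR.
A scaled self-map of the disc has a fixed point.

PROOF. G = r g maps the compact disc K = closedBall 0 r into itself and Dk into K. ρ(z,w) = ‖mob w z‖. For z ≠ w in Dk: ρ(G z, G w) < ρ(z,w):
if g z = g w the left side is 0 and the right side positive; otherwise with u = g z, v = g w, t = conj v u: |1 - r²t|² - r²|1-t|² =
(1-r²)(1-r²|t|²) > 0 gives ρ(ru, rv) < ρ(u,v) ≤ ρ(z,w) (schwarz_pick). The continuous function z ↦ ρ(z, G z) has a minimum over K at z*; if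
G z* ≠ z* then ρ(G z*, G(G z*)) < ρ(z*, G z*), contradiction (G z* ∈ K).
-/
import Mathlib
import Pool.Agent.TB.Defs
import Pool.Agent.TB.Mobius
import Pool.Agent.TC.Defs
import Pool.Agent.TC.Pick

set_option autoImplicit false

open Set Filter Topology Metric

namespace Pool.Agent.TC

open Pool.Agent.TB

theorem FixR_ineq {t : ℂ} (ht : ‖t‖ < 1) {r : ℝ} (hr : 0 < r) (hr1 : r < 1) :
    r * ‖1 - t‖ < ‖1 - (r : ℂ) ^ 2 * t‖ := by
  apply lt_of_pow_lt_pow_left₀ 2 (norm_nonneg _)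
  have ht2 : t.re ^ 2 + t.im ^ 2 < 1 := by
    have h1 : ‖t‖ ^ 2 < 1 := by nlinarith [norm_nonneg t]
    rw [Complex.sq_norm, Complex.normSq_apply] at h1
    nlinarith
  rw [mul_pow, Complex.sq_norm, Complex.sq_norm, Complex.normSq_apply, Complex.normSq_apply]
  have e1 : ((r : ℂ) ^ 2 * t).re = r ^ 2 * t.re := by
    rw [← Complex.ofReal_pow, Complex.re_ofReal_mul]
  have e2 : ((r : ℂ) ^ 2 * t).im = r ^ 2 * t.im := by
    rw [← Complex.ofReal_pow, Complex.im_ofReal_mul]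
  simp only [Complex.sub_re, Complex.sub_im, Complex.one_re, Complex.one_im, e1, e2]
  have h2 : 0 < (1 - r ^ 2) * (1 - r ^ 2 * (t.re ^ 2 + t.im ^ 2)) := by
    have h3 : r ^ 2 < 1 := by nlinarith
    have h4 : 0 < r ^ 2 := by positivity
    apply mul_pos
    · linarith
    · nlinarith
  nlinarith

theorem FixR_strict {u v : ℂ} (hu : ‖u‖ < 1) (hv : ‖v‖ < 1) (huv : u ≠ v) {r : ℝ} (hr : 0 < r)
    (hr1 : r < 1) : ‖mob ((r : ℂ) * u) ((r : ℂ) * v)‖ < ‖mob u v‖ := by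
  have ht : ‖(starRingEnd ℂ) u * v‖ < 1 := by
    rw [norm_mul, RCLike.norm_conj]
    nlinarith [norm_nonneg u, norm_nonneg v]
  have h1 := FixR_ineq ht hr hr1
  have h2 : 0 < ‖v - u‖ := norm_pos_iff.2 (sub_ne_zero.2 huv.symm)
  have h3 : 0 < ‖1 - (starRingEnd ℂ) u * v‖ := norm_pos_iff.2 (mob_den hu hv.le)
  have e1 : (r : ℂ) * v - (r : ℂ) * u = (r : ℂ) * (v - u) := by ring
  have e2 : 1 - (starRingEnd ℂ) ((r : ℂ) * u) * ((r : ℂ) * v) =
      1 - (r : ℂ) ^ 2 * ((starRingEnd ℂ) u * v) := by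
    rw [map_mul, Complex.conj_ofReal]
    ring
  rw [mob, mob, norm_div, norm_div, e1, e2, norm_mul, Complex.norm_real, Real.norm_eq_abs,
    abs_of_pos hr]
  have h4 : 0 < ‖1 - (r : ℂ) ^ 2 * ((starRingEnd ℂ) u * v)‖ := lt_of_le_of_lt (by positivity) h1
  rw [div_lt_div_iff₀ h4 h3]
  nlinarith

theorem exists_fixed_scaled {g : ℂ → ℂ} (hg : DifferentiableOn ℂ g Dk) (hm : MapsTo g Dk Dk)
    {r : ℝ} (hr : 0 < r) (hr1 : r < 1) : ∃ w ∈ Dk, (r : ℂ) * g w = w := by
  have hK : closedBall (0 : ℂ) r ⊆ Dk := closedBall_subset_ball hr1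
  have hnorm : ∀ z ∈ Dk, ‖(r : ℂ) * g z‖ < r := by
    intro z hz
    have h1 : ‖g z‖ < 1 := by simpa using hm hz
    rw [norm_mul, Complex.norm_real, Real.norm_eq_abs, abs_of_pos hr]
    nlinarith
  have hmap : ∀ z ∈ Dk, (r : ℂ) * g z ∈ closedBall (0 : ℂ) r := by
    intro z hz
    rw [mem_closedBall_zero_iff]
    exact (hnorm z hz).le
  have hcont : ContinuousOn (fun z => ‖mob z ((r : ℂ) * g z)‖) (closedBall (0 : ℂ) r) := by
    have hgc : ContinuousOn g (closedBall (0 : ℂ) r) := hg.continuousOn.mono hK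
    apply ContinuousOn.norm
    unfold mob
    apply ContinuousOn.div
    · exact (hgc.const_mul _).sub continuousOn_id
    · refine continuousOn_const.sub (ContinuousOn.mul ?_ (hgc.const_mul _))
      exact Complex.continuous_conj.continuousOn
    · intro z hz
      have h1 : ‖z‖ < 1 := by simpa using hK hz
      exact mob_den h1 ((hnorm z (hK hz)).le.trans hr1.le)
  obtain ⟨z, hz, hmin⟩ := (isCompact_closedBall (0 : ℂ) r).exists_isMinOn
    ⟨0, mem_closedBall_self hr.le⟩ hcont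
  refine ⟨z, hK hz, ?_⟩
  by_contra hne
  set w := (r : ℂ) * g z with hw
  have hwK : w ∈ closedBall (0 : ℂ) r := hmap z (hK hz)
  have h1 : ‖mob z w‖ ≤ ‖mob w ((r : ℂ) * g w)‖ := hmin hwK
  have hz1 : ‖z‖ < 1 := by simpa using hK hz
  have hw1 : ‖w‖ < 1 := by simpa using hK hwK
  have hgz : ‖g z‖ < 1 := by simpa using hm (hK hz)
  have hgw : ‖g w‖ < 1 := by simpa using hm (hK hwK)
  have hsp : ‖mob (g z) (g w)‖ ≤ ‖mob z w‖ := schwarz_pick hg hm (hK hwK) (hK hz)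
  by_cases hgg : g z = g w
  · rw [← hgg, ← hw, mob_self, norm_zero] at h1
    have h2 : ‖mob z w‖ = 0 := le_antisymm h1 (norm_nonneg _)
    rw [norm_eq_zero, mob, div_eq_zero_iff] at h2
    rcases h2 with h2 | h2
    · exact hne (sub_eq_zero.1 h2)
    · exact mob_den hz1 hw1.le h2
  · have h2 := FixR_strict hgz hgw hgg hr hr1
    rw [← hw] at h2
    linarith

end Pool.Agent.TC
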