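/-
Project TC (MP_d9e400_an). Module Horo.
Invariant horodiscs for self-maps of the disc without fixed points.

PROOF. r_k = 1 - 1/(k+2), w_k ∈ Dk with r_k g w_k = w_k (exists_fixed_scaled). Subsequence w_k → ζ, ‖ζ‖ ≤ 1. If ‖ζ‖ < 1 then g ζ = ζ by continuity,
contradiction; so ‖ζ‖ = 1. Fix z ∈ Dk. schwarz_pick for g_k = r_k g: ‖mob w_k (g_k z)‖ ≤ ‖mob w_k z‖ (g_k w_k = w_k). With one_sub_normSq_mob:
(1-|w_k|²)(1-|g_k z|²)/|1 - conj w_k g_k z|² ≥ (1-|w_k|²)(1-|z|²)/|1 - conj w_k z|². Divide by 1-|w_k|² > 0, multiply out and let k → ∞: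
(1-|g z|²)|1 - conj ζ z|² ≥ (1-|z|²)|1 - conj ζ g z|², and |1 - conj ζ z| = |ζ - z| as ‖ζ‖ = 1.
-/
import Mathlib
import Pool.Agent.TB.Defs
import Pool.Agent.TB.Mobius
import Pool.Agent.TC.Defs
import Pool.Agent.TC.Pick
import Pool.Agent.TC.FixR

set_option autoImplicit false

open Set Filter Topology Metric

namespace Pool.Agent.TC

open Pool.Agent.TB

theorem Horo_step {g : ℂ → ℂ} (hg : DifferentiableOn ℂ g Dk) (hm : MapsTo g Dk Dk) {r : ℝ}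
    (hr : 0 < r) (hr1 : r < 1) {w : ℂ} (hw : w ∈ Dk) (hfix : (r : ℂ) * g w = w) {z : ℂ}
    (hz : z ∈ Dk) :
    ‖1 - (starRingEnd ℂ) w * ((r : ℂ) * g z)‖ ^ 2 * (1 - ‖z‖ ^ 2) ≤
      ‖1 - (starRingEnd ℂ) w * z‖ ^ 2 * (1 - ‖(r : ℂ) * g z‖ ^ 2) := by
  have hnorm : ∀ z ∈ Dk, ‖(r : ℂ) * g z‖ < 1 := by
    intro z hz
    have h1 : ‖g z‖ < 1 := by simpa using hm hz
    rw [norm_mul, Complex.norm_real, Real.norm_eq_abs, abs_of_pos hr]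
    nlinarith [norm_nonneg (g z)]
  have hm2 : MapsTo (fun z => (r : ℂ) * g z) Dk Dk := fun z hz => mem_ball_zero_iff.2 (hnorm z hz)
  have h1 := schwarz_pick (hg.const_mul (r : ℂ)) hm2 hz hw
  simp only [hfix] at h1
  have hw1 : ‖w‖ < 1 := by simpa using hw
  have hz1 : ‖z‖ < 1 := by simpa using hz
  have d1 := mob_den hw1 (hnorm z hz).le
  have d2 := mob_den hw1 hz1.le
  have e1 := one_sub_normSq_mob d1
  have e2 := one_sub_normSq_mob d2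
  have h2 : ‖mob w ((r : ℂ) * g z)‖ ^ 2 ≤ ‖mob w z‖ ^ 2 := by
    apply pow_le_pow_left₀ (norm_nonneg _) h1
  have p1 : 0 < ‖1 - (starRingEnd ℂ) w * ((r : ℂ) * g z)‖ ^ 2 := by
    have := norm_pos_iff.2 d1
    positivity
  have p2 : 0 < ‖1 - (starRingEnd ℂ) w * z‖ ^ 2 := by
    have := norm_pos_iff.2 d2
    positivity
  have h3 : (1 - ‖w‖ ^ 2) * (1 - ‖z‖ ^ 2) / ‖1 - (starRingEnd ℂ) w * z‖ ^ 2 ≤
      (1 - ‖w‖ ^ 2) * (1 - ‖(r : ℂ) * g z‖ ^ 2) /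
        ‖1 - (starRingEnd ℂ) w * ((r : ℂ) * g z)‖ ^ 2 := by
    rw [← e1, ← e2]
    linarith
  rw [div_le_div_iff₀ p2 p1] at h3
  have h4 : 0 < 1 - ‖w‖ ^ 2 := by nlinarith [norm_nonneg w]
  have h5 : (1 - ‖w‖ ^ 2) * (‖1 - (starRingEnd ℂ) w * ((r : ℂ) * g z)‖ ^ 2 * (1 - ‖z‖ ^ 2)) ≤
      (1 - ‖w‖ ^ 2) * (‖1 - (starRingEnd ℂ) w * z‖ ^ 2 * (1 - ‖(r : ℂ) * g z‖ ^ 2)) := by
    calc _ = (1 - ‖w‖ ^ 2) * (1 - ‖z‖ ^ 2) *
          ‖1 - (starRingEnd ℂ) w * ((r : ℂ) * g z)‖ ^ 2 := by ring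
      _ ≤ _ := h3
      _ = _ := by ring
  exact le_of_mul_le_mul_left h5 h4

theorem exists_horo {g : ℂ → ℂ} (hg : DifferentiableOn ℂ g Dk) (hm : MapsTo g Dk Dk)
    (hno : ∀ w ∈ Dk, g w ≠ w) :
    ∃ ζ : ℂ, ‖ζ‖ = 1 ∧ ∀ z ∈ Dk,
      ‖ζ - g z‖ ^ 2 * (1 - ‖z‖ ^ 2) ≤ ‖ζ - z‖ ^ 2 * (1 - ‖g z‖ ^ 2) := by
  have hr0 : ∀ k : ℕ, 0 < 1 - 1 / ((k : ℝ) + 2) := by
    intro k
    have : 1 / ((k : ℝ) + 2) < 1 := by
      rw [div_lt_one (by positivity)]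
      have : (0 : ℝ) ≤ k := Nat.cast_nonneg k
      linarith
    linarith
  have hr1 : ∀ k : ℕ, 1 - 1 / ((k : ℝ) + 2) < 1 := by
    intro k
    have : 0 < 1 / ((k : ℝ) + 2) := by positivity
    linarith
  choose w hw hfix using fun k : ℕ => exists_fixed_scaled hg hm (hr0 k) (hr1 k)
  obtain ⟨ζ, hζ, φ, hφ, hlim⟩ := (isCompact_closedBall (0 : ℂ) 1).tendsto_subseq
    (fun k => ball_subset_closedBall (hw k))
  have hrlim : Tendsto (fun k : ℕ => 1 - 1 / (((φ k : ℕ) : ℝ) + 2)) atTop (𝓝 1) := by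
    have h1 : Tendsto (fun k : ℕ => 1 - 1 / ((k : ℝ) + 2)) atTop (𝓝 (1 - 0)) := by
      apply Tendsto.const_sub
      apply Tendsto.div_atTop tendsto_const_nhds
      exact tendsto_atTop_add_const_right _ _ tendsto_natCast_atTop_atTop
    rw [sub_zero] at h1
    exact h1.comp hφ.tendsto_atTop
  have hrlimC : Tendsto (fun k : ℕ => ((1 - 1 / (((φ k : ℕ) : ℝ) + 2) : ℝ) : ℂ)) atTop (𝓝 1) := by
    have h1 := (Complex.continuous_ofReal.tendsto 1).comp hrlim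
    rw [Complex.ofReal_one] at h1
    exact h1
  have hζ1 : ‖ζ‖ = 1 := by
    rw [mem_closedBall_zero_iff] at hζ
    rcases hζ.lt_or_eq with h | h
    · exfalso
      have hζD : ζ ∈ Dk := mem_ball_zero_iff.2 h
      have hc : ContinuousAt g ζ := (hg.differentiableAt (isOpen_ball.mem_nhds hζD)).continuousAt
      have h1 : Tendsto (fun k => ((1 - 1 / (((φ k : ℕ) : ℝ) + 2) : ℝ) : ℂ) * g (w (φ k))) atTop
          (𝓝 (1 * g ζ)) := hrlimC.mul (hc.tendsto.comp hlim)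
      have h2 : (fun k => ((1 - 1 / (((φ k : ℕ) : ℝ) + 2) : ℝ) : ℂ) * g (w (φ k))) = w ∘ φ := by
        funext k
        exact hfix (φ k)
      rw [h2, one_mul] at h1
      exact hno ζ hζD (tendsto_nhds_unique h1 hlim)
    · exact h
  refine ⟨ζ, hζ1, ?_⟩
  intro z hz
  have hconj : Tendsto (fun k => (starRingEnd ℂ) (w (φ k))) atTop (𝓝 ((starRingEnd ℂ) ζ)) :=
    (Complex.continuous_conj.tendsto ζ).comp hlim
  have hL : Tendsto (fun k => ‖1 - (starRingEnd ℂ) (w (φ k)) *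
      (((1 - 1 / (((φ k : ℕ) : ℝ) + 2) : ℝ) : ℂ) * g z)‖ ^ 2 * (1 - ‖z‖ ^ 2)) atTop
      (𝓝 (‖1 - (starRingEnd ℂ) ζ * (1 * g z)‖ ^ 2 * (1 - ‖z‖ ^ 2))) :=
    ((((hconj.mul (hrlimC.mul_const (g z))).const_sub 1).norm).pow 2).mul_const _
  have hR : Tendsto (fun k => ‖1 - (starRingEnd ℂ) (w (φ k)) * z‖ ^ 2 *
      (1 - ‖((1 - 1 / (((φ k : ℕ) : ℝ) + 2) : ℝ) : ℂ) * g z‖ ^ 2)) atTop
      (𝓝 (‖1 - (starRingEnd ℂ) ζ * z‖ ^ 2 * (1 - ‖1 * g z‖ ^ 2))) :=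
    ((((hconj.mul_const z).const_sub 1).norm).pow 2).mul
      ((((hrlimC.mul_const (g z)).norm).pow 2).const_sub 1)
  have h := le_of_tendsto_of_tendsto' hL hR
    (fun k => Horo_step hg hm (hr0 (φ k)) (hr1 (φ k)) (hw (φ k)) (hfix (φ k)) hz)
  have key : ∀ v : ℂ, ‖1 - (starRingEnd ℂ) ζ * v‖ = ‖ζ - v‖ := by
    intro v
    have h1 : ζ - v = ζ * (1 - (starRingEnd ℂ) ζ * v) := by
      have h2 : ζ * (starRingEnd ℂ) ζ = 1 := by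
        rw [Complex.mul_conj, Complex.normSq_eq_norm_sq, hζ1]
        simp
      rw [mul_sub, ← mul_assoc, h2]
      ring
    rw [h1, norm_mul, hζ1, one_mul]
  rw [one_mul, key, key] at h
  exact h

end Pool.Agent.TC
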