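/-
Project TC (MP_d9e400_an). Module HoroS.
Strict horodisc inequality with Harnack's inequality.

PROOF. F z = (ζ + g z)/(ζ - g z) - (ζ + z)/(ζ - z) is holomorphic on Dk, Re ((ζ+v)/(ζ-v)) = (1-|v|²)/|ζ-v|², so Re F z is the right hand side
below and it is ≥ 0 by hh. If Re F z₁ = 0 for some z₁ ∈ Dk: ‖exp(-F)‖ ≤ 1 with equality at z₁, so exp(-F) is constant on Dk (maximum modulus,
Complex.eqOn_of_isPreconnected_of_isMaxOn_norm), so F' = 0, F is constant, and g z = g z' implies (ζ+z)/(ζ-z) = (ζ+z')/(ζ-z'), z = z': g injective,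
contradiction. So Re F > 0 on Dk. K z = (F z - F 0)/(F z + conj (F 0)) maps Dk into Dk (|F - F0| < |F + conj F0| for positive real parts),
K 0 = 0, so ‖K z‖ ≤ ‖z‖ (Schwarz). From F = (F0 + conj F0 K)/(1-K): Re F = Re F0 (1-|K|²)/|1-K|² ≥ Re F0 (1-|K|)/(1+|K|) ≥ Re F0 (1-‖z‖)/2.
κ = Re (F 0)/2. (Simpler: |F - F0| ≤ ‖z‖ |F + conj F0| squared gives a quadratic inequality for Re F: with x = Re F, x₀ = Re F0, y = Im F - Im F0:
(x-x₀)² + y² ≤ ‖z‖²((x+x₀)² + y²), hence |x-x₀| ≤ ‖z‖(x+x₀), x ≥ x₀(1-‖z‖)/(1+‖z‖).)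
-/
import Mathlib
import Pool.Agent.TB.Defs
import Pool.Agent.TC.Defs

set_option autoImplicit false

open Set Filter Topology Metric

namespace Pool.Agent.TC

open Pool.Agent.TB

private theorem HoroS_pre {ζ v : ℂ} (hζ : ‖ζ‖ = 1) (hv : ‖v‖ < 1) :
    ζ - v ≠ 0 ∧ ((ζ + v) / (ζ - v)).re = (1 - ‖v‖ ^ 2) / ‖ζ - v‖ ^ 2 := by
  have h0 : ζ - v ≠ 0 := by
    intro h
    have : ζ = v := sub_eq_zero.mp h
    rw [this] at hζ
    linarith
  refine ⟨h0, ?_⟩
  have h1 : ‖ζ - v‖ ^ 2 = Complex.normSq (ζ - v) := by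
    rw [← Complex.sq_norm]
  have h2 : ‖v‖ ^ 2 = Complex.normSq v := by
    rw [← Complex.sq_norm]
  have h3 : Complex.normSq ζ = 1 := by
    rw [← Complex.sq_norm, hζ]; norm_num
  have h4 : Complex.normSq (ζ - v) ≠ 0 := by
    rw [Ne, Complex.normSq_eq_zero]; exact h0
  rw [Complex.div_re, h1, h2, ← add_div]
  congr 1
  rw [Complex.normSq_apply] at h3
  rw [Complex.normSq_apply]
  simp only [Complex.add_re, Complex.add_im, Complex.sub_re, Complex.sub_im]
  nlinarith [h3]

private theorem HoroS_inj {ζ v w : ℂ} (hζ : ‖ζ‖ = 1) (hv : ‖v‖ < 1) (hw : ‖w‖ < 1)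
    (h : (ζ + v) / (ζ - v) = (ζ + w) / (ζ - w)) : v = w := by
  have h1 := (HoroS_pre hζ hv).1
  have h2 := (HoroS_pre hζ hw).1
  rw [div_eq_div_iff h1 h2] at h
  have h3 : ζ ≠ 0 := by
    intro h0; rw [h0] at hζ; simp at hζ
  have h4 : 2 * ζ * (v - w) = 0 := by
    linear_combination h
  rcases mul_eq_zero.mp h4 with h5 | h5
  · exfalso
    rcases mul_eq_zero.mp h5 with h6 | h6
    · norm_num at h6
    · exact h3 h6
  · exact sub_eq_zero.mp h5

theorem horo_strict {g : ℂ → ℂ} (hg : DifferentiableOn ℂ g Dk) (hm : MapsTo g Dk Dk)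
    (hinj : ¬ InjOn g Dk) {ζ : ℂ} (hζ : ‖ζ‖ = 1)
    (hh : ∀ z ∈ Dk, ‖ζ - g z‖ ^ 2 * (1 - ‖z‖ ^ 2) ≤ ‖ζ - z‖ ^ 2 * (1 - ‖g z‖ ^ 2)) :
    ∃ κ : ℝ, 0 < κ ∧ ∀ z ∈ Dk, κ * (1 - ‖z‖) ≤
      (1 - ‖g z‖ ^ 2) / ‖ζ - g z‖ ^ 2 - (1 - ‖z‖ ^ 2) / ‖ζ - z‖ ^ 2 := by
  have hn : ∀ z ∈ Dk, ‖z‖ < 1 := fun z hz => by simpa using hz
  set F : ℂ → ℂ := fun z => (ζ + g z) / (ζ - g z) - (ζ + z) / (ζ - z) with hF
  have hFd : DifferentiableOn ℂ F Dk := by
    apply DifferentiableOn.sub
    · apply DifferentiableOn.div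
      · exact (differentiableOn_const _).add hg
      · exact (differentiableOn_const _).sub hg
      · intro z hz
        exact (HoroS_pre hζ (hn _ (hm hz))).1
    · apply DifferentiableOn.div
      · exact (differentiableOn_const _).add differentiableOn_id
      · exact (differentiableOn_const _).sub differentiableOn_id
      · intro z hz
        exact (HoroS_pre hζ (hn _ hz)).1
  have hFre : ∀ z ∈ Dk, (F z).re =
      (1 - ‖g z‖ ^ 2) / ‖ζ - g z‖ ^ 2 - (1 - ‖z‖ ^ 2) / ‖ζ - z‖ ^ 2 := by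
    intro z hz
    have h1 := (HoroS_pre hζ (hn _ (hm hz))).2
    have h2 := (HoroS_pre hζ (hn _ hz)).2
    simp only [hF, Complex.sub_re]
    rw [h1, h2]
  have hF0 : ∀ z ∈ Dk, 0 ≤ (F z).re := by
    intro z hz
    rw [hFre z hz]
    have h1 : 0 < ‖ζ - g z‖ ^ 2 := by
      have := norm_pos_iff.mpr (HoroS_pre hζ (hn _ (hm hz))).1
      positivity
    have h2 : 0 < ‖ζ - z‖ ^ 2 := by
      have := norm_pos_iff.mpr (HoroS_pre hζ (hn _ hz)).1
      positivity
    have h3 := hh z hz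
    rw [sub_nonneg, div_le_div_iff₀ h2 h1]
    linarith
  have key : ∀ a : ℂ, 0 ≤ a.re → a + 1 ≠ 0 := by
    intro a ha h
    have := congrArg Complex.re h
    simp at this
    linarith
  have hpos : ∀ z ∈ Dk, 0 < (F z).re := by
    by_contra hcon
    push Not at hcon
    obtain ⟨z₁, hz₁, hle⟩ := hcon
    have h0 : (F z₁).re = 0 := le_antisymm hle (hF0 z₁ hz₁)
    set M : ℂ → ℂ := fun z => (F z - 1) / (F z + 1) with hM
    have hMd : DifferentiableOn ℂ M Dk := by
      apply DifferentiableOn.div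
      · exact hFd.sub (differentiableOn_const _)
      · exact hFd.add (differentiableOn_const _)
      · intro z hz
        exact key _ (hF0 z hz)
    have hMle : ∀ z ∈ Dk, ‖M z‖ ≤ 1 := by
      intro z hz
      simp only [hM]
      rw [norm_div, div_le_one (norm_pos_iff.mpr (key _ (hF0 z hz)))]
      have h1 := hF0 z hz
      rw [← sq_le_sq₀ (norm_nonneg _) (norm_nonneg _), Complex.sq_norm, Complex.sq_norm,
        Complex.normSq_apply, Complex.normSq_apply]
      simp only [Complex.sub_re, Complex.sub_im, Complex.add_re, Complex.add_im, Complex.one_re,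
        Complex.one_im]
      nlinarith
    have hM1 : ‖M z₁‖ = 1 := by
      simp only [hM]
      rw [norm_div, div_eq_one_iff_eq (norm_ne_zero_iff.mpr (key _ (hF0 z₁ hz₁)))]
      rw [← sq_eq_sq₀ (norm_nonneg _) (norm_nonneg _), Complex.sq_norm, Complex.sq_norm,
        Complex.normSq_apply, Complex.normSq_apply]
      simp only [Complex.sub_re, Complex.sub_im, Complex.add_re, Complex.add_im, Complex.one_re,
        Complex.one_im, h0]
      ring
    have hmax : IsMaxOn (norm ∘ M) Dk z₁ := by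
      intro z hz
      simp only [Function.comp, Set.mem_ofPred_eq]
      rw [hM1]
      exact hMle z hz
    have hconst := Complex.eqOn_of_isPreconnected_of_isMaxOn_norm
      (convex_ball (0 : ℂ) 1).isPreconnected isOpen_ball hMd hz₁ hmax
    have hFc : ∀ z ∈ Dk, F z = F z₁ := by
      intro z hz
      have h1 := hconst hz
      simp only [Function.const, hM] at h1
      rw [div_eq_div_iff (key _ (hF0 z hz)) (key _ (hF0 z₁ hz₁))] at h1
      have h2 : 2 * (F z - F z₁) = 0 := by linear_combination h1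
      have h3 : F z - F z₁ = 0 := by
        rcases mul_eq_zero.mp h2 with h | h
        · norm_num at h
        · exact h
      exact sub_eq_zero.mp h3
    apply hinj
    intro z hz w hw hzw
    have h1 := hFc z hz
    have h2 := hFc w hw
    rw [← h2] at h1
    simp only [hF] at h1
    rw [hzw] at h1
    have h3 : (ζ + z) / (ζ - z) = (ζ + w) / (ζ - w) := by linear_combination -h1
    exact HoroS_inj hζ (hn z hz) (hn w hw) h3
  have hz0 : (0 : ℂ) ∈ Dk := by simp
  have hx0 := hpos 0 hz0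
  refine ⟨(F 0).re / 2, by positivity, ?_⟩
  intro z hz
  rw [← hFre z hz]
  have hden : ∀ w ∈ Dk, F w + (starRingEnd ℂ) (F 0) ≠ 0 := by
    intro w hw h
    have h1 := congrArg Complex.re h
    simp only [Complex.add_re, Complex.conj_re, Complex.zero_re] at h1
    have := hpos w hw
    linarith
  set K : ℂ → ℂ := fun w => (F w - F 0) / (F w + (starRingEnd ℂ) (F 0)) with hK
  have hKd : DifferentiableOn ℂ K (ball 0 1) := by
    apply DifferentiableOn.div
    · exact hFd.sub (differentiableOn_const _)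
    · exact hFd.add (differentiableOn_const _)
    · exact hden
  have hKm : MapsTo K (ball 0 1) (ball 0 1) := by
    intro w hw
    rw [mem_ball_zero_iff]
    simp only [hK]
    rw [norm_div, div_lt_one (norm_pos_iff.mpr (hden w hw))]
    have h1 := hpos w hw
    rw [← sq_lt_sq₀ (norm_nonneg _) (norm_nonneg _), Complex.sq_norm, Complex.sq_norm,
      Complex.normSq_apply, Complex.normSq_apply]
    simp only [Complex.sub_re, Complex.sub_im, Complex.add_re, Complex.add_im, Complex.conj_re,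
      Complex.conj_im]
    nlinarith [mul_pos h1 hx0]
  have hK0 : K 0 = 0 := by simp [hK]
  have hs : ‖K z‖ ≤ ‖z‖ :=
    Complex.norm_le_norm_of_mapsTo_ball hKd (hKm.mono_right ball_subset_closedBall) hK0 (hn z hz)
  simp only [hK] at hs
  have hd := hden z hz
  rw [norm_div, div_le_iff₀ (norm_pos_iff.mpr hd)] at hs
  have hx := hpos z hz
  have ht := hn z hz
  have ht0 := norm_nonneg z
  -- squared inequality
  have hsq : ‖F z - F 0‖ ^ 2 ≤ ‖z‖ ^ 2 * ‖F z + (starRingEnd ℂ) (F 0)‖ ^ 2 := by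
    rw [← mul_pow]
    exact pow_le_pow_left₀ (norm_nonneg _) hs 2
  rw [Complex.sq_norm (F z - F 0), Complex.sq_norm (F z + _), Complex.normSq_apply,
    Complex.normSq_apply] at hsq
  simp only [Complex.sub_re, Complex.sub_im, Complex.add_re, Complex.add_im, Complex.conj_re,
    Complex.conj_im] at hsq
  set x := (F z).re
  set x₀ := (F 0).re
  set t := ‖z‖
  have hsq2 : (x₀ - x) ^ 2 ≤ (t * (x + x₀)) ^ 2 := by
    have h5 : 0 ≤ (1 - t ^ 2) * ((F z).im - (F 0).im) ^ 2 := by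
      apply mul_nonneg _ (sq_nonneg _)
      nlinarith
    nlinarith [h5]
  have h6 : x₀ - x ≤ t * (x + x₀) := by
    exact (le_abs_self _).trans (abs_le_of_sq_le_sq hsq2 (by positivity))
  -- x₀ (1 - t) ≤ x (1 + t) ≤ 2 x
  nlinarith [mul_pos hx (sub_pos.mpr ht)]

end Pool.Agent.TC
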