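/-
Project TC (MP_d9e400_an). Module Growth (copy of the TB module for domains on which f is not injective).
Growth estimate for f near the hull in the exterior coordinate.

PROOF. V = Vset U, κ = inverse of Ψ : V → Dk \ {0}, holomorphic (exists_inverse on Dk \ {0}). ρ₁ = 1/2. {1/2 ≤ ‖w‖ < 1} is mapped by Ψ into
a bounded set (hΨ.out), f of it is bounded by R, so there is m₀ > 0 (hΨ.bd, WLOG m₀ ≤ 1) with ‖κ(f(Ψ w))‖ ≥ m₀ whenever f(Ψ w) ∈ V.
Choose m with (1/2)^m ≤ m₀. Ω = {w : 1/2 < ‖w‖ < 1, f(Ψ w) ∈ V} open, bounded; H w = w^m/κ(f(Ψ w)) holomorphic on Ω.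
Boundary: y ∈ frontier Ω, so y ∉ Ω, 1/2 ≤ ‖y‖ ≤ 1. Argue by sequences w_n ∈ Ω → y with ‖H w_n‖ > 1 + ε.
Fact: if z_n ∈ V is bounded and z_n → z ∉ V then ‖κ z_n‖ → 1 (else a subsequence κ z_n → v with ‖v‖ < 1, v ≠ 0 by bd, z_n =
Ψ(κ z_n) → Ψ v ∈ V).
(a) ‖y‖ = 1/2: ‖H w_n‖ ≤ ‖w_n‖^m/m₀ → (1/2)^m/m₀ ≤ 1. (b) 1/2 < ‖y‖ < 1: f(Ψ y) ∉ V (otherwise y ∈ Ω), z_n = f(Ψ w_n) → f(Ψ y) ∉ V,
‖κ z_n‖ → 1, ‖H w_n‖ → ‖y‖^m ≤ 1. (c) ‖y‖ = 1: Ψ w_n bounded, subsequence → z; z ∉ V (if z ∈ V then w_n = κ(Ψ w_n) → κ z ∈ Dk);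
so f z ∉ V (mem_V_of_map), f(Ψ w_n) → f z, ‖κ(f(Ψ w_n))‖ → 1 by the Fact, ‖H w_n‖ → 1.
norm_le_one_of_boundary: ‖w‖^m ≤ ‖κ(f(Ψ w))‖ = ‖w'‖ when Ψ w' = f(Ψ w).
-/
import Mathlib
import Pool.Agent.TB.Defs
import Pool.Agent.TC.Defs
import Pool.Agent.TB.Injective
import Pool.Agent.TC.Top2
import Pool.Agent.TB.MaxBd

set_option autoImplicit false

open Set Filter Topology Metric

namespace Pool.Agent.TC

open Pool.Agent.TB

theorem growth {f : ℂ → ℂ} {U : Set ℂ} {z₀ : ℂ} (B : NBasin f U z₀) {Ψ : ℂ → ℂ}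
    (hΨ : Ext (Vset U) Ψ) :
    ∃ (m : ℕ) (ρ₁ : ℝ), 1 / 2 ≤ ρ₁ ∧ ρ₁ < 1 ∧ ∀ w w' : ℂ, w' ∈ Dk \ {0} → ρ₁ < ‖w‖ → ‖w‖ < 1 →
      Ψ w' = f (Ψ w) → ‖w‖ ^ m ≤ ‖w'‖ := by
  have hDo : IsOpen (Dk \ {0} : Set ℂ) := isOpen_ball.sdiff isClosed_singleton
  obtain ⟨κ, hκd, hκl, hκm, hκr⟩ := exists_inverse hDo hΨ.diff hΨ.bij.injOn
  rw [hΨ.bij.image_eq] at hκd hκm hκr
  have hVo : IsOpen (Vset U) := isOpen_V B
  have hfc : Continuous f := B.hf.continuous
  obtain ⟨R, hR⟩ := hΨ.out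
  obtain ⟨R', hR'⟩ : ∃ R' : ℝ, ∀ z ∈ closedBall (0 : ℂ) R, ‖f z‖ ≤ R' :=
    (isCompact_closedBall (0 : ℂ) R).exists_bound_of_continuousOn hfc.continuousOn
  obtain ⟨m₀, hm₀, hm₀b⟩ := hΨ.bd R'
  obtain ⟨m, hm⟩ := exists_pow_lt_of_lt_one hm₀ (by norm_num : (1 / 2 : ℝ) < 1)
  -- the fact
  have fact : ∀ z ∉ Vset U, ∀ r : ℝ, r < 1 → ∀ᶠ z' in 𝓝[Vset U] z, r < ‖κ z'‖ := by
    intro z hz r hr
    obtain ⟨m₁, hm₁, hm₁b⟩ := hΨ.bd (‖z‖ + 1)
    set C : Set ℂ := {w | ‖w‖ ≤ r ∧ m₁ ≤ ‖w‖} with hC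
    have hCc : IsCompact C := by
      have : IsClosed C := (isClosed_le continuous_norm continuous_const).inter
        (isClosed_le continuous_const continuous_norm)
      refine (isCompact_closedBall (0 : ℂ) r).of_isClosed_subset this ?_
      intro w hw
      simpa using hw.1
    have hCs : C ⊆ Dk \ {0} := by
      intro w hw
      refine ⟨by simpa using lt_of_le_of_lt hw.1 hr, ?_⟩
      rintro rfl
      have := hw.2
      rw [norm_zero] at this
      linarith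
    have hIm : IsCompact (Ψ '' C) := hCc.image_of_continuousOn (hΨ.diff.continuousOn.mono hCs)
    have hzI : z ∉ Ψ '' C := by
      rintro ⟨w, hw, rfl⟩
      exact hz (hΨ.bij.mapsTo (hCs hw))
    have h1 : ∀ᶠ z' in 𝓝 z, z' ∉ Ψ '' C := hIm.isClosed.isOpen_compl.mem_nhds hzI
    have h2 : ∀ᶠ z' in 𝓝 z, ‖z'‖ < ‖z‖ + 1 :=
      continuous_norm.continuousAt.eventually (Iio_mem_nhds (by linarith))
    filter_upwards [nhdsWithin_le_nhds h1, nhdsWithin_le_nhds h2, self_mem_nhdsWithin]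
      with z' h1 h2 h3
    by_contra hcon
    push Not at hcon
    apply h1
    refine ⟨κ z', ⟨hcon, ?_⟩, hκr z' h3⟩
    apply hm₁b _ (hκm h3)
    rw [hκr z' h3]
    exact h2.le
  set A : Set ℂ := {w | 1 / 2 < ‖w‖ ∧ ‖w‖ < 1} with hA
  have hAo : IsOpen A := (isOpen_lt continuous_const continuous_norm).inter
    (isOpen_lt continuous_norm continuous_const)
  have hAs : A ⊆ Dk \ {0} := by
    intro w hw
    refine ⟨by simpa using hw.2, ?_⟩
    rintro rfl
    have := hw.1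
    rw [norm_zero] at this
    norm_num at this
  have hΨc : ContinuousOn Ψ (Dk \ {0}) := hΨ.diff.continuousOn
  have hfΨ : ContinuousOn (fun w => f (Ψ w)) A :=
    hfc.comp_continuousOn (hΨc.mono hAs)
  set Ω : Set ℂ := A ∩ (fun w => f (Ψ w)) ⁻¹' (Vset U) with hΩ
  have hΩo : IsOpen Ω := hfΨ.isOpen_inter_preimage hAo hVo
  have hΩb : Bornology.IsBounded Ω := by
    refine isBounded_ball.subset (s := Ω) (t := ball (0 : ℂ) 1) ?_
    intro w hw
    exact (hAs hw.1).1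
  set G : ℂ → ℂ := fun w => κ (f (Ψ w)) with hG
  have hGd : DifferentiableOn ℂ G Ω := by
    have h1 : DifferentiableOn ℂ (fun w => f (Ψ w)) Ω :=
      B.hf.comp_differentiableOn (hΨ.diff.mono (inter_subset_left.trans hAs))
    exact hκd.comp h1 (fun w hw => hw.2)
  have hG0 : ∀ w ∈ Ω, G w ≠ 0 := fun w hw => (hκm hw.2).2
  have hGm : ∀ w ∈ Ω, m₀ ≤ ‖G w‖ := by
    intro w hw
    apply hm₀b _ (hκm hw.2)
    rw [hκr _ hw.2]
    apply hR'
    have := hR w (hAs hw.1).1 hw.1.1.le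
    simpa using this
  have hHd : DifferentiableOn ℂ (fun w => w ^ m / G w) Ω :=
    DifferentiableOn.div (differentiableOn_id.pow m) hGd hG0
  have hHn : ∀ w, ‖w ^ m / G w‖ = ‖w‖ ^ m / ‖G w‖ := fun w => by rw [norm_div, norm_pow]
  have good : ∀ w ∈ Ω, ∀ ε : ℝ, 0 < ε → 1 / (1 + ε) < ‖G w‖ → ‖w ^ m / G w‖ ≤ 1 + ε := by
    intro w hw ε hε h
    rw [hHn]
    have hgpos : 0 < ‖G w‖ := norm_pos_iff.2 (hG0 w hw)
    rw [div_le_iff₀ hgpos]
    have h1 : ‖w‖ ^ m ≤ 1 := pow_le_one₀ (norm_nonneg _) hw.1.2.le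
    have h2 : 1 ≤ (1 + ε) * ‖G w‖ := by
      rw [div_lt_iff₀ (by linarith)] at h
      linarith [mul_comm (1 + ε) ‖G w‖]
    linarith
  have hbd : ∀ y ∈ frontier Ω, ∀ ε : ℝ, 0 < ε → ∀ᶠ w in 𝓝[Ω] y, ‖w ^ m / G w‖ ≤ 1 + ε := by
    intro y hy ε hε
    have hyΩ : y ∉ Ω := by
      rw [hΩo.frontier_eq] at hy
      exact hy.2
    have hycl : y ∈ closure Ω := frontier_subset_closure hy
    have hy1 : 1 / 2 ≤ ‖y‖ := by
      have : closure Ω ⊆ {w : ℂ | 1 / 2 ≤ ‖w‖} :=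
        closure_minimal (fun w hw => hw.1.1.le) (isClosed_le continuous_const continuous_norm)
      exact this hycl
    have hy2 : ‖y‖ ≤ 1 := by
      have : closure Ω ⊆ {w : ℂ | ‖w‖ ≤ 1} :=
        closure_minimal (fun w hw => hw.1.2.le) (isClosed_le continuous_norm continuous_const)
      exact this hycl
    have hr1 : 1 / (1 + ε) < 1 := by
      rw [div_lt_one (by linarith)]
      linarith
    rcases hy1.eq_or_lt with hy1 | hy1
    · -- (a)
      have hc : ContinuousAt (fun w : ℂ => ‖w‖ ^ m / m₀) y := by fun_prop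
      have hv : ‖y‖ ^ m / m₀ < 1 + ε := by
        rw [← hy1, div_lt_iff₀ hm₀]
        nlinarith
      have h1 : ∀ᶠ w in 𝓝 y, ‖w‖ ^ m / m₀ < 1 + ε := hc.eventually (Iio_mem_nhds hv)
      filter_upwards [nhdsWithin_le_nhds h1, self_mem_nhdsWithin] with w h1 hw
      rw [hHn]
      refine le_trans ?_ h1.le
      exact div_le_div_of_nonneg_left (by positivity) hm₀ (hGm w hw)
    · rcases hy2.lt_or_eq with hy2 | hy2
      · -- (b)
        have hyA : y ∈ A := ⟨hy1, hy2⟩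
        have hz : f (Ψ y) ∉ Vset U := fun h => hyΩ ⟨hyA, h⟩
        have hct : ContinuousAt (fun w => f (Ψ w)) y := hfΨ.continuousAt (hAo.mem_nhds hyA)
        have ht : Tendsto (fun w => f (Ψ w)) (𝓝[Ω] y) (𝓝[Vset U] (f (Ψ y))) := by
          apply tendsto_nhdsWithin_of_tendsto_nhds_of_eventually_within
          · exact hct.tendsto.mono_left nhdsWithin_le_nhds
          · filter_upwards [self_mem_nhdsWithin] with w hw using hw.2
        filter_upwards [ht.eventually (fact _ hz _ hr1), self_mem_nhdsWithin] with w h1 hw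
        exact good w hw ε hε h1
      · -- (c)
        have key : ∀ᶠ w in 𝓝[Ω] y, 1 / (1 + ε) < ‖G w‖ := by
          by_contra hcon
          have hfr : ∃ᶠ w in 𝓝[Ω] y, ¬ (1 / (1 + ε) < ‖G w‖) := Filter.not_eventually.1 hcon
          set l : Filter ℂ := 𝓝[Ω] y ⊓ 𝓟 {w | ¬ (1 / (1 + ε) < ‖G w‖)} with hl
          have hlne : l.NeBot := frequently_iff_neBot.1 hfr
          have hlΩ : ∀ᶠ w in l, w ∈ Ω :=
            (inf_le_left : l ≤ 𝓝[Ω] y) self_mem_nhdsWithin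
          have hlr : ∀ᶠ w in l, ¬ (1 / (1 + ε) < ‖G w‖) :=
            (inf_le_right : l ≤ _) (mem_principal_self _)
          have hly : l ≤ 𝓝 y := inf_le_left.trans nhdsWithin_le_nhds
          have hmap : Filter.map Ψ l ≤ 𝓟 (closedBall (0 : ℂ) R) := by
            rw [le_principal_iff, Filter.mem_map]
            filter_upwards [hlΩ] with w hw
            have := hR w (hAs hw.1).1 hw.1.1.le
            simpa using this
          obtain ⟨z, -, hz⟩ := (isCompact_closedBall (0 : ℂ) R) (f := Filter.map Ψ l) hmap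
          set l' : Filter ℂ := l ⊓ Filter.comap Ψ (𝓝 z) with hl'
          have hl'ne : l'.NeBot := by
            have hz' : (𝓝 z ⊓ Filter.map Ψ l).NeBot := hz
            have h7 : Filter.map Ψ l' = Filter.map Ψ l ⊓ 𝓝 z := Filter.push_pull Ψ l (𝓝 z)
            rw [← Filter.map_neBot_iff Ψ, h7, inf_comm]
            exact hz'
          have hΨz : Tendsto Ψ l' (𝓝 z) := tendsto_comap.mono_left inf_le_right
          have hl'l : l' ≤ l := inf_le_left
          have hzV : z ∉ Vset U := by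
            intro hzV
            have hk : Tendsto (fun w => κ (Ψ w)) l' (𝓝 (κ z)) :=
              ((hκd.continuousOn.continuousAt (hVo.mem_nhds hzV)).tendsto).comp hΨz
            have hk2 : Tendsto (fun w : ℂ => w) l' (𝓝 (κ z)) := by
              refine hk.congr' ?_
              filter_upwards [hl'l hlΩ] with w hw
              exact hκl w (hAs hw.1)
            have hk3 : Tendsto (fun w : ℂ => w) l' (𝓝 y) := hl'l.trans hly
            have := tendsto_nhds_unique hk3 hk2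
            have h5 := (hκm hzV).1
            rw [← this] at h5
            simp at h5
            linarith
          have hfz : f z ∉ Vset U := fun h => hzV (mem_V_of_map B h)
          have ht : Tendsto (fun w => f (Ψ w)) l' (𝓝[Vset U] (f z)) := by
            apply tendsto_nhdsWithin_of_tendsto_nhds_of_eventually_within
            · exact (hfc.tendsto z).comp hΨz
            · filter_upwards [hl'l hlΩ] with w hw using hw.2
          have h6 := ht.eventually (fact _ hfz _ hr1)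
          obtain ⟨w, hw1, hw2⟩ := (h6.and (hl'l hlr)).exists
          exact hw2 hw1
        filter_upwards [key, self_mem_nhdsWithin] with w h1 hw
        exact good w hw ε hε h1
  have main := norm_le_one_of_boundary hΩo hΩb hHd hbd
  refine ⟨m, 1 / 2, le_rfl, by norm_num, ?_⟩
  intro w w' hw' h1 h2 h3
  have hwΩ : w ∈ Ω := ⟨⟨h1, h2⟩, by
    show f (Ψ w) ∈ Vset U
    rw [← h3]
    exact hΨ.bij.mapsTo hw'⟩
  have h4 := main w hwΩ
  rw [hHn, div_le_one (norm_pos_iff.2 (hG0 w hwΩ))] at h4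
  have h5 : G w = w' := by
    show κ (f (Ψ w)) = w'
    rw [← h3]
    exact hκl w' hw'
  rw [h5] at h4
  exact h4

end Pool.Agent.TC
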