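/-
Project TC (MP_d9e400_an). Module AccAbs (copy of the TB module for domains on which f is not injective).
Access from outside from a local inverse branch with controlled convergence.

PROOF. Ψ from exists_ext, (m, ρ₁) from growth. p ∈ frontier U = frontier V: z₁ ∈ V ∩ ball p r₁; v n = ψ^[n] z₁ ∈ V, v n → p. far with ρ₁:
d ≤ infDist (Ψ w) Vᶜ ≤ ‖Ψ w - p‖ for 0 < ‖w‖ ≤ ρ₁, so with r₀ = min d r₁ hout holds. n₀ with v n ∈ ball p r₀ for n ≥ n₀ (hdec).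
w n = κ (v n) (Ψ (w n) = v n, w n ∈ Dk \ {0}). For n ≥ n₀: Ψ(w n) = v n = f (v (n+1)) = f (Ψ (w (n+1))) and ‖w (n+1)‖ > ρ₁ (hout), so
‖w (n+1)‖^m ≤ ‖w n‖ (growth), 1 - ‖w n‖ ≤ 1 - ‖w(n+1)‖^m ≤ m (1 - ‖w(n+1)‖) (one_sub ... Bernoulli), so
1-‖w(n+1)‖ ≥ (1-‖w n‖)/(m+1). So 1 - ‖w(n₀+k)‖ ≥ c q^k, q = 1/(m+1) (m ≥ 1 or just use q = 1/(m+2) < 1), c = 1 - ‖w n₀‖.
packing for the shifted sequences: i < j with v' i, v' j joined in S = V ∩ ball p r₀. P = ψ^[j-i], P^[n] = ψ^[(j-i) n] (Function.iterate_mul);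
iter_access with v = v' i, P v = v' j; hconv from hdec (j-i ≥ 1).
-/
import Mathlib
import Pool.Agent.TB.Defs
import Pool.Agent.TC.Defs
import Pool.Agent.TC.Growth
import Pool.Agent.TB.Packing
import Pool.Agent.TB.Iter
import Pool.Agent.TC.ExtMap

set_option autoImplicit false

open Set Filter Topology Metric

namespace Pool.Agent.TC

open Pool.Agent.TB

private theorem AccAbs_tendsto (C : ℝ) {α : ℝ} (hα : 0 < α) :
    Tendsto (fun n : ℕ => C / ((n : ℝ) + 1) ^ α) atTop (𝓝 0) := by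
  have h1 : Tendsto (fun n : ℕ => (n : ℝ) + 1) atTop atTop :=
    tendsto_atTop_add_const_right _ _ tendsto_natCast_atTop_atTop
  have h2 : Tendsto (fun n : ℕ => ((n : ℝ) + 1) ^ α) atTop atTop :=
    (tendsto_rpow_atTop hα).comp h1
  exact h2.const_div_atTop C

theorem access_of_branch {f : ℂ → ℂ} {U : Set ℂ} {z₀ : ℂ} (B : NBasin f U z₀) {p : ℂ}
    (hp : p ∈ frontier U) {ψ : ℂ → ℂ} {r₁ : ℝ} (hr₁ : 0 < r₁)
    (hmaps : ∀ n, MapsTo ψ^[n] (Vset U ∩ Metric.ball p r₁) (Vset U))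
    (hcont : ∀ n, ContinuousOn ψ^[n] (Vset U ∩ Metric.ball p r₁))
    (hdec : ∃ C α : ℝ, 0 < α ∧ ∀ n : ℕ, ∀ z ∈ Vset U ∩ Metric.ball p r₁,
      ‖ψ^[n] z - p‖ ≤ C / ((n : ℝ) + 1) ^ α)
    (hinv : ∀ n : ℕ, ∀ z ∈ Vset U ∩ Metric.ball p r₁, f (ψ^[n + 1] z) = ψ^[n] z) :
    Acc (Vset U) p := by
  obtain ⟨C, α, hα, hdec⟩ := hdec
  obtain ⟨Ψ, hΨ⟩ := exists_ext B
  obtain ⟨m, ρ₁, hρ₁, hρ₁', hgrow⟩ := growth B hΨ
  have hVo := isOpen_V B
  have hpV : p ∈ frontier (Vset U) := by rw [frontier_V B]; exact hp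
  have hpn : p ∉ Vset U := by
    rw [hVo.frontier_eq] at hpV
    exact hpV.2
  have hpc : p ∈ closure (Vset U) := frontier_subset_closure hpV
  obtain ⟨z₁, hz₁V, hz₁d⟩ := Metric.mem_closure_iff.mp hpc r₁ hr₁
  have hz₁ : z₁ ∈ Vset U ∩ Metric.ball p r₁ := ⟨hz₁V, by rw [Metric.mem_ball, dist_comm]; exact hz₁d⟩
  set v : ℕ → ℂ := fun n => ψ^[n] z₁ with hv
  have hvV : ∀ n, v n ∈ Vset U := fun n => hmaps n hz₁
  have hvdec : ∀ n : ℕ, ‖v n - p‖ ≤ C / ((n : ℝ) + 1) ^ α := fun n => hdec n z₁ hz₁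
  have hC : 0 ≤ C := by
    have h1 := hvdec 0
    have h2 := norm_nonneg (v 0 - p)
    simp only [Nat.cast_zero, zero_add, Real.one_rpow, div_one] at h1
    linarith
  obtain ⟨d, hd, hfar⟩ := hΨ.far ρ₁ hρ₁'
  set r₀ : ℝ := min d r₁ with hr₀def
  have hr₀ : 0 < r₀ := lt_min hd hr₁
  have hout : ∀ w : ℂ, w ≠ 0 → ‖w‖ ≤ ρ₁ → Ψ w ∉ Metric.ball p r₀ := by
    intro w hw0 hw hmem
    have h1 := hfar w hw0 hw
    have h2 : Metric.infDist (Ψ w) (Vset U)ᶜ ≤ dist (Ψ w) p := Metric.infDist_le_dist_of_mem hpn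
    have h3 : dist (Ψ w) p < r₀ := hmem
    have h4 : r₀ ≤ d := min_le_left _ _
    linarith
  have hev : ∀ᶠ n : ℕ in atTop, C / ((n : ℝ) + 1) ^ α < r₀ :=
    (AccAbs_tendsto C hα).eventually (gt_mem_nhds hr₀)
  obtain ⟨n₀, hn₀⟩ := eventually_atTop.mp hev
  have hvball : ∀ n ≥ n₀, v n ∈ Metric.ball p r₀ := by
    intro n hn
    rw [Metric.mem_ball, dist_eq_norm]
    exact lt_of_le_of_lt (hvdec n) (hn₀ n hn)
  have hex : ∀ n, ∃ w, w ∈ Dk \ {0} ∧ Ψ w = v n := by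
    intro n
    obtain ⟨w, hw, hw2⟩ := hΨ.bij.surjOn (hvV n)
    exact ⟨w, hw, hw2⟩
  choose w hwD hwv using hex
  have hwlt : ∀ n, ‖w n‖ < 1 := by
    intro n
    have := (hwD n).1
    rwa [Metric.mem_ball, dist_zero_right] at this
  have hstep : ∀ n ≥ n₀, ‖w (n + 1)‖ ^ m ≤ ‖w n‖ := by
    intro n hn
    have h1 : ρ₁ < ‖w (n + 1)‖ := by
      by_contra hcon
      push Not at hcon
      apply hout (w (n + 1)) (hwD (n + 1)).2 hcon
      rw [hwv (n + 1)]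
      exact hvball (n + 1) (by omega)
    apply hgrow (w (n + 1)) (w n) (hwD n) h1 (hwlt (n + 1))
    rw [hwv n, hwv (n + 1)]
    exact (hinv n z₁ hz₁).symm
  set q : ℝ := 1 / ((m : ℝ) + 2) with hq
  have hm0 : (0 : ℝ) ≤ m := Nat.cast_nonneg m
  have hq0 : 0 < q := by positivity
  have hq1 : q < 1 := by
    rw [hq, div_lt_one (by linarith)]
    linarith
  have hstep2 : ∀ n ≥ n₀, q * (1 - ‖w n‖) ≤ 1 - ‖w (n + 1)‖ := by
    intro n hn
    have h1 := hstep n hn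
    have h2 := hwlt (n + 1)
    have h3 := norm_nonneg (w (n + 1))
    have h4 : 1 + (m : ℝ) * (‖w (n + 1)‖ - 1) ≤ (1 + (‖w (n + 1)‖ - 1)) ^ m :=
      one_add_mul_le_pow (by linarith) m
    have h5 : (1 + (‖w (n + 1)‖ - 1)) = ‖w (n + 1)‖ := by ring
    rw [h5] at h4
    have h6 : 1 - ‖w n‖ ≤ ((m : ℝ) + 2) * (1 - ‖w (n + 1)‖) := by nlinarith
    rw [hq, div_mul_eq_mul_div, one_mul, div_le_iff₀ (by linarith)]
    linarith
  set c : ℝ := 1 - ‖w n₀‖ with hc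
  have hc0 : 0 < c := by have := hwlt n₀; linarith
  have hlow : ∀ k : ℕ, c * q ^ k ≤ 1 - ‖w (n₀ + k)‖ := by
    intro k
    induction k with
    | zero => simp [hc]
    | succ k ih =>
      have h1 := hstep2 (n₀ + k) (by omega)
      calc c * q ^ (k + 1) = q * (c * q ^ k) := by ring
        _ ≤ q * (1 - ‖w (n₀ + k)‖) := by gcongr
        _ ≤ 1 - ‖w (n₀ + (k + 1))‖ := h1
  have hdec' : ∀ k : ℕ, ‖v (n₀ + k) - p‖ ≤ C / ((k : ℝ) + 1) ^ α := by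
    intro k
    refine (hvdec (n₀ + k)).trans ?_
    have h1 : (k : ℝ) + 1 ≤ ((n₀ + k : ℕ) : ℝ) + 1 := by push_cast; linarith [Nat.cast_nonneg (α := ℝ) n₀]
    have h2 : 0 < ((k : ℝ) + 1) ^ α := by positivity
    have h3 : ((k : ℝ) + 1) ^ α ≤ (((n₀ + k : ℕ) : ℝ) + 1) ^ α :=
      Real.rpow_le_rpow (by positivity) h1 hα.le
    exact div_le_div_of_nonneg_left hC h2 h3
  obtain ⟨i, j, hij, hjoin⟩ := packing hVo hΨ hpn hr₀ (v := fun k => v (n₀ + k))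
    (w := fun k => w (n₀ + k)) (fun k => ⟨hvV _, hvball _ (by omega)⟩)
    (fun k => ⟨hwD _, hwv _⟩) hα hdec' hc0 hq0 hq1 hlow hρ₁ hρ₁' hout
  have hsub : Vset U ∩ Metric.ball p r₀ ⊆ Vset U ∩ Metric.ball p r₁ := by
    apply inter_subset_inter_right
    exact Metric.ball_subset_ball (min_le_right _ _)
  have hPn : ∀ n, (ψ^[j - i])^[n] = ψ^[(j - i) * n] := fun n => (Function.iterate_mul ψ (j - i) n).symm
  apply iter_access (S := Vset U ∩ Metric.ball p r₀) (P := ψ^[j - i]) (v := v (n₀ + i))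
  · intro n
    rw [hPn n]
    exact (hmaps _).mono_left hsub
  · intro n
    rw [hPn n]
    exact (hcont _).mono hsub
  · intro ε hε
    have hev2 : ∀ᶠ n : ℕ in atTop, C / ((n : ℝ) + 1) ^ α < ε :=
      (AccAbs_tendsto C hα).eventually (gt_mem_nhds hε)
    obtain ⟨N, hN⟩ := eventually_atTop.mp hev2
    refine ⟨N, fun n hn z hz => ?_⟩
    rw [hPn n]
    refine lt_of_le_of_lt (hdec _ z (hsub hz)) ?_
    apply hN
    calc N ≤ n := hn
      _ = 1 * n := (one_mul n).symm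
      _ ≤ (j - i) * n := Nat.mul_le_mul_right n (by omega)
  · have h1 : ψ^[j - i] (v (n₀ + i)) = v (n₀ + j) := by
      simp only [hv]
      rw [← Function.iterate_add_apply]
      congr 1
      omega
    rw [h1]
    exact hjoin

end Pool.Agent.TC
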