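/-
Project TC (MP_d9e400_an). Module LandPar.
The radius at the parabolic fixed point of the circle lands at a point accessible from outside.

PROOF. landing_par: p, RadLim φ ζ p, f p = p; p ∈ frontier U (radLim_frontier). Log: h with Tr h, exp (h w) = φ w - p (exists_log_holo (sc_U B), compare TB/Snail.lean).
radial (TC.Circ) at ζ: the μ there is 1 (hder, hfix), so ‖Bl (rζ) - rζ‖ ≤ C(1-r)², 1 - ‖Bl (rζ)‖ ≥ (1-r) - C(1-r)² ≥ (1-r)/2 for r near 1, and
tr_diff with δ = (1-r)/2: h (Bl (rζ)) - h (rζ) → 0. exp of it is (f (φ (rζ)) - p)/(φ (rζ) - p) → deriv f p (φ (rζ) → p, ≠ p). So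
deriv f p = 1; access_parabolic.
-/
import Mathlib
import Pool.Agent.TB.Defs
import Pool.Agent.TB.ConfA
import Pool.Agent.TB.SnailA
import Pool.Agent.TB.LogSC
import Pool.Agent.TC.Defs
import Pool.Agent.TC.Circ
import Pool.Agent.TC.Landing
import Pool.Agent.TC.Top3
import Pool.Agent.TC.ParAcc

set_option autoImplicit false

open Set Filter Topology Metric

namespace Pool.Agent.TC

open Pool.Agent.TB

theorem par_access {f : ℂ → ℂ} {U : Set ℂ} {z₀ : ℂ} (B : NBasin f U z₀) {φ : ℂ → ℂ}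
    (hφ : Conf φ U) {d : ℕ} {c : ℂ} {a : Fin d → ℂ} (hd : BlN d c a)
    (hconj : ∀ w ∈ Dk, φ (Bl c a w) = f (φ w)) {ζ : ℂ} (hζ : ‖ζ‖ = 1) (hfix : Bl c a ζ = ζ)
    (hder : deriv (Bl c a) ζ = 1) : ∃ x, RadLim φ ζ x ∧ Acc (Vset U) x := by
  obtain ⟨p, hp, hfp⟩ := landing_par B hφ hd hconj hζ hfix hder
  refine ⟨p, hp, ?_⟩
  have hpF : p ∈ frontier U := radLim_frontier hφ hζ hp
  refine access_parabolic B hpF hfp ?_
  have hG : MapsTo (Bl c a) Dk Dk := Bl_mapsTo hd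
  have hpU : p ∉ U := by
    rw [B.isOpen.frontier_eq] at hpF
    exact hpF.2
  have hne : ∀ z ∈ U, z - p ≠ 0 := by
    intro z hz h0
    exact hpU (by rwa [sub_eq_zero.1 h0] at hz)
  obtain ⟨L, hLd, hL⟩ := exists_log_holo (sc_U B) (h := fun z => z - p)
    (by fun_prop) hne
  have hmaps : MapsTo φ Dk U := hφ.bij.mapsTo
  have hexp : ∀ w ∈ Dk, Complex.exp (L (φ w)) = φ w - p := fun w hw => hL _ (hmaps hw)
  have H : Tr (fun w => L (φ w)) := by
    refine ⟨hLd.comp hφ.diff hmaps, ?_, ?_⟩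
    · intro w hw w' hw' hww
      replace hww : L (φ w) = L (φ w') := hww
      apply hφ.bij.injOn hw hw'
      have h1 := hexp w hw
      have h2 := hexp w' hw'
      rw [hww, h2] at h1
      exact (sub_left_inj.1 h1).symm
    · intro w hw w' hw' n hn hww
      replace hww : L (φ w) = L (φ w') + 2 * (Real.pi : ℂ) * Complex.I * n := hww
      have h1 := hexp w hw
      have h2 := hexp w' hw'
      have h3 : Complex.exp (L (φ w)) = Complex.exp (L (φ w')) := by
        rw [hww, Complex.exp_add]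
        have : Complex.exp (2 * (Real.pi : ℂ) * Complex.I * n) = 1 := by
          rw [Complex.exp_eq_one_iff]
          exact ⟨n, by ring⟩
        rw [this, mul_one]
      have h4 : φ w = φ w' := by
        rw [h1, h2] at h3
        exact sub_left_inj.1 h3
      rw [h4] at hww
      have h5 : (2 * (Real.pi : ℂ) * Complex.I * n) = 0 := by
        have := hww
        rw [left_eq_add] at this
        exact this
      have h6 : (2 * (Real.pi : ℂ) * Complex.I) ≠ 0 := Complex.two_pi_I_ne_zero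
      rcases mul_eq_zero.1 h5 with h7 | h7
      · exact h6 h7
      · exact hn (by exact_mod_cast h7)
  have hDk : ∀ᶠ r : ℝ in 𝓝[<] (1 : ℝ), ((r : ℂ) * ζ) ∈ Dk := by
    have h1 : ∀ᶠ r : ℝ in 𝓝[<] (1 : ℝ), r ∈ Ioo (0 : ℝ) 1 :=
      Ioo_mem_nhdsLT (by norm_num)
    filter_upwards [h1] with r hr
    rw [mem_ball_zero_iff, norm_mul, hζ, mul_one, Complex.norm_real, Real.norm_eq_abs,
      abs_of_pos hr.1]
    exact hr.2
  have hl : Tendsto (fun r : ℝ => Complex.exp (L (φ (Bl c a ((r : ℂ) * ζ))) -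
      L (φ ((r : ℂ) * ζ)))) (𝓝[<] (1 : ℝ)) (𝓝 (deriv f p)) := by
    have h1 : Tendsto (fun r : ℝ => φ ((r : ℂ) * ζ)) (𝓝[<] (1 : ℝ)) (𝓝[≠] p) := by
      refine tendsto_nhdsWithin_iff.2 ⟨hp, ?_⟩
      filter_upwards [hDk] with r hr
      intro h0
      exact hpU (by
        have := hmaps hr
        rwa [Set.mem_singleton_iff.1 h0] at this)
    have h2 := (hasDerivAt_iff_tendsto_slope.1 (B.hf p).hasDerivAt).comp h1
    refine h2.congr' ?_
    filter_upwards [hDk] with r hr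
    have h3 := hexp _ (hG hr)
    have h4 := hexp _ hr
    rw [Complex.exp_sub, h3, h4, hconj _ hr, Function.comp_apply, slope_def_field, hfp]
  obtain ⟨μ, C, r₁, hμ, hlog, hr₁, hr₁', hrad⟩ := radial hd hζ
  have hζ0 : ζ ≠ 0 := by
    intro h; rw [h] at hζ; simp at hζ
  have hμ1 : μ = 1 := by
    rw [hder, hfix, mul_one] at hlog
    have h1 : ((μ : ℂ) - 1) * ζ = 0 := by rw [sub_mul, one_mul, ← hlog, sub_self]
    rcases mul_eq_zero.1 h1 with h2 | h2
    · have h3 : (μ : ℂ) = 1 := sub_eq_zero.1 h2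
      exact_mod_cast h3
    · exact absurd h2 hζ0
  subst hμ1
  have hlim0 : Tendsto (fun r : ℝ => L (φ (Bl c a ((r : ℂ) * ζ))) - L (φ ((r : ℂ) * ζ)))
      (𝓝[<] (1 : ℝ)) (𝓝 0) := by
    have hb : Tendsto (fun r : ℝ => 64 * Real.pi * |C| * (1 - r)) (𝓝[<] (1 : ℝ)) (𝓝 0) := by
      have h1 : Continuous (fun r : ℝ => 64 * Real.pi * |C| * (1 - r)) := by fun_prop
      have h2 := h1.tendsto (1 : ℝ)
      simp only [sub_self, mul_zero] at h2
      exact h2.mono_left nhdsWithin_le_nhds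
    rw [tendsto_zero_iff_norm_tendsto_zero]
    refine squeeze_zero' (Eventually.of_forall fun r => norm_nonneg _) ?_ hb
    have e1 : ∀ᶠ r : ℝ in 𝓝[<] (1 : ℝ), 1 - 1 / (2 * (|C| + 1)) ≤ r ∧ r < 1 :=
      Landing_Ico _ (by
        have : 0 < 1 / (2 * (|C| + 1)) := by positivity
        linarith)
    filter_upwards [Landing_Ico r₁ hr₁', e1] with r hr hr2
    have hr0 : 0 ≤ r := hr₁.trans hr.1
    have h1r : 0 < 1 - r := by linarith [hr.2]
    have h1 := (hrad r hr.1 hr.2).2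
    rw [hfix] at h1
    have e2 : ((1 - 1 * (1 - r) : ℝ) : ℂ) = (r : ℂ) := by push_cast; ring
    rw [e2] at h1
    have hC : C * (1 - r) ^ 2 ≤ |C| * (1 - r) ^ 2 :=
      mul_le_mul_of_nonneg_right (le_abs_self C) (by positivity)
    have h2 : (|C| + 1) * (1 - r) ≤ 1 / 2 := by
      have h3 : 1 - r ≤ 1 / (2 * (|C| + 1)) := by linarith [hr2.1]
      have hp1 : 0 < |C| + 1 := by positivity
      calc (|C| + 1) * (1 - r) ≤ (|C| + 1) * (1 / (2 * (|C| + 1))) :=
            mul_le_mul_of_nonneg_left h3 hp1.le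
        _ = 1 / 2 := by field_simp
    have h3 : |C| * (1 - r) ^ 2 ≤ (1 - r) / 2 := by
      have := abs_nonneg C
      nlinarith
    have hnr : ‖(r : ℂ) * ζ‖ = r := Landing_norm hζ hr0
    have hnB : ‖Bl c a ((r : ℂ) * ζ)‖ ≤ 1 - (1 - r) / 2 := by
      calc ‖Bl c a ((r : ℂ) * ζ)‖ = ‖(Bl c a ((r : ℂ) * ζ) - (r : ℂ) * ζ) + (r : ℂ) * ζ‖ := by
            congr 1; ring
        _ ≤ ‖Bl c a ((r : ℂ) * ζ) - (r : ℂ) * ζ‖ + ‖(r : ℂ) * ζ‖ := norm_add_le _ _
        _ ≤ (1 - r) / 2 + r := by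
            rw [hnr]
            linarith
        _ = 1 - (1 - r) / 2 := by ring
    have hnr' : ‖(r : ℂ) * ζ‖ ≤ 1 - (1 - r) / 2 := by
      rw [hnr]
      linarith
    have h4 := tr_diff H (by linarith : 0 < (1 - r) / 2) hnB hnr'
    refine h4.trans ?_
    rw [div_le_iff₀ (by linarith)]
    have h5 : ‖Bl c a ((r : ℂ) * ζ) - (r : ℂ) * ζ‖ ≤ |C| * (1 - r) ^ 2 := h1.trans hC
    have hπ := Real.pi_pos
    calc 32 * Real.pi * ‖Bl c a ((r : ℂ) * ζ) - (r : ℂ) * ζ‖
        ≤ 32 * Real.pi * (|C| * (1 - r) ^ 2) := by gcongr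
      _ = 64 * Real.pi * |C| * (1 - r) * ((1 - r) / 2) := by ring
  have hlim1 : Tendsto (fun r : ℝ => Complex.exp (L (φ (Bl c a ((r : ℂ) * ζ))) -
      L (φ ((r : ℂ) * ζ)))) (𝓝[<] (1 : ℝ)) (𝓝 1) := by
    have := (Complex.continuous_exp.tendsto 0).comp hlim0
    rw [Complex.exp_zero] at this
    exact this
  exact tendsto_nhds_unique hl hlim1

end Pool.Agent.TC
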