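import Mathlib
import Pool.Agent.TB.Defs
import Pool.Agent.TB.Mobius
import Pool.Agent.TB.SnailA
import Pool.Agent.TC.Defs
import Pool.Agent.TC.Pick

/-
Project TC (MP_d9e400_an). Module TrB.
Inradius estimate for points at bounded pseudo-hyperbolic distance; imaginary increments along an orbit.

PROOFS. tr_comp: h ∘ mob (-u) is Tr (mob (-u) is a bijection of Dk) with the same image. tr_inradius2: let h' = h ∘ mob (-u), v = mob u w, ‖v‖ ≤ κ:
h' 0 = h u, h' v = h w (mob_inv). Apply TB.tr_inradius with μ = 2/(1-κ') (κ' = max κ 0; μ > 1), s = 0, t = ‖v‖, ζ = v/‖v‖ (v = 0 trivial):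
1 - 0 ≤ μ(1-‖v‖). tr_step: tr_diff with δ = min(1-‖u‖, 1-‖w‖) and psh_compare.
imaginary_orbit: suppose τ ≠ 0. By tr_inradius2 (κ): ‖h (w n) - h (w (n+1))‖ ≤ C D_n, D_n = infDist (h (w n)) (h '' Dk)ᶜ, so D_n ≥ η := |τ|/(2C)
eventually. Dirichlet (Real.exists_int_int_abs_mul_sub_le) for τ/(2π) and Q with 2π/Q < min η |τ|: N ≥ 1 and k with |Nτ - 2πk| ≤ 2π/(Q+1), k ≠ 0.
h (w (n+N)) - h (w n) → iNτ. h (w (n+N)) - 2πi k ∉ h '' Dk (Tr.tr), so D_n ≤ ‖h (w n) - h (w (n+N)) + 2πi k‖ → |Nτ - 2πk| < η. Contradiction.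
(Compare TB/SnailC.lean.)
-/

set_option autoImplicit false

open Set Filter Topology Metric

namespace Pool.Agent.TC

open Pool.Agent.TB

theorem TrB_comp {h : ℂ → ℂ} (H : Tr h) {u : ℂ} (hu : u ∈ Dk) :
    Tr (fun z => h (mob (-u) z)) ∧ (fun z => h (mob (-u) z)) '' Dk = h '' Dk := by
  have hu' : ‖-u‖ < 1 := by
    rw [norm_neg]; exact mem_ball_zero_iff.1 hu
  have hb := mob_bijOn hu'
  refine ⟨⟨?_, ?_, ?_⟩, ?_⟩
  · exact H.diff.comp (mob_diff hu') hb.mapsTo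
  · intro z hz z' hz' he
    exact hb.injOn hz hz' (H.inj (hb.mapsTo hz) (hb.mapsTo hz') he)
  · intro z hz z' hz' n hn
    exact H.tr _ (hb.mapsTo hz) _ (hb.mapsTo hz') n hn
  · have : (fun z => h (mob (-u) z)) '' Dk = h '' (mob (-u) '' Dk) := by
      rw [image_image]
    rw [this, hb.image_eq]

theorem TrB_zero (u : ℂ) : mob (-u) 0 = u := by
  simp [mob]

theorem tr_inradius2 {κ : ℝ} (hκ : κ < 1) : ∃ C : ℝ, 0 < C ∧ ∀ h : ℂ → ℂ, Tr h → ∀ u ∈ Dk, ∀ w ∈ Dk,
    ‖mob u w‖ ≤ κ → ‖h u - h w‖ ≤ C * Metric.infDist (h u) (h '' Dk)ᶜ := by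
  set κ' := max κ 0 with hκ'
  have hκ1 : κ' < 1 := max_lt hκ one_pos
  have hκ0 : 0 ≤ κ' := le_max_right _ _
  have hμ : 1 < 2 / (1 - κ') := by
    rw [lt_div_iff₀ (by linarith)]
    linarith
  obtain ⟨C, hC, hin⟩ := tr_inradius hμ
  refine ⟨C, hC, ?_⟩
  intro h H u hu w hw huw
  obtain ⟨H', himg⟩ := TrB_comp H hu
  have hinv : mob (-u) (mob u w) = w := mob_inv (mem_ball_zero_iff.1 hu) (mem_ball_zero_iff.1 hw)
  by_cases hv : mob u w = 0
  · have : w = u := by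
      rw [← hinv, hv, TrB_zero]
    rw [this, sub_self, norm_zero]
    exact mul_nonneg hC.le Metric.infDist_nonneg
  · have hv0 : 0 < ‖mob u w‖ := norm_pos_iff.2 hv
    have hv1 : ‖mob u w‖ ≤ κ' := huw.trans (le_max_left _ _)
    have hζ : ‖mob u w / (‖mob u w‖ : ℂ)‖ = 1 := by
      rw [norm_div, Complex.norm_real, norm_norm, div_self hv0.ne']
    have key := hin _ H' (mob u w / (‖mob u w‖ : ℂ)) hζ 0 ‖mob u w‖ le_rfl hv0.le
      (by linarith) (by
        have h1 : 1 - κ' ≤ 1 - ‖mob u w‖ := by linarith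
        have h2 : (2 / (1 - κ')) * (1 - κ') = 2 := div_mul_cancel₀ _ (by linarith)
        have h3 : (2 / (1 - κ')) * (1 - κ') ≤ (2 / (1 - κ')) * (1 - ‖mob u w‖) :=
          mul_le_mul_of_nonneg_left h1 (by positivity)
        linarith)
    have e1 : ((0 : ℝ) : ℂ) * (mob u w / (‖mob u w‖ : ℂ)) = 0 := by simp
    have e2 : ((‖mob u w‖ : ℝ) : ℂ) * (mob u w / (‖mob u w‖ : ℂ)) = mob u w := by
      rw [mul_div_cancel₀]
      exact_mod_cast hv0.ne'
    rw [e1, e2] at key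
    simp only [TrB_zero, hinv] at key
    have e3 : (fun z => h (mob (-u) z)) '' Dk = h '' Dk := himg
    rw [e3] at key
    exact key

theorem tr_step {κ : ℝ} (hκ : κ < 1) : ∃ C : ℝ, 0 < C ∧ ∀ h : ℂ → ℂ, Tr h → ∀ u ∈ Dk, ∀ w ∈ Dk,
    ‖mob u w‖ ≤ κ → ‖h u - h w‖ ≤ C := by
  set κ' := max κ 0 with hκ'
  have hκ1 : κ' < 1 := max_lt hκ one_pos
  have hκ0 : 0 ≤ κ' := le_max_right _ _
  have hd : 0 < 1 - κ' := by linarith
  refine ⟨32 * Real.pi / (1 - κ'), by positivity, ?_⟩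
  intro h H u hu w hw huw
  obtain ⟨H', -⟩ := TrB_comp H hu
  have hinv : mob (-u) (mob u w) = w := mob_inv (mem_ball_zero_iff.1 hu) (mem_ball_zero_iff.1 hw)
  have hv1 : ‖mob u w‖ ≤ κ' := huw.trans (le_max_left _ _)
  have key := tr_diff H' (u := 0) (w := mob u w) hd (by simp; exact hκ0) (by linarith)
  simp only [TrB_zero, hinv, zero_sub, norm_neg] at key
  refine key.trans ?_
  apply div_le_div_of_nonneg_right _ hd.le
  have hπ := Real.pi_pos
  nlinarith

theorem TrB_imag {h : ℂ → ℂ} (H : Tr h) {w : ℕ → ℂ} (hw : ∀ n, w n ∈ Dk) {κ : ℝ}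
    (hκ : κ < 1) (hstep : ∀ n, ‖mob (w n) (w (n + 1))‖ ≤ κ) {τ : ℝ}
    (hlim : Tendsto (fun n : ℕ => h (w n) - h (w (n + 1))) atTop (𝓝 (τ * Complex.I))) : τ = 0 := by
  by_contra hτ
  have hτp : 0 < |τ| := abs_pos.mpr hτ
  obtain ⟨C, hC, hin⟩ := tr_inradius2 hκ
  set g : ℕ → ℂ := fun j => h (w j) with hg
  have hlim' : Tendsto (fun j : ℕ => g j - g (j + 1)) atTop (𝓝 (τ * Complex.I)) := hlim
  set D : ℕ → ℝ := fun j => Metric.infDist (g j) (h '' Dk)ᶜ with hD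
  have h1 : ∀ j, ‖g j - g (j + 1)‖ ≤ C * D j := by
    intro j
    exact hin h H (w j) (hw j) (w (j + 1)) (hw (j + 1)) (hstep j)
  set η : ℝ := |τ| / (2 * C) with hη
  have hηp : 0 < η := by positivity
  have hev : ∀ᶠ j in atTop, η ≤ D j := by
    have h2 : Tendsto (fun j : ℕ => ‖g j - g (j + 1)‖) atTop (𝓝 ‖(τ : ℂ) * Complex.I‖) :=
      hlim'.norm
    have h3 : ‖(τ : ℂ) * Complex.I‖ = |τ| := by
      rw [norm_mul, Complex.norm_I, mul_one, Complex.norm_real, Real.norm_eq_abs]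
    rw [h3] at h2
    filter_upwards [h2.eventually (lt_mem_nhds (show |τ| / 2 < |τ| by linarith))] with j hj
    have h4 := h1 j
    rw [hη, div_le_iff₀ (by positivity)]
    linarith
  -- Dirichlet
  obtain ⟨Q, hQ⟩ := exists_nat_gt (2 * Real.pi / min η |τ|)
  have hmin : 0 < min η |τ| := lt_min hηp hτp
  have hQ0 : 0 < Q := by
    have : (0 : ℝ) < Q := lt_trans (by positivity) hQ
    exact_mod_cast this
  obtain ⟨m, N, hN0, hNQ, hNm⟩ := Real.exists_int_int_abs_mul_sub_le (τ / (2 * Real.pi)) hQ0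
  have hpi := Real.pi_pos
  have hsmall : |(N : ℝ) * τ - 2 * Real.pi * m| < min η |τ| := by
    have e1 : (N : ℝ) * τ - 2 * Real.pi * m =
        (2 * Real.pi) * ((N : ℝ) * (τ / (2 * Real.pi)) - m) := by
      field_simp
    rw [e1, abs_mul, abs_of_pos (by positivity)]
    have hQr : (0 : ℝ) < Q := by exact_mod_cast hQ0
    calc 2 * Real.pi * |(N : ℝ) * (τ / (2 * Real.pi)) - m|
        ≤ 2 * Real.pi * (1 / ((Q : ℝ) + 1)) := by
          apply mul_le_mul_of_nonneg_left hNm (by positivity)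
      _ ≤ 2 * Real.pi * (1 / (Q : ℝ)) := by
          apply mul_le_mul_of_nonneg_left _ (by positivity)
          apply one_div_le_one_div_of_le hQr
          linarith
      _ < min η |τ| := by
          rw [div_lt_iff₀ hmin] at hQ
          rw [mul_one_div, div_lt_iff₀ hQr]
          linarith
  have hm0 : m ≠ 0 := by
    rintro rfl
    have h5 : |(N : ℝ) * τ - 2 * Real.pi * (0 : ℤ)| = (N : ℝ) * |τ| := by
      have hNr : (0 : ℝ) < (N : ℝ) := by exact_mod_cast hN0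
      push_cast
      rw [mul_zero, sub_zero, abs_mul, abs_of_pos hNr]
    rw [h5] at hsmall
    have h6 : (1 : ℝ) ≤ (N : ℝ) := by exact_mod_cast hN0
    have h7 : min η |τ| ≤ |τ| := min_le_right _ _
    nlinarith
  obtain ⟨n, rfl⟩ : ∃ n : ℕ, N = (n : ℤ) := ⟨N.toNat, by omega⟩
  -- sums of consecutive differences
  have hsum : Tendsto (fun j : ℕ => g j - g (j + n)) atTop (𝓝 ((n : ℂ) * (τ * Complex.I))) := by
    have h8 : ∀ j, g j - g (j + n) = ∑ i ∈ Finset.range n, (g (j + i) - g (j + i + 1)) := by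
      intro j
      have := Finset.sum_range_sub' (fun i => g (j + i)) n
      simp only [add_zero] at this
      rw [← this]
      rfl
    simp only [h8]
    have h9 : ((n : ℂ) * (τ * Complex.I)) = ∑ _i ∈ Finset.range n, ((τ : ℂ) * Complex.I) := by
      simp
    rw [h9]
    apply tendsto_finsetSum
    intro i _
    exact hlim'.comp (tendsto_add_atTop_nat i)
  have hlimD : Tendsto (fun j : ℕ => ‖g j - g (j + n) - 2 * Real.pi * Complex.I * m‖) atTop
      (𝓝 ‖(n : ℂ) * (τ * Complex.I) - 2 * Real.pi * Complex.I * m‖) :=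
    (hsum.sub_const _).norm
  have hval : ‖(n : ℂ) * (τ * Complex.I) - 2 * Real.pi * Complex.I * m‖ =
      |((n : ℤ) : ℝ) * τ - 2 * Real.pi * m| := by
    have : (n : ℂ) * (τ * Complex.I) - 2 * Real.pi * Complex.I * m =
        ((((n : ℤ) : ℝ) * τ - 2 * Real.pi * m : ℝ) : ℂ) * Complex.I := by
      push_cast
      ring
    rw [this, norm_mul, Complex.norm_I, mul_one, Complex.norm_real, Real.norm_eq_abs]
  have hDle : ∀ j, D j ≤ ‖g j - g (j + n) - 2 * Real.pi * Complex.I * m‖ := by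
    intro j
    have hmem : g (j + n) + 2 * Real.pi * Complex.I * m ∈ (h '' Dk)ᶜ := by
      rintro ⟨w', hw', hw2⟩
      exact H.tr w' hw' _ (hw (j + n)) m hm0 hw2
    have h10 := Metric.infDist_le_dist_of_mem (x := g j) hmem
    rw [dist_eq_norm] at h10
    have h11 : g j - (g (j + n) + 2 * Real.pi * Complex.I * m) =
        g j - g (j + n) - 2 * Real.pi * Complex.I * m := by ring
    rw [h11] at h10
    exact h10
  have hfin : η ≤ ‖(n : ℂ) * (τ * Complex.I) - 2 * Real.pi * Complex.I * m‖ := by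
    apply ge_of_tendsto hlimD
    filter_upwards [hev] with j hj
    exact hj.trans (hDle j)
  rw [hval] at hfin
  have : min η |τ| ≤ η := min_le_left _ _
  linarith

theorem imaginary_orbit {h : ℂ → ℂ} (H : Tr h) {w : ℕ → ℂ} (hw : ∀ n, w n ∈ Dk) {κ : ℝ}
    (hκ : κ < 1) (hstep : ∀ n, ‖mob (w n) (w (n + 1))‖ ≤ κ) {τ : ℝ}
    (hlim : Tendsto (fun n : ℕ => h (w (n + 1)) - h (w n)) atTop (𝓝 (τ * Complex.I))) : τ = 0 := by
  have h1 := hlim.neg
  have h2 : (fun n : ℕ => -(h (w (n + 1)) - h (w n))) = fun n => h (w n) - h (w (n + 1)) := by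
    funext n; ring
  have h3 : -((τ : ℂ) * Complex.I) = ((-τ : ℝ) : ℂ) * Complex.I := by push_cast; ring
  rw [h2, h3] at h1
  have := TrB_imag H hw hκ hstep h1
  linarith

end Pool.Agent.TC
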