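/-
Project TC (MP_d9e400_an). Module Incr.
The increments of the logarithm along an orbit converge.

PROOF. w n = (Bl c a)^[n] w₀, z n = φ (w n) → p. S = dslope f p: continuous (entire), (z - p) S z = f z - p (f p = p), S p = deriv f p =: λ.
For w ∈ Dk: exp(h (Bl w) - h w) = (f(φ w) - p)/(φ w - p) = S (φ w). Let E w = h (Bl w) - h w, continuous on Dk.
Path: σ t = w 0 + t (w 1 - w 0) ∈ Dk, σ_n = (Bl c a)^[n] ∘ σ from w n to w (n+1). ρ* = max_t ‖mob (w 0) (σ t)‖ < 1 (compactness; mob_lt_one), so by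
schwarz_pick ‖mob (w n) (σ_n t)‖ ≤ ρ* for all n, t. Claim: for every δ > 0 there is n₀ with ‖φ (σ_n t) - p‖ < δ for all n ≥ n₀, t ∈ [0,1]: otherwise
there are n_k → ∞ and t_k with ‖φ (σ_{n_k} t_k) - p‖ ≥ δ, but φ (σ_{n_k} t_k) - φ (w n_k) → 0 by `difference` (psh_compare; ‖w n‖ → 1).
λ ≠ 0: ‖E (w n)‖ ≤ C (tr_step), so ‖S (z n)‖ ≥ exp(-C). Let e₀ = log λ and, near p, s z = e₀ + log (S z/λ) (S z/λ near 1): continuous, exp s = S,
s p = e₀. For n ≥ n₀: t ↦ E (σ_n t) - s (φ (σ_n t)) is continuous on [0,1] with values in 2πiℤ, so constant; consecutive n give the same constant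
(σ_n 1 = σ_{n+1} 0): E (w n) = s (z n) + 2πi k for all n ≥ n₀. So E (w n) → e := e₀ + 2πi k.
-/
import Mathlib
import Pool.Agent.TB.Defs
import Pool.Agent.TB.Mobius
import Pool.Agent.TB.ConfB
import Pool.Agent.TB.SnailA
import Pool.Agent.TB.LogCvx
import Pool.Agent.TC.Defs
import Pool.Agent.TC.Pick
import Pool.Agent.TC.TrB
import Pool.Agent.TC.Circ

set_option autoImplicit false

open Set Filter Topology Metric

namespace Pool.Agent.TC

open Pool.Agent.TB

theorem orbit_increment {f : ℂ → ℂ} {U : Set ℂ} {z₀ : ℂ} (B : NBasin f U z₀) {φ : ℂ → ℂ}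
    (hφ : Conf φ U) {d : ℕ} {c : ℂ} {a : Fin d → ℂ} (hd : BlN d c a)
    (hconj : ∀ w ∈ Dk, φ (Bl c a w) = f (φ w)) {ζ w₀ : ℂ} (hζ : ‖ζ‖ = 1) (hw₀ : w₀ ∈ Dk)
    (hw : Tendsto (fun n : ℕ => (Bl c a)^[n] w₀) atTop (𝓝 ζ)) {p : ℂ} (hp : p ∈ frontier U)
    (hfp : f p = p) (hz : Tendsto (fun n : ℕ => φ ((Bl c a)^[n] w₀)) atTop (𝓝 p)) {h : ℂ → ℂ}
    (H : Tr h) (hexp : ∀ w ∈ Dk, Complex.exp (h w) = φ w - p) :
    ∃ e : ℂ, Complex.exp e = deriv f p ∧
      Tendsto (fun n : ℕ => h ((Bl c a)^[n + 1] w₀) - h ((Bl c a)^[n] w₀)) atTop (𝓝 e) := by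
  obtain ⟨R, hR, hgR⟩ := Bl_analytic hd
  have hgm : MapsTo (Bl c a) Dk Dk := Bl_mapsTo hd
  set g : ℂ → ℂ := Bl c a with hgdef
  have hgd : DifferentiableOn ℂ g Dk := hgR.mono (Metric.ball_subset_ball hR.le)
  have hgn : ∀ n : ℕ, MapsTo (g^[n]) Dk Dk := fun n => hgm.iterate n
  have hgdn : ∀ n : ℕ, DifferentiableOn ℂ (g^[n]) Dk := by
    intro n
    induction n with
    | zero => simpa using differentiableOn_id
    | succ n ih =>
      rw [Function.iterate_succ']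
      exact hgd.comp ih (hgn n)
  -- the slope function
  set S : ℂ → ℂ := dslope f p with hS
  have hSc : Continuous S := by
    have h1 : DifferentiableOn ℂ S univ :=
      (Complex.differentiableOn_dslope Filter.univ_mem).mpr B.hf.differentiableOn
    exact continuousOn_univ.1 h1.continuousOn
  have hSp : S p = deriv f p := dslope_same _ _
  have hSz : ∀ z, (z - p) * S z = f z - p := by
    intro z
    have := sub_smul_dslope f p z
    rw [smul_eq_mul, hfp] at this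
    exact this
  have hphi : ∀ w ∈ Dk, φ w - p ≠ 0 := by
    intro w hw'
    rw [← hexp w hw']
    exact Complex.exp_ne_zero _
  have hE : ∀ w ∈ Dk, Complex.exp (h (g w) - h w) = S (φ w) := by
    intro w hw'
    rw [Complex.exp_sub, hexp w hw', hexp (g w) (hgm hw'), hconj w hw', ← hSz (φ w)]
    field_simp [hphi w hw']
  have hEc : ContinuousOn (fun w => h (g w) - h w) Dk :=
    (H.diff.continuousOn.comp hgd.continuousOn hgm).sub H.diff.continuousOn
  -- the path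
  set σ : ℝ → ℂ := fun t => w₀ + (t : ℂ) * (g w₀ - w₀) with hσ
  have hσ0 : σ 0 = w₀ := by simp [hσ]
  have hσ1 : σ 1 = g w₀ := by simp [hσ]
  have hσc : Continuous σ := by
    rw [hσ]
    fun_prop
  have hσD : ∀ t ∈ Icc (0 : ℝ) 1, σ t ∈ Dk := by
    intro t ht
    have hcv : Convex ℝ Dk := convex_ball (0 : ℂ) 1
    have h1 := hcv.add_smul_sub_mem hw₀ (hgm hw₀) ht
    rw [Complex.real_smul] at h1
    exact h1
  have hw₀' : ‖w₀‖ < 1 := mem_ball_zero_iff.1 hw₀
  obtain ⟨ρ, hρ1, hρ⟩ : ∃ ρ : ℝ, ρ < 1 ∧ ∀ t ∈ Icc (0 : ℝ) 1, ‖mob w₀ (σ t)‖ ≤ ρ := by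
    have hcont : ContinuousOn (fun t : ℝ => ‖mob w₀ (σ t)‖) (Icc (0 : ℝ) 1) :=
      ((mob_diff hw₀').continuousOn.comp hσc.continuousOn hσD).norm
    obtain ⟨t, ht, hmax⟩ := isCompact_Icc.exists_isMaxOn (nonempty_Icc.2 zero_le_one) hcont
    exact ⟨_, mob_lt_one hw₀' (mem_ball_zero_iff.1 (hσD t ht)), fun s hs => hmax hs⟩
  have hpick : ∀ n : ℕ, ∀ t ∈ Icc (0 : ℝ) 1, ‖mob (g^[n] w₀) (g^[n] (σ t))‖ ≤ ρ := by
    intro n t ht
    exact (schwarz_pick (hgdn n) (hgn n) (hσD t ht) hw₀).trans (hρ t ht)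
  -- uniform convergence along the paths
  have hunif : Tendsto (fun i : ℕ × ℝ => φ (g^[i.1] (σ i.2))) (atTop ×ˢ 𝓟 (Icc (0 : ℝ) 1))
      (𝓝 p) := by
    have hmem : ∀ᶠ i : ℕ × ℝ in atTop ×ˢ 𝓟 (Icc (0 : ℝ) 1), i.2 ∈ Icc (0 : ℝ) 1 := by
      rw [Filter.eventually_prod_principal_iff]
      exact Eventually.of_forall fun n t ht => ht
    have hfst : Tendsto (fun i : ℕ × ℝ => i.1) (atTop ×ˢ 𝓟 (Icc (0 : ℝ) 1)) atTop :=
      tendsto_fst
    have h1 := difference hφ B.bdd (ι := ℕ × ℝ) (l := atTop ×ˢ 𝓟 (Icc (0 : ℝ) 1))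
      (u := fun i => g^[i.1] w₀) (w := fun i => g^[i.1] (σ i.2))
      (Eventually.of_forall fun i => hgn i.1 hw₀)
      (hmem.mono fun i hi => hgn i.1 (hσD _ hi))
      (by
        have h2 := hw.norm
        rw [hζ] at h2
        exact h2.comp hfst)
      (C := 2 / (1 - ρ))
      (hmem.mono fun i hi =>
        psh_compare (mem_ball_zero_iff.1 (hgn i.1 hw₀))
          (mem_ball_zero_iff.1 (hgn i.1 (hσD _ hi))) hρ1 (hpick i.1 i.2 hi))
    have h3 : Tendsto (fun i : ℕ × ℝ => φ (g^[i.1] w₀)) (atTop ×ˢ 𝓟 (Icc (0 : ℝ) 1)) (𝓝 p) :=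
      hz.comp hfst
    have h4 := h3.sub h1
    simpa using h4
  -- the derivative is not zero
  have hne : S p ≠ 0 := by
    obtain ⟨C, hC, hstep⟩ := tr_step hρ1
    have h1 : ∀ n : ℕ, Real.exp (-C) ≤ ‖S (φ (g^[n] w₀))‖ := by
      intro n
      have h2 := hstep h H (g^[n] w₀) (hgn n hw₀) (g^[n] (g w₀)) (hgn n (hgm hw₀))
        (by
          have := hpick n 1 (right_mem_Icc.2 zero_le_one)
          rwa [hσ1] at this)
      have h3 : g^[n] (g w₀) = g (g^[n] w₀) := by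
        rw [← Function.iterate_succ_apply, Function.iterate_succ_apply']
      rw [h3] at h2
      rw [← hE _ (hgn n hw₀), Complex.norm_exp]
      apply Real.exp_le_exp.2
      have h4 := Complex.abs_re_le_norm (h (g^[n] w₀) - h (g (g^[n] w₀)))
      have h5 := (abs_le.1 (h4.trans h2)).2
      rw [Complex.sub_re] at h5 ⊢
      linarith
    have h2 : Tendsto (fun n : ℕ => ‖S (φ (g^[n] w₀))‖) atTop (𝓝 ‖S p‖) :=
      ((hSc.tendsto p).comp hz).norm
    have h3 : Real.exp (-C) ≤ ‖S p‖ := ge_of_tendsto' h2 h1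
    intro h0
    rw [h0, norm_zero] at h3
    exact absurd h3 (not_le.2 (Real.exp_pos _))
  -- the local logarithm
  set s : ℂ → ℂ := fun z => Complex.log (S p) + Complex.log (S z / S p) with hs
  have hdiv : Tendsto (fun z => S z / S p) (𝓝 p) (𝓝 1) := by
    have := (hSc.tendsto p).div_const (S p)
    rwa [div_self hne] at this
  have hslit : ∀ᶠ z in 𝓝 p, S z / S p ∈ Complex.slitPlane :=
    hdiv.eventually (Complex.isOpen_slitPlane.mem_nhds Complex.one_mem_slitPlane)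
  have hsexp : ∀ z, S z / S p ∈ Complex.slitPlane → Complex.exp (s z) = S z := by
    intro z hz'
    have h0 : S z / S p ≠ 0 := Complex.slitPlane_ne_zero hz'
    rw [hs]
    simp only
    rw [Complex.exp_add, Complex.exp_log hne, Complex.exp_log h0]
    field_simp
  have hscont : ∀ z, S z / S p ∈ Complex.slitPlane → ContinuousAt s z := by
    intro z hz'
    exact ((hSc.continuousAt.div_const (S p)).clog hz').const_add _
  have hev := hunif.eventually hslit
  rw [Filter.eventually_prod_principal_iff] at hev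
  obtain ⟨n₀, hn₀⟩ := eventually_atTop.1 hev
  have hk : ∀ n : ℕ, ∃ k : ℤ, n₀ ≤ n → ∀ t ∈ Icc (0 : ℝ) 1,
      h (g (g^[n] (σ t))) - h (g^[n] (σ t)) = s (φ (g^[n] (σ t))) + 2 * Real.pi * Complex.I * k := by
    intro n
    by_cases hn : n₀ ≤ n
    · have hmaps : MapsTo (fun t : ℝ => g^[n] (σ t)) (Icc (0 : ℝ) 1) Dk :=
        fun t ht => hgn n (hσD t ht)
      have hgc : ContinuousOn (fun t : ℝ => g^[n] (σ t)) (Icc (0 : ℝ) 1) :=
        (hgdn n).continuousOn.comp hσc.continuousOn hσD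
      have hc1 : ContinuousOn (fun t : ℝ => h (g (g^[n] (σ t))) - h (g^[n] (σ t)))
          (Icc (0 : ℝ) 1) := hEc.comp hgc hmaps
      have hc2 : ContinuousOn (fun t : ℝ => s (φ (g^[n] (σ t)))) (Icc (0 : ℝ) 1) := by
        intro t ht
        have h1 : ContinuousAt s (φ (g^[n] (σ t))) := hscont _ (hn₀ n hn t ht)
        have h2 : ContinuousWithinAt (fun t : ℝ => φ (g^[n] (σ t))) (Icc (0 : ℝ) 1) t :=
          (hφ.diff.continuousOn.comp hgc hmaps) t ht
        exact ContinuousAt.comp_continuousWithinAt (g := s)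
          (f := fun t : ℝ => φ (g^[n] (σ t))) h1 h2
      obtain ⟨k, hk⟩ := log_unique (isPreconnected_Icc (a := (0 : ℝ)) (b := 1)) hc1 hc2
        (fun t ht => by rw [hE _ (hmaps ht), hsexp _ (hn₀ n hn t ht)])
      exact ⟨k, fun _ => hk⟩
    · exact ⟨0, fun hcon => absurd hcon hn⟩
  choose k hk using hk
  have hkconst : ∀ n : ℕ, n₀ ≤ n → k (n + 1) = k n := by
    intro n hn
    have h1 := hk n hn 1 (right_mem_Icc.2 zero_le_one)
    have h2 := hk (n + 1) (by omega) 0 (left_mem_Icc.2 zero_le_one)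
    rw [hσ1] at h1
    rw [hσ0] at h2
    have h3 : g^[n] (g w₀) = g^[n + 1] w₀ := (Function.iterate_succ_apply g n w₀).symm
    rw [h3] at h1
    rw [h1] at h2
    have h4 : (2 * Real.pi * Complex.I * (k n : ℂ)) = 2 * Real.pi * Complex.I * (k (n + 1) : ℂ) :=
      add_left_cancel h2
    have h5 : (2 * (Real.pi : ℂ) * Complex.I) ≠ 0 := Complex.two_pi_I_ne_zero
    have h6 := mul_left_cancel₀ h5 h4
    exact_mod_cast h6.symm
  have hkall : ∀ j : ℕ, k (n₀ + j) = k n₀ := by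
    intro j
    induction j with
    | zero => rfl
    | succ j ih =>
      rw [← ih, ← hkconst (n₀ + j) (by omega)]
      rfl
  refine ⟨s p + 2 * Real.pi * Complex.I * (k n₀), ?_, ?_⟩
  · rw [Complex.exp_add]
    have h1 : Complex.exp (2 * Real.pi * Complex.I * (k n₀ : ℂ)) = 1 := by
      rw [Complex.exp_eq_one_iff]
      exact ⟨k n₀, by ring⟩
    rw [h1, mul_one, hsexp p (by rw [div_self hne]; exact Complex.one_mem_slitPlane), hSp]
  · have h1 : Tendsto (fun n : ℕ => s (φ (g^[n] w₀)) + 2 * Real.pi * Complex.I * (k n₀)) atTop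
        (𝓝 (s p + 2 * Real.pi * Complex.I * (k n₀))) := by
      apply Tendsto.add_const
      have h2 : ContinuousAt s p :=
        hscont p (by rw [div_self hne]; exact Complex.one_mem_slitPlane)
      exact Tendsto.comp (g := s) h2 hz
    refine h1.congr' ?_
    filter_upwards [eventually_ge_atTop n₀] with n hn
    have h2 := hk n hn 0 (left_mem_Icc.2 zero_le_one)
    rw [hσ0] at h2
    obtain ⟨j, rfl⟩ := Nat.exists_eq_add_of_le hn
    rw [hkall j] at h2
    rw [Function.iterate_succ_apply', h2]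

end Pool.Agent.TC
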