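/-
Project TC (MP_d9e400_an). Module Mult.
The limit of orbits in U has multiplier one, and the increments of the logarithm tend to zero.

PROOF. p ∉ U. exists_log_holo (sc_U B) for z - p on U: L, h = L ∘ φ, exp (h w) = φ w - p, Tr h (compare TB/Snail.lean). orbit_increment: e. z n = φ (w n) → p,
z n ≠ p, Re h (w n) = log ‖z n - p‖ → -∞, so Re e ≤ 0 (if Re e > 0 then Re h (w n) is eventually increasing). If Re e < 0 then
‖deriv f p‖ = exp (Re e) < 1: choose κ < 1 and r > 0 with ‖f z - p‖ ≤ κ‖z - p‖ on ball p r; then all iterates map ball p r into itself and are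
bounded, contradiction to not_bdd_nhds (p ∈ frontier U). So e = iτ, imaginary_orbit (hstep: schwarz_pick, κ = ‖mob (w 0) (w 1)‖ < 1): τ = 0,
e = 0, deriv f p = exp 0 = 1.
-/
import Mathlib
import Pool.Agent.TB.Defs
import Pool.Agent.TB.Mobius
import Pool.Agent.TB.SnailA
import Pool.Agent.TB.LogSC
import Pool.Agent.TC.Defs
import Pool.Agent.TC.Pick
import Pool.Agent.TC.TrB
import Pool.Agent.TC.Incr
import Pool.Agent.TC.Top3
import Pool.Agent.TC.Circ

set_option autoImplicit false

open Set Filter Topology Metric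

namespace Pool.Agent.TC

open Pool.Agent.TB

theorem multiplier_one {f : ℂ → ℂ} {U : Set ℂ} {z₀ : ℂ} (B : NBasin f U z₀) {φ : ℂ → ℂ}
    (hφ : Conf φ U) {d : ℕ} {c : ℂ} {a : Fin d → ℂ} (hd : BlN d c a)
    (hconj : ∀ w ∈ Dk, φ (Bl c a w) = f (φ w)) {ζ w₀ : ℂ} (hζ : ‖ζ‖ = 1) (hw₀ : w₀ ∈ Dk)
    (hw : Tendsto (fun n : ℕ => (Bl c a)^[n] w₀) atTop (𝓝 ζ)) {p : ℂ} (hp : p ∈ frontier U)
    (hfp : f p = p) (hz : Tendsto (fun n : ℕ => φ ((Bl c a)^[n] w₀)) atTop (𝓝 p)) :
    deriv f p = 1 ∧ ∃ h : ℂ → ℂ, Tr h ∧ (∀ w ∈ Dk, Complex.exp (h w) = φ w - p) ∧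
      Tendsto (fun n : ℕ => h ((Bl c a)^[n + 1] w₀) - h ((Bl c a)^[n] w₀)) atTop (𝓝 0) := by
  have hpU : p ∉ U := by
    have hpF := hp
    rw [B.isOpen.frontier_eq] at hpF
    exact hpF.2
  have hne : ∀ z ∈ U, z - p ≠ 0 := by
    intro z hz h0
    exact hpU (by rwa [sub_eq_zero.1 h0] at hz)
  obtain ⟨L, hLd, hL⟩ := exists_log_holo (sc_U B) (h := fun z => z - p)
    (by fun_prop) hne
  have hmaps : MapsTo φ Dk U := hφ.bij.mapsTo
  have hexp : ∀ w ∈ Dk, Complex.exp (L (φ w)) = φ w - p := fun w hw => hL _ (hmaps hw)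
  have H : Tr (fun w => L (φ w)) := by
    refine ⟨hLd.comp hφ.diff hmaps, ?_, ?_⟩
    · intro w hw w' hw' hww
      replace hww : L (φ w) = L (φ w') := hww
      apply hφ.bij.injOn hw hw'
      have h1 := hexp w hw
      have h2 := hexp w' hw'
      rw [hww, h2] at h1
      exact (sub_left_inj.1 h1).symm
    · intro w hw w' hw' n hn hww
      replace hww : L (φ w) = L (φ w') + 2 * (Real.pi : ℂ) * Complex.I * n := hww
      have h1 := hexp w hw
      have h2 := hexp w' hw'
      have h3 : Complex.exp (L (φ w)) = Complex.exp (L (φ w')) := by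
        rw [hww, Complex.exp_add]
        have : Complex.exp (2 * (Real.pi : ℂ) * Complex.I * n) = 1 := by
          rw [Complex.exp_eq_one_iff]
          exact ⟨n, by ring⟩
        rw [this, mul_one]
      have h4 : φ w = φ w' := by
        rw [h1, h2] at h3
        exact sub_left_inj.1 h3
      rw [h4] at hww
      have h5 : (2 * (Real.pi : ℂ) * Complex.I * n) = 0 := by
        have := hww
        rw [left_eq_add] at this
        exact this
      have h6 : (2 * (Real.pi : ℂ) * Complex.I) ≠ 0 := Complex.two_pi_I_ne_zero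
      rcases mul_eq_zero.1 h5 with h7 | h7
      · exact h6 h7
      · exact hn (by exact_mod_cast h7)
  obtain ⟨e, he, hlim⟩ := orbit_increment B hφ hd hconj hζ hw₀ hw hp hfp hz H hexp
  obtain ⟨R, hR, hgR⟩ := Bl_analytic hd
  have hgm : MapsTo (Bl c a) Dk Dk := Bl_mapsTo hd
  have hgd : DifferentiableOn ℂ (Bl c a) Dk := hgR.mono (Metric.ball_subset_ball hR.le)
  have hgn : ∀ n : ℕ, MapsTo ((Bl c a)^[n]) Dk Dk := fun n => hgm.iterate n
  have hgdn : ∀ n : ℕ, DifferentiableOn ℂ ((Bl c a)^[n]) Dk := by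
    intro n
    induction n with
    | zero => simpa using differentiableOn_id
    | succ n ih =>
      rw [Function.iterate_succ']
      exact hgd.comp ih (hgn n)
  -- real parts tend to -∞
  have hRe : Tendsto (fun n : ℕ => (L (φ ((Bl c a)^[n] w₀))).re) atTop atBot := by
    rw [← Real.tendsto_exp_comp_nhds_zero]
    have h1 : Tendsto (fun n : ℕ => ‖φ ((Bl c a)^[n] w₀) - p‖) atTop (𝓝 0) := by
      have h3 := (hz.sub_const p).norm
      simpa using h3
    refine h1.congr fun n => ?_
    rw [← hexp _ (hgn n hw₀), Complex.norm_exp]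
  have hle : e.re ≤ 0 := by
    by_contra hneg
    push Not at hneg
    have h1 := (Complex.continuous_re.tendsto e).comp hlim
    have h2 : ∀ᶠ n : ℕ in atTop, 0 < (L (φ ((Bl c a)^[n + 1] w₀)) - L (φ ((Bl c a)^[n] w₀))).re :=
      h1.eventually (lt_mem_nhds hneg)
    obtain ⟨J, hJ⟩ := eventually_atTop.1 h2
    have h3 : ∀ k : ℕ, (L (φ ((Bl c a)^[J] w₀))).re ≤ (L (φ ((Bl c a)^[J + k] w₀))).re := by
      intro k
      induction k with
      | zero => exact le_refl _
      | succ k ih =>
        have h4 := hJ (J + k) (by omega)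
        rw [Complex.sub_re] at h4
        have h5 : J + (k + 1) = J + k + 1 := by ring
        rw [h5]
        linarith
    have h4 := hRe.eventually (eventually_lt_atBot (L (φ ((Bl c a)^[J] w₀))).re)
    obtain ⟨K, hK⟩ := eventually_atTop.1 h4
    have h5 := hK (J + K) (by omega)
    have h6 := h3 K
    linarith
  have hnorm : ‖deriv f p‖ = Real.exp e.re := by
    rw [← he, Complex.norm_exp]
  have hge : 0 ≤ e.re := by
    by_contra hneg
    push Not at hneg
    have hlt : ‖deriv f p‖ < 1 := by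
      rw [hnorm]
      exact Real.exp_lt_one_iff.2 hneg
    obtain ⟨κ, hκ1, hκ2⟩ := exists_between hlt
    have hSc : Continuous (dslope f p) := by
      have h1 : DifferentiableOn ℂ (dslope f p) univ :=
        (Complex.differentiableOn_dslope Filter.univ_mem).mpr B.hf.differentiableOn
      exact continuousOn_univ.1 h1.continuousOn
    have hev : ∀ᶠ z in 𝓝 p, ‖dslope f p z‖ < κ := by
      apply hSc.continuousAt.norm.eventually (gt_mem_nhds _)
      show ‖dslope f p p‖ < κ
      rw [dslope_same]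
      exact hκ1
    obtain ⟨r, hr, hball⟩ := Metric.mem_nhds_iff.1 hev
    have hstep : ∀ z ∈ Metric.ball p r, ‖f z - p‖ ≤ ‖z - p‖ := by
      intro z hz'
      have h1 : ‖dslope f p z‖ < κ := hball hz'
      have h2 := sub_smul_dslope f p z
      rw [smul_eq_mul, hfp] at h2
      rw [← h2, norm_mul]
      have h3 := norm_nonneg (z - p)
      nlinarith
    have hmapsb : MapsTo f (Metric.ball p r) (Metric.ball p r) := by
      intro z hz'
      have h1 := hstep z hz'
      rw [Metric.mem_ball, dist_eq_norm] at hz' ⊢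
      linarith
    have hdis := not_bdd_nhds B (M := ‖p‖ + r) Metric.isOpen_ball
      (Y := Metric.ball p r) (fun n z hz' => by
        have h1 := hmapsb.iterate n hz'
        rw [Metric.mem_ball, dist_eq_norm] at h1
        have h2 := norm_add_le (f^[n] z - p) p
        rw [sub_add_cancel] at h2
        linarith)
    exact Set.disjoint_left.1 hdis (Metric.mem_ball_self hr) hp
  have hre : e.re = 0 := le_antisymm hle hge
  have he' : e = (e.im : ℂ) * Complex.I := by
    apply Complex.ext
    · simp [hre]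
    · simp
  have hw₀' : ‖w₀‖ < 1 := mem_ball_zero_iff.1 hw₀
  have h2 : e.im = 0 := by
    refine imaginary_orbit H (w := fun n => (Bl c a)^[n] w₀) (fun n => hgn n hw₀)
      (κ := ‖mob w₀ (Bl c a w₀)‖) (mob_lt_one hw₀' (mem_ball_zero_iff.1 (hgm hw₀))) ?_
      (τ := e.im) ?_
    · intro n
      have h3 := schwarz_pick (hgdn n) (hgn n) (hgm hw₀) hw₀
      rw [← Function.iterate_succ_apply] at h3
      exact h3
    · rw [← he']
      exact hlim
  have he0 : e = 0 := by
    rw [he', h2]
    simp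
  refine ⟨?_, fun w => L (φ w), H, hexp, ?_⟩
  · rw [← he, he0, Complex.exp_zero]
  · rw [← he0]
    exact hlim

end Pool.Agent.TC
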