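/-
Project TC (MP_d9e400_an). Module ConvSeq.
A bounded sequence with small steps and finitely many cluster points converges.

PROOF. Like Pool.Agent.TB.converge_of_finite. A cluster point y₀ exists (bounded), y₀ ∈ S. Suppose no convergence: ε > 0 with ‖y - y₀‖ > ε for
y ∈ S \ {y₀} and infinitely many n with ‖z n - y₀‖ ≥ ε. Infinitely many n have ‖z n - y₀‖ < ε/4 and, for large n, steps are < ε/4; so
infinitely many n have ε/4 ≤ ‖z n - y₀‖ ≤ ε/2 (the first n after a visit in the ε/4-ball with ‖z n - y₀‖ ≥ ε/4). Compactness of that closed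
annulus gives a cluster point y with ε/4 ≤ ‖y - y₀‖ ≤ ε/2, y ∈ S: contradiction.
-/
import Mathlib
import Pool.Agent.TB.Defs
import Pool.Agent.TC.Defs

set_option autoImplicit false

open Set Filter Topology Metric

namespace Pool.Agent.TC

open Pool.Agent.TB

theorem seq_converge {z : ℕ → ℂ} {M : ℝ} (hb : ∀ n, ‖z n‖ ≤ M)
    (h : Tendsto (fun n => z (n + 1) - z n) atTop (𝓝 0)) {S : Set ℂ} (hS : S.Finite)
    (hcl : ∀ y, MapClusterPt y atTop z → y ∈ S) : ∃ y ∈ S, Tendsto z atTop (𝓝 y) := by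
  have hK : Tendsto z atTop (𝓟 (closedBall 0 M)) := by
    rw [tendsto_principal]
    exact Eventually.of_forall (fun n => mem_closedBall_zero_iff.2 (hb n))
  obtain ⟨y₀, -, hy₀⟩ := (isCompact_closedBall (0 : ℂ) M).exists_mapClusterPt hK
  refine ⟨y₀, hcl y₀ hy₀, ?_⟩
  by_contra hnt
  obtain ⟨ε, hε, hfar⟩ : ∃ ε : ℝ, 0 < ε ∧ ∃ᶠ n in atTop, ε ≤ dist (z n) y₀ := by
    by_contra hcon
    push Not at hcon
    apply hnt
    rw [Metric.tendsto_nhds]
    intro ε hε
    have := hcon ε hε
    filter_upwards [this] with t ht using ht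
  have hcl2 : IsClosed (S \ {y₀}) := (hS.subset sdiff_subset).isClosed
  obtain ⟨ε₁, hε₁, hball⟩ := Metric.isOpen_iff.1 hcl2.isOpen_compl y₀ (fun h => h.2 rfl)
  set δ : ℝ := min ε ε₁ / 2 with hδ
  have hm : 0 < min ε ε₁ := lt_min hε hε₁
  have hδ0 : 0 < δ := by positivity
  have hδε : δ < ε := by
    have := min_le_left ε ε₁
    linarith
  have hδε₁ : δ < ε₁ := by
    have := min_le_right ε ε₁
    linarith
  have hnear : ∃ᶠ n in atTop, dist (z n) y₀ < δ / 2 := by
    have := mapClusterPt_iff_frequently.1 hy₀ (ball y₀ (δ / 2)) (ball_mem_nhds y₀ (by positivity))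
    exact this
  have hsmall : ∀ᶠ n in atTop, dist (z (n + 1)) (z n) < δ / 2 := by
    have := (Metric.tendsto_nhds.1 h) (δ / 2) (by positivity)
    filter_upwards [this] with n hn
    rwa [dist_eq_norm, sub_zero, ← dist_eq_norm] at hn
  obtain ⟨N, hN⟩ := eventually_atTop.1 hsmall
  have hmid : ∃ᶠ n in atTop, z n ∈ closedBall y₀ δ \ ball y₀ (δ / 2) := by
    rw [frequently_atTop]
    intro a
    obtain ⟨n₁, hn₁, h1⟩ := frequently_atTop.1 hnear (max a N)
    obtain ⟨n₂, hn₂, h2⟩ := frequently_atTop.1 hfar n₁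
    have hex : ∃ k, n₁ ≤ k ∧ δ / 2 ≤ dist (z k) y₀ := ⟨n₂, hn₂, by linarith⟩
    classical
    set k := Nat.find hex with hk
    have hks : n₁ ≤ k ∧ δ / 2 ≤ dist (z k) y₀ := Nat.find_spec hex
    have hk1 : k ≠ n₁ := by
      intro h0
      rw [h0] at hks
      linarith [hks.2]
    have hk2 : n₁ + 1 ≤ k := by
      have := hks.1
      omega
    obtain ⟨m, hm1⟩ : ∃ m, k = m + 1 := ⟨k - 1, by omega⟩
    have hmn : n₁ ≤ m := by omega
    have hmlt : dist (z m) y₀ < δ / 2 := by
      by_contra hcon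
      push Not at hcon
      have := Nat.find_min hex (m := m) (by omega)
      exact this ⟨hmn, hcon⟩
    have hst := hN m (by
      have := le_max_right a N
      omega)
    refine ⟨k, by
      have := le_max_left a N
      omega, ?_, ?_⟩
    · rw [mem_closedBall, hm1]
      have := dist_triangle (z (m + 1)) (z m) y₀
      linarith
    · rw [mem_ball]
      push Not
      exact hks.2
  have hcomp : IsCompact (closedBall y₀ δ \ ball y₀ (δ / 2)) :=
    (isCompact_closedBall y₀ δ).diff isOpen_ball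
  obtain ⟨y, hy, hy2⟩ := hcomp.exists_mapClusterPt_of_frequently hmid
  have hyS := hcl y hy2
  have hyne : y ≠ y₀ := by
    rintro rfl
    apply hy.2
    exact mem_ball_self (by positivity)
  have h5 : y ∈ ball y₀ ε₁ := by
    rw [mem_ball]
    have := mem_closedBall.1 hy.1
    linarith
  exact hball h5 ⟨hyS, hyne⟩

end Pool.Agent.TC
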