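/-
Project TC (MP_d9e400_an). Module OrbFix.
Orbits in U converge to a fixed point on the frontier.

PROOF. w n = (Bl c a)^[n] w₀ ∈ Dk, w n → ζ, ‖w n‖ → 1. ρ = ‖mob (w 0) (w 1)‖ < 1; schwarz_pick and induction: ‖mob (w n) (w (n+1))‖ ≤ ρ.
psh_compare and `difference` (TB.ConfB, l = atTop, u = w n, w = w (n+1)): φ (w n) - φ (w (n+1)) → 0. z n = φ (w n), z (n+1) = f (z n) (hconj). Cluster
points y of z: y ∈ closure U and f y = y (f (z n) - z n → 0, continuity): finite set (finite_fixed). seq_converge: z n → p, f p = p.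
p ∉ U by cluster_not_mem (‖w n‖ → 1), so p ∈ frontier U. (Bl_mapsTo and Bl_analytic are in TC.Circ.)
-/
import Mathlib
import Pool.Agent.TB.Defs
import Pool.Agent.TB.Mobius
import Pool.Agent.TB.ConfA
import Pool.Agent.TB.ConfB
import Pool.Agent.TC.Defs
import Pool.Agent.TC.Pick
import Pool.Agent.TC.ConvSeq
import Pool.Agent.TC.Top1
import Pool.Agent.TC.Circ

set_option autoImplicit false

open Set Filter Topology Metric

namespace Pool.Agent.TC

open Pool.Agent.TB

theorem orbit_fixed {f : ℂ → ℂ} {U : Set ℂ} {z₀ : ℂ} (B : NBasin f U z₀) {φ : ℂ → ℂ}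
    (hφ : Conf φ U) {d : ℕ} {c : ℂ} {a : Fin d → ℂ} (hd : BlN d c a)
    (hconj : ∀ w ∈ Dk, φ (Bl c a w) = f (φ w)) {ζ w₀ : ℂ} (hζ : ‖ζ‖ = 1) (hw₀ : w₀ ∈ Dk)
    (hw : Tendsto (fun n : ℕ => (Bl c a)^[n] w₀) atTop (𝓝 ζ)) :
    ∃ p ∈ frontier U, f p = p ∧ Tendsto (fun n : ℕ => φ ((Bl c a)^[n] w₀)) atTop (𝓝 p) := by
  have hmap : MapsTo (Bl c a) Dk Dk := Bl_mapsTo hd
  have hwD : ∀ n : ℕ, (Bl c a)^[n] w₀ ∈ Dk := fun n => hmap.iterate n hw₀
  have hwn : ∀ n : ℕ, ‖(Bl c a)^[n] w₀‖ < 1 := fun n => mem_ball_zero_iff.1 (hwD n)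
  have hmaps : MapsTo φ Dk U := hφ.bij.mapsTo
  obtain ⟨R, hR, hdiff⟩ := Bl_analytic hd
  have hBd : DifferentiableOn ℂ (Bl c a) Dk := hdiff.mono (ball_subset_ball hR.le)
  have hnorm : Tendsto (fun n : ℕ => ‖(Bl c a)^[n] w₀‖) atTop (𝓝 1) := by
    have := hw.norm
    rwa [hζ] at this
  set z : ℕ → ℂ := fun n => φ ((Bl c a)^[n] w₀) with hz
  have hzU : ∀ n, z n ∈ U := fun n => hmaps (hwD n)
  have hzs : ∀ n, z (n + 1) = f (z n) := by
    intro n
    rw [hz]
    simp only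
    rw [Function.iterate_succ_apply', hconj _ (hwD n)]
  -- hyperbolic steps
  have hmobs : ∀ n : ℕ, ‖mob ((Bl c a)^[n] w₀) ((Bl c a)^[n + 1] w₀)‖ ≤ ‖mob w₀ (Bl c a w₀)‖ := by
    intro n
    induction n with
    | zero => exact le_of_eq (by simp)
    | succ n ih =>
      refine le_trans ?_ ih
      have h1 := schwarz_pick hBd hmap (hwD (n + 1)) (hwD n)
      rw [← Function.iterate_succ_apply' (Bl c a) n w₀,
        ← Function.iterate_succ_apply' (Bl c a) (n + 1) w₀] at h1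
      exact h1
  have hρ : ‖mob w₀ (Bl c a w₀)‖ < 1 :=
    mob_lt_one (mem_ball_zero_iff.1 hw₀) (mem_ball_zero_iff.1 (hmap hw₀))
  have hdif : Tendsto (fun n : ℕ => z n - z (n + 1)) atTop (𝓝 0) := by
    refine difference hφ B.bdd (l := atTop) (u := fun n : ℕ => (Bl c a)^[n] w₀)
      (w := fun n : ℕ => (Bl c a)^[n + 1] w₀) (Eventually.of_forall hwD)
      (Eventually.of_forall fun n => hwD (n + 1)) hnorm
      (C := 2 / (1 - ‖mob w₀ (Bl c a w₀)‖)) (Eventually.of_forall fun n => ?_)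
    exact psh_compare (hwn n) (hwn (n + 1)) hρ (hmobs n)
  have hdif' : Tendsto (fun n : ℕ => z (n + 1) - z n) atTop (𝓝 0) := by
    have := hdif.neg
    rw [neg_zero] at this
    refine this.congr fun n => ?_
    ring
  obtain ⟨M, hM⟩ := B.bdd.exists_norm_le
  obtain ⟨p, hpS, hp⟩ := seq_converge (z := z) (M := M) (fun n => hM _ (hzU n)) hdif'
    (finite_fixed B) (fun y hy => by
      have hycl : y ∈ closure U := by
        have h1 : ClusterPt y (map z atTop) := hy
        have h2 : ClusterPt y (𝓟 U) :=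
          h1.mono (le_principal_iff.2 (mem_map.2 (Eventually.of_forall hzU)))
        exact mem_closure_iff_clusterPt.2 h2
      refine ⟨hycl, ?_⟩
      -- f y - y = 0
      have hc : Continuous (fun w => f w - w) := B.hf.continuous.sub continuous_id
      have h3 : MapClusterPt (f y - y) atTop (fun n => f (z n) - z n) :=
        hy.continuousAt_comp (f := fun w => f w - w) hc.continuousAt
      have h4 : Tendsto (fun n => f (z n) - z n) atTop (𝓝 0) :=
        hdif'.congr fun n => by rw [hzs n]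
      have h5 : f y - y = 0 := by
        have h6 : ClusterPt (f y - y) (map (fun n => f (z n) - z n) atTop) := h3
        have h7 : ClusterPt (f y - y) (𝓝 (0 : ℂ)) := h6.mono h4
        exact @eq_of_nhds_neBot ℂ _ _ _ _ h7
      exact sub_eq_zero.1 h5)
  have hpU : p ∉ U := cluster_not_mem hφ (l := atTop) (u := fun n : ℕ => (Bl c a)^[n] w₀)
    (Eventually.of_forall hwD) hnorm hp
  refine ⟨p, ?_, hpS.2, hp⟩
  rw [B.isOpen.frontier_eq]
  exact ⟨hpS.1, hpU⟩

end Pool.Agent.TC
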