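/-
Project TC (MP_d9e400_an). Module Orbit.
Convergence of orbits to the point of the circle.

PROOF. w n = g^[n] w₀, Q n = (1-‖w n‖²)/‖ζ - w n‖² > 0; hκ: κ(1-‖w n‖) ≤ Q (n+1) - Q n. So Q is nondecreasing. If Q is unbounded it tends to ∞ and
‖ζ - w n‖² = (1-‖w n‖²)/Q n ≤ 1/Q n → 0. If Q is bounded it converges, so Q (n+1) - Q n → 0, 1-‖w n‖ → 0 and ‖ζ - w n‖² ≤ (1-‖w n‖²)/Q 0 → 0.
-/
import Mathlib
import Pool.Agent.TB.Defs
import Pool.Agent.TC.Defs

set_option autoImplicit false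

open Set Filter Topology Metric

namespace Pool.Agent.TC

open Pool.Agent.TB

theorem orbit_conv {g : ℂ → ℂ} (hm : MapsTo g Dk Dk) {ζ : ℂ} (hζ : ‖ζ‖ = 1) {κ : ℝ} (hκ0 : 0 < κ)
    (hκ : ∀ z ∈ Dk, κ * (1 - ‖z‖) ≤
      (1 - ‖g z‖ ^ 2) / ‖ζ - g z‖ ^ 2 - (1 - ‖z‖ ^ 2) / ‖ζ - z‖ ^ 2) {w₀ : ℂ} (hw₀ : w₀ ∈ Dk) :
    Tendsto (fun n : ℕ => g^[n] w₀) atTop (𝓝 ζ) := by
  have hw : ∀ n : ℕ, ‖g^[n] w₀‖ < 1 := by
    intro n
    have := hm.iterate n hw₀
    rwa [Dk, mem_ball_zero_iff] at this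
  set w : ℕ → ℂ := fun n => g^[n] w₀ with hwdef
  have hws : ∀ n, w (n + 1) = g (w n) := fun n => Function.iterate_succ_apply' g n w₀
  set Q : ℕ → ℝ := fun n => (1 - ‖w n‖ ^ 2) / ‖ζ - w n‖ ^ 2 with hQdef
  have hne : ∀ n, 0 < ‖ζ - w n‖ := by
    intro n
    rw [norm_pos_iff, sub_ne_zero]
    intro h
    have := hw n
    rw [show g^[n] w₀ = w n from rfl, ← h, hζ] at this
    exact lt_irrefl _ this
  have hnum : ∀ n, 0 < 1 - ‖w n‖ ^ 2 := by
    intro n
    have h1 := hw n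
    have h0 : 0 ≤ ‖w n‖ := norm_nonneg _
    have : ‖w n‖ < 1 := h1
    nlinarith
  have hnum1 : ∀ n, 1 - ‖w n‖ ^ 2 ≤ 1 := by
    intro n
    nlinarith [sq_nonneg ‖w n‖]
  have hQpos : ∀ n, 0 < Q n := fun n => div_pos (hnum n) (pow_pos (hne n) 2)
  have hstep : ∀ n, κ * (1 - ‖w n‖) ≤ Q (n + 1) - Q n := by
    intro n
    have := hκ (w n) (by rw [Dk, mem_ball_zero_iff]; exact hw n)
    simp only [hQdef, hws]
    exact this
  have hmono : Monotone Q := by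
    refine monotone_nat_of_le_succ (fun n => ?_)
    have h1 := hstep n
    have h2 : 0 ≤ κ * (1 - ‖w n‖) := mul_nonneg hκ0.le (by linarith [hw n])
    linarith
  have hkey : ∀ n, ‖ζ - w n‖ ^ 2 = (1 - ‖w n‖ ^ 2) / Q n := by
    intro n
    have h1 := (hnum n).ne'
    have h2 := (pow_pos (hne n) 2).ne'
    simp only [hQdef]
    rw [div_div_cancel₀ h1]
  -- squares tend to zero
  have hsq : Tendsto (fun n => ‖ζ - w n‖ ^ 2) atTop (𝓝 0) := by
    rcases tendsto_atTop_of_monotone hmono with hinf | ⟨l, hl⟩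
    · have h1 : Tendsto (fun n => (Q n)⁻¹) atTop (𝓝 0) := tendsto_inv_atTop_zero.comp hinf
      refine squeeze_zero (fun n => by positivity) (fun n => ?_) h1
      rw [hkey n, div_eq_mul_inv]
      have : 0 < (Q n)⁻¹ := inv_pos.2 (hQpos n)
      nlinarith [hnum1 n]
    · have h1 : Tendsto (fun n => Q (n + 1) - Q n) atTop (𝓝 0) := by
        have := (hl.comp (tendsto_add_atTop_nat 1)).sub hl
        simpa using this
      have h2 : Tendsto (fun n => 1 - ‖w n‖) atTop (𝓝 0) := by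
        have h3 : Tendsto (fun n => κ⁻¹ * (Q (n + 1) - Q n)) atTop (𝓝 0) := by
          simpa using h1.const_mul κ⁻¹
        refine squeeze_zero (fun n => by linarith [hw n]) (fun n => ?_) h3
        have := hstep n
        rw [inv_mul_eq_div, le_div_iff₀ hκ0]
        linarith
      have h4 : Tendsto (fun n => 2 * (1 - ‖w n‖) / Q 0) atTop (𝓝 0) := by
        simpa using (h2.const_mul 2).div_const (Q 0)
      refine squeeze_zero (fun n => by positivity) (fun n => ?_) h4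
      rw [hkey n]
      have hQ0 := hQpos 0
      have hQn : Q 0 ≤ Q n := hmono (Nat.zero_le n)
      have h5 : 1 - ‖w n‖ ^ 2 ≤ 2 * (1 - ‖w n‖) := by nlinarith [sq_nonneg (1 - ‖w n‖)]
      exact div_le_div₀ (by linarith [hw n, hnum n]) h5 hQ0 hQn
  have hnorm : Tendsto (fun n => ‖ζ - w n‖) atTop (𝓝 0) := by
    have h1 : Tendsto (fun n => Real.sqrt (‖ζ - w n‖ ^ 2)) atTop (𝓝 (Real.sqrt 0)) :=
      (Real.continuous_sqrt.tendsto 0).comp hsq
    rw [Real.sqrt_zero] at h1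
    refine h1.congr (fun n => ?_)
    exact Real.sqrt_sq (norm_nonneg _)
  rw [tendsto_iff_norm_sub_tendsto_zero]
  refine hnorm.congr (fun n => ?_)
  rw [norm_sub_rev]

end Pool.Agent.TC
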