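import Mathlib
import Pool.Agent.TB.Defs
import Pool.Agent.TB.ConfA
import Pool.Agent.TB.SnailA
import Pool.Agent.TB.ParCoord
import Pool.Agent.TB.ParDyn
import Pool.Agent.TB.LogCvx
import Pool.Agent.TC.Defs
import Pool.Agent.TC.Top1
import Pool.Agent.TC.Circ

/-
Project TC (MP_d9e400_an). Module Petal.
Orbits stay at bounded distance from the complement in the logarithmic coordinate (they enter a petal).

PROOF. f is not the identity near p (otherwise f = id, injective). parabolic_coordinate (ε = 1/8): m, A, r; T z = A/(z-p)^m. par_forward (1/8 ≤ 1/4): T₁.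
N = {z ≠ p | 0 < Re T z, T₁ < |T z|} is open, its points have iterates in ball p r, so N ∩ frontier U = ∅ (not_bdd_nhds).
z n = φ (w n) → p, z n ∈ U so z n ≠ p, f (z n) = z (n+1). T_n = T (z n): |T_{n+1} - T_n - 1| ≤ 1/8 for n ≥ n₀, so |T_n - T_{n₀} - (n - n₀)| ≤ (n-n₀)/8 and
for large n |T_n - n| ≤ n/4. Let c > 0 with |exp(-m s) - 1| ≤ 1/2 for |s| < c. For |s| < c, z(s) = p + (z n - p) exp s: T (z(s)) = T_n exp(-m s),
|T (z(s)) - n| ≤ (5/4) n/2 + n/4 = (7/8) n, so Re T(z(s)) ≥ n/8 > 0 and |T(z(s))| ≥ n/8 > T₁ for large n: z(s) ∈ N. The set {z(s)} is connected,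
contains z n ∈ U and misses frontier U: it is contained in U. Let w_s = φ⁻¹(z(s)) (conf_inverse, continuous). exp(h w_s) = z(s) - p = exp(h (w n) + s), so
h w_s - h (w n) - s ∈ 2πiℤ, continuous in s ∈ ball 0 c, zero at s = 0, so zero: h (w n) + s ∈ h '' Dk.
-/

set_option autoImplicit false

open Set Filter Topology Metric

namespace Pool.Agent.TC

open Pool.Agent.TB

private lemma Petal_subset {S V : Set ℂ} (hS : IsPreconnected S) (hV : IsOpen V)
    (hd : Disjoint S (frontier V)) (hne : (S ∩ V).Nonempty) : S ⊆ V := by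
  refine hS.subset_left_of_subset_union hV (isClosed_closure (s := V)).isOpen_compl ?_ ?_ hne
  · exact (disjoint_compl_right (a := closure V)).mono_left subset_closure
  · intro x hx
    by_cases h : x ∈ closure V
    · left
      by_contra hxV
      exact Set.disjoint_left.mp hd hx ⟨h, by rwa [hV.interior_eq]⟩
    · right; exact h

private lemma Petal_not_id {f : ℂ → ℂ} {U : Set ℂ} {z₀ : ℂ} (B : NBasin f U z₀) {p : ℂ} :
    ¬ ∀ᶠ z in 𝓝 p, f z = z := by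
  intro h
  have h1 : AnalyticOnNhd ℂ f univ := fun x _ => B.hf.analyticAt x
  have h2 : AnalyticOnNhd ℂ (fun z : ℂ => z) univ := fun x _ => analyticAt_id
  have h3 : f = fun z => z := h1.eq_of_eventuallyEq h2 h
  have h4 := B.ninj
  rw [h3] at h4
  exact h4 (fun a _ b _ h => h)

private lemma Petal_N {f : ℂ → ℂ} {U : Set ℂ} {z₀ : ℂ} (B : NBasin f U z₀) {p A : ℂ} {m : ℕ}
    {r T₁ : ℝ}
    (hfor : ∀ z : ℂ, z ≠ p → 0 < (A / (z - p) ^ m).re →
      T₁ < ‖A / (z - p) ^ m‖ → ∀ n : ℕ, ‖f^[n] z - p‖ < r) :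
    Disjoint {z : ℂ | z ≠ p ∧ 0 < (A / (z - p) ^ m).re ∧ T₁ < ‖A / (z - p) ^ m‖} (frontier U) := by
  set N : Set ℂ := {z | z ≠ p ∧ 0 < (A / (z - p) ^ m).re ∧ T₁ < ‖A / (z - p) ^ m‖} with hN
  have hcT : ContinuousOn (fun z : ℂ => A / (z - p) ^ m) {z | z ≠ p} := by
    apply ContinuousOn.div continuousOn_const
    · exact ((continuous_id.sub continuous_const).pow m).continuousOn
    · intro z hz
      exact pow_ne_zero _ (sub_ne_zero.mpr hz)
  have hNo : IsOpen N := by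
    rw [isOpen_iff_mem_nhds]
    rintro z ⟨hz1, hz2, hz3⟩
    have hne : ∀ᶠ y in 𝓝 z, y ≠ p := eventually_ne_nhds hz1
    have hc : ContinuousAt (fun z : ℂ => A / (z - p) ^ m) z :=
      (hcT z hz1).continuousAt hne
    have e1 : ∀ᶠ y in 𝓝 z, 0 < (A / (y - p) ^ m).re := by
      have : ContinuousAt (fun z : ℂ => (A / (z - p) ^ m).re) z :=
        Complex.continuous_re.continuousAt.comp hc
      exact this.eventually (lt_mem_nhds hz2)
    have e2 : ∀ᶠ y in 𝓝 z, T₁ < ‖A / (y - p) ^ m‖ := by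
      have : ContinuousAt (fun z : ℂ => ‖A / (z - p) ^ m‖) z := hc.norm
      exact this.eventually (lt_mem_nhds hz3)
    filter_upwards [hne, e1, e2] with y h1 h2 h3
    exact ⟨h1, h2, h3⟩
  refine not_bdd_nhds B (M := ‖p‖ + r) hNo ?_
  rintro n z ⟨hz1, hz2, hz3⟩
  have h := hfor z hz1 hz2 hz3 n
  calc ‖f^[n] z‖ = ‖p + (f^[n] z - p)‖ := by congr 1; ring
    _ ≤ ‖p‖ + ‖f^[n] z - p‖ := norm_add_le _ _
    _ ≤ ‖p‖ + r := by linarith

private lemma Petal_drift {T : ℕ → ℂ} {n₀ : ℕ} (h : ∀ n ≥ n₀, ‖T (n + 1) - T n - 1‖ ≤ 1 / 8) :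
    ∃ n₁ : ℕ, ∀ n ≥ n₁, ‖T n - n‖ ≤ (n : ℝ) / 4 := by
  have h1 : ∀ k : ℕ, ‖T (n₀ + k) - T n₀ - k‖ ≤ (k : ℝ) / 8 := by
    intro k
    induction k with
    | zero => simp
    | succ k ih =>
      have e : T (n₀ + (k + 1)) - T n₀ - ((k + 1 : ℕ) : ℂ) =
          (T (n₀ + k + 1) - T (n₀ + k) - 1) + (T (n₀ + k) - T n₀ - k) := by
        push_cast
        rw [show n₀ + (k + 1) = n₀ + k + 1 by ring]
        ring
      rw [e]
      refine (norm_add_le _ _).trans ?_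
      have := h (n₀ + k) (by omega)
      push_cast
      linarith
  obtain ⟨q, hq⟩ := exists_nat_gt (8 * (‖T n₀‖ + n₀))
  refine ⟨max n₀ q, fun n hn => ?_⟩
  have hn0 : n₀ ≤ n := (le_max_left _ _).trans hn
  have hnq : q ≤ n := (le_max_right _ _).trans hn
  obtain ⟨k, rfl⟩ : ∃ k, n = n₀ + k := ⟨n - n₀, by omega⟩
  have h2 := h1 k
  have e : T (n₀ + k) - ((n₀ + k : ℕ) : ℂ) = (T (n₀ + k) - T n₀ - k) + (T n₀ - n₀) := by
    push_cast; ring
  rw [e]
  have h3 : ‖T n₀ - (n₀ : ℂ)‖ ≤ ‖T n₀‖ + n₀ := by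
    refine (norm_sub_le _ _).trans ?_
    rw [Complex.norm_natCast]
  have h4 : (q : ℝ) ≤ ((n₀ + k : ℕ) : ℝ) := by exact_mod_cast hnq
  refine (norm_add_le _ _).trans ?_
  push_cast at h4 ⊢
  have h5 : (0 : ℝ) ≤ n₀ := Nat.cast_nonneg _
  linarith

theorem inradius_orbit {f : ℂ → ℂ} {U : Set ℂ} {z₀ : ℂ} (B : NBasin f U z₀) {φ : ℂ → ℂ}
    (hφ : Conf φ U) {d : ℕ} {c : ℂ} {a : Fin d → ℂ} (hd : BlN d c a)
    (hconj : ∀ w ∈ Dk, φ (Bl c a w) = f (φ w)) {w₀ : ℂ} (hw₀ : w₀ ∈ Dk)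
    {p : ℂ} (hp : p ∈ frontier U)
    (hfp : f p = p) (h1 : deriv f p = 1)
    (hz : Tendsto (fun n : ℕ => φ ((Bl c a)^[n] w₀)) atTop (𝓝 p)) {h : ℂ → ℂ}
    (H : Tr h) (hexp : ∀ w ∈ Dk, Complex.exp (h w) = φ w - p) :
    ∃ r : ℝ, 0 < r ∧ ∀ᶠ n : ℕ in atTop, Metric.ball (h ((Bl c a)^[n] w₀)) r ⊆ h '' Dk := by
  obtain ⟨m, A, hm, hA, hcoord⟩ := parabolic_coordinate B.hf hfp h1 (Petal_not_id B)
  obtain ⟨r, hr, hT⟩ := hcoord (1 / 8) (by norm_num)
  have hT4 : ∀ z : ℂ, z ≠ p → ‖z - p‖ < r → f z ≠ p ∧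
      ‖A / (f z - p) ^ m - A / (z - p) ^ m - 1‖ ≤ 1 / 4 := by
    intro z hz hzr
    obtain ⟨h1, h2⟩ := hT z hz hzr
    exact ⟨h1, h2.trans (by norm_num)⟩
  obtain ⟨T₁, hT₁, hfor⟩ := par_forward hm hA hr hT4
  have hm0 : m ≠ 0 := by omega
  have hNd := Petal_N B hfor
  set N : Set ℂ := {z | z ≠ p ∧ 0 < (A / (z - p) ^ m).re ∧ T₁ < ‖A / (z - p) ^ m‖} with hN
  have hpU : p ∉ U := by
    rw [B.isOpen.frontier_eq] at hp
    exact hp.2
  obtain ⟨k, hkd, hkφ, hkm, hφk⟩ := conf_inverse hφ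
  set W : ℕ → ℂ := fun n => (Bl c a)^[n] w₀ with hW
  have hWD : ∀ n, W n ∈ Dk := fun n => (Bl_mapsTo hd).iterate n hw₀
  have hWs : ∀ n, W (n + 1) = Bl c a (W n) := fun n => Function.iterate_succ_apply' _ _ _
  set zz : ℕ → ℂ := fun n => φ (W n) with hzz
  have hzU : ∀ n, zz n ∈ U := fun n => hφ.bij.mapsTo (hWD n)
  have hzp : ∀ n, zz n ≠ p := fun n h => hpU (h ▸ hzU n)
  have hzs : ∀ n, zz (n + 1) = f (zz n) := by
    intro n
    rw [hzz]
    simp only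
    rw [hWs, hconj _ (hWD n)]
  have hzlim : Tendsto zz atTop (𝓝 p) := hz
  obtain ⟨n₀, hn₀⟩ : ∃ n₀, ∀ n ≥ n₀, ‖zz n - p‖ < r := by
    have h2 : ∀ᶠ n in atTop, zz n ∈ ball p r := hzlim.eventually (ball_mem_nhds p hr)
    obtain ⟨n₀, h3⟩ := eventually_atTop.1 h2
    refine ⟨n₀, fun n hn => ?_⟩
    have := h3 n hn
    rwa [mem_ball, dist_eq_norm] at this
  obtain ⟨n₁, hn₁⟩ := Petal_drift (T := fun n => A / (zz n - p) ^ m) (n₀ := n₀) (by
    intro n hn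
    have h2 := (hT (zz n) (hzp n) (hn₀ n hn)).2
    rw [← hzs n] at h2
    exact h2)
  obtain ⟨c₀, hc₀, hexpc⟩ : ∃ c₀ : ℝ, 0 < c₀ ∧ ∀ s ∈ ball (0 : ℂ) c₀,
      ‖Complex.exp (-(m * s)) - 1‖ ≤ 1 / 2 := by
    have hcont : Continuous (fun s : ℂ => Complex.exp (-(m * s)) - 1) := by fun_prop
    have h2 : Complex.exp (-((m : ℂ) * 0)) - 1 = 0 := by simp
    have h3 : ∀ᶠ s in 𝓝 (0 : ℂ), Complex.exp (-(m * s)) - 1 ∈ ball (0 : ℂ) (1 / 2) := by
      have := hcont.tendsto (0 : ℂ)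
      rw [h2] at this
      exact this.eventually (ball_mem_nhds _ (by norm_num))
    obtain ⟨c₀, hc₀, h4⟩ := Metric.eventually_nhds_iff_ball.1 h3
    refine ⟨c₀, hc₀, fun s hs => ?_⟩
    have := h4 s hs
    rw [mem_ball_zero_iff] at this
    exact this.le
  refine ⟨c₀, hc₀, ?_⟩
  obtain ⟨n₂, hn₂⟩ := exists_nat_gt (8 * T₁)
  filter_upwards [eventually_ge_atTop (max (max n₁ n₂) 1)] with n hn
  have hn1 : n₁ ≤ n := ((le_max_left _ _).trans (le_max_left _ _)).trans hn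
  have hn2 : n₂ ≤ n := ((le_max_right _ _).trans (le_max_left _ _)).trans hn
  have hn3 : 1 ≤ n := (le_max_right _ _).trans hn
  have hnr : (1 : ℝ) ≤ n := by exact_mod_cast hn3
  have hnT : 8 * T₁ < n := lt_of_lt_of_le hn₂ (by exact_mod_cast hn2)
  set Tn := A / (zz n - p) ^ m with hTn
  have hTn1 : ‖Tn - n‖ ≤ (n : ℝ) / 4 := hn₁ n hn1
  have hTn2 : ‖Tn‖ ≤ 5 / 4 * n := by
    have : Tn = (Tn - n) + n := by ring
    rw [this]
    refine (norm_add_le _ _).trans ?_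
    rw [Complex.norm_natCast]
    linarith
  set zs : ℂ → ℂ := fun s => p + (zz n - p) * Complex.exp s with hzsd
  have hzsc : Continuous zs := by
    rw [hzsd]; fun_prop
  have hzs0 : zs 0 = zz n := by simp [hzsd]
  have hzne : zz n - p ≠ 0 := sub_ne_zero.2 (hzp n)
  have hzsN : ∀ s ∈ ball (0 : ℂ) c₀, zs s ∈ N := by
    intro s hs
    have e1 : zs s - p = (zz n - p) * Complex.exp s := by simp [hzsd]
    have e2 : A / (zs s - p) ^ m = Tn * Complex.exp (-(m * s)) := by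
      rw [e1, mul_pow, ← Complex.exp_nat_mul, Complex.exp_neg, hTn]
      field_simp
    have e3 : ‖A / (zs s - p) ^ m - n‖ ≤ 7 / 8 * n := by
      rw [e2]
      have e4 : Tn * Complex.exp (-(m * s)) - n = Tn * (Complex.exp (-(m * s)) - 1) + (Tn - n) := by
        ring
      rw [e4]
      refine (norm_add_le _ _).trans ?_
      rw [norm_mul]
      have e5 := hexpc s hs
      have e6 : ‖Tn‖ * ‖Complex.exp (-(m * s)) - 1‖ ≤ (5 / 4 * n) * (1 / 2) :=
        mul_le_mul hTn2 e5 (norm_nonneg _) (by positivity)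
      linarith
    have e7 : (n : ℝ) / 8 ≤ (A / (zs s - p) ^ m).re := by
      have e8 := (Complex.abs_re_le_norm (A / (zs s - p) ^ m - n)).trans e3
      rw [Complex.sub_re, Complex.natCast_re] at e8
      have e9 := (abs_le.1 e8).1
      linarith
    refine ⟨?_, ?_, ?_⟩
    · rw [← sub_ne_zero, e1]
      exact mul_ne_zero hzne (Complex.exp_ne_zero _)
    · linarith
    · have e8 := (Complex.re_le_norm (A / (zs s - p) ^ m))
      linarith
  have hpre : IsPreconnected (ball (0 : ℂ) c₀) := (convex_ball _ _).isPreconnected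
  have h0b : (0 : ℂ) ∈ ball (0 : ℂ) c₀ := mem_ball_self hc₀
  have hsub : zs '' ball (0 : ℂ) c₀ ⊆ U := by
    refine Petal_subset (hpre.image zs hzsc.continuousOn) B.isOpen ?_ ?_
    · refine hNd.mono_left ?_
      rintro _ ⟨s, hs, rfl⟩
      exact hzsN s hs
    · exact ⟨zs 0, ⟨0, h0b, rfl⟩, by rw [hzs0]; exact hzU n⟩
  have hsU : ∀ s ∈ ball (0 : ℂ) c₀, zs s ∈ U := fun s hs => hsub ⟨s, hs, rfl⟩
  have hL₁ : ContinuousOn (fun s => h (k (zs s))) (ball (0 : ℂ) c₀) := by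
    refine H.diff.continuousOn.comp (hkd.continuousOn.comp hzsc.continuousOn hsU) ?_
    intro s hs
    exact hkm (hsU s hs)
  have hL₂ : ContinuousOn (fun s : ℂ => h (W n) + s) (ball (0 : ℂ) c₀) := by
    fun_prop
  obtain ⟨j, hj⟩ := log_unique hpre hL₁ hL₂ (by
    intro s hs
    show Complex.exp (h (k (zs s))) = Complex.exp (h (W n) + s)
    rw [Complex.exp_add, hexp _ (hkm (hsU s hs)), hφk _ (hsU s hs), hexp _ (hWD n)]
    simp [hzsd, hzz])
  have hj0 : h (k (zs 0)) = h (W n) + 0 + 2 * Real.pi * Complex.I * j := hj 0 h0b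
  rw [hzs0] at hj0
  change h (k (φ (W n))) = _ at hj0
  rw [hkφ _ (hWD n), add_zero] at hj0
  have hj1 : 2 * (Real.pi : ℂ) * Complex.I * j = 0 := by
    linear_combination -hj0
  have hpi : (Real.pi : ℂ) ≠ 0 := by exact_mod_cast Real.pi_ne_zero
  intro x hx
  refine ⟨k (zs (x - h (W n))), ?_, ?_⟩
  · apply hkm
    apply hsU
    rw [mem_ball_zero_iff]
    rw [mem_ball, dist_eq_norm] at hx
    exact hx
  · have h5 : h (k (zs (x - h (W n)))) = h (W n) + (x - h (W n)) + 2 * Real.pi * Complex.I * j :=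
      hj (x - h (W n)) (by
      rw [mem_ball_zero_iff]
      rw [mem_ball, dist_eq_norm] at hx
      exact hx)
    rw [hj1] at h5
    rw [h5]
    ring

end Pool.Agent.TC
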