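/-
Project TC (MP_d9e400_an). Module Step0.
The hyperbolic step tends to zero.

PROOF. k = inverse of h on h '' Dk (exists_inverse): holomorphic, k (h w) = w, maps into Dk. For large n ball (h (w n)) r ⊆ h '' Dk and ‖h (w (n+1)) - h (w n)‖ < r:
pick_ball: ‖mob (w n) (w (n+1))‖ ≤ ‖h (w (n+1)) - h (w n)‖/r → 0.
-/
import Mathlib
import Pool.Agent.TB.Defs
import Pool.Agent.TB.Mobius
import Pool.Agent.TB.SnailA
import Pool.Agent.TB.Injective
import Pool.Agent.TC.Defs
import Pool.Agent.TC.Pick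

set_option autoImplicit false

open Set Filter Topology Metric

namespace Pool.Agent.TC

open Pool.Agent.TB

theorem step_zero {h : ℂ → ℂ} (H : Tr h) {w : ℕ → ℂ} (hw : ∀ n, w n ∈ Dk) {r : ℝ} (hr : 0 < r)
    (hball : ∀ᶠ n : ℕ in atTop, Metric.ball (h (w n)) r ⊆ h '' Dk)
    (hlim : Tendsto (fun n : ℕ => h (w (n + 1)) - h (w n)) atTop (𝓝 0)) :
    Tendsto (fun n : ℕ => ‖mob (w n) (w (n + 1))‖) atTop (𝓝 0) := by
  obtain ⟨k, hkd, hk1, hk2, -⟩ := exists_inverse isOpen_ball H.diff H.inj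
  have h1 : ∀ᶠ n : ℕ in atTop, ‖h (w (n + 1)) - h (w n)‖ < r := by
    have := hlim.norm
    rw [norm_zero] at this
    exact this.eventually (gt_mem_nhds hr)
  have h2 : Tendsto (fun n : ℕ => ‖h (w (n + 1)) - h (w n)‖ / r) atTop (𝓝 0) := by
    have := hlim.norm.div_const r
    rw [norm_zero, zero_div] at this
    exact this
  refine squeeze_zero' (Eventually.of_forall fun n => norm_nonneg _) ?_ h2
  filter_upwards [hball, h1] with n hn hn1
  have h3 := pick_ball hr (hkd.mono hn) (hk2.mono_left hn) (s := h (w (n + 1)))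
    (by rw [Metric.mem_ball, dist_eq_norm]; exact hn1)
  rwa [hk1 _ (hw n), hk1 _ (hw (n + 1))] at h3

end Pool.Agent.TC
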