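/-
Project TC (MP_d9e400_an). Module GoodPar.
Assembly of the good model in the case without fixed point in U.
-/
import Mathlib
import Pool.Agent.TB.Defs
import Pool.Agent.TC.Defs
import Pool.Agent.TC.ModelN
import Pool.Agent.TC.Horo
import Pool.Agent.TC.HoroS
import Pool.Agent.TC.Orbit
import Pool.Agent.TC.OrbFix
import Pool.Agent.TC.Mult
import Pool.Agent.TC.Petal
import Pool.Agent.TC.Step0
import Pool.Agent.TC.Der1
import Pool.Agent.TC.Beta
import Pool.Agent.TC.Line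
import Pool.Agent.TC.CircDyn
import Pool.Agent.TC.LandPar

set_option autoImplicit false

open Set Filter Topology Metric

namespace Pool.Agent.TC

open Pool.Agent.TB

theorem good_parabolic {f : ℂ → ℂ} {U : Set ℂ} {z₀ : ℂ} (B : NBasin f U z₀) {φ : ℂ → ℂ}
    (hφ : Conf φ U) (hno : ∀ z ∈ U, f z ≠ z) :
    ∃ (d : ℕ) (c : ℂ) (a : Fin d → ℂ), Good f U φ c a := by
  obtain ⟨d, c, a, hd, hconj⟩ := exists_modelN B hφ
  have hmaps : MapsTo (Bl c a) Dk Dk := Bl_mapsTo hd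
  obtain ⟨R, hR, hBd⟩ := Bl_analytic hd
  have hdiff : DifferentiableOn ℂ (Bl c a) Dk := hBd.mono (Metric.ball_subset_ball hR.le)
  have hno' : ∀ w ∈ Dk, Bl c a w ≠ w := by
    intro w hw h
    have h1 := hconj w hw
    rw [h] at h1
    exact hno (φ w) (hφ.bij.mapsTo hw) h1.symm
  have hninj : ¬ InjOn (Bl c a) Dk := by
    intro h
    apply B.ninj
    intro x hx y hy hxy
    obtain ⟨w, hw, rfl⟩ := hφ.bij.surjOn hx
    obtain ⟨w', hw', rfl⟩ := hφ.bij.surjOn hy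
    rw [← hconj w hw, ← hconj w' hw'] at hxy
    rw [h hw hw' (hφ.bij.injOn (hmaps hw) (hmaps hw') hxy)]
  obtain ⟨ζ, hζ, hh⟩ := exists_horo hdiff hmaps hno'
  obtain ⟨κ, hκ0, hκ⟩ := horo_strict hdiff hmaps hninj hζ hh
  have hw₀ : (0 : ℂ) ∈ Dk := Metric.mem_ball_self one_pos
  have hw := orbit_conv hmaps hζ hκ0 hκ hw₀
  obtain ⟨p, hp, hfp, hz⟩ := orbit_fixed B hφ hd hconj hζ hw₀ hw
  obtain ⟨h1, h, H, hexp, hinc⟩ := multiplier_one B hφ hd hconj hζ hw₀ hw hp hfp hz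
  obtain ⟨r, hr, hball⟩ := inradius_orbit B hφ hd hconj hw₀ hp hfp h1 hz H hexp
  have hin : ∀ n : ℕ, (Bl c a)^[n] 0 ∈ Dk := fun n => (hmaps.iterate n) hw₀
  have hstep := step_zero H (w := fun n => (Bl c a)^[n] 0) hin hr hball hinc
  obtain ⟨hfix, hder⟩ := deriv_one hd hζ hw₀ hw hstep
  have hbeta := beta_zero hd hζ hw₀ hw hstep hfix hder
  obtain ⟨G, P, L, hP, hG⟩ := exists_line hd hζ hfix hbeta hκ0 hκ
  obtain ⟨x₀, hx₀, ha₀⟩ := par_access B hφ hd hconj hζ hfix hder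
  exact ⟨d, c, a, hd, hconj, ⟨ζ, x₀, hζ, hfix, hx₀, ha₀,
    fun α β hab => circ_dense hζ L hP hG hab⟩,
    fun α β hab => circ_cover hζ hfix L hP hG hab⟩

end Pool.Agent.TC
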