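/-
Project TC (MP_d9e400_an). Module Fibre (copy of the TB module for domains on which f is not injective).
The fibres of the extension are the sets of boundary values; they are connected.

PROOFS. fibre_eq: (⊇) exists_extension (5) and continuity: if y is a cluster value of φ at ζ then along
𝓝[Dk] ζ ⊓ comap φ (𝓝 y): w = Φ (φ w) → Φ y and w → ζ, so Φ y = ζ. (⊆) the last clause hcl.
fibre_connected: the set of cluster values at ζ is the decreasing intersection over n of the compact connected sets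
C_n = closure (φ '' (Dk ∩ ball ζ (1/(n+1)))) (the sets Dk ∩ ball ζ r are convex, nonempty), intersection of a directed
family of compact connected sets is connected.
-/
import Mathlib
import Pool.Agent.TB.Defs
import Pool.Agent.TC.Defs
import Pool.Agent.TC.Top1
import Pool.Agent.TB.ConfA

set_option autoImplicit false

open Set Filter Topology Metric

namespace Pool.Agent.TC

open Pool.Agent.TB

private theorem Fibre_inter {ζ : ℂ} {φ : ℂ → ℂ} (C : ℕ → Set ℂ)
    (hC : ∀ n, C n = closure (φ '' (Dk ∩ Metric.ball ζ (1 / ((n : ℝ) + 1))))) :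
    {y | MapClusterPt y (𝓝[Dk] ζ) φ} = ⋂ n, C n := by
  ext y
  have hb : (𝓝[Dk] ζ).HasBasis (fun _ : ℕ => True)
      (fun n => Metric.ball ζ (1 / ((n : ℝ) + 1)) ∩ Dk) :=
    nhdsWithin_hasBasis Metric.nhds_basis_ball_inv_nat_succ Dk
  have hb' := hb.map φ
  constructor
  · intro hy
    rw [mem_iInter]
    intro n
    rw [hC n]
    have h1 : ClusterPt y (map φ (𝓝[Dk] ζ)) := hy
    rw [clusterPt_iff_forall_mem_closure] at h1
    rw [inter_comm]
    exact h1 _ (hb'.mem_of_mem trivial)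
  · intro hy
    rw [mem_iInter] at hy
    change ClusterPt y (map φ (𝓝[Dk] ζ))
    rw [clusterPt_iff_forall_mem_closure]
    intro s hs
    obtain ⟨n, -, hn⟩ := hb'.mem_iff.1 hs
    have h2 := hy n
    rw [hC n, inter_comm] at h2
    exact closure_mono hn h2

theorem fibre_connected {f : ℂ → ℂ} {U : Set ℂ} {z₀ : ℂ} (B : NBasin f U z₀) {φ : ℂ → ℂ}
    (hφ : Conf φ U) {Φ : ℂ → ℂ} (hΦ : ContinuousOn Φ (closure U)) (hΦφ : ∀ w ∈ Dk, Φ (φ w) = w)
    (hcl : ∀ y ∈ frontier U, MapClusterPt y (𝓝[Dk] (Φ y)) φ) {ζ : ℂ} (hζ : ‖ζ‖ = 1) :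
    IsConnected {y | y ∈ frontier U ∧ Φ y = ζ} := by
  have hset : {y | y ∈ frontier U ∧ Φ y = ζ} = {y | MapClusterPt y (𝓝[Dk] ζ) φ} := by
    ext y
    constructor
    · rintro ⟨hy, rfl⟩
      exact hcl y hy
    · intro hy
      have hyf := mapCluster_frontier hφ hζ hy
      refine ⟨hyf, ?_⟩
      have hne : (𝓝[Dk] ζ ⊓ comap φ (𝓝 y)).NeBot := by
        have h1 : (𝓝 y ⊓ map φ (𝓝[Dk] ζ)).NeBot := hy
        rw [inf_comm] at h1
        exact Filter.neBot_inf_comap_iff_map.2 h1
      have hl : Tendsto φ (𝓝[Dk] ζ ⊓ comap φ (𝓝 y)) (𝓝[closure U] y) := by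
        rw [tendsto_nhdsWithin_iff]
        refine ⟨tendsto_comap.mono_left inf_le_right, ?_⟩
        have : ∀ᶠ w in 𝓝[Dk] ζ, φ w ∈ closure U := by
          filter_upwards [self_mem_nhdsWithin] with w hw
          exact subset_closure (hφ.bij.mapsTo hw)
        exact this.filter_mono inf_le_left
      have h2 : Tendsto (fun w => Φ (φ w)) (𝓝[Dk] ζ ⊓ comap φ (𝓝 y)) (𝓝 (Φ y)) :=
        (hΦ y (frontier_subset_closure hyf)).tendsto.comp hl
      have h3 : Tendsto (fun w => Φ (φ w)) (𝓝[Dk] ζ ⊓ comap φ (𝓝 y)) (𝓝 ζ) := by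
        have h4 : Tendsto (fun w : ℂ => w) (𝓝[Dk] ζ ⊓ comap φ (𝓝 y)) (𝓝 ζ) :=
          tendsto_id.mono_left (inf_le_left.trans nhdsWithin_le_nhds)
        refine h4.congr' ?_
        have : ∀ᶠ w in 𝓝[Dk] ζ, w = Φ (φ w) := by
          filter_upwards [self_mem_nhdsWithin] with w hw
          exact (hΦφ w hw).symm
        exact this.filter_mono inf_le_left
      exact tendsto_nhds_unique h2 h3
  rw [hset]
  obtain ⟨C, hC⟩ : ∃ C : ℕ → Set ℂ, ∀ n, C n = closure (φ '' (Dk ∩ Metric.ball ζ (1 / ((n : ℝ) + 1)))) :=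
    ⟨_, fun _ => rfl⟩
  rw [Fibre_inter C hC]
  have hcomp : ∀ n, IsCompact (C n) := by
    intro n
    rw [hC n]
    refine Metric.isCompact_of_isClosed_isBounded isClosed_closure ?_
    refine (B.bdd.subset ?_).closure
    rintro _ ⟨w, hw, rfl⟩
    exact hφ.bij.mapsTo hw.1
  have hconn : ∀ n, IsConnected (C n) := by
    intro n
    rw [hC n]
    refine IsConnected.closure ?_
    have hcv : Convex ℝ (Dk ∩ Metric.ball ζ (1 / ((n : ℝ) + 1))) :=
      (convex_ball 0 1).inter (convex_ball _ _)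
    have hne : (Dk ∩ Metric.ball ζ (1 / ((n : ℝ) + 1))).Nonempty := by
      have h1 : (0 : ℝ) < 1 / ((n : ℝ) + 1) := by positivity
      have h2 : (1 : ℝ) / ((n : ℝ) + 1) ≤ 1 := by
        rw [div_le_one (by positivity)]
        linarith [Nat.cast_nonneg (α := ℝ) n]
      obtain ⟨e, he⟩ : ∃ e : ℝ, e = 1 / ((n : ℝ) + 1) := ⟨_, rfl⟩
      rw [← he] at h1 h2 ⊢
      refine ⟨((1 - e / 2 : ℝ) : ℂ) * ζ, ?_, ?_⟩
      · rw [mem_ball_zero_iff, norm_mul, hζ, mul_one, Complex.norm_real, Real.norm_eq_abs, abs_lt]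
        constructor <;> linarith
      · rw [mem_ball_iff_norm]
        have : ((1 - e / 2 : ℝ) : ℂ) * ζ - ζ = ((-(e / 2) : ℝ) : ℂ) * ζ := by
          push_cast; ring
        rw [this, norm_mul, hζ, mul_one, Complex.norm_real, Real.norm_eq_abs, abs_neg,
          abs_of_pos (by linarith)]
        linarith
    exact (hcv.isConnected hne).image φ (hφ.diff.continuousOn.mono inter_subset_left)
  have hanti : ∀ m n, m ≤ n → C n ⊆ C m := by
    intro m n hmn
    rw [hC n, hC m]
    refine closure_mono (image_mono (inter_subset_inter_right _ (Metric.ball_subset_ball ?_)))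
    have : (m : ℝ) ≤ n := by exact_mod_cast hmn
    gcongr
  have hdir : Directed (fun x1 x2 => x1 ⊇ x2) C := by
    intro m n
    exact ⟨max m n, hanti _ _ (le_max_left _ _), hanti _ _ (le_max_right _ _)⟩
  constructor
  · exact IsCompact.nonempty_iInter_of_directed_nonempty_isCompact_isClosed C hdir
      (fun n => (hconn n).nonempty) hcomp (fun n => (hcomp n).isClosed)
  · rw [isPreconnected_closed_iff]
    intro t t' ht ht' hsub h1 h2
    by_contra hcon
    have hI : IsCompact (⋂ n, C n) :=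
      (hcomp 0).of_isClosed_subset (isClosed_iInter fun n => (hcomp n).isClosed)
        (iInter_subset _ 0)
    have hdisj : Disjoint ((⋂ n, C n) ∩ t) ((⋂ n, C n) ∩ t') := by
      rw [Set.disjoint_iff_forall_ne]
      rintro a ⟨ha1, ha2⟩ b ⟨hb1, hb2⟩ rfl
      exact hcon ⟨a, ha1, ha2, hb2⟩
    obtain ⟨O, O', hO, hO', htO, htO', hOO⟩ :=
      SeparatedNhds.of_isCompact_isCompact (hI.inter_right ht) (hI.inter_right ht') hdisj
    obtain ⟨n, hn⟩ := exists_subset_nhds_of_isCompact' hdir hcomp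
      (fun n => (hcomp n).isClosed) (U := O ∪ O') (by
        intro x hx
        rcases hsub hx with h | h
        · exact Filter.mem_of_superset (hO.mem_nhds (htO ⟨hx, h⟩)) subset_union_left
        · exact Filter.mem_of_superset (hO'.mem_nhds (htO' ⟨hx, h⟩)) subset_union_right)
    obtain ⟨x, hx, hxt⟩ := h1
    obtain ⟨x', hx', hxt'⟩ := h2
    have hx1 : x ∈ C n := mem_iInter.1 hx n
    have hx1' : x' ∈ C n := mem_iInter.1 hx' n
    obtain ⟨z, -, hz1, hz2⟩ := (hconn n).isPreconnected O O' hO hO' hn ⟨x, hx1, htO ⟨hx, hxt⟩⟩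
      ⟨x', hx1', htO' ⟨hx', hxt'⟩⟩
    exact Set.disjoint_left.1 hOO hz1 hz2

end Pool.Agent.TC
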