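/-
Project TC (MP_d9e400_an). Module SepRays (copy of the TB module for domains on which f is not injective).
Consequences of the separation lemma for a basin.

PROOFS. sep_rays: β from join_access; frontier U = closure U \ U is disjoint from Vset U (closure_subset_K) and x_i ∈ frontier U
(radLim_frontier), so β is disjoint from U. crosscut: Γ ⊆ U ∪ Vset U ∪ {x₁,x₂}. y ∈ frontier U (mapCluster_frontier).
If y ≠ x₁, x₂ then y ∉ Γ and n y = m₁ (from θ) and n y = m₂ (from θ'): contradiction.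
sep_connected: the same Γ; X ⊆ Γᶜ is preconnected, so n y = n y'; n y = m₁, n y' = m₂.
sep_path: crosscut with this β (frontier U disjoint from U). Γ ⊆ U ∪ frontier U ⊆ (Vset U)ᶜ. For y ∈ frontier U, y ∉ β'': y ∉ Γ and
n y = 0 by maxp. If m₁ ≠ 0: every cluster value y at θ ∈ Ioo θ₁ θ₂ not on β'' would have n y = m₁ ≠ 0, contradiction: first
alternative. Otherwise m₂ ≠ 0: second alternative.
-/
import Mathlib
import Pool.Agent.TB.Defs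
import Pool.Agent.TC.Defs
import Pool.Agent.TB.CrossCut
import Pool.Agent.TC.Top2
import Pool.Agent.TC.RayJoin

set_option autoImplicit false

open Set Filter Topology Metric

namespace Pool.Agent.TC

open Pool.Agent.TB

variable {f : ℂ → ℂ} {U : Set ℂ} {z₀ : ℂ} {φ : ℂ → ℂ}

theorem SepRays_not_mem (B : NBasin f U z₀) {y : ℂ} (hy : y ∈ frontier U) : y ∉ U := by
  have h1 : y ∈ closure U \ U := by rwa [B.isOpen.frontier_eq] at hy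
  exact h1.2

theorem SepRays_core (B : NBasin f U z₀) (hφ : Conf φ U) {θ₁ θ₂ : ℝ} (h12 : θ₁ < θ₂)
    (h21 : θ₂ < θ₁ + 2 * Real.pi) {x₁ x₂ : ℂ} (hx₁ : RadLim φ (ee θ₁) x₁)
    (hx₂ : RadLim φ (ee θ₂) x₂) (ha₁ : Acc (Vset U) x₁) (ha₂ : Acc (Vset U) x₂) :
    ∃ Γ : Set ℂ, (∀ y ∈ frontier U, y ≠ x₁ → y ≠ x₂ → y ∈ Γᶜ) ∧ ∃ n : ℂ → ℤ,
      (∀ S : Set ℂ, S ⊆ Γᶜ → IsPreconnected S → ∀ x ∈ S, ∀ y ∈ S, n x = n y) ∧
      ∃ m₁ m₂ : ℤ, m₁ ≠ m₂ ∧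
        (∀ θ ∈ Ioo θ₁ θ₂, ∀ y ∈ Γᶜ, MapClusterPt y (𝓝[Dk] (ee θ)) φ → n y = m₁) ∧
        (∀ θ ∈ Ioo θ₂ (θ₁ + 2 * Real.pi), ∀ y ∈ Γᶜ,
          MapClusterPt y (𝓝[Dk] (ee θ)) φ → n y = m₂) := by
  obtain ⟨β, hβ, hβ0, hβ1, hβs⟩ := join_access B ha₁ ha₂
  have hd : Disjoint (β '' Icc 0 1) U := by
    rw [Set.disjoint_left]
    intro z hz hzU
    rcases hβs hz with hV | hV
    · exact closure_subset_K B (subset_closure hzU) hV
    · rcases hV with hV | hV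
      · exact SepRays_not_mem B (radLim_frontier hφ (norm_ee θ₁) hx₁) (hV ▸ hzU)
      · have hV' : z = x₂ := hV
        exact SepRays_not_mem B (radLim_frontier hφ (norm_ee θ₂) hx₂) (hV' ▸ hzU)
  obtain ⟨Γ, hΓc, hΓs, n, hn1, hn2, m₁, m₂, hm, hA, hB⟩ :=
    crosscut hφ B.bdd h12 h21 hx₁ hx₂ hβ hβ0 hβ1 hd
  refine ⟨Γ, ?_, n, hn1, m₁, m₂, hm, hA, hB⟩
  intro y hy h1 h2 hyΓ
  rcases hΓs hyΓ with hU | hU
  · exact SepRays_not_mem B hy hU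
  · rcases hβs hU with hV | hV
    · exact closure_subset_K B (frontier_subset_closure hy) hV
    · rcases hV with hV | hV
      · exact h1 hV
      · exact h2 hV

/-- two radii landing at points accessible from outside separate the boundary -/
theorem sep_rays (B : NBasin f U z₀) (hφ : Conf φ U) {θ₁ θ₂ : ℝ} (h12 : θ₁ < θ₂)
    (h21 : θ₂ < θ₁ + 2 * Real.pi) {x₁ x₂ : ℂ} (hx₁ : RadLim φ (ee θ₁) x₁)
    (hx₂ : RadLim φ (ee θ₂) x₂) (ha₁ : Acc (Vset U) x₁) (ha₂ : Acc (Vset U) x₂) {y : ℂ}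
    {θ θ' : ℝ} (hθ : θ ∈ Ioo θ₁ θ₂) (hθ' : θ' ∈ Ioo θ₂ (θ₁ + 2 * Real.pi))
    (hy : MapClusterPt y (𝓝[Dk] (ee θ)) φ) (hy' : MapClusterPt y (𝓝[Dk] (ee θ')) φ) :
    y = x₁ ∨ y = x₂ := by
  obtain ⟨Γ, hΓ, n, -, m₁, m₂, hm, hA, hB⟩ := SepRays_core B hφ h12 h21 hx₁ hx₂ ha₁ ha₂
  by_contra hcon
  rw [not_or] at hcon
  have hyΓ := hΓ y (mapCluster_frontier hφ (norm_ee θ) hy) hcon.1 hcon.2
  exact hm ((hA θ hθ y hyΓ hy).symm.trans (hB θ' hθ' y hyΓ hy'))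

/-- a connected subset of the frontier that avoids both landing points stays on one side -/
theorem sep_connected (B : NBasin f U z₀) (hφ : Conf φ U) {θ₁ θ₂ : ℝ} (h12 : θ₁ < θ₂)
    (h21 : θ₂ < θ₁ + 2 * Real.pi) {x₁ x₂ : ℂ} (hx₁ : RadLim φ (ee θ₁) x₁)
    (hx₂ : RadLim φ (ee θ₂) x₂) (ha₁ : Acc (Vset U) x₁) (ha₂ : Acc (Vset U) x₂) {X : Set ℂ}
    (hX : IsPreconnected X) (hXU : X ⊆ frontier U) (h1 : x₁ ∉ X) (h2 : x₂ ∉ X) {y y' : ℂ}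
    (hyX : y ∈ X) (hyX' : y' ∈ X)
    {θ θ' : ℝ} (hθ : θ ∈ Ioo θ₁ θ₂) (hθ' : θ' ∈ Ioo θ₂ (θ₁ + 2 * Real.pi))
    (hy : MapClusterPt y (𝓝[Dk] (ee θ)) φ) (hy' : MapClusterPt y' (𝓝[Dk] (ee θ')) φ) :
    False := by
  obtain ⟨Γ, hΓ, n, hn, m₁, m₂, hm, hA, hB⟩ := SepRays_core B hφ h12 h21 hx₁ hx₂ ha₁ ha₂
  have hXΓ : X ⊆ Γᶜ := by
    intro z hz
    refine hΓ z (hXU hz) ?_ ?_
    · rintro rfl
      exact h1 hz
    · rintro rfl
      exact h2 hz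
  have e1 := hn X hXΓ hX y hyX y' hyX'
  have e2 := hA θ hθ y (hXΓ hyX) hy
  have e3 := hB θ' hθ' y' (hXΓ hyX') hy'
  exact hm (by rw [← e2, ← e3, e1])

/-- if the landing points are joined by a curve in the frontier, all boundary values on one of the
two arcs lie on that curve -/
theorem sep_path (B : NBasin f U z₀) (hφ : Conf φ U) {θ₁ θ₂ : ℝ} (h12 : θ₁ < θ₂)
    (h21 : θ₂ < θ₁ + 2 * Real.pi) {x₁ x₂ : ℂ} (hx₁ : RadLim φ (ee θ₁) x₁)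
    (hx₂ : RadLim φ (ee θ₂) x₂) {β : ℝ → ℂ} (hβ : ContinuousOn β (Icc 0 1)) (hβ0 : β 0 = x₁)
    (hβ1 : β 1 = x₂) (hβU : β '' Icc 0 1 ⊆ frontier U) :
    (∀ θ ∈ Ioo θ₁ θ₂, ∀ y, MapClusterPt y (𝓝[Dk] (ee θ)) φ → y ∈ β '' Icc 0 1) ∨
    (∀ θ ∈ Ioo θ₂ (θ₁ + 2 * Real.pi), ∀ y, MapClusterPt y (𝓝[Dk] (ee θ)) φ →
      y ∈ β '' Icc 0 1) := by
  have hd : Disjoint (β '' Icc 0 1) U := by
    rw [Set.disjoint_left]
    intro z hz hzU
    exact SepRays_not_mem B (hβU hz) hzU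
  obtain ⟨Γ, hΓc, hΓs, n, hn1, hn2, m₁, m₂, hm, hA, hB⟩ :=
    crosscut hφ B.bdd h12 h21 hx₁ hx₂ hβ hβ0 hβ1 hd
  have hK : Γ ⊆ (Vset U)ᶜ := by
    intro z hz
    rcases hΓs hz with h | h
    · exact closure_subset_K B (subset_closure h)
    · exact closure_subset_K B (frontier_subset_closure (hβU h))
  have h0 : ∀ y ∈ frontier U, y ∉ β '' Icc 0 1 → y ∈ Γᶜ ∧ n y = 0 := by
    intro y hy hyβ
    have hyΓ : y ∉ Γ := by
      intro h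
      rcases hΓs h with h | h
      · exact SepRays_not_mem B hy h
      · exact hyβ h
    exact ⟨hyΓ, hn2 y hyΓ (maxp B hΓc hK hy hyΓ)⟩
  by_cases hm1 : m₁ = 0
  · right
    intro θ hθ y hy
    by_contra hyβ
    obtain ⟨hyΓ, hn0⟩ := h0 y (mapCluster_frontier hφ (norm_ee θ) hy) hyβ
    have := hB θ hθ y hyΓ hy
    exact hm (by rw [hm1, ← this, hn0])
  · left
    intro θ hθ y hy
    by_contra hyβ
    obtain ⟨hyΓ, hn0⟩ := h0 y (mapCluster_frontier hφ (norm_ee θ) hy) hyβ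
    have := hA θ hθ y hyΓ hy
    exact hm1 (by rw [← this, hn0])

end Pool.Agent.TC
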