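/-
Project TC (MP_d9e400_an). Module UniqueRay (copy of the TB module for domains on which f is not injective).
Different radii do not land at the same point.

PROOF. x ∈ frontier U (radLim_frontier). crosscut with β = constant x (x ∉ U): Γ ⊆ U ∪ {x} ⊆ (Vset U)ᶜ (closure_subset_K), so
for y ∈ frontier U, y ≠ x (then y ∉ Γ): the component of y is unbounded (maxp) and n y = 0. m₁ ≠ m₂, so one of them is
≠ 0, say m₁ (otherwise use the other arc). For θ ∈ Ioo θ₁ θ₂ every cluster value y of φ at ee θ is in frontier U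
(mapCluster_frontier); if y ≠ x then n y = m₁ ≠ 0, contradiction. So x is the only cluster value; φ is bounded near
ee θ, so φ → x at ee θ (le_nhds_of_unique_clusterPt / compactness of closure U). const_of_arc: φ constant on Dk,
contradiction to injectivity.
-/
import Mathlib
import Pool.Agent.TB.Defs
import Pool.Agent.TC.Defs
import Pool.Agent.TB.CrossCut
import Pool.Agent.TC.Top2
import Pool.Agent.TB.ConstBdry

set_option autoImplicit false

open Set Filter Topology Metric

namespace Pool.Agent.TC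

open Pool.Agent.TB

theorem UniqueRay_const {U : Set ℂ} {φ : ℂ → ℂ} (hφ : Conf φ U) (hb : Bornology.IsBounded U)
    {α β : ℝ} (hab : α < β) {x : ℂ} (hxU : x ∉ U)
    (h : ∀ θ ∈ Ioo α β, ∀ y, MapClusterPt y (𝓝[Dk] (ee θ)) φ → y = x) : False := by
  obtain ⟨M, hM⟩ := hb.exists_norm_le
  have hc := const_of_arc hφ.diff (M := M) (fun w hw => hM _ (hφ.bij.mapsTo hw)) hab (x := x) (by
    intro θ hθ
    have hK : IsCompact (closure U) := hb.isCompact_closure
    refine hK.tendsto_nhds_of_unique_mapClusterPt ?_ ?_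
    · have hmem : ∀ᶠ w in 𝓝[Dk] (ee θ), w ∈ Dk := eventually_mem_nhdsWithin
      filter_upwards [hmem] with w hw
      exact subset_closure (hφ.bij.mapsTo hw)
    · intro y _ hy
      exact h θ hθ y hy)
  have h0 : (0 : ℂ) ∈ Dk := by simp
  have := hc 0 h0
  exact hxU (this ▸ hφ.bij.mapsTo h0)

theorem unique_ray {f : ℂ → ℂ} {U : Set ℂ} {z₀ : ℂ} {φ : ℂ → ℂ} (B : NBasin f U z₀)
    (hφ : Conf φ U) {θ₁ θ₂ : ℝ} (h12 : θ₁ < θ₂)
    (h21 : θ₂ < θ₁ + 2 * Real.pi) {x : ℂ} (hx₁ : RadLim φ (ee θ₁) x)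
    (hx₂ : RadLim φ (ee θ₂) x) : False := by
  have hnot : ∀ y ∈ frontier U, y ∉ U := by
    intro y hy
    have h1 : y ∈ closure U \ U := by rwa [B.isOpen.frontier_eq] at hy
    exact h1.2
  have hx : x ∈ frontier U := radLim_frontier hφ (norm_ee θ₁) hx₁
  have hxU := hnot x hx
  have himg : (fun _ : ℝ => x) '' Icc (0 : ℝ) 1 ⊆ {x} := by
    rintro _ ⟨t, -, rfl⟩
    rfl
  have hd : Disjoint ((fun _ : ℝ => x) '' Icc (0 : ℝ) 1) U := by
    rw [Set.disjoint_left]
    intro z hz hzU
    have : z = x := himg hz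
    exact hxU (this ▸ hzU)
  obtain ⟨Γ, hΓc, hΓs, n, hn1, hn2, m₁, m₂, hm, hA, hB⟩ :=
    crosscut hφ B.bdd h12 h21 hx₁ hx₂ (β := fun _ => x) continuousOn_const rfl rfl hd
  have hK : Γ ⊆ (Vset U)ᶜ := by
    intro z hz
    rcases hΓs hz with h | h
    · exact closure_subset_K B (subset_closure h)
    · have : z = x := himg h
      rw [this]
      exact closure_subset_K B (frontier_subset_closure hx)
  have h0 : ∀ y ∈ frontier U, y ≠ x → y ∈ Γᶜ ∧ n y = 0 := by
    intro y hy hyx
    have hyΓ : y ∉ Γ := by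
      intro h
      rcases hΓs h with h | h
      · exact hnot y hy h
      · exact hyx (himg h)
    exact ⟨hyΓ, hn2 y hyΓ (maxp B hΓc hK hy hyΓ)⟩
  by_cases hm1 : m₁ = 0
  · refine UniqueRay_const hφ B.bdd h21 hxU ?_
    intro θ hθ y hy
    by_contra hyx
    obtain ⟨hyΓ, hn0⟩ := h0 y (mapCluster_frontier hφ (norm_ee θ) hy) hyx
    have := hB θ hθ y hyΓ hy
    exact hm (by rw [hm1, ← this, hn0])
  · refine UniqueRay_const hφ B.bdd h12 hxU ?_
    intro θ hθ y hy
    by_contra hyx
    obtain ⟨hyΓ, hn0⟩ := h0 y (mapCluster_frontier hφ (norm_ee θ) hy) hyx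
    have := hA θ hθ y hyΓ hy
    exact hm1 (by rw [← this, hn0])

end Pool.Agent.TC
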