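/-
Project TC (MP_d9e400_an). Module Extend (copy of the TB module for domains on which f is not injective).
The inverse of the conformal map extends continuously to the closure.

PROOFS. dense_accessible: exists_model, exists_fixed, dense_preimages, access_backward.
boundary_value_unique: suppose ζ ≠ ζ': ζ = ee t, ζ' = ee t', WLOG t < t' < t + 2π. dense_accessible: θ₁ ∈ Ioo (t'-2π) t, θ₂ ∈ Ioo t t', then
θ₃ ∈ Ioo (t'-2π) θ₁, θ₄ ∈ Ioo t θ₂, landing points x₁..x₄ accessible. t ∈ Ioo θ₁ θ₂, t' ∈ Ioo θ₂ (θ₁+2π): sep_rays: y = x₁ or x₂; the same with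
(θ₃,θ₄): y = x₃ or x₄. θ₃ < θ₁ < t < θ₄ < θ₂ < t' < θ₃ + 2π, so x_i ≠ x_j for i ≠ j by unique_ray: contradiction.
exists_extension: k = inverse of φ on U; claim: for y ∈ frontier U, k z → Φ y as z → y, z ∈ U, where Φ y is the ζ of exists_cluster:
every cluster point ζ' of k along 𝓝[U] y is in the closed disc, ‖ζ'‖ = 1 (if in Dk then z = φ(k z) → φ ζ' ∈ U, y ∈ U), and y is a
cluster value of φ at ζ', so ζ' = Φ y by boundary_value_unique; compactness of the closed disc. Φ = extendFrom U k, continuousOn_extendFrom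
(closure U), Φ = k on U.
-/
import Mathlib
import Pool.Agent.TB.Defs
import Pool.Agent.TC.Defs
import Pool.Agent.TC.Access
import Pool.Agent.TC.SepRays
import Pool.Agent.TC.UniqueRay

set_option autoImplicit false

open Set Filter Topology Metric

namespace Pool.Agent.TC

open Pool.Agent.TB

variable {f : ℂ → ℂ} {U : Set ℂ} {z₀ : ℂ} {φ : ℂ → ℂ}

/-- the angles of the landing points accessible from outside are dense -/
theorem dense_accessible (B : NBasin f U z₀) (hφ : Conf φ U) {d : ℕ} {c : ℂ} {a : Fin d → ℂ}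
    (h0 : Good f U φ c a) {α β : ℝ}
    (hab : α < β) : ∃ θ ∈ Ioo α β, ∃ x, RadLim φ (ee θ) x ∧ Acc (Vset U) x := by
  obtain ⟨ζ₀, x₀, -, -, hx₀, ha₀, hdense⟩ := h0.base
  obtain ⟨θ, hθ, n, hn⟩ := hdense α β hab
  exact ⟨θ, hθ, access_backward B hφ h0.bl h0.conj hx₀ ha₀ (norm_ee θ) hn⟩

/-- a frontier point is a boundary value of `φ` at one point of the circle only -/
theorem boundary_value_unique (B : NBasin f U z₀) (hφ : Conf φ U) {d : ℕ} {c : ℂ} {a : Fin d → ℂ}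
    (h0 : Good f U φ c a) {y ζ ζ' : ℂ}
    (hζ : ‖ζ‖ = 1) (hζ' : ‖ζ'‖ = 1) (hy : MapClusterPt y (𝓝[Dk] ζ) φ)
    (hy' : MapClusterPt y (𝓝[Dk] ζ') φ) : ζ = ζ' := by
  by_contra hne
  obtain ⟨t, -, -, rfl⟩ := exists_ee hζ 0
  obtain ⟨t', ht1, ht2, rfl⟩ := exists_ee hζ' t
  have htt : t < t' := by
    rcases ht1.lt_or_eq with h | h
    · exact h
    · exact absurd (by rw [h]) hne
  obtain ⟨θ₁, ⟨h11, h12⟩, x₁, hx₁, ha₁⟩ := dense_accessible B hφ h0
    (show t' - 2 * Real.pi < t by linarith)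
  obtain ⟨θ₂, ⟨h21, h22⟩, x₂, hx₂, ha₂⟩ := dense_accessible B hφ h0 htt
  obtain ⟨θ₃, ⟨h31, h32⟩, x₃, hx₃, ha₃⟩ := dense_accessible B hφ h0 h11
  obtain ⟨θ₄, ⟨h41, h42⟩, x₄, hx₄, ha₄⟩ := dense_accessible B hφ h0 h21
  have e1 := sep_rays B hφ (show θ₁ < θ₂ by linarith) (by linarith) hx₁ hx₂ ha₁ ha₂
    (y := y) (θ := t) (θ' := t') ⟨h12, h21⟩ ⟨h22, by linarith⟩ hy hy'
  have e2 := sep_rays B hφ (show θ₃ < θ₄ by linarith) (by linarith) hx₃ hx₄ ha₃ ha₄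
    (y := y) (θ := t) (θ' := t') ⟨by linarith, h41⟩ ⟨by linarith, by linarith⟩ hy hy'
  rcases e1 with e1 | e1 <;> rcases e2 with e2 | e2
  · rw [← e1] at hx₁
    rw [← e2] at hx₃
    exact unique_ray B hφ (show θ₃ < θ₁ by linarith) (by linarith) hx₃ hx₁
  · rw [← e1] at hx₁
    rw [← e2] at hx₄
    exact unique_ray B hφ (show θ₁ < θ₄ by linarith) (by linarith) hx₁ hx₄
  · rw [← e1] at hx₂
    rw [← e2] at hx₃
    exact unique_ray B hφ (show θ₃ < θ₂ by linarith) (by linarith) hx₃ hx₂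
  · rw [← e1] at hx₂
    rw [← e2] at hx₄
    exact unique_ray B hφ (show θ₄ < θ₂ by linarith) (by linarith) hx₄ hx₂

theorem Extend_lim (B : NBasin f U z₀) (hφ : Conf φ U) {d : ℕ} {c : ℂ} {a : Fin d → ℂ}
    (h0 : Good f U φ c a) {k : ℂ → ℂ}
    (hkU : MapsTo k U Dk) (hφk : ∀ z ∈ U, φ (k z) = z) {y : ℂ} (hy : y ∈ frontier U) {ζ : ℂ}
    (hζ : ‖ζ‖ = 1) (hc : MapClusterPt y (𝓝[Dk] ζ) φ) : Tendsto k (𝓝[U] y) (𝓝 ζ) := by
  have hyU : y ∉ U := by
    have h1 : y ∈ closure U \ U := by rwa [B.isOpen.frontier_eq] at hy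
    exact h1.2
  have hK : IsCompact (Metric.closedBall (0 : ℂ) 1) := isCompact_closedBall 0 1
  have hmemU : ∀ᶠ z in 𝓝[U] y, z ∈ U := eventually_mem_nhdsWithin
  refine hK.tendsto_nhds_of_unique_mapClusterPt ?_ ?_
  · filter_upwards [hmemU] with z hz
    exact Metric.ball_subset_closedBall (hkU hz)
  · intro ζ' hζ' hcl
    have hne : (𝓝[U] y ⊓ comap k (𝓝 ζ')).NeBot := by
      have h1 : (𝓝 ζ' ⊓ map k (𝓝[U] y)).NeBot := hcl
      have h2 : (map k (𝓝[U] y) ⊓ 𝓝 ζ').NeBot := by rwa [inf_comm] at h1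
      rw [← Filter.map_neBot_iff (f := k)]
      rwa [Filter.push_pull]
    have hl1 : Tendsto k (𝓝[U] y ⊓ comap k (𝓝 ζ')) (𝓝 ζ') := tendsto_comap.mono_left inf_le_right
    have hl2 : ∀ᶠ z in 𝓝[U] y ⊓ comap k (𝓝 ζ'), z ∈ U := hmemU.filter_mono inf_le_left
    have hl3 : Tendsto (fun z => φ (k z)) (𝓝[U] y ⊓ comap k (𝓝 ζ')) (𝓝 y) := by
      have h1 : Tendsto (fun z : ℂ => z) (𝓝[U] y ⊓ comap k (𝓝 ζ')) (𝓝 y) :=
        (tendsto_id.mono_left nhdsWithin_le_nhds).mono_left inf_le_left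
      refine h1.congr' ?_
      filter_upwards [hl2] with z hz
      exact (hφk z hz).symm
    have hnorm : ‖ζ'‖ = 1 := by
      have hle : ‖ζ'‖ ≤ 1 := by simpa using hζ'
      rcases hle.lt_or_eq with hlt | heq
      · exfalso
        have hmem : ζ' ∈ Dk := by simpa using hlt
        have hcont : ContinuousAt φ ζ' :=
          (hφ.diff.differentiableAt (Metric.isOpen_ball.mem_nhds hmem)).continuousAt
        have h2 : Tendsto (fun z => φ (k z)) (𝓝[U] y ⊓ comap k (𝓝 ζ')) (𝓝 (φ ζ')) :=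
          hcont.tendsto.comp hl1
        have h3 := tendsto_nhds_unique hl3 h2
        exact hyU (h3 ▸ hφ.bij.mapsTo hmem)
      · exact heq
    have hk2 : Tendsto k (𝓝[U] y ⊓ comap k (𝓝 ζ')) (𝓝[Dk] ζ') := by
      refine tendsto_nhdsWithin_iff.2 ⟨hl1, ?_⟩
      filter_upwards [hl2] with z hz
      exact hkU hz
    have hcl' : MapClusterPt y (𝓝[Dk] ζ') φ := by
      have h4 : MapClusterPt y (𝓝[U] y ⊓ comap k (𝓝 ζ')) (φ ∘ k) :=
        Filter.Tendsto.mapClusterPt hl3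
      exact MapClusterPt.of_comp hk2 h4
    exact boundary_value_unique B hφ h0 hnorm hζ hcl' hc

theorem exists_extension (B : NBasin f U z₀) (hφ : Conf φ U) {d : ℕ} {c : ℂ} {a : Fin d → ℂ}
    (h0 : Good f U φ c a) :
    ∃ Φ : ℂ → ℂ, ContinuousOn Φ (closure U) ∧ DifferentiableOn ℂ Φ U ∧ BijOn Φ U Dk ∧
      MapsTo Φ (frontier U) (Metric.sphere 0 1) ∧ (∀ w ∈ Dk, Φ (φ w) = w) ∧
      ∀ y ∈ frontier U, MapClusterPt y (𝓝[Dk] (Φ y)) φ := by
  obtain ⟨k, hkd, hkφ, hkU, hφk⟩ := conf_inverse hφ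
  have hU : ∀ z ∈ U, Tendsto k (𝓝[U] z) (𝓝 (k z)) := fun z hz => hkd.continuousOn z hz
  have hfr : ∀ y ∈ frontier U, ∃ ζ : ℂ, ‖ζ‖ = 1 ∧ MapClusterPt y (𝓝[Dk] ζ) φ ∧
      extendFrom U k y = ζ ∧ Tendsto k (𝓝[U] y) (𝓝 ζ) := by
    intro y hy
    obtain ⟨ζ, hζ, hc⟩ := exists_cluster hφ hy
    have hl := Extend_lim B hφ h0 hkU hφk hy hζ hc
    exact ⟨ζ, hζ, hc, extendFrom_eq (frontier_subset_closure hy) hl, hl⟩
  have hΦU : ∀ z ∈ U, extendFrom U k z = k z := fun z hz =>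
    extendFrom_eq (subset_closure hz) (hU z hz)
  refine ⟨extendFrom U k, ?_, ?_, ?_, ?_, ?_, ?_⟩
  · refine continuousOn_extendFrom subset_rfl ?_
    intro z hz
    by_cases hzU : z ∈ U
    · exact ⟨_, hU z hzU⟩
    · have hzf : z ∈ frontier U := by
        rw [B.isOpen.frontier_eq]
        exact ⟨hz, hzU⟩
      obtain ⟨ζ, -, -, -, hl⟩ := hfr z hzf
      exact ⟨ζ, hl⟩
  · exact hkd.congr hΦU
  · refine ⟨?_, ?_, ?_⟩
    · intro z hz
      rw [hΦU z hz]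
      exact hkU hz
    · intro z hz z' hz' h
      rw [hΦU z hz, hΦU z' hz'] at h
      rw [← hφk z hz, ← hφk z' hz', h]
    · intro w hw
      refine ⟨φ w, hφ.bij.mapsTo hw, ?_⟩
      rw [hΦU _ (hφ.bij.mapsTo hw), hkφ w hw]
  · intro y hy
    obtain ⟨ζ, hζ, -, he, -⟩ := hfr y hy
    rw [he]
    simpa using hζ
  · intro w hw
    rw [hΦU _ (hφ.bij.mapsTo hw), hkφ w hw]
  · intro y hy
    obtain ⟨ζ, -, hc, he, -⟩ := hfr y hy
    rw [he]
    exact hc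

end Pool.Agent.TC
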