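/-
Project TC (MP_d9e400_an). Module Lakes (copy of the TB module for domains on which f is not injective).
The frontier of a bounded component of the complement of closure U lies in one fibre.

PROOF. W = connectedComponentIn (closure U)ᶜ b, bounded, open, frontier W ⊆ frontier U (see Top2), W ⊆ (Vset U)ᶜ. Let y, y' ∈
frontier W with Φ y ≠ Φ y'. Φ y = ee t, Φ y' = ee t', WLOG t < t' < t + 2π. dense_accessible: θ₁ ∈ Ioo (t'-2π) t, θ₂ ∈ Ioo t t' with
accessible landing points x₁, x₂; choosing among two pairs with different landing points (as in Extend: θ₃ ∈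
Ioo (t'-2π) θ₁, θ₄ ∈ Ioo t θ₂, unique_ray) we can moreover have y, y' ∉ {x₁, x₂}: (simplest: x₁ is a landing point, so
MapClusterPt x₁ (𝓝[Dk] (ee θ₁)) φ and Φ x₁ = ee θ₁ ≠ ee t, ee t', so x₁ ≠ y, y'; the same for x₂.)
join_access gives β in V ∪ {x₁,x₂}, crosscut gives Γ ⊆ U ∪ V ∪ {x₁,x₂}. S = W ∪ {y, y'} is preconnected
(W ⊆ S ⊆ closure W) and S ∩ Γ = ∅ (W is disjoint from closure U and from V; y, y' ∈ frontier U, not in U, V, {x₁,x₂}). So n y = n y'.
But y is a cluster value at ee t, t ∈ Ioo θ₁ θ₂: n y = m₁, and n y' = m₂ (t' ∈ Ioo θ₂ (θ₁+2π)): contradiction.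
-/
import Mathlib
import Pool.Agent.TB.Defs
import Pool.Agent.TC.Defs
import Pool.Agent.TC.Extend
import Pool.Agent.TC.RayJoin
import Pool.Agent.TB.CrossCut
import Pool.Agent.TC.UniqueRay

set_option autoImplicit false

open Set Filter Topology Metric

namespace Pool.Agent.TC

open Pool.Agent.TB

/-- points of the frontier of a bounded complementary component -/
theorem Lakes_facts {f : ℂ → ℂ} {U : Set ℂ} {z₀ : ℂ} (B : NBasin f U z₀) {b : ℂ}
    (hb : b ∉ closure U) (hbd : Bornology.IsBounded (connectedComponentIn (closure U)ᶜ b)) :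
    IsOpen (connectedComponentIn (closure U)ᶜ b) ∧
    connectedComponentIn (closure U)ᶜ b ⊆ (closure U)ᶜ ∧
    connectedComponentIn (closure U)ᶜ b ⊆ (Vset U)ᶜ ∧
    frontier (connectedComponentIn (closure U)ᶜ b) ⊆ frontier U := by
  have hO : IsOpen (closure U)ᶜ := isClosed_closure.isOpen_compl
  have hW : IsOpen (connectedComponentIn (closure U)ᶜ b) := hO.connectedComponentIn
  have hWs : connectedComponentIn (closure U)ᶜ b ⊆ (closure U)ᶜ := connectedComponentIn_subset _ _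
  refine ⟨hW, hWs, ?_, ?_⟩
  · intro w hw hwV
    have : connectedComponentIn (closure U)ᶜ b = connectedComponentIn (closure U)ᶜ w :=
      connectedComponentIn_eq hw
    exact hwV.2 (this ▸ hbd)
  · intro y hy
    rw [hW.frontier_eq] at hy
    have hyc : y ∈ closure U := by
      by_contra hyU
      have hC : IsOpen (connectedComponentIn (closure U)ᶜ y) := hO.connectedComponentIn
      have hyC : y ∈ connectedComponentIn (closure U)ᶜ y := mem_connectedComponentIn hyU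
      obtain ⟨z, hz1, hz2⟩ := mem_closure_iff.1 hy.1 _ hC hyC
      have h1 := connectedComponentIn_eq hz1
      have h2 := connectedComponentIn_eq hz2
      rw [h1, ← h2] at hyC
      exact hy.2 hyC
    rw [B.isOpen.frontier_eq]
    refine ⟨hyc, fun hyU => ?_⟩
    obtain ⟨z, hz1, hz2⟩ := mem_closure_iff.1 hy.1 _ B.isOpen hyU
    exact hWs hz2 (subset_closure hz1)

theorem Lakes_radLim {U : Set ℂ} {φ : ℂ → ℂ}
    (hφ : Conf φ U) {Φ : ℂ → ℂ} (hΦ : ContinuousOn Φ (closure U))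
    (hΦφ : ∀ w ∈ Dk, Φ (φ w) = w) {ζ x : ℂ} (hζ : ‖ζ‖ = 1) (hx : RadLim φ ζ x) : Φ x = ζ := by
  have hxf := radLim_frontier hφ hζ hx
  have hev : ∀ᶠ r : ℝ in 𝓝[<] (1 : ℝ), (r : ℂ) * ζ ∈ Dk := by
    have h1 : Ioo (0 : ℝ) 1 ∈ 𝓝[<] (1 : ℝ) := Ioo_mem_nhdsLT one_pos
    filter_upwards [h1] with r hr
    rw [mem_ball_zero_iff, norm_mul, hζ, mul_one, Complex.norm_real, Real.norm_eq_abs,
      abs_of_pos hr.1]
    exact hr.2
  have hl : Tendsto (fun r : ℝ => φ ((r : ℂ) * ζ)) (𝓝[<] (1 : ℝ)) (𝓝[closure U] x) := by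
    rw [tendsto_nhdsWithin_iff]
    refine ⟨hx, ?_⟩
    filter_upwards [hev] with r hr
    exact subset_closure (hφ.bij.mapsTo hr)
  have h2 : Tendsto (fun r : ℝ => Φ (φ ((r : ℂ) * ζ))) (𝓝[<] (1 : ℝ)) (𝓝 (Φ x)) :=
    (hΦ x (frontier_subset_closure hxf)).tendsto.comp hl
  have h3 : Tendsto (fun r : ℝ => Φ (φ ((r : ℂ) * ζ))) (𝓝[<] (1 : ℝ)) (𝓝 ζ) := by
    have h4 : Tendsto (fun r : ℝ => (r : ℂ) * ζ) (𝓝[<] (1 : ℝ)) (𝓝 ζ) := by
      have : Tendsto (fun r : ℝ => (r : ℂ) * ζ) (𝓝 (1 : ℝ)) (𝓝 (((1 : ℝ) : ℂ) * ζ)) := by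
        apply Continuous.tendsto
        fun_prop
      simpa using this.mono_left nhdsWithin_le_nhds
    refine h4.congr' ?_
    filter_upwards [hev] with r hr
    exact (hΦφ _ hr).symm
  exact tendsto_nhds_unique h2 h3

theorem Lakes_ee_ne {s t : ℝ} (h : s < t) (h' : t < s + 2 * Real.pi) : ee s ≠ ee t := by
  intro he
  obtain ⟨k, hk⟩ := ee_eq_iff.1 he
  have hpi := Real.pi_pos
  have h1 : (k : ℝ) < 0 := by
    by_contra hk0
    push Not at hk0
    nlinarith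
  have h2 : (-1 : ℝ) < k := by
    by_contra hk0
    push Not at hk0
    nlinarith
  have h3 : k < 0 := by exact_mod_cast h1
  have h4 : -1 < k := by exact_mod_cast h2
  omega

theorem lake_fibre {f : ℂ → ℂ} {U : Set ℂ} {z₀ : ℂ} (B : NBasin f U z₀) {φ : ℂ → ℂ}
    (hφ : Conf φ U) {d : ℕ} {c : ℂ} {a : Fin d → ℂ}
    (h0 : Good f U φ c a) {Φ : ℂ → ℂ} (hΦ : ContinuousOn Φ (closure U))
    (hs : MapsTo Φ (frontier U) (Metric.sphere 0 1)) (hΦφ : ∀ w ∈ Dk, Φ (φ w) = w)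
    (hcl : ∀ y ∈ frontier U, MapClusterPt y (𝓝[Dk] (Φ y)) φ) {b : ℂ} (hb : b ∉ closure U)
    (hbd : Bornology.IsBounded (connectedComponentIn (closure U)ᶜ b)) :
    ∀ y ∈ frontier (connectedComponentIn (closure U)ᶜ b),
      ∀ y' ∈ frontier (connectedComponentIn (closure U)ᶜ b), Φ y = Φ y' := by
  intro y hy y' hy'
  by_contra hne
  obtain ⟨hW, hWU, hWV, hWf⟩ := Lakes_facts B hb hbd
  have hyf := hWf hy
  have hyf' := hWf hy'
  have hn : ‖Φ y‖ = 1 := by simpa using hs hyf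
  have hn' : ‖Φ y'‖ = 1 := by simpa using hs hyf'
  obtain ⟨t, -, -, ht⟩ := exists_ee hn 0
  obtain ⟨t', ht1, ht2, ht'⟩ := exists_ee hn' t
  have htt : t < t' := by
    rcases ht1.lt_or_eq with h | h
    · exact h
    · exact absurd (by rw [ht, ht', h]) hne
  obtain ⟨θ₁, hθ₁, x₁, hx₁, ha₁⟩ := dense_accessible B hφ h0 (α := t' - 2 * Real.pi) (β := t)
    (by linarith)
  obtain ⟨θ₂, hθ₂, x₂, hx₂, ha₂⟩ := dense_accessible B hφ h0 (α := t) (β := t') htt
  have h12 : θ₁ < θ₂ := hθ₁.2.trans hθ₂.1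
  have h21 : θ₂ < θ₁ + 2 * Real.pi := by linarith [hθ₁.1, hθ₂.2]
  have e₁ : Φ x₁ = ee θ₁ := Lakes_radLim hφ hΦ hΦφ (norm_ee θ₁) hx₁
  have e₂ : Φ x₂ = ee θ₂ := Lakes_radLim hφ hΦ hΦφ (norm_ee θ₂) hx₂
  have n1 : x₁ ≠ y := by
    rintro rfl
    exact Lakes_ee_ne hθ₁.2 (by linarith [hθ₁.1]) (e₁.symm.trans ht)
  have n2 : x₁ ≠ y' := by
    rintro rfl
    exact Lakes_ee_ne (hθ₁.2.trans htt) (by linarith [hθ₁.1]) (e₁.symm.trans ht')
  have n3 : x₂ ≠ y := by
    rintro rfl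
    exact Lakes_ee_ne hθ₂.1 (by linarith [hθ₂.2]) (ht.symm.trans e₂)
  have n4 : x₂ ≠ y' := by
    rintro rfl
    exact Lakes_ee_ne hθ₂.2 (by linarith [hθ₂.1]) (e₂.symm.trans ht')
  have hf₁ := radLim_frontier hφ (norm_ee θ₁) hx₁
  have hf₂ := radLim_frontier hφ (norm_ee θ₂) hx₂
  have hfU : ∀ z ∈ frontier U, z ∉ U := fun z hz => by
    rw [B.isOpen.frontier_eq] at hz
    exact hz.2
  have hfV : ∀ z ∈ frontier U, z ∉ Vset U := fun z hz =>
    closure_subset_K B (frontier_subset_closure hz)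
  obtain ⟨β, hβ, hβ0, hβ1, hβs⟩ := join_access B ha₁ ha₂
  have hβd : Disjoint (β '' Icc 0 1) U := by
    rw [Set.disjoint_left]
    intro z hz hzU
    rcases hβs hz with h | h | h
    · exact closure_subset_K B (subset_closure hzU) h
    · exact hfU _ hf₁ (h ▸ hzU)
    · exact hfU _ hf₂ ((mem_singleton_iff.1 h) ▸ hzU)
  obtain ⟨Γ, -, hΓ, n, hn1, -, m₁, m₂, hm, hm₁, hm₂⟩ :=
    crosscut hφ B.bdd h12 h21 hx₁ hx₂ hβ hβ0 hβ1 hβd
  have hΓ' : ∀ z, z ∉ U → z ∉ Vset U → z ≠ x₁ → z ≠ x₂ → z ∈ Γᶜ := by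
    intro z h1 h2 h3 h4 hz
    rcases hΓ hz with h | h
    · exact h1 h
    · rcases hβs h with h | h | h
      · exact h2 h
      · exact h3 h
      · exact h4 h
  have hyΓ : y ∈ Γᶜ := hΓ' y (hfU y hyf) (hfV y hyf) (Ne.symm n1) (Ne.symm n3)
  have hyΓ' : y' ∈ Γᶜ := hΓ' y' (hfU y' hyf') (hfV y' hyf') (Ne.symm n2) (Ne.symm n4)
  have hSc : IsPreconnected (connectedComponentIn (closure U)ᶜ b ∪ {y, y'}) := by
    refine isPreconnected_connectedComponentIn.subset_closure subset_union_left ?_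
    rintro z (h | h | h)
    · exact subset_closure h
    · rw [h]; exact frontier_subset_closure hy
    · rw [mem_singleton_iff.1 h]; exact frontier_subset_closure hy'
  have hSΓ : connectedComponentIn (closure U)ᶜ b ∪ {y, y'} ⊆ Γᶜ := by
    rintro z (h | h | h)
    · refine hΓ' z (fun hz => hWU h (subset_closure hz)) (hWV h) ?_ ?_
      · rintro rfl
        exact hWU h (frontier_subset_closure hf₁)
      · rintro rfl
        exact hWU h (frontier_subset_closure hf₂)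
    · rw [h]; exact hyΓ
    · rw [mem_singleton_iff.1 h]; exact hyΓ'
  have key := hn1 _ hSΓ hSc y (Or.inr (Or.inl rfl)) y' (Or.inr (Or.inr rfl))
  have k1 := hm₁ t ⟨hθ₁.2, hθ₂.1⟩ y hyΓ (ht ▸ hcl y hyf)
  have k2 := hm₂ t' ⟨hθ₂.2, by linarith [hθ₁.1]⟩ y' hyΓ' (ht' ▸ hcl y' hyf')
  exact hm (by rw [← k1, ← k2, key])

end Pool.Agent.TC
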