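/-
Project TC (MP_d9e400_an). Module PathPart (copy of the TB module for domains on which f is not injective).
A path in the frontier that leaves an impression makes the frontier a Jordan curve.

PROOF. (0) For y ∈ frontier U: y is a cluster value of φ at Φ y and ‖Φ y‖ = 1: exists_cluster gives ζ with ‖ζ‖ = 1 and MapClusterPt y (𝓝[Dk] ζ) φ; along the
filter 𝓝[Dk] ζ ⊓ comap φ (𝓝 y): w = Φ (φ w) → Φ y (continuity on closure U) and w → ζ, so ζ = Φ y.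
(1) Φ (γ 0) = ee t₀, Φ (γ 1) = ee t₁, WLOG t₀ < t₁ < t₀ + 2π (replace γ by its reverse if needed). dense_accessible: a₁ < a₂ in
Ioo t₀ t₁ and b₁ < b₂ in Ioo t₁ (t₀+2π) with accessible landing points x(a_i), x(b_j). X = γ '' Icc 0 1 preconnected ⊆ frontier U. For each
pair (i,j): x(a_i) ∈ X or x(b_j) ∈ X, otherwise sep_connected with θ₁ = a_i, θ₂ = b_j, y = γ 1 (θ = t₁ ∈ Ioo a_i b_j), y' = γ 0 (θ' = t₀+2π ∈
Ioo b_j (a_i+2π)) gives False. So X contains x(a₁), x(a₂) or X contains x(b₁), x(b₂): angles θ₁ < θ₂ < θ₁+2π with both landing points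
γ s₁, γ s₂. (2) β t = γ (s₁ + t (s₂ - s₁)): from x(θ₁) to x(θ₂) in frontier U. sep_path: on one of the two arcs all cluster values are on β''.
arc_extension on that arc, spread (exists_model for d, c, a), jordan.
-/
import Mathlib
import Pool.Agent.TB.Defs
import Pool.Agent.TC.Defs
import Pool.Agent.TC.Extend
import Pool.Agent.TB.ArcExt
import Pool.Agent.TC.Spread
import Pool.Agent.TC.Jordan
import Pool.Agent.TB.EE

set_option autoImplicit false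

open Set Filter Topology Metric

namespace Pool.Agent.TC

open Pool.Agent.TB

theorem PathPart_cluster {U : Set ℂ} {φ : ℂ → ℂ}
    (hφ : Conf φ U) {Φ : ℂ → ℂ} (hΦ : ContinuousOn Φ (closure U))
    (hΦφ : ∀ w ∈ Dk, Φ (φ w) = w) {y : ℂ} (hy : y ∈ frontier U) :
    ‖Φ y‖ = 1 ∧ MapClusterPt y (𝓝[Dk] (Φ y)) φ := by
  obtain ⟨ζ, hζ, hm⟩ := exists_cluster hφ hy
  have key : Φ y = ζ := by
    obtain ⟨F, hF, hFt⟩ := mapClusterPt_iff_ultrafilter.mp hm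
    have h1 : Tendsto (fun w : ℂ => w) F (𝓝 ζ) :=
      (tendsto_id.mono_left hF).mono_right nhdsWithin_le_nhds
    have h2 : ∀ᶠ w in (F : Filter ℂ), w ∈ Dk := hF self_mem_nhdsWithin
    have h3 : Tendsto φ F (𝓝[closure U] y) := by
      rw [tendsto_nhdsWithin_iff]
      refine ⟨hFt, ?_⟩
      filter_upwards [h2] with w hw
      exact subset_closure (hφ.bij.mapsTo hw)
    have h4 : Tendsto Φ (𝓝[closure U] y) (𝓝 (Φ y)) := hΦ y (frontier_subset_closure hy)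
    have h5 : Tendsto (fun w => Φ (φ w)) F (𝓝 (Φ y)) := h4.comp h3
    have h6 : Tendsto (fun w : ℂ => w) F (𝓝 (Φ y)) := by
      apply h5.congr'
      filter_upwards [h2] with w hw
      exact hΦφ w hw
    exact tendsto_nhds_unique h6 h1
  rw [key]
  exact ⟨hζ, hm⟩

/-- step (2): two landing points on the path -/
theorem PathPart_two {f : ℂ → ℂ} {U : Set ℂ} {z₀ : ℂ} (B : NBasin f U z₀) {φ : ℂ → ℂ}
    (hφ : Conf φ U) {d : ℕ} {c : ℂ} {a : Fin d → ℂ}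
    (h0 : Good f U φ c a) {γ : ℝ → ℂ} (hγ : ContinuousOn γ (Icc 0 1))
    (hγU : MapsTo γ (Icc 0 1) (frontier U)) {θ₁ θ₂ : ℝ} (h12 : θ₁ < θ₂)
    (h21 : θ₂ < θ₁ + 2 * Real.pi) {x₁ x₂ : ℂ} (hx₁ : RadLim φ (ee θ₁) x₁)
    (hx₂ : RadLim φ (ee θ₂) x₂) (h1 : x₁ ∈ γ '' Icc 0 1) (h2 : x₂ ∈ γ '' Icc 0 1) :
    Nonempty (frontier U ≃ₜ Circle) := by
  obtain ⟨s₁, hs₁, rfl⟩ := h1
  obtain ⟨s₂, hs₂, rfl⟩ := h2
  set β : ℝ → ℂ := fun t => γ (s₁ + t * (s₂ - s₁)) with hβ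
  have hmaps : MapsTo (fun t : ℝ => s₁ + t * (s₂ - s₁)) (Icc 0 1) (Icc 0 1) := by
    intro t ht
    obtain ⟨ht0, ht1⟩ := ht
    obtain ⟨a1, a2⟩ := hs₁
    obtain ⟨b1, b2⟩ := hs₂
    constructor
    · show 0 ≤ s₁ + t * (s₂ - s₁)
      nlinarith
    · show s₁ + t * (s₂ - s₁) ≤ 1
      nlinarith
  have hβc : ContinuousOn β (Icc 0 1) := by
    apply hγ.comp _ hmaps
    fun_prop
  have hβ0 : β 0 = γ s₁ := by simp [hβ]
  have hβ1 : β 1 = γ s₂ := by simp [hβ]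
  have hβU : β '' Icc 0 1 ⊆ frontier U := by
    rintro _ ⟨t, ht, rfl⟩
    exact hγU (hmaps ht)
  rcases sep_path B hφ h12 h21 hx₁ hx₂ hβc hβ0 hβ1 hβU with h | h
  · exact jordan B hφ (spread B hφ h0 h12 (arc_extension hφ B.bdd hβc hβU h))
  · exact jordan B hφ (spread B hφ h0 h21 (arc_extension hφ B.bdd hβc hβU h))

theorem path_part {f : ℂ → ℂ} {U : Set ℂ} {z₀ : ℂ} (B : NBasin f U z₀) {φ : ℂ → ℂ}
    (hφ : Conf φ U) {d : ℕ} {c : ℂ} {a : Fin d → ℂ}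
    (h0 : Good f U φ c a) {Φ : ℂ → ℂ} (hΦ : ContinuousOn Φ (closure U))
    (hΦφ : ∀ w ∈ Dk, Φ (φ w) = w) {γ : ℝ → ℂ} (hγ : ContinuousOn γ (Icc 0 1))
    (hγU : MapsTo γ (Icc 0 1) (frontier U)) (hne : Φ (γ 0) ≠ Φ (γ 1)) :
    Nonempty (frontier U ≃ₜ Circle) := by
  have h0m : (0 : ℝ) ∈ Icc (0 : ℝ) 1 := ⟨le_refl _, zero_le_one⟩
  have h1m : (1 : ℝ) ∈ Icc (0 : ℝ) 1 := ⟨zero_le_one, le_refl _⟩
  obtain ⟨hn0, hc0⟩ := PathPart_cluster hφ hΦ hΦφ (hγU h0m)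
  obtain ⟨hn1, hc1⟩ := PathPart_cluster hφ hΦ hΦφ (hγU h1m)
  obtain ⟨t₀, _, _, ht₀⟩ := exists_ee hn0 0
  obtain ⟨t₁, h01, h10, ht₁⟩ := exists_ee hn1 t₀
  have h01' : t₀ < t₁ := by
    rcases h01.lt_or_eq with h | h
    · exact h
    · exfalso
      apply hne
      rw [ht₀, ht₁, h]
  rw [ht₀] at hc0
  rw [ht₁] at hc1
  have hc0' : MapClusterPt (γ 0) (𝓝[Dk] (ee (t₀ + 2 * Real.pi))) φ := by
    have : ee (t₀ + 2 * Real.pi) = ee t₀ := by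
      rw [ee_eq_iff]
      exact ⟨1, by push_cast; ring⟩
    rw [this]
    exact hc0
  obtain ⟨a₁, ha₁, xa₁, hra₁, haa₁⟩ := dense_accessible B hφ h0 h01'
  obtain ⟨a₂, ha₂, xa₂, hra₂, haa₂⟩ := dense_accessible B hφ h0 ha₁.2
  obtain ⟨b₁, hb₁, xb₁, hrb₁, hab₁⟩ := dense_accessible B hφ h0 h10
  obtain ⟨b₂, hb₂, xb₂, hrb₂, hab₂⟩ := dense_accessible B hφ h0 hb₁.2
  have ha₂' : a₂ ∈ Ioo t₀ t₁ := ⟨lt_trans ha₁.1 ha₂.1, ha₂.2⟩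
  have hb₂' : b₂ ∈ Ioo t₁ (t₀ + 2 * Real.pi) := ⟨lt_trans hb₁.1 hb₂.1, hb₂.2⟩
  have hX : IsPreconnected (γ '' Icc 0 1) := isPreconnected_Icc.image γ hγ
  have hXU : γ '' Icc 0 1 ⊆ frontier U := by
    rintro _ ⟨t, ht, rfl⟩
    exact hγU ht
  have key : ∀ a ∈ Ioo t₀ t₁, ∀ b ∈ Ioo t₁ (t₀ + 2 * Real.pi), ∀ xa xb : ℂ,
      RadLim φ (ee a) xa → RadLim φ (ee b) xb → Acc (Vset U) xa → Acc (Vset U) xb →
      xa ∈ γ '' Icc 0 1 ∨ xb ∈ γ '' Icc 0 1 := by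
    intro a ha b hb xa xb hra hrb haa hab
    by_contra hcon
    push Not at hcon
    exact sep_connected B hφ (lt_trans ha.2 hb.1) (by linarith [ha.1, hb.2]) hra hrb haa hab hX
      hXU hcon.1 hcon.2 ⟨1, h1m, rfl⟩ ⟨0, h0m, rfl⟩ (θ := t₁) (θ' := t₀ + 2 * Real.pi)
      ⟨ha.2, hb.1⟩ ⟨hb.2, by linarith [ha.1]⟩ hc1 hc0'
  have k11 := key a₁ ha₁ b₁ hb₁ xa₁ xb₁ hra₁ hrb₁ haa₁ hab₁
  have k12 := key a₁ ha₁ b₂ hb₂' xa₁ xb₂ hra₁ hrb₂ haa₁ hab₂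
  have k21 := key a₂ ha₂' b₁ hb₁ xa₂ xb₁ hra₂ hrb₁ haa₂ hab₁
  have k22 := key a₂ ha₂' b₂ hb₂' xa₂ xb₂ hra₂ hrb₂ haa₂ hab₂
  have h2pi := Real.two_pi_pos
  by_cases hA : xa₁ ∈ γ '' Icc 0 1 ∧ xa₂ ∈ γ '' Icc 0 1
  · exact PathPart_two B hφ h0 hγ hγU ha₂.1 (by linarith [ha₁.1, ha₂.2]) hra₁ hra₂ hA.1 hA.2
  · have hBB : xb₁ ∈ γ '' Icc 0 1 ∧ xb₂ ∈ γ '' Icc 0 1 := by
      by_cases h1 : xa₁ ∈ γ '' Icc 0 1
      · have h2 : xa₂ ∉ γ '' Icc 0 1 := fun h => hA ⟨h1, h⟩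
        exact ⟨k21.resolve_left h2, k22.resolve_left h2⟩
      · exact ⟨k11.resolve_left h1, k12.resolve_left h1⟩
    exact PathPart_two B hφ h0 hγ hγU hb₂.1 (by linarith [hb₁.1, hb₂.2]) hrb₁ hrb₂ hBB.1 hBB.2

end Pool.Agent.TC
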