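/-
Project TC (MP_d9e400_an). Module MainG (copy of the TB module for domains on which f is not injective).
Assembly of the theorem.
-/
import Mathlib
import Pool.Agent.TB.Defs
import Pool.Agent.TC.Defs
import Pool.Agent.TC.PathPart
import Pool.Agent.TC.Top3
import Pool.Agent.TC.Fibre
import Pool.Agent.TC.Decomp
import Pool.Agent.TC.Lakes
import Pool.Agent.TC.LakesB

set_option autoImplicit false

open Set Filter Topology Metric

namespace Pool.Agent.TC

open Pool.Agent.TB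

/-- everything for a domain with a good model -/
theorem main_good {f : ℂ → ℂ} {U : Set ℂ} {z₀ : ℂ} (B : NBasin f U z₀) {φ : ℂ → ℂ}
    (hφ : Conf φ U) {d : ℕ} {c : ℂ} {a : Fin d → ℂ} (h0 : Good f U φ c a) :
    ∃ Φ : ℂ → ℂ, ContinuousOn Φ (closure U) ∧ DifferentiableOn ℂ Φ U ∧
      BijOn Φ U (Metric.ball 0 1) ∧ MapsTo Φ (frontier U) (Metric.sphere 0 1) ∧
      (∀ ζ ∈ Metric.sphere (0 : ℂ) 1, IsConnected {y | y ∈ frontier U ∧ Φ y = ζ}) ∧
      (∀ b, b ∉ closure U → Bornology.IsBounded (connectedComponentIn (closure U)ᶜ b) →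
        (∀ y ∈ frontier (connectedComponentIn (closure U)ᶜ b),
          ∀ y' ∈ frontier (connectedComponentIn (closure U)ᶜ b), Φ y = Φ y') ∧
        Disjoint (f '' connectedComponentIn (closure U)ᶜ b) (closure U)) ∧
      (∀ γ : ℝ → ℂ, ContinuousOn γ (Icc 0 1) → MapsTo γ (Icc 0 1) (frontier U) →
        Φ (γ 0) ≠ Φ (γ 1) → Nonempty (frontier U ≃ₜ Circle)) := by
  obtain ⟨Φ, h1, h2, h3, h4, h5, h6⟩ := exists_extension B hφ h0
  refine ⟨Φ, h1, h2, h3, h4, fun ζ hζ => ?_, fun b hb hbd => ?_,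
    fun γ hγ hγU hn => path_part B hφ h0 h1 h5 hγ hγU hn⟩
  · exact fibre_connected B hφ h1 h5 h6 (by simpa using hζ)
  · have hl := lake_fibre B hφ h0 h1 h4 h5 h6 hb hbd
    exact ⟨hl, lake_image B hφ h0.bl h0.conj h1 h4 h5 h6 hb hbd hl⟩

end Pool.Agent.TC
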