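/-
Project TC (MP_d9e400_an). Module Final.
The theorem for all bounded invariant components on which f is not injective.
-/
import Mathlib
import Pool.Agent.TB.Defs
import Pool.Agent.TB.Main
import Pool.Agent.TB.LakesC
import Pool.Agent.TC.Defs
import Pool.Agent.TC.GoodPar
import Pool.Agent.TC.MainG
import Pool.Agent.TC.LakesC
import Pool.Agent.TC.AttrN
import Pool.Agent.TC.FatouN

set_option autoImplicit false

open Set Filter Topology Metric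

namespace Pool.Agent.TC

open Pool.Agent.TB

theorem exists_basin {f : ℂ → ℂ} {U : Set ℂ} {z₀ z₁ : ℂ} (B : NBasin f U z₀) (h : z₁ ∈ U)
    (hfix : f z₁ = z₁) : Basin f U z₁ := by
  have B' : NBasin f U z₁ := ⟨B.hf, B.isOpen, B.conn, B.bdd, B.maps, h, B.ninj, B.esc⟩
  exact ⟨B.hf, B.isOpen, B.conn, B.bdd, B.maps, h, hfix, attr_of_fixed B' hfix, B.esc⟩

theorem final_map {f : ℂ → ℂ} {U : Set ℂ} {z₀ : ℂ} (B : NBasin f U z₀) :
    (∃ Φ : ℂ → ℂ, ContinuousOn Φ (closure U) ∧ DifferentiableOn ℂ Φ U ∧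
      BijOn Φ U (Metric.ball 0 1) ∧ MapsTo Φ (frontier U) (Metric.sphere 0 1) ∧
      (∀ ζ ∈ Metric.sphere (0 : ℂ) 1, IsConnected {y | y ∈ frontier U ∧ Φ y = ζ}) ∧
      (∀ γ : ℝ → ℂ, ContinuousOn γ (Icc 0 1) → MapsTo γ (Icc 0 1) (frontier U) →
        Φ (γ 0) ≠ Φ (γ 1) → Nonempty (frontier U ≃ₜ Circle))) ∧
    (∃ A B : Set ℂ, IsCompact A ∧ IsConnected A ∧ IsCompact B ∧ IsConnected B ∧
      A ∪ B = frontier U ∧ A ≠ frontier U ∧ B ≠ frontier U) := by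
  by_cases h : ∃ z₁ ∈ U, f z₁ = z₁
  · obtain ⟨z₁, hz₁, hfix⟩ := h
    have B' := exists_basin B hz₁ hfix
    obtain ⟨Φ, h1, h2, h3, h4, h5, -, h7⟩ := TB.main_basin B'
    exact ⟨⟨Φ, h1, h2, h3, h4, h5, h7⟩, TB.decomposable B' h1 h4 h5⟩
  · push Not at h
    obtain ⟨φ, hφ, -⟩ := riemann (sc_U B) B.bdd B.mem
    obtain ⟨d, c, a, G⟩ := good_parabolic B hφ h
    obtain ⟨Φ, h1, h2, h3, h4, h5, -, h7⟩ := main_good B hφ G
    exact ⟨⟨Φ, h1, h2, h3, h4, h5, h7⟩, decomposable B h1 h4 h5⟩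

theorem final_lakes {f : ℂ → ℂ} {U : Set ℂ} {z₀ : ℂ} (B : NBasin f U z₀) :
    ∃ φ : ℂ → ℂ, DifferentiableOn ℂ φ (Metric.ball 0 1) ∧ BijOn φ (Metric.ball 0 1) U ∧
      ∀ b, b ∉ closure U → Bornology.IsBounded (connectedComponentIn (closure U)ᶜ b) →
        (∃ ζ : ℂ, ‖ζ‖ = 1 ∧ ∀ y ∈ frontier (connectedComponentIn (closure U)ᶜ b),
          ∀ ζ' : ℂ, ‖ζ'‖ = 1 → (MapClusterPt y (𝓝[Metric.ball 0 1] ζ') φ ↔ ζ' = ζ)) ∧
        frontier (connectedComponentIn (closure U)ᶜ b) ≠ frontier U ∧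
        (∀ n : ℕ, Disjoint (f^[n] '' connectedComponentIn (closure U)ᶜ b) (closure U)) := by
  by_cases h : ∃ z₁ ∈ U, f z₁ = z₁
  · obtain ⟨z₁, hz₁, hfix⟩ := h
    obtain ⟨φ, h1, h2, -, h4⟩ := TB.lakes_main (exists_basin B hz₁ hfix)
    exact ⟨φ, h1, h2, h4⟩
  · push Not at h
    obtain ⟨φ, hφ, -⟩ := riemann (sc_U B) B.bdd B.mem
    obtain ⟨d, c, a, G⟩ := good_parabolic B hφ h
    exact ⟨φ, hφ.diff, hφ.bij, lakes_main B hφ G⟩

end Pool.Agent.TC
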