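/-
Project TC (MP_d9e400_an). Module Line.
The map on the line.

PROOF. P = {x | Bl c a (pt ζ x) = ζ}. Finite: Bl is analytic on ball 0 R, R > 1 (Bl_analytic), and Bl - ζ is not identically zero there (Bl maps Dk into Dk), so
it has finitely many zeros on the compact circle; pt ζ is injective. G x = Im ((ζ + Bl (pt ζ x))/(ζ - Bl (pt ζ x))). For x ∉ P: pt_im: Bl (pt ζ x) =
pt ζ (G x) (norm_Bl). top, bot: i(G x - x) = (ζ + Bl v)/(ζ - Bl v) - (ζ+v)/(ζ-v) at v = pt ζ x → ζ, v ≠ ζ (hbeta; for |x| large x ∉ P, and the real parts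
vanish). pole: as y → x ∈ P, y ≠ x: Bl (pt ζ y) → ζ, ≠ ζ for y near x (P finite), |G y| = |ζ + Bl|/|ζ - Bl| → ∞.
der: x ∉ P, η = pt ζ x, H z = (ζ + Bl z)/(ζ - Bl z) - (ζ+z)/(ζ-z) is holomorphic near η (Bl η ≠ ζ, η ≠ ζ). H (pt ζ y) = i(G y - y) for y near x, so
i(G' x - 1) = H' η · pt' x = H' η · η · (-2i/(1+x²)): G' x = 1 - (2/(1+x²)) η H' η (so η H' η is real: G real valued). Radial direction:
Re H(rη) ≥ κ(1-r) for r < 1 (hκ; Re((ζ+v)/(ζ-v)) = (1-|v|²)/|ζ-v|²) and Re H η = 0, so d/dr Re H(rη) at r = 1, which is Re(η H' η), is ≤ -κ. So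
G' x ≥ 1 + 2κ/(1+x²) > 1.
-/
import Mathlib
import Pool.Agent.TB.Defs
import Pool.Agent.TC.Defs
import Pool.Agent.TC.Circ
import Pool.Agent.TC.LDefs
import Pool.Agent.TC.PtFacts

set_option autoImplicit false

open Set Filter Topology Metric

namespace Pool.Agent.TC

open Pool.Agent.TB

theorem Line_re {ζ v : ℂ} (hζ : ‖ζ‖ = 1) :
    ((ζ + v) / (ζ - v)).re = (1 - ‖v‖ ^ 2) / ‖ζ - v‖ ^ 2 := by
  have h1 : ‖ζ‖ ^ 2 = 1 := by rw [hζ]; norm_num
  rw [← Complex.normSq_eq_norm_sq, Complex.normSq_apply] at h1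
  rw [Complex.div_re, ← Complex.normSq_eq_norm_sq v, ← Complex.normSq_eq_norm_sq (ζ - v),
    ← add_div, Complex.normSq_apply v]
  congr 1
  simp only [Complex.add_re, Complex.sub_re, Complex.add_im, Complex.sub_im]
  linear_combination h1

theorem Line_fin {d : ℕ} {c : ℂ} {a : Fin d → ℂ} (hd : BlN d c a) {ζ : ℂ} (hζ : ‖ζ‖ = 1) :
    {x : ℝ | Bl c a (pt ζ x) = ζ}.Finite := by
  obtain ⟨R, hR, hdiff⟩ := Bl_analytic hd
  have hfin : {w : ℂ | w ∈ Metric.sphere (0 : ℂ) 1 ∧ Bl c a w = ζ}.Finite := by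
    by_contra hinf
    have hinf' : {w : ℂ | w ∈ Metric.sphere (0 : ℂ) 1 ∧ Bl c a w = ζ}.Infinite := hinf
    obtain ⟨x, hxK, hacc⟩ := hinf'.exists_accPt_of_subset_isCompact
      (isCompact_sphere (0 : ℂ) 1) (fun w hw => hw.1)
    have hfr : ∃ᶠ y in 𝓝[≠] x, Bl c a y = ζ := by
      rw [accPt_iff_frequently_nhdsNE] at hacc
      exact hacc.mono fun y hy => hy.2
    have han : AnalyticOnNhd ℂ (Bl c a) (Metric.ball 0 R) :=
      hdiff.analyticOnNhd Metric.isOpen_ball
    have hx : x ∈ Metric.ball (0 : ℂ) R := by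
      rw [Metric.mem_ball, mem_sphere_iff_norm, sub_zero] at *
      rw [dist_zero_right, hxK]
      exact hR
    have heq := han.eqOn_of_preconnected_of_frequently_eq (g := fun _ => ζ)
      analyticOnNhd_const (convex_ball 0 R).isPreconnected hx hfr
    have h0 : Bl c a 0 = ζ := heq (Metric.mem_ball_self (by linarith))
    have h1 : Bl c a 0 ∈ Dk := Bl_mapsTo hd (Metric.mem_ball_self one_pos)
    rw [h0, Metric.mem_ball, dist_zero_right, hζ] at h1
    exact lt_irrefl _ h1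
  have h2 := hfin.preimage (f := pt ζ) (pt_inj hζ).injOn
  refine h2.subset fun x hx => ?_
  exact ⟨by rw [mem_sphere_iff_norm, sub_zero]; exact norm_pt hζ x, hx⟩

theorem exists_line {d : ℕ} {c : ℂ} {a : Fin d → ℂ} (hd : BlN d c a) {ζ : ℂ} (hζ : ‖ζ‖ = 1)
    (hfix : Bl c a ζ = ζ)
    (hbeta : Tendsto (fun z : ℂ => (ζ + Bl c a z) / (ζ - Bl c a z) - (ζ + z) / (ζ - z))
      (𝓝[≠] ζ) (𝓝 0)) {κ : ℝ} (hκ0 : 0 < κ)
    (hκ : ∀ z ∈ Dk, κ * (1 - ‖z‖) ≤
      (1 - ‖Bl c a z‖ ^ 2) / ‖ζ - Bl c a z‖ ^ 2 - (1 - ‖z‖ ^ 2) / ‖ζ - z‖ ^ 2) :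
    ∃ (G : ℝ → ℝ) (P : Set ℝ), LineData G P ∧ (∀ x ∈ P, Bl c a (pt ζ x) = ζ) ∧
      ∀ x ∉ P, Bl c a (pt ζ x) = pt ζ (G x) := by
  obtain ⟨R, hR, hdiff⟩ := Bl_analytic hd
  set b := Bl c a with hb
  set G : ℝ → ℝ := fun x => ((ζ + b (pt ζ x)) / (ζ - b (pt ζ x))).im with hG
  set P : Set ℝ := {x | b (pt ζ x) = ζ} with hP
  set H : ℂ → ℂ := fun z => (ζ + b z) / (ζ - b z) - (ζ + z) / (ζ - z) with hH
  have hspec : ∀ x ∉ P, b (pt ζ x) = pt ζ (G x) := by
    intro x hx
    exact (pt_im hζ (norm_Bl hd (norm_pt hζ x)) hx).symm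
  have hGH : ∀ x, G x - x = (H (pt ζ x)).im := by
    intro x
    simp only [hH, hG, Complex.sub_im, pt_spec hζ x]
    simp
  have hbdiff : ∀ η : ℂ, ‖η‖ = 1 → DifferentiableAt ℂ b η := by
    intro η hη
    exact hdiff.differentiableAt (Metric.isOpen_ball.mem_nhds (by
      rw [Metric.mem_ball, dist_zero_right, hη]; exact hR))
  refine ⟨G, P, ⟨Line_fin hd hζ, ?_, ?_, ?_, ?_⟩, fun x hx => hx, hspec⟩
  · -- derivative
    intro x hx
    set η := pt ζ x with hη
    have hη1 : ‖η‖ = 1 := norm_pt hζ x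
    have hbη : b η ≠ ζ := hx
    have hηζ : η ≠ ζ := pt_ne hζ x
    have hHd : DifferentiableAt ℂ H η := by
      refine DifferentiableAt.sub (DifferentiableAt.div ?_ ?_ ?_) (DifferentiableAt.div ?_ ?_ ?_)
      · exact (hbdiff η hη1).const_add ζ
      · exact (hbdiff η hη1).const_sub ζ
      · exact sub_ne_zero.2 (Ne.symm hbη)
      · exact differentiableAt_id.const_add ζ
      · exact differentiableAt_id.const_sub ζ
      · exact sub_ne_zero.2 (Ne.symm hηζ)
    set D := deriv H η with hD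
    have hHder : HasDerivAt H D η := hHd.hasDerivAt
    have h1 : HasDerivAt (fun y : ℝ => H (pt ζ y))
        (D * (pt ζ x * (-(2 * Complex.I) / (1 + (x : ℂ) ^ 2)))) x :=
      HasDerivAt.comp (h₂ := H) (h := pt ζ) x hHder (hasDerivAt_pt ζ x)
    have h2 : HasDerivAt (fun y : ℝ => (H (pt ζ y)).im)
        (D * (pt ζ x * (-(2 * Complex.I) / (1 + (x : ℂ) ^ 2)))).im x :=
      Complex.imCLM.hasFDerivAt.comp_hasDerivAt x h1
    have h3 : HasDerivAt G (1 + (D * (pt ζ x * (-(2 * Complex.I) / (1 + (x : ℂ) ^ 2)))).im) x := by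
      have h4 := (hasDerivAt_id x).add h2
      refine h4.congr_of_eventuallyEq (Eventually.of_forall fun y => ?_)
      have := hGH y
      simp only [Pi.add_apply, id]
      linarith
    refine ⟨_, ?_, h3⟩
    -- radial direction
    have hq : (η * D).re ≤ -κ := by
      have h5 : HasDerivAt (fun r : ℝ => (r : ℂ) * η) (1 * η) 1 :=
        (Complex.ofRealCLM.hasDerivAt (x := 1)).mul_const η |>.congr_deriv (by simp)
      have h6 : HasDerivAt (fun r : ℝ => H ((r : ℂ) * η)) (D * (1 * η)) 1 := by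
        have : HasDerivAt H D (((1 : ℝ) : ℂ) * η) := by
          rw [Complex.ofReal_one, one_mul]; exact hHder
        exact this.comp 1 h5
      have h7 : HasDerivAt (fun r : ℝ => (H ((r : ℂ) * η)).re) ((D * (1 * η)).re) 1 :=
        Complex.reCLM.hasFDerivAt.comp_hasDerivAt 1 h6
      rw [one_mul, mul_comm D η] at h7
      have h8 : (H (((1 : ℝ) : ℂ) * η)).re = 0 := by
        rw [Complex.ofReal_one, one_mul]
        simp only [hH, Complex.sub_re, Line_re hζ]
        rw [norm_Bl hd hη1, hη1]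
        norm_num
      have h9 : ∀ r : ℝ, 0 ≤ r → r < 1 → κ * (1 - r) ≤ (H ((r : ℂ) * η)).re := by
        intro r hr0 hr1
        have hn : ‖(r : ℂ) * η‖ = r := by
          rw [norm_mul, hη1, mul_one, Complex.norm_real, Real.norm_eq_abs, abs_of_nonneg hr0]
        have hmem : (r : ℂ) * η ∈ Dk := by
          rw [Metric.mem_ball, dist_zero_right, hn]; exact hr1
        have h10 := hκ _ hmem
        rw [hn] at h10
        simp only [hH, Complex.sub_re, Line_re hζ]
        rw [hn]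
        exact h10
      have h11 := (hasDerivAt_iff_tendsto_slope.1 h7).mono_left
        (nhdsWithin_mono (1 : ℝ) (fun r (hr : r ∈ Iio (1 : ℝ)) => ne_of_lt hr))
      refine le_of_tendsto h11 ?_
      have h12 : ∀ᶠ r : ℝ in 𝓝[<] (1 : ℝ), r ∈ Ioo (0 : ℝ) 1 :=
        Ioo_mem_nhdsLT (by norm_num)
      filter_upwards [h12] with r hr
      rw [slope_def_field, h8, sub_zero, div_le_iff_of_neg (by linarith [hr.2])]
      have := h9 r hr.1.le hr.2
      linarith
    have h13 : (D * (pt ζ x * (-(2 * Complex.I) / (1 + (x : ℂ) ^ 2)))).im =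
        -(2 / (1 + x ^ 2)) * (η * D).re := by
      have e1 : D * (pt ζ x * (-(2 * Complex.I) / (1 + (x : ℂ) ^ 2))) =
          ((-(2 / (1 + x ^ 2)) : ℝ) : ℂ) * (Complex.I * (η * D)) := by
        push_cast
        rw [← hη]
        ring
      rw [e1, Complex.im_ofReal_mul, Complex.I_mul_im]
    rw [h13]
    have h14 : 0 < 2 / (1 + x ^ 2) := by positivity
    have h15 : (2 / (1 + x ^ 2)) * κ ≤ -(2 / (1 + x ^ 2)) * (η * D).re := by
      have := mul_le_mul_of_nonneg_left hq h14.le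
      linarith
    have h16 : 0 < (2 / (1 + x ^ 2)) * κ := by positivity
    linarith
  · -- top
    have h1 : Tendsto (pt ζ) atTop (𝓝[≠] ζ) :=
      tendsto_nhdsWithin_iff.2 ⟨pt_tendsto_top ζ, Eventually.of_forall fun x => pt_ne hζ x⟩
    have h2 := (Complex.continuous_im.tendsto 0).comp (hbeta.comp h1)
    refine h2.congr fun x => ?_
    exact (hGH x).symm
  · -- bot
    have h1 : Tendsto (pt ζ) atBot (𝓝[≠] ζ) :=
      tendsto_nhdsWithin_iff.2 ⟨pt_tendsto_bot ζ, Eventually.of_forall fun x => pt_ne hζ x⟩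
    have h2 := (Complex.continuous_im.tendsto 0).comp (hbeta.comp h1)
    refine h2.congr fun x => ?_
    exact (hGH x).symm
  · -- poles
    intro x hx
    have hbx : b (pt ζ x) = ζ := hx
    have hev : ∀ᶠ y in 𝓝[≠] x, y ∉ P := by
      have h1 : (P \ {x}).Finite := (Line_fin hd hζ).subset sdiff_subset
      have h2 : ∀ᶠ y in 𝓝 x, y ∉ P \ {x} := by
        have := h1.isClosed.isOpen_compl.mem_nhds (show x ∈ (P \ {x})ᶜ from fun h => h.2 rfl)
        exact this
      rw [eventually_nhdsWithin_iff]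
      filter_upwards [h2] with y hy hyx hyP
      exact hy ⟨hyP, hyx⟩
    have hcont : Tendsto (fun y => b (pt ζ y)) (𝓝 x) (𝓝 ζ) := by
      have h1 : ContinuousAt (fun y => b (pt ζ y)) x :=
        ContinuousAt.comp (g := b) (f := pt ζ) (hbdiff _ (norm_pt hζ x)).continuousAt
          (hasDerivAt_pt ζ x).continuousAt
      have h2 := h1.tendsto
      rw [hbx] at h2
      exact h2
    have hcont' := hcont.mono_left (nhdsWithin_le_nhds (s := {x}ᶜ))
    have hnum : Tendsto (fun y => ‖ζ + b (pt ζ y)‖) (𝓝[≠] x) (𝓝 2) := by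
      have h1 := (hcont'.const_add ζ).norm
      have h2 : ‖ζ + ζ‖ = 2 := by
        rw [← two_mul, norm_mul, hζ]; simp
      rwa [h2] at h1
    have hden : Tendsto (fun y => ‖ζ - b (pt ζ y)‖) (𝓝[≠] x) (𝓝[>] 0) := by
      rw [tendsto_nhdsWithin_iff]
      constructor
      · have h1 := (hcont'.const_sub ζ).norm
        rwa [sub_self, norm_zero] at h1
      · filter_upwards [hev] with y hy
        exact norm_pos_iff.2 (sub_ne_zero.2 (Ne.symm hy))
    have h1 : Tendsto (fun y => ‖ζ + b (pt ζ y)‖ * ‖ζ - b (pt ζ y)‖⁻¹) (𝓝[≠] x) atTop :=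
      hnum.pos_mul_atTop (by norm_num) (tendsto_inv_nhdsGT_zero.comp hden)
    refine h1.congr' ?_
    filter_upwards [hev] with y hy
    have h2 : (ζ + b (pt ζ y)) / (ζ - b (pt ζ y)) = (G y : ℂ) * Complex.I := by
      rw [hspec y hy]
      exact pt_spec hζ (G y)
    have h3 := congrArg norm h2
    rw [norm_div, norm_mul, Complex.norm_I, mul_one, Complex.norm_real, Real.norm_eq_abs] at h3
    rw [← h3, div_eq_mul_inv]

end Pool.Agent.TC
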